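import Pool.Agent.Lib.MP_c44407_an.VOL12

/-!
# Row ANO: the Jacobians of the iterates do not tend to zero everywhere (helper12)
-/

open MeasureTheory Filter

namespace Pool.Agent.Lib.Plu.Vol12

theorem map_iter_add (g : TorusDiffeo) (n : ℕ) (m : Fin 2 → ℤ) :
    ∃ m', ∀ x, g.map^[n] (x + zv m) = g.map^[n] x + zv m' := by
  induction n generalizing m with
  | zero => exact ⟨m, fun x => rfl⟩
  | succ n ih =>
    obtain ⟨m₁, h₁⟩ := g.map_add m
    obtain ⟨m₂, h₂⟩ := ih m₁
    exact ⟨m₂, fun x => by rw [Function.iterate_succ_apply, Function.iterate_succ_apply, h₁, h₂]⟩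

theorem neg_zv (m : Fin 2 → ℤ) : -zv m = zv (-m) := by
  ext i
  simp [zv]

theorem contDiff_iter (f : TorusDiffeo) (n : ℕ) : ContDiff ℝ 1 (f.map^[n]) := by
  induction n with
  | zero => exact contDiff_id
  | succ n ih => rw [Function.iterate_succ]; exact ih.comp f.contDiff_map

theorem ano12 (f : TorusDiffeo) (C c : ℝ) (hc0 : 0 < c) (hc1 : c < 1)
    (h : ∀ x, ∀ n : ℕ, |(fderiv ℝ (f.map^[n]) x).det| ≤ C * c ^ n) : False := by
  have fund := ZSpan.isAddFundamentalDomain' bas (volume : Measure E)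
  set F := ZSpan.fundamentalDomain bas with hF
  have hFm : MeasurableSet F := ZSpan.fundamentalDomain_measurableSet bas
  have hFfin : volume F ≠ ⊤ := (ZSpan.fundamentalDomain_isBounded bas).measure_lt_top.ne
  have hF0 : volume F ≠ 0 := ZSpan.measure_fundamentalDomain_ne_zero bas
  have : Countable (Submodule.span ℤ (Set.range bas)).toAddSubgroup :=
    inferInstanceAs (Countable (Submodule.span ℤ (Set.range bas)))
  have h1 : ∀ n : ℕ, volume F ≤ volume (f.map^[n] '' F) := by
    intro n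
    rw [fund.measure_eq_tsum (f.map^[n] '' F)]
    refine le_trans (measure_mono ?_) (measure_iUnion_le _)
    intro y hy
    obtain ⟨v, hv, -⟩ := ZSpan.exist_unique_vadd_mem_fundamentalDomain bas (f.inv^[n] y)
    obtain ⟨m, hm⟩ := exists_zv (v : E) v.2
    obtain ⟨m', hm'⟩ := map_iter_add f n m
    refine Set.mem_iUnion.2 ⟨⟨-zv m', by rw [neg_zv]; exact zv_mem _⟩, ?_, hy⟩
    refine ⟨f.map^[n] (f.inv^[n] y + zv m), ⟨_, ?_, rfl⟩, ?_⟩
    · rw [← hm, add_comm]; exact hv
    · change -zv m' + f.map^[n] (f.inv^[n] y + zv m) = y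
      rw [hm', map_inv_iter]
      abel
  have h2 : ∀ n : ℕ, volume (f.map^[n] '' F) ≤ ENNReal.ofReal (C * c ^ n) * volume F := by
    intro n
    have hd : ∀ x ∈ F, HasFDerivWithinAt (f.map^[n]) (fderiv ℝ (f.map^[n]) x) F x := fun x _ =>
      ((contDiff_iter f n).differentiable (by norm_num) x).hasFDerivAt.hasFDerivWithinAt
    rw [← lintegral_abs_det_fderiv_eq_addHaar_image volume hFm hd
      (Function.LeftInverse.injective (inv_map_iter f n)).injOn]
    calc ∫⁻ x in F, ENNReal.ofReal |(fderiv ℝ (f.map^[n]) x).det|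
        ≤ ∫⁻ _ in F, ENNReal.ofReal (C * c ^ n) :=
          lintegral_mono fun x => ENNReal.ofReal_le_ofReal (h x n)
      _ = ENNReal.ofReal (C * c ^ n) * volume F := by rw [setLIntegral_const]
  have h3 : ∀ n : ℕ, 1 ≤ C * c ^ n := by
    intro n
    have h4 := (h1 n).trans (h2 n)
    by_contra hlt
    push Not at hlt
    have h5 : ENNReal.ofReal (C * c ^ n) < 1 := by
      rw [← ENNReal.ofReal_one]
      exact (ENNReal.ofReal_lt_ofReal_iff one_pos).2 hlt
    have h6 : ENNReal.ofReal (C * c ^ n) * volume F < 1 * volume F :=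
      ENNReal.mul_lt_mul_left hF0 hFfin h5
    rw [one_mul] at h6
    exact absurd h4 (not_le.2 h6)
  have h4 : Tendsto (fun n : ℕ => C * c ^ n) atTop (nhds (C * 0)) :=
    (tendsto_pow_atTop_nhds_zero_of_lt_one hc0.le hc1).const_mul C
  rw [mul_zero] at h4
  have := ge_of_tendsto' h4 h3
  linarith

end Pool.Agent.Lib.Plu.Vol12
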