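import Mathlib

/-!
# Pluripotent diffeomorphisms of the flat torus (definitions)

The torus is the quotient of the Euclidean plane by the integer vectors; a diffeomorphism of the
torus is given by a lift to the plane.
-/

open MeasureTheory Filter

namespace Pool.Agent.Lib.Plu

/-- the Euclidean plane -/
abbrev E := EuclideanSpace ℝ (Fin 2)

/-- an integer vector -/
noncomputable def zv (m : Fin 2 → ℤ) : E := WithLp.toLp 2 (fun i => (m i : ℝ))

/-- A diffeomorphism of class `C^1` of the torus, given by a lift to the plane. -/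
structure TorusDiffeo where
  /-- the lift -/
  map : E → E
  /-- the lift of the inverse -/
  inv : E → E
  contDiff_map : ContDiff ℝ 1 map
  contDiff_inv : ContDiff ℝ 1 inv
  left_inv : ∀ x, inv (map x) = x
  right_inv : ∀ x, map (inv x) = x
  map_add : ∀ m, ∃ m', ∀ x, map (x + zv m) = map x + zv m'
  inv_add : ∀ m, ∃ m', ∀ x, inv (x + zv m) = inv x + zv m'

/-- the points of the torus below `x` and `y` have distance at most `δ` -/
def Near (δ : ℝ) (x y : E) : Prop := ∃ m, ‖x - y - zv m‖ ≤ δ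

/-- `g` has distance at most `ε` from `f` in the `C^1` topology -/
def C1Close (ε : ℝ) (f g : TorusDiffeo) : Prop :=
  ∀ x, Near ε (g.map x) (f.map x) ∧ ‖fderiv ℝ g.map x - fderiv ℝ f.map x‖ ≤ ε

/-- the whole orbit of `x'` under `g` stays `δ`-close to the orbit of `x` under `f` -/
def Follows (δ : ℝ) (f g : TorusDiffeo) (x x' : E) : Prop :=
  ∀ n : ℕ, Near δ (g.map^[n] x') (f.map^[n] x) ∧ Near δ (g.inv^[n] x') (f.inv^[n] x)

/-- a 1-Lipschitz function from the torus to `[-1, 1]` -/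
def Test (φ : E → ℝ) : Prop :=
  (∀ x m, φ (x + zv m) = φ x) ∧ LipschitzWith 1 φ ∧ ∀ x, |φ x| ≤ 1

/-- the integral of `φ` with respect to the `n`-th empirical measure of `x` -/
noncomputable def avg (g : TorusDiffeo) (φ : E → ℝ) (n : ℕ) (x : E) : ℝ :=
  (∑ i ∈ Finset.range n, φ (g.map^[i] x)) / n

/-- `d_W` of the `n`-th empirical measures of `x` and `y` tends to `0` -/
def SameStatistics (g : TorusDiffeo) (x y : E) : Prop :=
  ∀ ε > 0, ∃ N : ℕ, ∀ n ≥ N, ∀ φ, Test φ → |avg g φ n y - avg g φ n x| ≤ ε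

/-- `f` is pluripotent for (the set below) `L` -/
def Pluripotent (f : TorusDiffeo) (L : Set E) : Prop :=
  ∀ x ∈ L, ∀ ε > 0, ∃ g, C1Close ε f g ∧ ∃ x', Follows ε f g x x' ∧
    ∃ D : Set E, MeasurableSet D ∧ 0 < volume D ∧ ∀ y ∈ D, SameStatistics g x' y

/-- the continuation of `L` for `h` (for hyperbolic `L` and small `δ`, and `h` close to `f`) -/
def continuation (δ : ℝ) (f h : TorusDiffeo) (L : Set E) : Set E :=
  {x' | ∃ x ∈ L, Follows δ f h x x'}

/-- `f` is `C^1`-robustly pluripotent for `L` -/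
def RobustlyPluripotent (f : TorusDiffeo) (L : Set E) : Prop :=
  ∃ ε > 0, ∃ δ > 0, ∀ h, C1Close ε f h → Pluripotent h (continuation δ f h L)

/-- the logarithm of the Jacobian determinant -/
noncomputable def J (f : TorusDiffeo) (x : E) : ℝ := Real.log |(fderiv ℝ f.map x).det|

/-! ### The rows -/

/-- LIP: approximation by Lipschitz functions -/
def StLip : Prop := ∀ φ : E → ℝ, Continuous φ → (∀ x m, φ (x + zv m) = φ x) → ∀ η > 0,
  ∃ c > 0, ∃ ψ, Test ψ ∧ ∀ x, |φ x - c * ψ x| ≤ η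

/-- CLOSE: the Jacobians are close -/
def StClose : Prop := ∀ (f : TorusDiffeo), ∀ η > 0, ∃ ε > 0, ∀ g, C1Close ε f g →
  ∀ x y, Near ε y x → |J g y - J f x| ≤ η

/-- PERT: perturbation at a periodic point -/
def StPert : Prop := ∀ (f : TorusDiffeo) (p : E) (k : ℕ), 1 ≤ k → (∃ m, f.map^[k] p = p + zv m) →
  1 ≤ |(fderiv ℝ (f.map^[k]) p).det| → ∀ ε > 0, ∃ h : TorusDiffeo, C1Close ε f h ∧
    (∀ n : ℕ, h.map^[n] p = f.map^[n] p ∧ h.inv^[n] p = f.inv^[n] p) ∧
    1 < |(fderiv ℝ (h.map^[k]) p).det|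

/-- VOL: the area of the images of a set in the torus stays bounded -/
def StVol : Prop := ∀ (g : TorusDiffeo) (D : Set E), MeasurableSet D → 0 < volume D →
  ∃ D' ⊆ D, MeasurableSet D' ∧ 0 < volume D' ∧ ∃ C : ℝ, ∀ D'' ⊆ D', MeasurableSet D'' →
    ∀ n : ℕ, volume (g.map^[n] '' D'') ≤ ENNReal.ofReal C

/-- FINAL -/
def StFinal : Prop := ∀ (f : TorusDiffeo) (L : Set E), RobustlyPluripotent f L →
  (∀ x ∈ L, ∀ a > 0, ∀ᶠ n : ℕ in atTop, Real.log |(fderiv ℝ (f.map^[n]) x).det| ≤ a * n) ∧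
  ∀ p ∈ L, ∀ k : ℕ, 1 ≤ k → (∃ m, f.map^[k] p = p + zv m) →
    |(fderiv ℝ (f.map^[k]) p).det| < 1

end Pool.Agent.Lib.Plu
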