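import Mathlib
import Pool.Agent.Lib.MP_c44407_an.Defs10

/-! Row VOL (helper82): the area of the images of a small set in the torus stays bounded. -/

open MeasureTheory Filter Set
open scoped Pointwise

namespace Pool.Agent.Lib.Plu
namespace V82

/-- the standard basis of the plane -/
noncomputable def bb : Module.Basis (Fin 2) ℝ E := (EuclideanSpace.basisFun (Fin 2) ℝ).toBasis

/-- the lattice of the integer vectors -/
noncomputable abbrev LL : AddSubgroup E := (Submodule.span ℤ (Set.range bb)).toAddSubgroup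

theorem zv_eq (m : Fin 2 → ℤ) : zv m = ∑ i, m i • bb i := by
  ext j
  fin_cases j <;> simp [zv, bb, Fin.sum_univ_two]

theorem mem_LL (x : E) : x ∈ LL ↔ ∃ m, x = zv m := by
  change x ∈ Submodule.span ℤ (Set.range bb) ↔ _
  rw [Submodule.mem_span_range_iff_exists_fun]
  constructor
  · rintro ⟨c, hc⟩
    exact ⟨c, by rw [zv_eq, hc]⟩
  · rintro ⟨m, hm⟩
    exact ⟨m, by rw [hm, zv_eq]⟩

theorem inv_iter (g : TorusDiffeo) (n : ℕ) :
    ∀ m, ∃ m', ∀ x, g.inv^[n] (x + zv m) = g.inv^[n] x + zv m' := by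
  induction n with
  | zero => exact fun m => ⟨m, fun x => rfl⟩
  | succ n ih =>
    intro m
    obtain ⟨m1, h1⟩ := g.inv_add m
    obtain ⟨m2, h2⟩ := ih m1
    exact ⟨m2, fun x => by rw [Function.iterate_succ_apply, h1, h2, Function.iterate_succ_apply]⟩

theorem left_iter (g : TorusDiffeo) (n : ℕ) (x : E) : g.inv^[n] (g.map^[n] x) = x :=
  (Function.LeftInverse.iterate (g := g.inv) (f := g.map) g.left_inv n) x

theorem right_iter (g : TorusDiffeo) (n : ℕ) (x : E) : g.map^[n] (g.inv^[n] x) = x :=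
  (Function.LeftInverse.iterate (g := g.map) (f := g.inv) g.right_inv n) x

theorem image_eq (g : TorusDiffeo) (n : ℕ) (s : Set E) :
    g.map^[n] '' s = g.inv^[n] ⁻¹' s :=
  congrFun (Set.image_eq_preimage_of_inverse (left_iter g n) (right_iter g n)) s

theorem meas_image (g : TorusDiffeo) (n : ℕ) {s : Set E} (hs : MeasurableSet s) :
    MeasurableSet (g.map^[n] '' s) := by
  rw [image_eq]
  exact (g.contDiff_inv.continuous.iterate n).measurable hs

instance : Countable LL := inferInstanceAs (Countable (Submodule.span ℤ (Set.range bb)))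

theorem vol_F : volume (ZSpan.fundamentalDomain bb) < ⊤ :=
  (ZSpan.fundamentalDomain_isBounded bb).measure_lt_top

/-- a set with no two points differing by a nonzero integer vector -/
theorem vol_le (s : Set E) (hs : MeasurableSet s)
    (h : ∀ a ∈ s, ∀ b ∈ s, ∀ m, a = b + zv m → a = b) :
    volume s ≤ volume (ZSpan.fundamentalDomain bb) := by
  by_contra hlt
  rw [not_le] at hlt
  obtain ⟨x, y, hxy, hd⟩ := exists_pair_mem_lattice_not_disjoint_vadd
    (ZSpan.isAddFundamentalDomain' bb volume) hs.nullMeasurableSet hlt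
  rw [Set.not_disjoint_iff] at hd
  obtain ⟨z, hz1, hz2⟩ := hd
  rw [Set.mem_vadd_set] at hz1 hz2
  obtain ⟨a, ha, ha'⟩ := hz1
  obtain ⟨b, hb, hb'⟩ := hz2
  have h1 : (x : E) + a = z := ha'
  have h2 : (y : E) + b = z := hb'
  have h3 : ((y - x : LL) : E) ∈ LL := (y - x).2
  obtain ⟨m, hm⟩ := (mem_LL _).1 h3
  have h4 : a = b + zv m := by
    rw [← hm]
    push_cast
    have : a = z - x := by rw [← h1]; abel
    rw [this, ← h2]; abel
  have h5 := h a ha b hb m h4
  apply hxy
  apply Subtype.ext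
  have : (x : E) = z - a := by rw [← h1]; abel
  rw [this, h5, ← h2]; abel

theorem rowVOL82 : StVol := by
  intro g D hD hpos
  -- a cell with a part of D of positive area
  have hex : ∃ c : LL, 0 < volume (D ∩ {y | y - (c : E) ∈ ZSpan.fundamentalDomain bb}) := by
    by_contra hno
    push Not at hno
    have hcov : D ⊆ ⋃ c : LL, (D ∩ {y | y - (c : E) ∈ ZSpan.fundamentalDomain bb}) := by
      intro y hy
      rw [Set.mem_iUnion]
      refine ⟨⟨(ZSpan.floor bb y : E), (ZSpan.floor bb y).2⟩, hy, ?_⟩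
      exact ZSpan.fract_mem_fundamentalDomain bb y
    have h0 : volume (⋃ c : LL, (D ∩ {y | y - (c : E) ∈ ZSpan.fundamentalDomain bb})) = 0 :=
      measure_iUnion_null fun c => le_antisymm (hno c) zero_le
    exact absurd (measure_mono_null hcov h0) hpos.ne'
  obtain ⟨c, hc⟩ := hex
  refine ⟨_, Set.inter_subset_left, hD.inter ?_, hc, (volume (ZSpan.fundamentalDomain bb)).toReal,
    ?_⟩
  · exact (measurable_id.sub_const _) (ZSpan.fundamentalDomain_measurableSet bb)
  · intro D'' hsub hm n
    rw [ENNReal.ofReal_toReal vol_F.ne]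
    refine vol_le _ (meas_image g n hm) ?_
    rintro _ ⟨a, ha, rfl⟩ _ ⟨b, hb, rfl⟩ m hab
    obtain ⟨m', hm'⟩ := inv_iter g n m
    have h1 : a = b + zv m' := by
      have h2 := congrArg (g.inv^[n]) hab
      rwa [left_iter, hm', left_iter] at h2
    have h3 : (a - c : E) ∈ ZSpan.fundamentalDomain bb := (hsub ha).2
    have h4 : (b - c : E) ∈ ZSpan.fundamentalDomain bb := (hsub hb).2
    have h5 : ZSpan.fract bb (a - c) = ZSpan.fract bb (b - c) := by
      rw [ZSpan.fract_eq_fract]
      change -(a - (c : E)) + (b - c) ∈ LL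
      have h6 : -(a - (c : E)) + (b - c) = -(zv m') := by rw [h1]; abel
      rw [h6]
      exact neg_mem ((mem_LL _).2 ⟨m', rfl⟩)
    rw [ZSpan.fract_eq_self.2 h3, ZSpan.fract_eq_self.2 h4] at h5
    have h7 : a = b := sub_left_injective h5
    rw [h7]

end V82
end Pool.Agent.Lib.Plu
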