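import Mathlib
import Pool.Agent.Lib.MP_c44407_an.Defs10
import Pool.Agent.Lib.MP_c44407_an.VOL82

/-! Row ANO (helper82): no diffeomorphism of the torus contracts the area uniformly everywhere. -/

open MeasureTheory Filter Set
open scoped Pointwise

namespace Pool.Agent.Lib.Plu
namespace V82

theorem map_iter (g : TorusDiffeo) (n : ℕ) :
    ∀ m, ∃ m', ∀ x, g.map^[n] (x + zv m) = g.map^[n] x + zv m' := by
  induction n with
  | zero => exact fun m => ⟨m, fun x => rfl⟩
  | succ n ih =>
    intro m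
    obtain ⟨m1, h1⟩ := g.map_add m
    obtain ⟨m2, h2⟩ := ih m1
    exact ⟨m2, fun x => by rw [Function.iterate_succ_apply, h1, h2, Function.iterate_succ_apply]⟩

theorem contDiff_iter (g : TorusDiffeo) (n : ℕ) : ContDiff ℝ 1 (g.map^[n]) := by
  induction n with
  | zero => exact contDiff_id
  | succ n ih => exact ih.comp g.contDiff_map

/-- the image of the fundamental domain has at least the area of the fundamental domain -/
theorem vol_F_le (g : TorusDiffeo) (n : ℕ) :
    volume (ZSpan.fundamentalDomain bb) ≤ volume (g.map^[n] '' ZSpan.fundamentalDomain bb) := by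
  have hF := ZSpan.isAddFundamentalDomain' bb volume
  rw [hF.measure_eq_tsum (g.map^[n] '' ZSpan.fundamentalDomain bb)]
  refine le_trans (measure_mono ?_) (measure_iUnion_le _)
  intro y hy
  rw [Set.mem_iUnion]
  set x := g.inv^[n] y with hx
  have hmem := ZSpan.fract_mem_fundamentalDomain bb x
  obtain ⟨m, hm⟩ := (mem_LL _).1 (ZSpan.floor bb x).2
  have hx2 : x = ZSpan.fract bb x + zv m := by
    rw [← hm, ZSpan.fract_apply]; abel
  obtain ⟨m', hm'⟩ := map_iter g n m
  have hy2 : y = g.map^[n] (ZSpan.fract bb x) + zv m' := by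
    rw [← hm', ← hx2, hx, right_iter]
  refine ⟨⟨zv m', (mem_LL _).2 ⟨m', rfl⟩⟩, ?_, hy⟩
  rw [Set.mem_vadd_set]
  refine ⟨g.map^[n] (ZSpan.fract bb x), ⟨_, hmem, rfl⟩, ?_⟩
  change zv m' + g.map^[n] (ZSpan.fract bb x) = y
  rw [hy2]; abel

theorem ano82 (f : TorusDiffeo) (C c : ℝ) (hc0 : 0 < c) (hc1 : c < 1)
    (h : ∀ x, ∀ n : ℕ, |(fderiv ℝ (f.map^[n]) x).det| ≤ C * c ^ n) : False := by
  have hpos : 0 < volume (ZSpan.fundamentalDomain bb) :=
    pos_iff_ne_zero.2 (ZSpan.measure_fundamentalDomain_ne_zero bb)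
  have hle : ∀ n : ℕ, volume (ZSpan.fundamentalDomain bb) ≤
      ENNReal.ofReal (C * c ^ n) * volume (ZSpan.fundamentalDomain bb) := by
    intro n
    refine (vol_F_le f n).trans ?_
    have hd : ∀ x ∈ ZSpan.fundamentalDomain bb, HasFDerivWithinAt (f.map^[n])
        (fderiv ℝ (f.map^[n]) x) (ZSpan.fundamentalDomain bb) x := fun x _ =>
      (((contDiff_iter f n).differentiable one_ne_zero) x).hasFDerivAt.hasFDerivWithinAt
    have hinj : Set.InjOn (f.map^[n]) (ZSpan.fundamentalDomain bb) :=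
      (Function.LeftInverse.injective (left_iter f n)).injOn
    rw [← lintegral_abs_det_fderiv_eq_addHaar_image volume
      (ZSpan.fundamentalDomain_measurableSet bb) hd hinj]
    calc ∫⁻ x in ZSpan.fundamentalDomain bb, ENNReal.ofReal |(fderiv ℝ (f.map^[n]) x).det|
        ≤ ∫⁻ _ in ZSpan.fundamentalDomain bb, ENNReal.ofReal (C * c ^ n) :=
          lintegral_mono fun x => ENNReal.ofReal_le_ofReal (h x n)
      _ = ENNReal.ofReal (C * c ^ n) * volume (ZSpan.fundamentalDomain bb) := by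
          rw [setLIntegral_const]
  have ht : Tendsto (fun n : ℕ => C * c ^ n) atTop (nhds 0) := by
    simpa using (tendsto_pow_atTop_nhds_zero_of_lt_one hc0.le hc1).const_mul C
  obtain ⟨n, hn⟩ := (ht.eventually (gt_mem_nhds (show (0 : ℝ) < 1 / 2 by norm_num))).exists
  have h1 := hle n
  have h2 : ENNReal.ofReal (C * c ^ n) ≤ ENNReal.ofReal (1 / 2) := ENNReal.ofReal_le_ofReal hn.le
  have h3 : volume (ZSpan.fundamentalDomain bb) ≤
      ENNReal.ofReal (1 / 2) * volume (ZSpan.fundamentalDomain bb) :=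
    h1.trans (by gcongr)
  have h4 := ENNReal.toReal_mono (ENNReal.mul_ne_top ENNReal.ofReal_ne_top vol_F.ne) h3
  rw [ENNReal.toReal_mul, ENNReal.toReal_ofReal (by norm_num)] at h4
  have h5 := ENNReal.toReal_pos hpos.ne' vol_F.ne
  linarith

end V82
end Pool.Agent.Lib.Plu
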