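import Mathlib
import Pool.Agent.Lib.MP_c44407_an.Defs10

open MeasureTheory Filter

namespace Pool.Agent.Lib.Plu

lemma clm_det_comp (A B : E →L[ℝ] E) : (A.comp B).det = A.det * B.det :=
  LinearMap.det_comp (A : E →ₗ[ℝ] E) (B : E →ₗ[ℝ] E)

namespace TorusDiffeo

variable (f : TorusDiffeo)

lemma diff (x : E) : DifferentiableAt ℝ f.map x :=
  (f.contDiff_map.differentiable (by norm_num)) x

lemma diff_inv (x : E) : DifferentiableAt ℝ f.inv x :=
  (f.contDiff_inv.differentiable (by norm_num)) x

lemma diff_iter (n : ℕ) : Differentiable ℝ (f.map^[n]) := by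
  induction n with
  | zero => simpa using differentiable_id
  | succ n ih =>
    rw [Function.iterate_succ']
    exact (fun x => (f.diff _).comp x (ih x))

lemma det_ne (x : E) : (fderiv ℝ f.map x).det ≠ 0 := by
  have h1 : (fderiv ℝ f.inv (f.map x)).comp (fderiv ℝ f.map x) = ContinuousLinearMap.id ℝ E := by
    have h2 := fderiv_comp x (f.diff_inv (f.map x)) (f.diff x)
    have h3 : f.inv ∘ f.map = id := by
      funext y; exact f.left_inv y
    rw [h3] at h2
    rw [← h2]
    exact fderiv_id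
  intro h0
  have h4 : ((fderiv ℝ f.inv (f.map x)).comp (fderiv ℝ f.map x)).det
      = (fderiv ℝ f.inv (f.map x)).det * (fderiv ℝ f.map x).det := clm_det_comp _ _
  rw [h1, h0, mul_zero] at h4
  simp [ContinuousLinearMap.det] at h4

lemma chain (n : ℕ) (x : E) : (fderiv ℝ (f.map^[n]) x).det
    = ∏ i ∈ Finset.range n, (fderiv ℝ f.map (f.map^[i] x)).det := by
  induction n with
  | zero =>
    simp [ContinuousLinearMap.det]
  | succ n ih =>
    rw [Finset.prod_range_succ, ← ih, Function.iterate_succ',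
      fderiv_comp x (f.diff _) (f.diff_iter n x), clm_det_comp, mul_comm]

lemma log_det (n : ℕ) (x : E) : Real.log |(fderiv ℝ (f.map^[n]) x).det|
    = ∑ i ∈ Finset.range n, J f (f.map^[i] x) := by
  rw [f.chain, Finset.abs_prod, Real.log_prod]
  · rfl
  · intro i _
    exact abs_ne_zero.mpr (f.det_ne _)

lemma log_det_avg (n : ℕ) (x : E) : Real.log |(fderiv ℝ (f.map^[n]) x).det|
    = n * avg f (J f) n x := by
  rw [f.log_det, avg]
  rcases Nat.eq_zero_or_pos n with h | h
  · subst h; simp
  · have : (n : ℝ) ≠ 0 := by positivity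
    field_simp

lemma det_iter_ne (n : ℕ) (x : E) : (fderiv ℝ (f.map^[n]) x).det ≠ 0 := by
  rw [f.chain]
  exact Finset.prod_ne_zero_iff.mpr (fun i _ => f.det_ne _)

lemma cont_det : Continuous (fun x => (fderiv ℝ f.map x).det) :=
  ContinuousLinearMap.continuous_det.comp (f.contDiff_map.continuous_fderiv (by norm_num))

lemma cont_J : Continuous (J f) := by
  unfold J
  refine Continuous.log (f.cont_det.abs) ?_
  intro x
  exact abs_ne_zero.mpr (f.det_ne x)

lemma fderiv_add (x : E) (m : Fin 2 → ℤ) : fderiv ℝ f.map (x + zv m) = fderiv ℝ f.map x := by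
  obtain ⟨m', hm'⟩ := f.map_add m
  have h1 : fderiv ℝ (fun y => f.map (y + zv m)) x = fderiv ℝ f.map (x + zv m) :=
    fderiv_comp_add_right (zv m)
  have h2 : (fun y => f.map (y + zv m)) = fun y => f.map y + zv m' := by
    funext y; exact hm' y
  rw [← h1, h2]
  exact fderiv_add_const (zv m')

lemma J_add (x : E) (m : Fin 2 → ℤ) : J f (x + zv m) = J f x := by
  unfold J; rw [f.fderiv_add]

lemma iter_add (n : ℕ) (m : Fin 2 → ℤ) : ∃ m', ∀ x, f.map^[n] (x + zv m) = f.map^[n] x + zv m' := by
  induction n with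
  | zero => exact ⟨m, fun x => rfl⟩
  | succ n ih =>
    obtain ⟨m', hm'⟩ := ih
    obtain ⟨m'', hm''⟩ := f.map_add m'
    refine ⟨m'', fun x => ?_⟩
    rw [Function.iterate_succ_apply', Function.iterate_succ_apply', hm', hm'']

lemma cont_iter (n : ℕ) : Continuous (f.map^[n]) := (f.diff_iter n).continuous

lemma inj : Function.Injective f.map := fun x y h => by
  have := congrArg f.inv h
  rwa [f.left_inv, f.left_inv] at this

lemma inj_iter (n : ℕ) : Function.Injective (f.map^[n]) := f.inj.iterate n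

end TorusDiffeo

lemma avg_cont (g : TorusDiffeo) (φ : E → ℝ) (hφ : Continuous φ) (n : ℕ) :
    Continuous (avg g φ n) := by
  unfold avg
  refine Continuous.div_const ?_ _
  exact continuous_finsetSum _ (fun i _ => hφ.comp (g.cont_iter i))

lemma near_refl {δ : ℝ} (hδ : 0 < δ) (x : E) : Near δ x x := by
  refine ⟨0, ?_⟩
  have : zv 0 = 0 := by
    ext i; simp [zv]
  rw [this]; simp [hδ.le]

/-- averages of two uniformly close functions -/
lemma avg_close (g : TorusDiffeo) (φ ψ : E → ℝ) (c η : ℝ) (hη : 0 ≤ η)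
    (h : ∀ x, |φ x - c * ψ x| ≤ η) (n : ℕ) (x : E) :
    |avg g φ n x - c * avg g ψ n x| ≤ η := by
  unfold avg
  rcases Nat.eq_zero_or_pos n with hn | hn
  · subst hn; simpa using hη
  · have hn' : (0 : ℝ) < n := by exact_mod_cast hn
    have : (∑ i ∈ Finset.range n, φ (g.map^[i] x)) / n - c * ((∑ i ∈ Finset.range n, ψ (g.map^[i] x)) / n)
        = (∑ i ∈ Finset.range n, (φ (g.map^[i] x) - c * ψ (g.map^[i] x))) / n := by
      rw [Finset.sum_sub_distrib, ← Finset.mul_sum]
      field_simp
    rw [this, abs_div, abs_of_pos hn', div_le_iff₀ hn']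
    calc |∑ i ∈ Finset.range n, (φ (g.map^[i] x) - c * ψ (g.map^[i] x))|
        ≤ ∑ i ∈ Finset.range n, |φ (g.map^[i] x) - c * ψ (g.map^[i] x)| :=
          Finset.abs_sum_le_sum_abs _ _
      _ ≤ ∑ i ∈ Finset.range n, η := Finset.sum_le_sum (fun i _ => h _)
      _ = η * n := by simp; ring

lemma growth (hLip : StLip) (hVol : StVol) (g : TorusDiffeo) (x' : E) (D : Set E)
    (hDm : MeasurableSet D) (hDp : 0 < volume D) (hD : ∀ y ∈ D, SameStatistics g x' y)
    (a : ℝ) (ha : 0 < a) :
    ∀ᶠ n : ℕ in atTop, Real.log |(fderiv ℝ (g.map^[n]) x').det| ≤ a * n := by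
  by_contra hcon
  rw [not_eventually] at hcon
  obtain ⟨c, hc, ψ, hψ, hclose⟩ := hLip (J g) g.cont_J (fun x m => g.J_add x m) (a / 8) (by positivity)
  obtain ⟨D', hD'D, hD'm, hD'p, C, hC⟩ := hVol g D hDm hDp
  -- the averages are close
  have key : ∀ y ∈ D', ∃ N : ℕ, ∀ n ≥ N, |avg g (J g) n y - avg g (J g) n x'| ≤ 3 * a / 8 := by
    intro y hy
    obtain ⟨N, hN⟩ := hD y (hD'D hy) (a / (8 * c)) (by positivity)
    refine ⟨N, fun n hn => ?_⟩
    have h1 := hN n hn ψ hψ
    have h2 := avg_close g (J g) ψ c (a / 8) (by positivity) hclose n y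
    have h3 := avg_close g (J g) ψ c (a / 8) (by positivity) hclose n x'
    have h4 : |c * avg g ψ n y - c * avg g ψ n x'| ≤ a / 8 := by
      rw [← mul_sub, abs_mul, abs_of_pos hc]
      calc c * |avg g ψ n y - avg g ψ n x'| ≤ c * (a / (8 * c)) :=
            mul_le_mul_of_nonneg_left h1 hc.le
        _ = a / 8 := by field_simp
    rw [abs_le] at h2 h3 h4 ⊢
    constructor <;> linarith [h2.1, h2.2, h3.1, h3.2, h4.1, h4.2]
  let S : ℕ → Set E := fun N => D' ∩ {y | ∀ n ≥ N, |avg g (J g) n y - avg g (J g) n x'| ≤ 3 * a / 8}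
  have hSm : ∀ N, MeasurableSet (S N) := by
    intro N
    refine hD'm.inter ?_
    have : {y : E | ∀ n ≥ N, |avg g (J g) n y - avg g (J g) n x'| ≤ 3 * a / 8}
        = ⋂ n : ℕ, ⋂ (_ : n ≥ N), {y : E | |avg g (J g) n y - avg g (J g) n x'| ≤ 3 * a / 8} := by
      ext y; simp
    rw [this]
    refine (isClosed_iInter fun n => isClosed_iInter fun _ => ?_).measurableSet
    exact isClosed_le (((avg_cont g (J g) g.cont_J n).sub continuous_const).abs) continuous_const
  have hU : D' ⊆ ⋃ N, S N := by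
    intro y hy
    obtain ⟨N, hN⟩ := key y hy
    exact Set.mem_iUnion.mpr ⟨N, hy, hN⟩
  have hpos : ∃ N, 0 < volume (S N) := by
    by_contra hno
    push Not at hno
    have : volume (⋃ N, S N) = 0 := measure_iUnion_null (fun N => nonpos_iff_eq_zero.mp (hno N))
    exact absurd (measure_mono_null hU this) hD'p.ne'
  obtain ⟨N, hNp⟩ := hpos
  obtain ⟨v, hv0, hv⟩ : ∃ v : ℝ, 0 < v ∧ ENNReal.ofReal v ≤ volume (S N) := by
    by_cases htop : volume (S N) = ⊤
    · exact ⟨1, one_pos, by rw [htop]; exact le_top⟩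
    · exact ⟨(volume (S N)).toReal, ENNReal.toReal_pos hNp.ne' htop, by rw [ENNReal.ofReal_toReal htop]⟩
  -- large n
  have hlarge : ∀ᶠ n : ℕ in atTop, max C 0 < Real.exp (a / 2 * n) * v := by
    have h1 : Tendsto (fun n : ℕ => Real.exp (a / 2 * n) * v) atTop atTop := by
      refine Tendsto.atTop_mul_const hv0 ?_
      refine Real.tendsto_exp_atTop.comp ?_
      exact Tendsto.const_mul_atTop (by positivity) tendsto_natCast_atTop_atTop
    exact h1.eventually_gt_atTop _
  obtain ⟨n, hn1, hn2, hn3⟩ := (hcon.and_eventually (hlarge.and (eventually_ge_atTop (max N 1)))).exists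
  have hnN : N ≤ n := (le_max_left _ _).trans hn3
  have hn0 : (0 : ℝ) < n := by exact_mod_cast (le_max_right N 1).trans hn3
  have hx : a < avg g (J g) n x' := by
    rw [g.log_det_avg, not_le] at hn1
    have : (n : ℝ) * a < n * avg g (J g) n x' := by linarith
    exact lt_of_mul_lt_mul_left this hn0.le
  have hdet : ∀ y ∈ S N, Real.exp (a / 2 * n) ≤ |(fderiv ℝ (g.map^[n]) y).det| := by
    intro y hy
    have h1 := hy.2 n hnN
    rw [abs_le] at h1
    have h2 : a / 2 * n ≤ Real.log |(fderiv ℝ (g.map^[n]) y).det| := by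
      rw [g.log_det_avg]
      have : a / 2 ≤ avg g (J g) n y := by linarith [h1.1]
      nlinarith
    calc Real.exp (a / 2 * n) ≤ Real.exp (Real.log |(fderiv ℝ (g.map^[n]) y).det|) :=
          Real.exp_le_exp.mpr h2
      _ = _ := Real.exp_log (abs_pos.mpr (g.det_iter_ne n y))
  have hcv := lintegral_abs_det_fderiv_eq_addHaar_image volume (hSm N)
    (fun y _ => ((g.diff_iter n y).hasFDerivAt).hasFDerivWithinAt) ((g.inj_iter n).injOn)
  have hle := hC (S N) Set.inter_subset_left (hSm N) n
  rw [← hcv] at hle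
  have hge : ENNReal.ofReal (Real.exp (a / 2 * n) * v)
      ≤ ∫⁻ y in S N, ENNReal.ofReal |(fderiv ℝ (g.map^[n]) y).det| := by
    calc ENNReal.ofReal (Real.exp (a / 2 * n) * v)
        = ENNReal.ofReal (Real.exp (a / 2 * n)) * ENNReal.ofReal v :=
          ENNReal.ofReal_mul (Real.exp_pos _).le
      _ ≤ ENNReal.ofReal (Real.exp (a / 2 * n)) * volume (S N) := by gcongr
      _ = ∫⁻ y in S N, ENNReal.ofReal (Real.exp (a / 2 * n)) := by
          rw [setLIntegral_const]
      _ ≤ _ := setLIntegral_mono' (hSm N) (fun y hy => ENNReal.ofReal_le_ofReal (hdet y hy))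
  have hfin := hge.trans hle
  have hfin2 : ENNReal.ofReal C ≤ ENNReal.ofReal (max C 0) := ENNReal.ofReal_le_ofReal (le_max_left _ _)
  have h5 := hfin.trans hfin2
  rw [ENNReal.ofReal_le_ofReal_iff (le_max_right _ _)] at h5
  linarith

lemma pluri (hLip : StLip) (hClose : StClose) (hVol : StVol) (f : TorusDiffeo) (L : Set E)
    (hf : Pluripotent f L) (x : E) (hx : x ∈ L) (a : ℝ) (ha : 0 < a) :
    ∀ᶠ n : ℕ in atTop, Real.log |(fderiv ℝ (f.map^[n]) x).det| ≤ a * n := by
  obtain ⟨ε, hε, hcl⟩ := hClose f (a / 2) (by positivity)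
  obtain ⟨g, hg, x', hx', D, hDm, hDp, hD⟩ := hf x hx ε hε
  have h1 := growth hLip hVol g x' D hDm hDp hD (a / 2) (by positivity)
  filter_upwards [h1] with n hn
  have h2 : Real.log |(fderiv ℝ (f.map^[n]) x).det|
      ≤ Real.log |(fderiv ℝ (g.map^[n]) x').det| + a / 2 * n := by
    rw [f.log_det, g.log_det]
    have : ∀ i ∈ Finset.range n, J f (f.map^[i] x) ≤ J g (g.map^[i] x') + a / 2 := by
      intro i _
      have h3 := hcl g hg (f.map^[i] x) (g.map^[i] x') (hx' i).1
      rw [abs_le] at h3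
      linarith [h3.1]
    calc ∑ i ∈ Finset.range n, J f (f.map^[i] x)
        ≤ ∑ i ∈ Finset.range n, (J g (g.map^[i] x') + a / 2) := Finset.sum_le_sum this
      _ = _ := by
        rw [Finset.sum_add_distrib]; simp; ring
  linarith

theorem final (hLip : StLip) (hClose : StClose) (hPert : StPert) (hVol : StVol) : StFinal := by
  intro f L hf
  obtain ⟨ε, hε, δ, hδ, hrob⟩ := hf
  constructor
  · intro x hx a ha
    have h1 : C1Close ε f f := fun y => ⟨near_refl hε _, by simpa using hε.le⟩
    have h2 : x ∈ continuation δ f f L := ⟨x, hx, fun n => ⟨near_refl hδ _, near_refl hδ _⟩⟩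
    exact pluri hLip hClose hVol f _ (hrob f h1) x h2 a ha
  · intro p hp k hk hper
    by_contra hcon
    rw [not_lt] at hcon
    obtain ⟨h, hclose, horb, hdet⟩ := hPert f p k hk hper hcon ε hε
    have h2 : p ∈ continuation δ f h L := by
      refine ⟨p, hp, fun n => ?_⟩
      rw [(horb n).1, (horb n).2]
      exact ⟨near_refl hδ _, near_refl hδ _⟩
    set b := Real.log |(fderiv ℝ (h.map^[k]) p).det| with hb
    have hb0 : 0 < b := Real.log_pos hdet
    have hk0 : (0 : ℝ) < k := by exact_mod_cast hk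
    have h3 := pluri hLip hClose hVol h _ (hrob h hclose) p h2 (b / (2 * k)) (by positivity)
    obtain ⟨m, hm⟩ := hper
    have hm' : h.map^[k] p = p + zv m := by rw [(horb k).1, hm]
    have hperJ : ∀ i, J h (h.map^[i + k] p) = J h (h.map^[i] p) := by
      intro i
      rw [Function.iterate_add_apply, hm']
      obtain ⟨m', hm''⟩ := h.iter_add i m
      rw [hm'', h.J_add]
    have hsum : ∀ n : ℕ, ∑ i ∈ Finset.range (n * k), J h (h.map^[i] p)
        = n * b := by
      intro n
      induction n with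
      | zero => simp
      | succ n ih =>
        rw [Nat.succ_mul, Finset.sum_range_add, ih]
        have h5 : ∀ j n : ℕ, J h (h.map^[n * k + j] p) = J h (h.map^[j] p) := by
          intro j n
          induction n with
          | zero => simp
          | succ n ih2 =>
            rw [← ih2, ← hperJ (n * k + j)]
            congr 2
            ring_nf
        have h6 : ∑ j ∈ Finset.range k, J h (h.map^[n * k + j] p) = b := by
          rw [hb, h.log_det]
          exact Finset.sum_congr rfl (fun j _ => h5 j n)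
        rw [h6]; push_cast; ring
    obtain ⟨M, hM⟩ := eventually_atTop.mp h3
    have h7 := hM ((M + 1) * k) (by nlinarith)
    rw [h.log_det, hsum] at h7
    push_cast at h7
    have h8 : b / (2 * (k : ℝ)) * (((M : ℝ) + 1) * k) = b * (M + 1) / 2 := by field_simp
    rw [h8] at h7
    have : 0 < ((M : ℝ) + 1) * b := by positivity
    linarith

end Pool.Agent.Lib.Plu
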