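import Mathlib
import Pool.Agent.Lib.MP_c44407_an.Defs10
import Pool.Agent.Lib.MP_c44407_an.Fin10
import Pool.Agent.Lib.MP_c44407_an.VOL82

open MeasureTheory Filter
open scoped Pointwise

namespace Pool.Agent.Lib.Plu

open V82

theorem ano10 (f : TorusDiffeo) (C c : ℝ) (hc0 : 0 < c) (hc1 : c < 1)
    (h : ∀ x, ∀ n : ℕ, |(fderiv ℝ (f.map^[n]) x).det| ≤ C * c ^ n) : False := by
  have hFd := ZSpan.isAddFundamentalDomain' bb (volume : Measure E)
  have hF0 : volume (ZSpan.fundamentalDomain bb) ≠ 0 := ZSpan.measure_fundamentalDomain_ne_zero bb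
  have hFt : volume (ZSpan.fundamentalDomain bb) ≠ ⊤ := vol_F.ne
  have hFm : MeasurableSet (ZSpan.fundamentalDomain bb) := ZSpan.fundamentalDomain_measurableSet bb
  -- the images of the cell cover the torus
  have hcov : ∀ n : ℕ, volume (ZSpan.fundamentalDomain bb)
      ≤ volume (f.map^[n] '' (ZSpan.fundamentalDomain bb)) := by
    intro n
    rw [hFd.measure_eq_tsum (f.map^[n] '' (ZSpan.fundamentalDomain bb))]
    refine le_trans (measure_mono ?_) (measure_iUnion_le _)
    intro x hx
    rw [Set.mem_iUnion]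
    -- the point f^{-n} x in the cell up to a lattice vector
    set z := f.inv^[n] x with hz
    have h1 : ZSpan.fract bb z ∈ ZSpan.fundamentalDomain bb := ZSpan.fract_mem_fundamentalDomain bb z
    have h2 : z - ZSpan.fract bb z ∈ LL := by
      have : z - ZSpan.fract bb z = (ZSpan.floor bb z : E) := by
        rw [ZSpan.fract_apply]; abel
      rw [this]
      exact (ZSpan.floor bb z).2
    obtain ⟨m, hm⟩ := (mem_LL _).1 h2
    obtain ⟨m', hm'⟩ := f.iter_add n m
    have h3 : x = f.map^[n] (ZSpan.fract bb z) + zv m' := by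
      rw [← hm' (ZSpan.fract bb z), ← hm]
      rw [add_sub_cancel, hz, right_iter]
    refine ⟨⟨zv m', (mem_LL _).2 ⟨m', rfl⟩⟩, ?_, hx⟩
    rw [Set.mem_vadd_set]
    refine ⟨f.map^[n] (ZSpan.fract bb z), ⟨_, h1, rfl⟩, ?_⟩
    change zv m' + _ = x
    rw [h3, add_comm]
  have hb : ∀ n : ℕ, volume (ZSpan.fundamentalDomain bb)
      ≤ ENNReal.ofReal (C * c ^ n) * volume (ZSpan.fundamentalDomain bb) := by
    intro n
    refine (hcov n).trans ?_
    rw [← lintegral_abs_det_fderiv_eq_addHaar_image volume hFm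
      (fun y _ => ((f.diff_iter n y).hasFDerivAt).hasFDerivWithinAt) ((f.inj_iter n).injOn),
      ← setLIntegral_const]
    exact setLIntegral_mono' hFm (fun y _ => ENNReal.ofReal_le_ofReal (h y n))
  have hlim : Tendsto (fun n : ℕ => C * c ^ n) atTop (nhds 0) := by
    simpa using (tendsto_pow_atTop_nhds_zero_of_lt_one hc0.le hc1).const_mul C
  obtain ⟨n, hn⟩ := (hlim.eventually (gt_mem_nhds one_half_pos)).exists
  have h4 := hb n
  have h5 : ENNReal.ofReal (C * c ^ n) * volume (ZSpan.fundamentalDomain bb)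
      ≤ ENNReal.ofReal (1 / 2) * volume (ZSpan.fundamentalDomain bb) := by
    gcongr
  have h6 := h4.trans h5
  have h7 : ENNReal.ofReal (1 / 2) * volume (ZSpan.fundamentalDomain bb)
      < 1 * volume (ZSpan.fundamentalDomain bb) := by
    rw [ENNReal.mul_lt_mul_iff_left hF0 hFt]
    rw [← ENNReal.ofReal_one]
    exact (ENNReal.ofReal_lt_ofReal_iff one_pos).mpr (by norm_num)
  rw [one_mul] at h7
  exact absurd h6 (not_le.mpr h7)

end Pool.Agent.Lib.Plu
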