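import Pool.Agent.Lib.MP_c44407_an.Cone10

set_option autoImplicit false

open MeasureTheory Filter

namespace Pool.Agent.Lib.Plu

/-- `f` is strongly pluripotent for (the set below) `L`; `δ i` is a bound for
`sup_{y ∈ D} dist (g^i y, g^i x')` -/
def StronglyPluripotent (f : TorusDiffeo) (L : Set E) : Prop :=
  ∀ x ∈ L, ∀ ε > 0, ∃ g, C1Close ε f g ∧ ∃ x', Follows ε f g x x' ∧
    ∃ D : Set E, MeasurableSet D ∧ 0 < volume D ∧ ∃ δ : ℕ → ℝ,
      (∀ i, ∀ y ∈ D, Near (δ i) (g.map^[i] y) (g.map^[i] x')) ∧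
      Tendsto (fun n : ℕ => (∑ i ∈ Finset.range n, δ i) / n) atTop (nhds 0)

/-- the number of the times `i < n` at which the `g`-orbit of `z` is not `r`-close to the moving
target `p i` -/
noncomputable def outsM (g : TorusDiffeo) (p : ℕ → E) (r : ℝ) (n : ℕ) (z : E) : ℕ :=
  ∑ i ∈ Finset.range n, Set.indicator {w | ¬ Near r w (p i)} (fun _ => 1) (g.map^[i] z)

/-- CM: the curve lemma with a moving target -/
def StCM : Prop := ∀ (a b : E →L[ℝ] ℝ), (∀ v, a v = 0 → b v = 0 → v = 0) → ∀ l M : ℝ, 1 < l →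
  1 < M → ∃ r > 0, ∃ q > 0, q < 1 ∧ ∃ κ > 0, κ < 1 ∧ ∃ K v, ∀ g, ConeMap a b l M g →
    ∀ (p : ℕ → E) (y : E), ∀ n : ℕ,
    ∫⁻ t in Set.Icc (0 : ℝ) 1, ENNReal.ofReal (q ^ outsM g p r n (y + t • v))
      ≤ ENNReal.ofReal (K * κ ^ n)

/-- STRONG: maps with an expanding cone are strongly pluripotent for no nonempty set -/
def StStrong : Prop := ∀ (f : TorusDiffeo) (a b : E →L[ℝ] ℝ) (L : Set E), ExpandingCone f a b →
  L.Nonempty → ¬ StronglyPluripotent f L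

end Pool.Agent.Lib.Plu
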