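import Mathlib
import Pool.Agent.Lib.MP_c44407_an.Defs10

/-! Expanding cone fields over a trapping region: no pluripotency at periodic points. -/

open MeasureTheory Filter

namespace Pool.Agent.Lib.Plu

namespace Var

/-- `|a_x v|` depends uniformly continuously on the point `x` of (the set below) `U` -/
def UC (U : Set E) (a : E → E →L[ℝ] ℝ) : Prop :=
  ∀ η > 0, ∃ δ > 0, ∀ x ∈ U, ∀ y ∈ U, Near δ x y → ∀ v, |a x v| ≤ |a y v| + η * ‖v‖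

/-- the cones `|b_x v| ≤ |a_x v|` over `U` are mapped by `f` strictly into each other, and `f`
expands `a` in the cones -/
def ExpandingField (f : TorusDiffeo) (U : Set E) (a b : E → E →L[ℝ] ℝ) : Prop :=
  UC U a ∧ UC U b ∧ (∃ C, ∀ x ∈ U, ‖a x‖ ≤ C ∧ ‖b x‖ ≤ C) ∧
  (∃ c, ∀ x ∈ U, ∀ v, |b x v| ≤ |a x v| → ‖v‖ ≤ c * |a x v|) ∧
  (∀ x ∈ U, ∃ v, a x v = 1 ∧ b x v = 0) ∧
  ∃ l κ : ℝ, 1 < l ∧ κ < 1 ∧ ∀ x ∈ U, ∀ v, |b x v| ≤ |a x v| →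
    |b (f.map x) (fderiv ℝ f.map x v)| ≤ κ * |a (f.map x) (fderiv ℝ f.map x v)| ∧
    l * |a x v| ≤ |a (f.map x) (fderiv ℝ f.map x v)|

/-- a neighbourhood of the image of `U` is contained in `U` -/
def Trapping (f : TorusDiffeo) (U : Set E) : Prop :=
  ∃ σ > 0, ∀ x ∈ U, ∀ z, Near σ z (f.map x) → z ∈ U

/-- the cone property for differences of close points -/
def LocalCone (U : Set E) (a b : E → E →L[ℝ] ℝ) (l M ρ₀ : ℝ) (g : TorusDiffeo) : Prop :=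
  (∀ x ∈ U, g.map x ∈ U) ∧ ∀ z ∈ U, ∀ w ∈ U, ‖z - w‖ ≤ ρ₀ →
    ‖g.map z - g.map w‖ ≤ M * ‖z - w‖ ∧ (|b w (z - w)| ≤ |a w (z - w)| →
      |b (g.map w) (g.map z - g.map w)| ≤ |a (g.map w) (g.map z - g.map w)| ∧
      l * |a w (z - w)| ≤ |a (g.map w) (g.map z - g.map w)|)

/-- V1: the local cone property is open -/
def StV1 : Prop := ∀ (f : TorusDiffeo) (U : Set E) (a b : E → E →L[ℝ] ℝ), IsOpen U →
  Trapping f U → ExpandingField f U a b →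
  ∃ ε > 0, ∃ ρ₀ > 0, ∃ l > 1, ∃ M > 1, ∀ g, C1Close ε f g → LocalCone U a b l M ρ₀ g

/-- the number of the times `i < n` with `g^i z` outside `T i` -/
noncomputable def outsT (g : TorusDiffeo) (T : ℕ → Set E) (n : ℕ) (z : E) : ℕ :=
  ∑ i ∈ Finset.range n, Set.indicator (T i)ᶜ (fun _ => 1) (g.map^[i] z)

/-- V2: the curve lemma -/
def StV2 : Prop := ∀ (U : Set E) (a b : E → E →L[ℝ] ℝ) (C l M ρ₀ : ℝ),
  (∀ x ∈ U, ‖a x‖ ≤ C) → 0 < C → 1 < l → 1 < M → 0 < ρ₀ → ∃ q > 0, q < 1 ∧ ∃ κ > 0, κ < 1 ∧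
  ∀ ρ > 0, ρ ≤ ρ₀ → ∀ g, LocalCone U a b l M ρ₀ g → ∀ T : ℕ → Set E, (∀ i, MeasurableSet (T i)) →
  (∀ i, ∀ z ∈ T i, ∀ w ∈ T i, ‖z - w‖ ≤ ρ → M * ‖z - w‖ ≤ ρ) →
  ∀ γ : ℝ → E, Continuous γ → ∀ Λ > 0, ∀ A : Set ℝ, MeasurableSet A →
  (∀ t ∈ A, γ t ∈ U) → (∀ s ∈ A, ∀ t ∈ A, ‖γ t - γ s‖ ≤ ρ ∧
    |b (γ s) (γ t - γ s)| ≤ |a (γ s) (γ t - γ s)| ∧ Λ * |t - s| ≤ |a (γ s) (γ t - γ s)|) →
  ∀ n, ∫⁻ t in A, ENNReal.ofReal (q ^ outsT g T n (γ t))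
    ≤ ENNReal.ofReal (2 * (C * ρ / Λ) * κ ^ n)

/-- V4: a line that meets `D` in positive length, in the direction of the cones -/
def StV4 : Prop := ∀ (f : TorusDiffeo) (U : Set E) (a b : E → E →L[ℝ] ℝ), IsOpen U →
  ExpandingField f U a b → ∀ ρ > 0, ∀ D ⊆ U, MeasurableSet D → 0 < volume D →
  ∃ y v : E, ∃ Λ > 0, ∃ I : Set ℝ, MeasurableSet I ∧ (∀ t ∈ I, y + t • v ∈ U) ∧
    (∀ s ∈ I, ∀ t ∈ I, ‖(y + t • v) - (y + s • v)‖ ≤ ρ ∧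
      |b (y + s • v) ((y + t • v) - (y + s • v))| ≤ |a (y + s • v) ((y + t • v) - (y + s • v))| ∧
      Λ * |t - s| ≤ |a (y + s • v) ((y + t • v) - (y + s • v))|) ∧
    0 < volume {t : ℝ | t ∈ I ∧ y + t • v ∈ D}

/-- VF: no pluripotency at periodic points in a trapping region with an expanding cone field -/
def StVF : Prop := ∀ (f : TorusDiffeo) (U : Set E) (a b : E → E →L[ℝ] ℝ) (L : Set E), IsOpen U →
  Trapping f U → ExpandingField f U a b →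
  (∃ p ∈ L, p ∈ U ∧ ∃ k : ℕ, 1 ≤ k ∧ ∃ m, f.map^[k] p = p + zv m) → ¬ Pluripotent f L

end Var

end Pool.Agent.Lib.Plu
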