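import Mathlib
import Pool.Agent.Lib.MP_c44407_an.Defs10
import Pool.Agent.Lib.MP_c44407_an.Var10
import Pool.Agent.Lib.MP_c44407_an.ConeP40

/-! Expanding cone fields over a filtration block `A \ B`: no pluripotency. -/

open MeasureTheory Filter

namespace Pool.Agent.Lib.Plu

namespace Fil

open Var

/-- the cone property for differences of close points of `U` (`U` need not be invariant) -/
def LocalCone2 (U : Set E) (a b : E → E →L[ℝ] ℝ) (l M ρ₀ : ℝ) (g : TorusDiffeo) : Prop :=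
  ∀ z ∈ U, ∀ w ∈ U, ‖z - w‖ ≤ ρ₀ →
    ‖g.map z - g.map w‖ ≤ M * ‖z - w‖ ∧ (|b w (z - w)| ≤ |a w (z - w)| →
      |b (g.map w) (g.map z - g.map w)| ≤ |a (g.map w) (g.map z - g.map w)| ∧
      l * |a w (z - w)| ≤ |a (g.map w) (g.map z - g.map w)|)

/-- an expanding cone field over `U`, defined over a set `W` that contains `U` and a neighbourhood
of the image of `U` -/
def FieldOver (f : TorusDiffeo) (U W : Set E) (a b : E → E →L[ℝ] ℝ) : Prop :=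
  U ⊆ W ∧ (∃ σ > 0, ∀ x ∈ U, ∀ z, Near σ z (f.map x) → z ∈ W) ∧
  (UC W a ∧ ∃ C, ∀ x ∈ W, ‖a x‖ ≤ C) ∧ (UC W b ∧ ∃ C, ∀ x ∈ W, ‖b x‖ ≤ C) ∧
  ExpandingField f U a b

/-- W1 -/
def StW1 : Prop := ∀ (f : TorusDiffeo) (U W : Set E) (a b : E → E →L[ℝ] ℝ),
  FieldOver f U W a b →
  ∃ ε > 0, ∃ ρ₀ > 0, ∃ l > 1, ∃ M > 1, ∀ g, C1Close ε f g → LocalCone2 U a b l M ρ₀ g

/-- W2 -/
def StW2 : Prop := ∀ (U : Set E) (a b : E → E →L[ℝ] ℝ) (C l M ρ₀ : ℝ),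
  (∀ x ∈ U, ‖a x‖ ≤ C) → 0 < C → 1 < l → 1 < M → 0 < ρ₀ → ∃ q > 0, q < 1 ∧ ∃ κ > 0, κ < 1 ∧
  ∀ ρ > 0, ρ ≤ ρ₀ → ∀ g, LocalCone2 U a b l M ρ₀ g → ∀ T : ℕ → Set E, (∀ i, MeasurableSet (T i)) →
  (∀ i, ∀ z ∈ T i, ∀ w ∈ T i, ‖z - w‖ ≤ ρ → M * ‖z - w‖ ≤ ρ) →
  ∀ γ : ℝ → E, Continuous γ → ∀ Λ > 0, ∀ A : Set ℝ, MeasurableSet A →
  (∀ t ∈ A, ∀ j : ℕ, g.map^[j] (γ t) ∈ U) → (∀ s ∈ A, ∀ t ∈ A, ‖γ t - γ s‖ ≤ ρ ∧
    |b (γ s) (γ t - γ s)| ≤ |a (γ s) (γ t - γ s)| ∧ Λ * |t - s| ≤ |a (γ s) (γ t - γ s)|) →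
  ∀ n, ∫⁻ t in A, ENNReal.ofReal (q ^ outsT g T n (γ t))
    ≤ ENNReal.ofReal (2 * (C * ρ / Λ) * κ ^ n)

/-- WF: periodic points in a filtration block -/
def StWF : Prop := ∀ (f : TorusDiffeo) (A B W : Set E) (a b : E → E →L[ℝ] ℝ) (L : Set E),
  IsOpen A → IsClosed B → Trapping f A → Trapping f B → FieldOver f (A \ B) W a b →
  (∃ p ∈ L, p ∈ A \ B ∧ ∃ k : ℕ, 1 ≤ k ∧ ∃ m, f.map^[k] p = p + zv m) → ¬ Pluripotent f L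

/-- WS: all points whose orbit stays away from the boundary of the block -/
def StWS : Prop := ∀ (f : TorusDiffeo) (A B W : Set E) (a b : E → E →L[ℝ] ℝ) (L : Set E),
  IsOpen A → IsClosed B → Trapping f A → Trapping f B → FieldOver f (A \ B) W a b →
  (∃ x ∈ L, ∃ σ > 0, ∀ i : ℕ, ∀ z, Near σ z (f.map^[i] x) → z ∈ A \ B) →
  ¬ StronglyPluripotent f L

end Fil

end Pool.Agent.Lib.Plu
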