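import Mathlib
import Pool.Agent.Lib.MP_c44407_an.Defs10
import Pool.Agent.Lib.MP_c44407_an.Var10
import Pool.Agent.Lib.MP_c44407_an.Fil10

/-! Short definitions for the statement on blocks with an expanding cone field. -/

namespace Pool.Agent.Lib.Plu

namespace Blk

/-- the derivative of `f` at `x`, applied to `v` -/
noncomputable def D (f : TorusDiffeo) (x v : E) : E := fderiv ℝ f.map x v

/-- `a` is a field of linear functionals -/
def LinField (a : E → E → ℝ) : Prop := ∀ x, IsLinearMap ℝ (a x)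

/-- `|a_x v|` depends uniformly continuously on the point `x` of (the set below) `W` -/
def UnifCont (W : Set E) (a : E → E → ℝ) : Prop :=
  ∀ η > 0, ∃ δ > 0, ∀ x ∈ W, ∀ y ∈ W, Near δ x y → ∀ v, |a x v| ≤ |a y v| + η * ‖v‖

/-- `a` and `b` are bounded over `W`, and the norm is bounded by `a` in the cones `|b| ≤ |a|`
over `U` -/
def Bounds (U W : Set E) (a b : E → E → ℝ) : Prop :=
  (∃ C, ∀ x ∈ W, ∀ v, |a x v| ≤ C * ‖v‖ ∧ |b x v| ≤ C * ‖v‖) ∧
  ∃ c, ∀ x ∈ U, ∀ v, |b x v| ≤ |a x v| → ‖v‖ ≤ c * |a x v|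

/-- `f` maps the cones `|b| ≤ |a|` over `U` strictly into cones and expands `a` in them -/
def Expands (f : TorusDiffeo) (U : Set E) (a b : E → E → ℝ) : Prop :=
  ∃ l κ : ℝ, 1 < l ∧ κ < 1 ∧ ∀ x ∈ U, ∀ v, |b x v| ≤ |a x v| →
    |b (f.map x) (D f x v)| ≤ κ * |a (f.map x) (D f x v)| ∧
    l * |a x v| ≤ |a (f.map x) (D f x v)|

/-- an expanding cone field over `U`, uniformly continuous over `W`, which contains `U` and a
neighbourhood of the image of `U` -/
def ConeField (f : TorusDiffeo) (U W : Set E) (a b : E → E → ℝ) : Prop :=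
  (LinField a ∧ LinField b) ∧ (UnifCont W a ∧ UnifCont W b) ∧
  (U ⊆ W ∧ ∃ σ > 0, ∀ x ∈ U, ∀ z, Near σ z (f.map x) → z ∈ W) ∧ Bounds U W a b ∧
  (∀ x ∈ U, ∃ v, a x v = 1 ∧ b x v = 0) ∧ Expands f U a b

open Var Fil

/-- the continuous linear functional -/
noncomputable def mk (a : E → E → ℝ) (ha : LinField a) (x : E) : E →L[ℝ] ℝ :=
  LinearMap.toContinuousLinearMap (IsLinearMap.mk' (a x) (ha x))

lemma mk_apply (a : E → E → ℝ) (ha : LinField a) (x v : E) : mk a ha x v = a x v := rfl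

theorem fieldOver {f : TorusDiffeo} {U W : Set E} {a b : E → E → ℝ} (h : ConeField f U W a b) :
    ∃ a' b' : E → E →L[ℝ] ℝ, FieldOver f U W a' b' := by
  obtain ⟨⟨ha, hb⟩, ⟨hua, hub⟩, ⟨hUW, hσ⟩, ⟨⟨C, hC⟩, ⟨c, hc⟩⟩, hv, l, κ, hl, hκ, hex⟩ := h
  have hsub : ∀ {e : E → E → ℝ} (he : LinField e), UnifCont W e → UC U (mk e he) := by
    intro e he hu η hη
    obtain ⟨δ, hδ, h1⟩ := hu η hη
    exact ⟨δ, hδ, fun x hx y hy hn v => h1 x (hUW hx) y (hUW hy) hn v⟩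
  have hbda : ∀ x ∈ W, ‖mk a ha x‖ ≤ max C 0 := by
    intro x hx
    refine ContinuousLinearMap.opNorm_le_bound _ (le_max_right _ _) (fun v => ?_)
    rw [mk_apply, Real.norm_eq_abs]
    exact ((hC x hx v).1).trans (mul_le_mul_of_nonneg_right (le_max_left _ _) (norm_nonneg _))
  have hbdb : ∀ x ∈ W, ‖mk b hb x‖ ≤ max C 0 := by
    intro x hx
    refine ContinuousLinearMap.opNorm_le_bound _ (le_max_right _ _) (fun v => ?_)
    rw [mk_apply, Real.norm_eq_abs]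
    exact ((hC x hx v).2).trans (mul_le_mul_of_nonneg_right (le_max_left _ _) (norm_nonneg _))
  refine ⟨mk a ha, mk b hb, hUW, hσ, ⟨hua, max C 0, hbda⟩, ⟨hub, max C 0, hbdb⟩, hsub ha hua,
    hsub hb hub, ⟨max C 0, fun x hx => ⟨hbda x (hUW hx), hbdb x (hUW hx)⟩⟩,
    ⟨c, fun x hx v hcv => hc x hx v hcv⟩, fun x hx => hv x hx, l, κ, hl, hκ, ?_⟩
  intro x hx v hcv
  exact hex x hx v hcv

end Blk

end Pool.Agent.Lib.Plu
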