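import Pool.Agent.Lib.MP_c44407_an.Defs10

/-!
# A small perturbation of a torus diffeomorphism (row PERT1)
-/

open Filter Topology

namespace Pool.Agent.Lib.Plu

theorem zv_zero4 : zv 0 = 0 := by
  ext i
  simp [zv]

theorem exists_cell4 (x : E) : ∃ m, ‖x - zv m‖ ≤ 2 := by
  refine ⟨fun i => ⌊x i⌋, ?_⟩
  rw [EuclideanSpace.norm_eq, Fin.sum_univ_two]
  refine Real.sqrt_le_iff.mpr ⟨by norm_num, ?_⟩
  have hi : ∀ i, ‖(x - zv (fun i => ⌊x i⌋)) i‖ ^ 2 ≤ 1 := by
    intro i
    have h1 : (x - zv (fun i => ⌊x i⌋)) i = Int.fract (x i) := rfl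
    rw [h1, Real.norm_eq_abs, abs_of_nonneg (Int.fract_nonneg _)]
    have h2 := Int.fract_nonneg (x i)
    have h3 := (Int.fract_lt_one (x i)).le
    nlinarith
  have h0 := hi 0
  have h1 := hi 1
  linarith

theorem per4 {X : Type*} (F : E → X) (hp : ∀ x m, F (x + zv m) = F x) (x : E)
    (m : Fin 2 → ℤ) : F x = F (x - zv m) := by
  rw [← hp (x - zv m) m, sub_add_cancel]

theorem bdd4 {X : Type*} [NormedAddCommGroup X] (F : E → X) (hF : Continuous F)
    (hp : ∀ x m, F (x + zv m) = F x) : ∃ K : ℝ, 0 < K ∧ ∀ x, ‖F x‖ ≤ K := by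
  obtain ⟨K, hK⟩ := (isCompact_closedBall (0 : E) 2).exists_bound_of_continuousOn
    hF.continuousOn
  refine ⟨max K 1, lt_of_lt_of_le one_pos (le_max_right _ _), fun x => ?_⟩
  obtain ⟨m, hm⟩ := exists_cell4 x
  rw [per4 F hp x m]
  exact (hK _ (by simpa [mem_closedBall_zero_iff] using hm)).trans (le_max_left _ _)

theorem uc4 {X : Type*} [NormedAddCommGroup X] (F : E → X) (hF : Continuous F)
    (hp : ∀ x m, F (x + zv m) = F x) (η : ℝ) (hη : 0 < η) :
    ∃ δ > 0, ∀ x y, ‖x - y‖ ≤ δ → ‖F x - F y‖ ≤ η := by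
  have hc := (isCompact_closedBall (0 : E) 3).uniformContinuousOn_of_continuous
    hF.continuousOn
  rw [Metric.uniformContinuousOn_iff_le] at hc
  obtain ⟨δ, hδ, h⟩ := hc η hη
  refine ⟨min δ 1, lt_min hδ one_pos, fun x y hxy => ?_⟩
  obtain ⟨m, hm⟩ := exists_cell4 x
  rw [per4 F hp x m, per4 F hp y m, ← dist_eq_norm]
  have e1 : x - zv m ∈ Metric.closedBall (0 : E) 3 := by
    rw [mem_closedBall_zero_iff]
    linarith
  have e2 : y - zv m ∈ Metric.closedBall (0 : E) 3 := by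
    rw [mem_closedBall_zero_iff]
    have h1 : y - zv m = (x - zv m) - (x - y) := by abel
    rw [h1]
    have h2 := norm_sub_le (x - zv m) (x - y)
    have h3 : ‖x - y‖ ≤ 1 := hxy.trans (min_le_right _ _)
    linarith
  refine h _ e1 _ e2 ?_
  rw [dist_eq_norm]
  have h1 : x - zv m - (y - zv m) = x - y := by abel
  rw [h1]
  exact hxy.trans (min_le_left _ _)

theorem diff4 (f : TorusDiffeo) : Differentiable ℝ f.map :=
  f.contDiff_map.differentiable (by simp)

theorem fderiv_per4 (f : TorusDiffeo) (x : E) (m : Fin 2 → ℤ) :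
    fderiv ℝ f.map (x + zv m) = fderiv ℝ f.map x := by
  obtain ⟨m', hm'⟩ := f.map_add m
  rw [← fderiv_comp_add_right (f := f.map) (zv m)]
  have h1 : (fun x => f.map (x + zv m)) = fun x => f.map x + zv m' := by
    funext z
    exact hm' z
  rw [h1, fderiv_add_const]

theorem fderiv_cont4 (f : TorusDiffeo) : Continuous (fderiv ℝ f.map) :=
  f.contDiff_map.continuous_fderiv (by simp)

/-- the map `id + s ψ` -/
noncomputable def pmap4 (s : ℝ) (ψ : E → E) (x : E) : E := x + s • ψ x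

/-- `id + t` is invertible for `‖t‖ < 1` -/
theorem unit4 (t : E →L[ℝ] E) (ht : ‖t‖ < 1) :
    ∃ e : E ≃L[ℝ] E, (e : E →L[ℝ] E) = ContinuousLinearMap.id ℝ E + t := by
  have h : ‖-t‖ < 1 := by rwa [norm_neg]
  refine ⟨ContinuousLinearEquiv.ofUnit (Units.oneSub (-t) h), ?_⟩
  ext1 v
  simp [ContinuousLinearEquiv.ofUnit, Units.oneSub]

theorem pmap_hom4 (s : ℝ) (hs : 0 < s) (ψ : E → E) (hψ : ContDiff ℝ 1 ψ)
    (K : ℝ) (hK : ∀ x, ‖fderiv ℝ ψ x‖ ≤ K) (hsK : s * K < 1) :
    ∃ H : E ≃ₜ E, (∀ x, H x = pmap4 s ψ x) ∧ ContDiff ℝ 1 H.symm := by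
  have hd : Differentiable ℝ ψ := hψ.differentiable (by simp)
  have hK0 : 0 ≤ K := (norm_nonneg _).trans (hK 0)
  have hder : ∀ x, HasFDerivAt (pmap4 s ψ) (ContinuousLinearMap.id ℝ E + s • fderiv ℝ ψ x) x :=
    fun x => (hasFDerivAt_id x).add ((hd x).hasFDerivAt.const_smul s)
  have hsm : ∀ x, ‖s • fderiv ℝ ψ x‖ < 1 := by
    intro x
    rw [norm_smul, Real.norm_eq_abs, abs_of_pos hs]
    exact lt_of_le_of_lt (mul_le_mul_of_nonneg_left (hK x) hs.le) hsK
  have hlip : ∀ x y, ‖ψ x - ψ y‖ ≤ K * ‖x - y‖ := by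
    intro x y
    exact convex_univ.norm_image_sub_le_of_norm_fderiv_le (𝕜 := ℝ) (fun z _ => hd z)
      (fun z _ => hK z) (Set.mem_univ y) (Set.mem_univ x)
  have happ : ApproximatesLinearOn (pmap4 s ψ)
      ((ContinuousLinearEquiv.refl ℝ E : E ≃L[ℝ] E) : E →L[ℝ] E) Set.univ
      (Real.toNNReal (s * K)) := by
    intro x _ y _
    rw [Real.coe_toNNReal _ (by positivity)]
    have h1 : pmap4 s ψ x - pmap4 s ψ y -
        ((ContinuousLinearEquiv.refl ℝ E : E ≃L[ℝ] E) : E →L[ℝ] E) (x - y) =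
        s • (ψ x - ψ y) := by
      simp only [pmap4, smul_sub, ContinuousLinearEquiv.coe_coe, ContinuousLinearEquiv.coe_refl',
        id]
      abel
    rw [h1, norm_smul, Real.norm_eq_abs, abs_of_pos hs, mul_assoc]
    exact mul_le_mul_of_nonneg_left (hlip x y) hs.le
  have hn : Subsingleton E ∨ Real.toNNReal (s * K) <
      ‖((ContinuousLinearEquiv.refl ℝ E).symm : E →L[ℝ] E)‖₊⁻¹ := by
    right
    rw [← NNReal.coe_lt_coe, Real.coe_toNNReal _ (by positivity)]
    have h2 : ‖((ContinuousLinearEquiv.refl ℝ E).symm : E →L[ℝ] E)‖ ≤ 1 := by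
      have : ((ContinuousLinearEquiv.refl ℝ E).symm : E →L[ℝ] E) =
        ContinuousLinearMap.id ℝ E := rfl
      rw [this]
      exact ContinuousLinearMap.norm_id_le
    have h3 : (0 : ℝ) < ‖((ContinuousLinearEquiv.refl ℝ E).symm : E →L[ℝ] E)‖ := by
      have : ((ContinuousLinearEquiv.refl ℝ E).symm : E →L[ℝ] E) =
        ContinuousLinearMap.id ℝ E := rfl
      rw [this, ContinuousLinearMap.norm_id]
      exact one_pos
    rw [NNReal.coe_inv, coe_nnnorm]
    exact lt_of_lt_of_le hsK ((one_le_inv₀ h3).mpr h2)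
  let H : E ≃ₜ E := happ.toHomeomorph (pmap4 s ψ) hn
  have hH : ∀ x, H x = pmap4 s ψ x := fun x => rfl
  refine ⟨H, hH, ?_⟩
  choose e he using fun x => unit4 (s • fderiv ℝ ψ x) (hsm x)
  have hHc : ContDiff ℝ 1 (H : E → E) := by
    have : (H : E → E) = fun x => x + s • ψ x := funext hH
    rw [this]
    exact contDiff_id.add (hψ.const_smul s)
  refine H.contDiff_symm (f₀' := e) (fun a => ?_) hHc
  rw [he a]
  exact hder a

/-- row PERT1 -/
def StPert1 : Prop := ∀ (f : TorusDiffeo) (ψ : E → E), ContDiff ℝ 1 ψ →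
  (∀ x m, ψ (x + zv m) = ψ x) → ∀ ε > 0, ∃ s : ℝ, 0 < s ∧ ∃ h : TorusDiffeo,
    C1Close ε f h ∧ ∀ x, h.map x = f.map (x + s • ψ x)

theorem pert1_4 : StPert1 := by
  intro f ψ hψ hper ε hε
  have hd : Differentiable ℝ ψ := hψ.differentiable (by simp)
  obtain ⟨M, hM0, hM⟩ := bdd4 ψ hψ.continuous hper
  have hdper : ∀ x m, fderiv ℝ ψ (x + zv m) = fderiv ℝ ψ x := by
    intro x m
    rw [← fderiv_comp_add_right (f := ψ) (zv m)]
    have h1 : (fun x => ψ (x + zv m)) = ψ := by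
      funext z
      exact hper z m
    rw [h1]
  obtain ⟨K, hK0, hK⟩ := bdd4 (fderiv ℝ ψ) (hψ.continuous_fderiv (by simp)) hdper
  obtain ⟨A, hA0, hA⟩ := bdd4 (fderiv ℝ f.map) (fderiv_cont4 f) (fderiv_per4 f)
  obtain ⟨δ, hδ0, hδ⟩ := uc4 (fderiv ℝ f.map) (fderiv_cont4 f) (fderiv_per4 f) (ε / 2)
    (by positivity)
  -- choice of s
  obtain ⟨s, hs0, hs1, hs2, hs3, hs4⟩ : ∃ s : ℝ, 0 < s ∧ s * K < 1 ∧ A * (s * M) ≤ ε ∧
      s * M ≤ δ ∧ A * (s * K) ≤ ε / 2 := by
    refine ⟨min (min (1 / (2 * K)) (ε / (A * M))) (min (δ / M) (ε / (2 * A * K))),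
      by positivity, ?_, ?_, ?_, ?_⟩
    · have h1 : min (min (1 / (2 * K)) (ε / (A * M))) (min (δ / M) (ε / (2 * A * K))) ≤
          1 / (2 * K) := (min_le_left _ _).trans (min_le_left _ _)
      have h2 := mul_le_mul_of_nonneg_right h1 hK0.le
      have h3 : 1 / (2 * K) * K = 1 / 2 := by field_simp
      linarith
    · have h1 : min (min (1 / (2 * K)) (ε / (A * M))) (min (δ / M) (ε / (2 * A * K))) ≤
          ε / (A * M) := (min_le_left _ _).trans (min_le_right _ _)
      have h2 := mul_le_mul_of_nonneg_left (mul_le_mul_of_nonneg_right h1 hM0.le) hA0.le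
      have h3 : A * (ε / (A * M) * M) = ε := by field_simp
      linarith
    · have h1 : min (min (1 / (2 * K)) (ε / (A * M))) (min (δ / M) (ε / (2 * A * K))) ≤
          δ / M := (min_le_right _ _).trans (min_le_left _ _)
      have h2 := mul_le_mul_of_nonneg_right h1 hM0.le
      have h3 : δ / M * M = δ := by field_simp
      linarith
    · have h1 : min (min (1 / (2 * K)) (ε / (A * M))) (min (δ / M) (ε / (2 * A * K))) ≤
          ε / (2 * A * K) := (min_le_right _ _).trans (min_le_right _ _)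
      have h2 := mul_le_mul_of_nonneg_left (mul_le_mul_of_nonneg_right h1 hK0.le) hA0.le
      have h3 : A * (ε / (2 * A * K) * K) = ε / 2 := by field_simp
      linarith
  obtain ⟨H, hH, hHs⟩ := pmap_hom4 s hs0 ψ hψ K hK hs1
  have hHc : ContDiff ℝ 1 (H : E → E) := by
    have : (H : E → E) = fun x => x + s • ψ x := funext hH
    rw [this]
    exact contDiff_id.add (hψ.const_smul s)
  have hHadd : ∀ x m, H (x + zv m) = H x + zv m := by
    intro x m
    rw [hH, hH, pmap4, pmap4, hper]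
    abel
  have hHsadd : ∀ x m, H.symm (x + zv m) = H.symm x + zv m := by
    intro x m
    apply H.injective
    rw [H.apply_symm_apply, hHadd, H.apply_symm_apply]
  refine ⟨s, hs0, ⟨fun x => f.map (H x), fun y => H.symm (f.inv y), f.contDiff_map.comp hHc,
    hHs.comp f.contDiff_inv, fun x => ?_, fun y => ?_, fun m => ?_, fun m => ?_⟩, ?_, ?_⟩
  · simp only [f.left_inv, H.symm_apply_apply]
  · simp only [H.apply_symm_apply, f.right_inv]
  · obtain ⟨m', hm'⟩ := f.map_add m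
    exact ⟨m', fun x => by simp only [hHadd, hm']⟩
  · obtain ⟨m', hm'⟩ := f.inv_add m
    exact ⟨m', fun x => by simp only [hHsadd, hm']⟩
  · intro x
    have hflip : ∀ x y, ‖f.map x - f.map y‖ ≤ A * ‖x - y‖ := by
      intro x y
      exact convex_univ.norm_image_sub_le_of_norm_fderiv_le (𝕜 := ℝ) (fun z _ => diff4 f z)
        (fun z _ => hA z) (Set.mem_univ y) (Set.mem_univ x)
    have hxs : ‖H x - x‖ ≤ s * M := by
      rw [hH, pmap4, add_sub_cancel_left, norm_smul, Real.norm_eq_abs, abs_of_pos hs0]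
      exact mul_le_mul_of_nonneg_left (hM x) hs0.le
    refine ⟨⟨0, ?_⟩, ?_⟩
    · rw [zv_zero4, sub_zero]
      exact (hflip _ _).trans ((mul_le_mul_of_nonneg_left hxs hA0.le).trans hs2)
    · have hder : HasFDerivAt (H : E → E)
          (ContinuousLinearMap.id ℝ E + s • fderiv ℝ ψ x) x := by
        have : (H : E → E) = fun x => x + s • ψ x := funext hH
        rw [this]
        exact (hasFDerivAt_id x).add ((hd x).hasFDerivAt.const_smul s)
      have h1 : fderiv ℝ (fun x => f.map (H x)) x =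
          (fderiv ℝ f.map (H x)).comp (ContinuousLinearMap.id ℝ E + s • fderiv ℝ ψ x) :=
        ((diff4 f (H x)).hasFDerivAt.comp x hder).fderiv
      show ‖fderiv ℝ (fun x => f.map (H x)) x - fderiv ℝ f.map x‖ ≤ ε
      rw [h1, ContinuousLinearMap.comp_add, ContinuousLinearMap.comp_id]
      have h2 : fderiv ℝ f.map (H x) + (fderiv ℝ f.map (H x)).comp (s • fderiv ℝ ψ x) -
          fderiv ℝ f.map x = (fderiv ℝ f.map (H x) - fderiv ℝ f.map x) +
          (fderiv ℝ f.map (H x)).comp (s • fderiv ℝ ψ x) := by abel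
      rw [h2]
      refine (norm_add_le _ _).trans ?_
      have h3 := hδ (H x) x (hxs.trans hs3)
      have h4 : ‖(fderiv ℝ f.map (H x)).comp (s • fderiv ℝ ψ x)‖ ≤ A * (s * K) := by
        refine (ContinuousLinearMap.opNorm_comp_le _ _).trans ?_
        rw [norm_smul, Real.norm_eq_abs, abs_of_pos hs0]
        exact mul_le_mul (hA _) (mul_le_mul_of_nonneg_left (hK x) hs0.le) (by positivity)
          hA0.le
      linarith
  · intro x
    show f.map (H x) = _
    rw [hH, pmap4]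

end Pool.Agent.Lib.Plu
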