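import Pool.Agent.Lib.MP_c44407_an.Cone10
import Pool.Agent.Lib.MP_c44407_an.PERT1_4

/-! Row CC1 (helper4): the cone property is open. -/

open MeasureTheory Filter

namespace Pool.Agent.Lib.Plu

theorem cone_norm4 (a b : E →L[ℝ] ℝ) (hab : ∀ v, a v = 0 → b v = 0 → v = 0) :
    ∃ K : ℝ, 0 < K ∧ ∀ v, |b v| ≤ |a v| → ‖v‖ ≤ K * |a v| := by
  let T : E →ₗ[ℝ] ℝ × ℝ := ((a.prod b : E →L[ℝ] ℝ × ℝ) : E →ₗ[ℝ] ℝ × ℝ)
  have hT : LinearMap.ker T = ⊥ := by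
    rw [LinearMap.ker_eq_bot']
    intro v hv
    have h1 : (a v, b v) = ((0 : ℝ), (0 : ℝ)) := hv
    rw [Prod.mk.injEq] at h1
    exact hab v h1.1 h1.2
  obtain ⟨K, hK0, hK⟩ := T.exists_antilipschitzWith hT
  refine ⟨K, by exact_mod_cast hK0, fun v hv => ?_⟩
  have h1 := hK.le_mul_dist v 0
  rw [dist_zero_right, map_zero, dist_zero_right] at h1
  have h2 : ‖T v‖ = |a v| := by
    have h3 : T v = (a v, b v) := rfl
    rw [h3, Prod.norm_mk, Real.norm_eq_abs, Real.norm_eq_abs, max_eq_left hv]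
  rwa [h2] at h1

theorem cc1_4 : StCC1 := by
  rintro f a b ⟨hab, l, κ, hl, hκ, hf⟩
  obtain ⟨K, hK0, hK⟩ := cone_norm4 a b hab
  obtain ⟨P, hP0, hP⟩ := bdd4 (fderiv ℝ f.map) (fderiv_cont4 f) (fderiv_per4 f)
  obtain ⟨κ', hκ0, hκ1, hκκ⟩ : ∃ κ' : ℝ, 0 ≤ κ' ∧ κ' < 1 ∧ κ ≤ κ' :=
    ⟨max κ 0, le_max_right _ _, max_lt hκ one_pos, le_max_left _ _⟩
  have hA0 := norm_nonneg a
  have hB0 := norm_nonneg b
  obtain ⟨s, hs0, hs1, hs2⟩ : ∃ s : ℝ, 0 < s ∧ s ≤ (l - 1) / 2 ∧ s ≤ 1 - κ' :=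
    ⟨min ((l - 1) / 2) (1 - κ'), lt_min (by linarith) (by linarith), min_le_left _ _,
      min_le_right _ _⟩
  have hC0 : 0 < (‖a‖ + ‖b‖ + 1) * K := by positivity
  obtain ⟨ε, hε0, hε1, hεs⟩ : ∃ ε : ℝ, 0 < ε ∧ ε ≤ 1 ∧ (‖a‖ + ‖b‖ + 1) * K * ε ≤ s := by
    refine ⟨min 1 (s / ((‖a‖ + ‖b‖ + 1) * K)), lt_min one_pos (by positivity), min_le_left _ _,
      ?_⟩
    have h1 : min 1 (s / ((‖a‖ + ‖b‖ + 1) * K)) ≤ s / ((‖a‖ + ‖b‖ + 1) * K) := min_le_right _ _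
    have h2 := mul_le_mul_of_nonneg_left h1 hC0.le
    rwa [mul_div_cancel₀ _ hC0.ne'] at h2
  refine ⟨ε, hε0, (l + 1) / 2, by linarith, ‖a‖ * (P + 1) * K + 2, ?_, ?_⟩
  · have : 0 ≤ ‖a‖ * (P + 1) * K := by positivity
    linarith
  intro g hg x v hv
  have hd := (hg x).2
  obtain ⟨h1, h2⟩ := hf x v hv
  have hv1 := hK v hv
  have hav := abs_nonneg (a v)
  -- the difference
  have hdv : ‖fderiv ℝ g.map x v - fderiv ℝ f.map x v‖ ≤ ε * (K * |a v|) := by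
    rw [← ContinuousLinearMap.sub_apply]
    refine (ContinuousLinearMap.le_opNorm _ _).trans ?_
    exact mul_le_mul hd hv1 (norm_nonneg _) hε0.le
  have hda : |a (fderiv ℝ g.map x v) - a (fderiv ℝ f.map x v)| ≤ ‖a‖ * (ε * (K * |a v|)) := by
    rw [← map_sub, ← Real.norm_eq_abs]
    exact (a.le_opNorm _).trans (mul_le_mul_of_nonneg_left hdv hA0)
  have hdb : |b (fderiv ℝ g.map x v) - b (fderiv ℝ f.map x v)| ≤ ‖b‖ * (ε * (K * |a v|)) := by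
    rw [← map_sub, ← Real.norm_eq_abs]
    exact (b.le_opNorm _).trans (mul_le_mul_of_nonneg_left hdv hB0)
  have ha1 : |a (fderiv ℝ f.map x v)| ≤ |a (fderiv ℝ g.map x v)| + ‖a‖ * (ε * (K * |a v|)) := by
    have := abs_sub_abs_le_abs_sub (a (fderiv ℝ f.map x v)) (a (fderiv ℝ g.map x v))
    rw [abs_sub_comm] at this
    linarith
  have hb1 : |b (fderiv ℝ g.map x v)| ≤ |b (fderiv ℝ f.map x v)| + ‖b‖ * (ε * (K * |a v|)) := by
    have := abs_sub_abs_le_abs_sub (b (fderiv ℝ g.map x v)) (b (fderiv ℝ f.map x v))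
    linarith
  have hq : ‖a‖ * (ε * (K * |a v|)) + ‖b‖ * (ε * (K * |a v|)) ≤ s * |a v| := by
    have h3 := mul_le_mul_of_nonneg_right hεs hav
    have h4 : 0 ≤ K * ε * |a v| := by positivity
    nlinarith
  have hqa : 0 ≤ ‖a‖ * (ε * (K * |a v|)) := by positivity
  have hqb : 0 ≤ ‖b‖ * (ε * (K * |a v|)) := by positivity
  have hlow : (l + 1) / 2 * |a v| ≤ |a (fderiv ℝ g.map x v)| := by
    have h3 := mul_le_mul_of_nonneg_right hs1 hav
    linarith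
  refine ⟨?_, hlow, ?_⟩
  · have h3 : |b (fderiv ℝ f.map x v)| ≤ κ' * |a (fderiv ℝ f.map x v)| :=
      h1.trans (mul_le_mul_of_nonneg_right hκκ (abs_nonneg _))
    have h4 := mul_le_mul_of_nonneg_left ha1 hκ0
    have h5 : κ' * (‖a‖ * (ε * (K * |a v|))) ≤ ‖a‖ * (ε * (K * |a v|)) :=
      mul_le_of_le_one_left hqa hκ1.le
    have h6 := mul_le_mul_of_nonneg_right hs2 hav
    have h7 : |a v| ≤ |a (fderiv ℝ g.map x v)| := by
      have : |a v| ≤ (l + 1) / 2 * |a v| := by nlinarith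
      linarith
    have h8 : (1 - κ') * |a v| ≤ (1 - κ') * |a (fderiv ℝ g.map x v)| :=
      mul_le_mul_of_nonneg_left h7 (by linarith)
    linarith
  · have h3 : ‖fderiv ℝ g.map x‖ ≤ P + 1 := by
      have h4 := norm_le_norm_add_norm_sub' (fderiv ℝ g.map x) (fderiv ℝ f.map x)
      have h5 := hP x
      linarith
    have h6 : |a (fderiv ℝ g.map x v)| ≤ ‖a‖ * ((P + 1) * (K * |a v|)) := by
      rw [← Real.norm_eq_abs]
      refine (a.le_opNorm _).trans (mul_le_mul_of_nonneg_left ?_ hA0)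
      exact (ContinuousLinearMap.le_opNorm _ _).trans
        (mul_le_mul h3 hv1 (norm_nonneg _) (by linarith))
    linarith

end Pool.Agent.Lib.Plu
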