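import Mathlib
import Pool.Agent.Lib.MP_c44407_an.Defs10

/-! Expanding cone fields: no pluripotency at a fixed point. -/

open MeasureTheory Filter

namespace Pool.Agent.Lib.Plu

/-- the number of the times `i < n` at which the `g`-orbit of `z` is not `r`-close to `p` -/
noncomputable def outs (g : TorusDiffeo) (p : E) (r : ℝ) (n : ℕ) (z : E) : ℕ :=
  ∑ i ∈ Finset.range n, Set.indicator {w | ¬ Near r w p} (fun _ => 1) (g.map^[i] z)

/-- `g` maps the cone `|b v| ≤ |a v|` into itself and expands `a` by a factor between `l` and `M` -/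
def ConeMap (a b : E →L[ℝ] ℝ) (l M : ℝ) (g : TorusDiffeo) : Prop :=
  ∀ x v, |b v| ≤ |a v| → |b (fderiv ℝ g.map x v)| ≤ |a (fderiv ℝ g.map x v)| ∧
    l * |a v| ≤ |a (fderiv ℝ g.map x v)| ∧ |a (fderiv ℝ g.map x v)| ≤ M * |a v|

/-- `f` has an expanding constant cone field -/
def ExpandingCone (f : TorusDiffeo) (a b : E →L[ℝ] ℝ) : Prop :=
  (∀ v, a v = 0 → b v = 0 → v = 0) ∧ ∃ l κ : ℝ, 1 < l ∧ κ < 1 ∧ ∀ x v, |b v| ≤ |a v| →
    |b (fderiv ℝ f.map x v)| ≤ κ * |a (fderiv ℝ f.map x v)| ∧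
    l * |a v| ≤ |a (fderiv ℝ f.map x v)|

/-- CC1: the cone property is open -/
def StCC1 : Prop := ∀ (f : TorusDiffeo) (a b : E →L[ℝ] ℝ), ExpandingCone f a b →
  ∃ ε > 0, ∃ l > 1, ∃ M > 1, ∀ g, C1Close ε f g → ConeMap a b l M g

/-- CC2: the curve lemma -/
def StCC2 : Prop := ∀ (a b : E →L[ℝ] ℝ), (∀ v, a v = 0 → b v = 0 → v = 0) → ∀ l M : ℝ, 1 < l →
  1 < M → ∃ r > 0, ∃ q > 0, q < 1 ∧ ∃ κ > 0, κ < 1 ∧ ∃ K v, ∀ g, ConeMap a b l M g → ∀ p y : E,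
    ∀ n : ℕ, ∫⁻ t in Set.Icc (0 : ℝ) 1, ENNReal.ofReal (q ^ outs g p r n (y + t • v))
      ≤ ENNReal.ofReal (K * κ ^ n)

/-- CC3: the statistics give the frequency -/
def StCC3 : Prop := ∀ (g : TorusDiffeo) (p x' y : E) (r : ℝ), 0 < r →
  (∀ n, Near (r / 2) (g.map^[n] x') p) → SameStatistics g x' y → ∀ η > 0, ∃ N : ℕ, ∀ n ≥ N,
    (outs g p r n y : ℝ) ≤ η * n

/-- CC4: a line that meets `D` in positive length -/
def StCC4 : Prop := ∀ (D : Set E) (v : E), MeasurableSet D → 0 < volume D →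
  ∃ y : E, 0 < volume {t : ℝ | t ∈ Set.Icc (0 : ℝ) 1 ∧ y + t • v ∈ D}

/-- CC5: measurability -/
def StCC5 : Prop := ∀ (g : TorusDiffeo) (p : E) (r : ℝ) (n : ℕ), Measurable (outs g p r n)

/-- CCF: no pluripotency at fixed points of maps with an expanding cone -/
def StCCF : Prop := ∀ (f : TorusDiffeo) (a b : E →L[ℝ] ℝ) (L : Set E), ExpandingCone f a b →
  (∃ p ∈ L, ∃ m, f.map p = p + zv m) → ¬ Pluripotent f L

end Pool.Agent.Lib.Plu
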