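import Mathlib
import Pool.Agent.Lib.MP_c44407_an.Defs10
import Pool.Agent.Lib.MP_c44407_an.Cone10

/-! Row CC2: the curve lemma. -/

open MeasureTheory Filter

namespace Pool.Agent.Lib.Plu

namespace CC2

variable (a b : E →L[ℝ] ℝ)

lemma diffg (g : TorusDiffeo) (x : E) : HasFDerivAt g.map (fderiv ℝ g.map x) x :=
  ((g.contDiff_map.differentiable (by norm_num)) x).hasFDerivAt

/-- the cone property for differences -/
lemma cone_diff {l M : ℝ} (hl : 1 < l) {g : TorusDiffeo} (hab : ∀ v, a v = 0 → b v = 0 → v = 0)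
    (hg : ConeMap a b l M g) (z w : E) (h : |b (z - w)| ≤ |a (z - w)|) :
    |b (g.map z - g.map w)| ≤ |a (g.map z - g.map w)| ∧
    l * |a (z - w)| ≤ |a (g.map z - g.map w)| ∧ |a (g.map z - g.map w)| ≤ M * |a (z - w)| := by
  by_cases h0 : a (z - w) = 0
  · have hb0 : b (z - w) = 0 := by
      rw [h0, abs_zero] at h
      exact abs_nonpos_iff.mp h
    have := hab _ h0 hb0
    rw [sub_eq_zero] at this
    subst this
    simp
  · set v := z - w with hv
    let P : ℝ → E := fun t => w + t • v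
    have hP : ∀ t, HasDerivAt P v t := by
      intro t
      have h1 : HasDerivAt (fun t : ℝ => t • v) ((1 : ℝ) • v) t := (hasDerivAt_id t).smul_const v
      have h2 := h1.const_add w
      rw [one_smul] at h2
      exact h2
    have hgP : ∀ t, HasDerivAt (fun t => g.map (P t)) (fderiv ℝ g.map (P t) v) t := fun t =>
      (diffg g (P t)).comp_hasDerivAt t (hP t)
    have hA : ∀ t, HasDerivAt (fun t => a (g.map (P t))) (a (fderiv ℝ g.map (P t) v)) t := fun t =>
      a.hasFDerivAt.comp_hasDerivAt t (hgP t)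
    have hB : ∀ t, HasDerivAt (fun t => b (g.map (P t))) (b (fderiv ℝ g.map (P t) v)) t := fun t =>
      b.hasFDerivAt.comp_hasDerivAt t (hgP t)
    have P0 : P 0 = w := by simp [P]
    have P1 : P 1 = z := by simp [P, hv]
    obtain ⟨ξ, _, hξ⟩ := exists_ratio_hasDerivAt_eq_ratio_slope
      (fun t => a (g.map (P t))) (fun t => a (fderiv ℝ g.map (P t) v)) (zero_lt_one' ℝ)
      (fun t _ => (hA t).continuousAt.continuousWithinAt) (fun t _ => hA t)
      (fun t => b (g.map (P t))) (fun t => b (fderiv ℝ g.map (P t) v))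
      (fun t _ => (hB t).continuousAt.continuousWithinAt) (fun t _ => hB t)
    obtain ⟨τ, _, hτ⟩ := exists_hasDerivAt_eq_slope
      (fun t => a (g.map (P t))) (fun t => a (fderiv ℝ g.map (P t) v)) (zero_lt_one' ℝ)
      (fun t _ => (hA t).continuousAt.continuousWithinAt) (fun t _ => hA t)
    simp only [P0, P1, sub_zero, div_one] at hξ hτ
    have e1 : a (g.map z - g.map w) = a (fderiv ℝ g.map (P τ) v) := by
      rw [map_sub, hτ]
    obtain ⟨k1, k2, k3⟩ := hg (P τ) v h
    obtain ⟨m1, m2, m3⟩ := hg (P ξ) v h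
    refine ⟨?_, by rw [e1]; exact k2, by rw [e1]; exact k3⟩
    have hpos : 0 < |a (fderiv ℝ g.map (P ξ) v)| := by
      have : 0 < l * |a v| := by
        have := abs_pos.mpr h0
        positivity
      linarith
    rw [← map_sub, ← map_sub] at hξ
    have h5 : |b (g.map z - g.map w)| * |a (fderiv ℝ g.map (P ξ) v)|
        = |a (g.map z - g.map w)| * |b (fderiv ℝ g.map (P ξ) v)| := by
      rw [← abs_mul, ← abs_mul]
      congr 1
    have h6 : |b (g.map z - g.map w)| * |a (fderiv ℝ g.map (P ξ) v)|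
        ≤ |a (g.map z - g.map w)| * |a (fderiv ℝ g.map (P ξ) v)| := by
      rw [h5]
      exact mul_le_mul_of_nonneg_left m1 (abs_nonneg _)
    exact le_of_mul_le_mul_right h6 hpos

/-- the norm is bounded by `a` in the cone -/
lemma exists_c (hab : ∀ v, a v = 0 → b v = 0 → v = 0) :
    ∃ c > 0, ∀ v, |b v| ≤ |a v| → ‖v‖ ≤ c * |a v| := by
  have hker : LinearMap.ker ((a.prod b : E →L[ℝ] ℝ × ℝ) : E →ₗ[ℝ] ℝ × ℝ) = ⊥ := by
    rw [LinearMap.ker_eq_bot']
    intro v hv
    have h1 : (a v, b v) = (0, 0) := hv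
    exact hab v (Prod.ext_iff.mp h1).1 (Prod.ext_iff.mp h1).2
  obtain ⟨K, hK, hanti⟩ := LinearMap.exists_antilipschitzWith _ hker
  refine ⟨K, by exact_mod_cast hK, fun v hv => ?_⟩
  have h1 := hanti.le_mul_dist v 0
  simp only [dist_zero_right, map_zero] at h1
  have h2 : ‖((a.prod b : E →L[ℝ] ℝ × ℝ) : E →ₗ[ℝ] ℝ × ℝ) v‖ = |a v| := by
    change ‖(a v, b v)‖ = |a v|
    rw [Prod.norm_mk, Real.norm_eq_abs, Real.norm_eq_abs, max_eq_left hv]
  rwa [h2] at h1

/-- a nonzero integer vector has norm at least one -/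
lemma zv_norm (m : Fin 2 → ℤ) (h : ‖zv m‖ < 1) : m = 0 := by
  funext i
  have h1 : |(m i : ℝ)| ≤ ‖zv m‖ := by
    have := PiLp.norm_apply_le (zv m) i
    simpa [zv] using this
  have h2 : |(m i : ℝ)| < 1 := h1.trans_lt h
  rw [← Int.cast_abs] at h2
  have h3 : |m i| < 1 := by exact_mod_cast h2
  have := abs_nonneg (m i)
  simpa using Int.abs_lt_one_iff.mp h3

/-- two close points near `p` are near the same translate -/
lemma same_translate {r d : ℝ} (hd : d + 2 * r < 1) {p z w : E} (hz : Near r z p)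
    (hw : Near r w p) (hzw : ‖z - w‖ ≤ d) : ‖z - w‖ ≤ 2 * r := by
  obtain ⟨m, hm⟩ := hz
  obtain ⟨m', hm'⟩ := hw
  have hadd : zv (m - m') = zv m - zv m' := by
    ext i; simp [zv]
  have e : zv (m - m') = (z - w) - (z - p - zv m) + (w - p - zv m') := by
    rw [hadd]; abel
  have hn : ‖zv (m - m')‖ < 1 := by
    rw [e]
    calc ‖(z - w) - (z - p - zv m) + (w - p - zv m')‖
        ≤ ‖(z - w) - (z - p - zv m)‖ + ‖w - p - zv m'‖ := norm_add_le _ _
      _ ≤ ‖z - w‖ + ‖z - p - zv m‖ + ‖w - p - zv m'‖ := by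
          gcongr; exact norm_sub_le _ _
      _ ≤ d + r + r := by gcongr
      _ < 1 := by linarith
  have h0 := zv_norm _ hn
  have h1 : m = m' := sub_eq_zero.mp h0
  subst h1
  have e2 : z - w = (z - p - zv m) - (w - p - zv m) := by abel
  rw [e2]
  calc ‖(z - p - zv m) - (w - p - zv m)‖ ≤ ‖z - p - zv m‖ + ‖w - p - zv m‖ := norm_sub_le _ _
    _ ≤ r + r := by gcongr
    _ = 2 * r := by ring

/-- cutting a set into pieces -/
lemma pieces (φ : ℝ → ℝ) (hφ : Measurable φ) (A : Set ℝ) (hA : MeasurableSet A) (R ρ : ℝ)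
    (hρ : 0 < ρ) (hR : ∀ s ∈ A, ∀ t ∈ A, |φ t - φ s| ≤ R) (h : ℝ → ENNReal) (c : ENNReal)
    (hc : ∀ A' ⊆ A, MeasurableSet A' → (∀ s ∈ A', ∀ t ∈ A', |φ t - φ s| ≤ ρ) →
      ∫⁻ t in A', h t ≤ c) :
    ∫⁻ t in A, h t ≤ ENNReal.ofReal (2 * (R / ρ) + 1) * c := by
  rcases A.eq_empty_or_nonempty with he | ⟨t0, ht0⟩
  · subst he; simp
  have hR0 : 0 ≤ R := (abs_nonneg _).trans (hR t0 ht0 t0 ht0)
  let K : ℕ := ⌊2 * (R / ρ)⌋₊ + 1
  let S : Fin K → Set ℝ := fun k => A ∩ {t | (k : ℝ) * ρ ≤ φ t - (φ t0 - R) ∧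
    φ t - (φ t0 - R) ≤ ((k : ℝ) + 1) * ρ}
  have hSm : ∀ k, MeasurableSet (S k) := by
    intro k
    refine hA.inter ?_
    exact (measurableSet_le measurable_const (hφ.sub_const _)).inter
      (measurableSet_le (hφ.sub_const _) measurable_const)
  have hcov : A ⊆ ⋃ k, S k := by
    intro t ht
    rw [Set.mem_iUnion]
    have h1 := hR t0 ht0 t ht
    rw [abs_le] at h1
    set u := φ t - (φ t0 - R) with hu
    have hu0 : 0 ≤ u := by linarith
    have hu1 : u ≤ 2 * R := by linarith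
    have hu2 : 0 ≤ u / ρ := by positivity
    have hf1 := Nat.floor_le hu2
    have hf2 := Nat.lt_floor_add_one (u / ρ)
    have hk : ⌊u / ρ⌋₊ < K := by
      have : ⌊u / ρ⌋₊ ≤ ⌊2 * (R / ρ)⌋₊ := by
        apply Nat.floor_le_floor
        rw [← mul_div_assoc]
        gcongr
      omega
    refine ⟨⟨⌊u / ρ⌋₊, hk⟩, ht, ?_, ?_⟩
    · rwa [le_div_iff₀ hρ] at hf1
    · rw [div_lt_iff₀ hρ] at hf2
      exact hf2.le
  calc ∫⁻ t in A, h t ≤ ∫⁻ t in ⋃ k, S k, h t := lintegral_mono_set hcov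
    _ ≤ ∑' k, ∫⁻ t in S k, h t := lintegral_iUnion_le _ _
    _ = ∑ k, ∫⁻ t in S k, h t := tsum_fintype _
    _ ≤ ∑ k : Fin K, c := by
        refine Finset.sum_le_sum (fun k _ => hc _ Set.inter_subset_left (hSm k) ?_)
        intro s hs t ht
        have h1 := hs.2
        have h2 := ht.2
        rw [abs_le]
        constructor <;> nlinarith [h1.1, h1.2, h2.1, h2.2]
    _ = (K : ENNReal) * c := by simp
    _ ≤ ENNReal.ofReal (2 * (R / ρ) + 1) * c := by
        gcongr
        rw [← ENNReal.ofReal_natCast]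
        apply ENNReal.ofReal_le_ofReal
        have := Nat.floor_le (show 0 ≤ 2 * (R / ρ) by positivity)
        simp only [K]; push_cast; linarith

lemma outs_succ (g : TorusDiffeo) (p : E) (r : ℝ) (n : ℕ) (z : E) :
    outs g p r (n + 1) z = Set.indicator {w | ¬ Near r w p} (fun _ => 1) z
      + outs g p r n (g.map z) := by
  unfold outs
  rw [Finset.sum_range_succ', add_comm]
  simp only [Function.iterate_succ_apply, Function.iterate_zero, id]

lemma near_meas (r : ℝ) (p : E) : MeasurableSet {w : E | Near r w p} := by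
  have : {w : E | Near r w p} = ⋃ m : Fin 2 → ℤ, {w : E | ‖w - p - zv m‖ ≤ r} := by
    ext w; simp [Near]
  rw [this]
  refine MeasurableSet.iUnion (fun m => ?_)
  exact (isClosed_le (by fun_prop) continuous_const).measurableSet

lemma key {l M : ℝ} (hl : 1 < l) (hM : 1 < M) {g : TorusDiffeo}
    (hab : ∀ v, a v = 0 → b v = 0 → v = 0) (hg : ConeMap a b l M g) {c : ℝ} (hc0 : 0 < c)
    (hc : ∀ v, |b v| ≤ |a v| → ‖v‖ ≤ c * |a v|) {ρ r q κ : ℝ} (hρ : 0 < ρ)
    (hd : c * ρ + 2 * r < 1) (hMr : M * (‖a‖ * (2 * r)) ≤ ρ) (hq : 0 < q)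
    (hκ : (1 + q * (2 * M + 1)) / l ≤ κ) (p : E) (n : ℕ) :
    ∀ (γ : ℝ → E), Continuous γ → (∀ s t, |b (γ t - γ s)| ≤ |a (γ t - γ s)|) → ∀ Λ : ℝ, 0 < Λ →
      (∀ s t, Λ * |t - s| ≤ |a (γ t - γ s)|) → ∀ A : Set ℝ, MeasurableSet A →
      (∀ s ∈ A, ∀ t ∈ A, |a (γ t - γ s)| ≤ ρ) →
      ∫⁻ t in A, ENNReal.ofReal (q ^ outs g p r n (γ t)) ≤ ENNReal.ofReal (2 * (ρ / Λ) * κ ^ n) := by
  have hκ0 : 0 < κ := lt_of_lt_of_le (by positivity) hκ
  induction n with
  | zero =>
    intro γ hγ hcone Λ hΛ hexp A hA hsmall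
    have h1 : ∀ t, ENNReal.ofReal (q ^ outs g p r 0 (γ t)) = 1 := by
      intro t; simp [outs]
    simp only [h1]
    rw [setLIntegral_const, one_mul]
    rcases A.eq_empty_or_nonempty with he | ⟨t0, ht0⟩
    · subst he; simp
    have hsub : A ⊆ Set.Icc (t0 - ρ / Λ) (t0 + ρ / Λ) := by
      intro t ht
      have h2 := (hexp t0 t).trans (hsmall t0 ht0 t ht)
      have h3 : |t - t0| ≤ ρ / Λ := by
        rw [le_div_iff₀ hΛ]; linarith
      rw [abs_le] at h3
      exact ⟨by linarith [h3.1], by linarith [h3.2]⟩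
    calc volume A ≤ volume (Set.Icc (t0 - ρ / Λ) (t0 + ρ / Λ)) := measure_mono hsub
      _ = ENNReal.ofReal (t0 + ρ / Λ - (t0 - ρ / Λ)) := Real.volume_Icc
      _ = ENNReal.ofReal (2 * (ρ / Λ) * κ ^ 0) := by congr 1; ring
  | succ n ih =>
    intro γ hγ hcone Λ hΛ hexp A hA hsmall
    have hgc : Continuous (fun t => g.map (γ t)) := g.contDiff_map.continuous.comp hγ
    have hcone' : ∀ s t, |b (g.map (γ t) - g.map (γ s))| ≤ |a (g.map (γ t) - g.map (γ s))| :=
      fun s t => (cone_diff a b hl hab hg _ _ (hcone s t)).1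
    have hexp' : ∀ s t, (l * Λ) * |t - s| ≤ |a (g.map (γ t) - g.map (γ s))| := by
      intro s t
      refine le_trans ?_ (cone_diff a b hl hab hg _ _ (hcone s t)).2.1
      rw [mul_assoc]
      exact mul_le_mul_of_nonneg_left (hexp s t) (by linarith)
    have hlΛ : 0 < l * Λ := by positivity
    have IH := ih (fun t => g.map (γ t)) hgc hcone' (l * Λ) hlΛ hexp'
    set In : Set ℝ := {t | Near r (γ t) p} with hIn
    have hInm : MeasurableSet In := hγ.measurable (near_meas r p)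
    rw [← lintegral_inter_add_diff (fun t => ENNReal.ofReal (q ^ outs g p r (n + 1) (γ t))) A hInm]
    have hin : ∫⁻ t in A ∩ In, ENNReal.ofReal (q ^ outs g p r (n + 1) (γ t))
        ≤ ENNReal.ofReal (2 * (ρ / (l * Λ)) * κ ^ n) := by
      have e1 : ∫⁻ t in A ∩ In, ENNReal.ofReal (q ^ outs g p r (n + 1) (γ t))
          = ∫⁻ t in A ∩ In, ENNReal.ofReal (q ^ outs g p r n (g.map (γ t))) := by
        refine setLIntegral_congr_fun (hA.inter hInm) (fun t ht => ?_)
        have : outs g p r (n + 1) (γ t) = outs g p r n (g.map (γ t)) := by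
          rw [outs_succ, Set.indicator_of_notMem, zero_add]
          exact fun hno => hno ht.2
        simp only [this]
      rw [e1]
      refine IH _ (hA.inter hInm) ?_
      intro s hs t ht
      have h1 : ‖γ t - γ s‖ ≤ c * ρ :=
        (hc _ (hcone s t)).trans (mul_le_mul_of_nonneg_left (hsmall s hs.1 t ht.1) hc0.le)
      have h2 := same_translate hd ht.2 hs.2 h1
      calc |a (g.map (γ t) - g.map (γ s))| ≤ M * |a (γ t - γ s)| :=
            (cone_diff a b hl hab hg _ _ (hcone s t)).2.2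
        _ ≤ M * (‖a‖ * ‖γ t - γ s‖) := by
            gcongr
            exact a.le_opNorm _
        _ ≤ M * (‖a‖ * (2 * r)) := by gcongr
        _ ≤ ρ := hMr
    have hout : ∫⁻ t in A \ In, ENNReal.ofReal (q ^ outs g p r (n + 1) (γ t))
        ≤ ENNReal.ofReal q * (ENNReal.ofReal (2 * M + 1)
          * ENNReal.ofReal (2 * (ρ / (l * Λ)) * κ ^ n)) := by
      have e1 : ∫⁻ t in A \ In, ENNReal.ofReal (q ^ outs g p r (n + 1) (γ t))
          = ∫⁻ t in A \ In, ENNReal.ofReal q * ENNReal.ofReal (q ^ outs g p r n (g.map (γ t))) := by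
        refine setLIntegral_congr_fun (hA.diff hInm) (fun t ht => ?_)
        have : outs g p r (n + 1) (γ t) = 1 + outs g p r n (g.map (γ t)) := by
          rw [outs_succ, Set.indicator_of_mem]
          exact ht.2
        simp only [this]
        rw [pow_add, pow_one, ENNReal.ofReal_mul hq.le]
      rw [e1, lintegral_const_mul' _ _ ENNReal.ofReal_ne_top]
      gcongr
      have h3 := pieces (fun t => a (g.map (γ t))) (a.continuous.comp hgc).measurable (A \ In)
        (hA.diff hInm) (M * ρ) ρ hρ ?_ (fun t => ENNReal.ofReal (q ^ outs g p r n (g.map (γ t))))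
        (ENNReal.ofReal (2 * (ρ / (l * Λ)) * κ ^ n)) ?_
      · rwa [mul_div_assoc, div_self hρ.ne', mul_one] at h3
      · intro s hs t ht
        rw [← map_sub]
        exact ((cone_diff a b hl hab hg _ _ (hcone s t)).2.2).trans
          (mul_le_mul_of_nonneg_left (hsmall s hs.1 t ht.1) (by linarith))
      · intro A' hA' hA'm hA's
        refine IH A' hA'm ?_
        intro s hs t ht
        rw [map_sub]
        exact hA's s hs t ht
    refine (add_le_add hin hout).trans ?_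
    have hX : 0 ≤ 2 * (ρ / (l * Λ)) * κ ^ n := by positivity
    rw [← ENNReal.ofReal_mul (by positivity), ← ENNReal.ofReal_mul hq.le,
      ← ENNReal.ofReal_add hX (by positivity)]
    apply ENNReal.ofReal_le_ofReal
    have h4 : 2 * (ρ / (l * Λ)) * κ ^ n + q * ((2 * M + 1) * (2 * (ρ / (l * Λ)) * κ ^ n))
        = 2 * (ρ / Λ) * κ ^ n * ((1 + q * (2 * M + 1)) / l) := by
      field_simp
    rw [h4, pow_succ, ← mul_assoc]
    exact mul_le_mul_of_nonneg_left hκ (by positivity)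

lemma exists_v (hab : ∀ v, a v = 0 → b v = 0 → v = 0) : ∃ v, a v = 1 ∧ b v = 0 := by
  have hinj : Function.Injective ((a.prod b : E →L[ℝ] ℝ × ℝ) : E →ₗ[ℝ] ℝ × ℝ) := by
    rw [← LinearMap.ker_eq_bot, LinearMap.ker_eq_bot']
    intro v hv
    have h1 : (a v, b v) = (0, 0) := hv
    exact hab v (Prod.ext_iff.mp h1).1 (Prod.ext_iff.mp h1).2
  have hfin : Module.finrank ℝ E = Module.finrank ℝ (ℝ × ℝ) := by simp
  have hsurj := (LinearMap.injective_iff_surjective_of_finrank_eq_finrank hfin).mp hinj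
  obtain ⟨v, hv⟩ := hsurj (1, 0)
  have h1 : (a v, b v) = (1, 0) := hv
  exact ⟨v, (Prod.ext_iff.mp h1).1, (Prod.ext_iff.mp h1).2⟩

end CC2

theorem cc2_10 : StCC2 := by
  intro a b hab l M hl hM
  obtain ⟨c, hc0, hc⟩ := CC2.exists_c a b hab
  obtain ⟨v, hav, hbv⟩ := CC2.exists_v a b hab
  set ρ : ℝ := 1 / (2 * c) with hρd
  have hρ : 0 < ρ := by positivity
  set r : ℝ := min (1 / 8) (ρ / (2 * M * (‖a‖ + 1))) with hrd
  have hr : 0 < r := lt_min (by norm_num) (by positivity)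
  set q : ℝ := min (1 / 2) ((l - 1) / (2 * (2 * M + 1))) with hqd
  have hq : 0 < q := lt_min (by norm_num) (by
    have : 0 < l - 1 := by linarith
    positivity)
  have hq1 : q < 1 := lt_of_le_of_lt (min_le_left _ _) (by norm_num)
  set κ : ℝ := (l + 1) / (2 * l) with hκd
  have hκ0 : 0 < κ := by positivity
  have hκ1 : κ < 1 := by
    rw [hκd, div_lt_one (by positivity)]; linarith
  have hκ : (1 + q * (2 * M + 1)) / l ≤ κ := by
    have h1 : q ≤ (l - 1) / (2 * (2 * M + 1)) := min_le_right _ _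
    have h2 : q * (2 * M + 1) ≤ (l - 1) / 2 := by
      have h0 : (2 * M + 1) ≠ 0 := by positivity
      calc q * (2 * M + 1) ≤ (l - 1) / (2 * (2 * M + 1)) * (2 * M + 1) := by gcongr
        _ = (l - 1) / 2 := by rw [← div_div, div_mul_cancel₀ _ h0]
    rw [hκd, div_le_div_iff₀ (by positivity) (by positivity)]
    nlinarith
  have hd : c * ρ + 2 * r < 1 := by
    have h1 : c * ρ = 1 / 2 := by rw [hρd]; field_simp
    have h2 : r ≤ 1 / 8 := min_le_left _ _
    linarith
  have hMr : M * (‖a‖ * (2 * r)) ≤ ρ := by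
    have h1 : r ≤ ρ / (2 * M * (‖a‖ + 1)) := min_le_right _ _
    calc M * (‖a‖ * (2 * r)) ≤ M * ((‖a‖ + 1) * (2 * (ρ / (2 * M * (‖a‖ + 1))))) := by
          gcongr; linarith
      _ = ρ := by field_simp
  refine ⟨r, hr, q, hq, hq1, κ, hκ0, hκ1, (2 * (1 / ρ) + 1) * (2 * ρ), v, ?_⟩
  intro g hg p y n
  have hdiff : ∀ s t : ℝ, (y + t • v) - (y + s • v) = (t - s) • v := by
    intro s t; rw [sub_smul]; abel
  have hcone : ∀ s t : ℝ, |b ((y + t • v) - (y + s • v))| ≤ |a ((y + t • v) - (y + s • v))| := by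
    intro s t
    rw [hdiff, map_smul, map_smul, hbv, smul_zero, abs_zero]
    exact abs_nonneg _
  have ha1 : ∀ s t : ℝ, |a ((y + t • v) - (y + s • v))| = |t - s| := by
    intro s t
    rw [hdiff, map_smul, hav]; simp
  have h := CC2.pieces (fun t => t) measurable_id (Set.Icc (0 : ℝ) 1) measurableSet_Icc 1 ρ hρ
    (fun s hs t ht => by rw [abs_le]; constructor <;> linarith [hs.1, hs.2, ht.1, ht.2])
    (fun t => ENNReal.ofReal (q ^ outs g p r n (y + t • v)))
    (ENNReal.ofReal (2 * (ρ / 1) * κ ^ n)) (by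
      intro A' _ hA'm hA's
      refine CC2.key a b hl hM hab hg hc0 hc hρ hd hMr hq hκ p n (fun t => y + t • v)
        (by fun_prop) hcone 1 one_pos (fun s t => by rw [ha1]; simp) A' hA'm ?_
      intro s hs t ht
      rw [ha1]
      exact hA's s hs t ht)
  refine h.trans ?_
  rw [← ENNReal.ofReal_mul (by positivity)]
  apply le_of_eq
  congr 1
  ring

end Pool.Agent.Lib.Plu
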