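import Pool.Agent.Lib.MP_c44407_an.Cone10

/-! Row CC5 (helper4): measurability. -/

open MeasureTheory Filter

namespace Pool.Agent.Lib.Plu

theorem near_meas4 (p : E) (r : ℝ) : MeasurableSet {w : E | Near r w p} := by
  have h : {w : E | Near r w p} = ⋃ m : Fin 2 → ℤ, {w : E | ‖w - p - zv m‖ ≤ r} := by
    ext w
    simp [Near]
  rw [h]
  refine MeasurableSet.iUnion fun m => ?_
  exact (isClosed_le (by fun_prop) continuous_const).measurableSet

theorem cc5_4 : StCC5 := by
  intro g p r n
  show Measurable (fun z => ∑ i ∈ Finset.range n,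
    Set.indicator {w | ¬ Near r w p} (fun _ => (1 : ℕ)) (g.map^[i] z))
  refine Finset.measurable_fun_sum _ fun i _ => ?_
  have hi : Measurable (Set.indicator {w : E | ¬ Near r w p} (fun _ => (1 : ℕ))) :=
    measurable_const.indicator (near_meas4 p r).compl
  exact hi.comp (g.contDiff_map.continuous.iterate i).measurable

end Pool.Agent.Lib.Plu
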