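import Mathlib
import Pool.Agent.Lib.MP_c44407_an.Cone10
import Pool.Agent.Lib.MP_c44407_an.CC1_4
import Pool.Agent.Lib.MP_c44407_an.CC5_4

/-! Row CC2: the curve lemma. -/

open MeasureTheory Filter Set

namespace Pool.Agent.Lib.Plu.CC2_5

/-- curves in the cone -/
structure Cv (a b : E →L[ℝ] ℝ) (γ : ℝ → E) : Prop where
  c1 : ContDiff ℝ 1 γ
  ne : ∀ t, a (deriv γ t) ≠ 0
  cone : ∀ t, |b (deriv γ t)| ≤ |a (deriv γ t)|

variable {a b : E →L[ℝ] ℝ} {γ : ℝ → E}

theorem Cv.hd (h : Cv a b γ) (t : ℝ) : HasDerivAt γ (deriv γ t) t :=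
  ((h.c1.differentiable one_ne_zero) t).hasDerivAt

theorem Cv.hda (h : Cv a b γ) (L : E →L[ℝ] ℝ) (t : ℝ) :
    HasDerivAt (fun t => L (γ t)) (L (deriv γ t)) t :=
  L.hasFDerivAt.comp_hasDerivAt t (h.hd t)

theorem Cv.cd (h : Cv a b γ) : Continuous (deriv γ) := h.c1.continuous_deriv le_rfl

theorem Cv.sign (h : Cv a b γ) : (∀ t, 0 < a (deriv γ t)) ∨ ∀ t, a (deriv γ t) < 0 := by
  have hc : Continuous fun t => a (deriv γ t) := a.continuous.comp h.cd
  by_contra hcon
  push Not at hcon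
  obtain ⟨⟨t1, h1⟩, t2, h2⟩ := hcon
  have h3 : (0 : ℝ) ∈ Set.range fun t => a (deriv γ t) :=
    mem_range_of_exists_le_of_exists_ge hc ⟨t1, h1⟩ ⟨t2, h2⟩
  obtain ⟨t, ht⟩ := h3
  exact h.ne t ht

/-- the length function -/
theorem Cv.len (h : Cv a b γ) : ∃ A : ℝ → ℝ, StrictMono A ∧
    (∀ t, HasDerivAt A |a (deriv γ t)| t) ∧ ∀ s t, |a (γ t) - a (γ s)| = |A t - A s| := by
  rcases h.sign with hs | hs
  · refine ⟨fun t => a (γ t), ?_, fun t => ?_, fun s t => rfl⟩
    · refine strictMono_of_deriv_pos fun t => ?_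
      rw [(h.hda a t).deriv]
      exact hs t
    · rw [abs_of_pos (hs t)]
      exact h.hda a t
  · refine ⟨fun t => - a (γ t), ?_, fun t => ?_, fun s t => ?_⟩
    · refine strictMono_of_deriv_pos fun t => ?_
      have e : HasDerivAt (fun t => - a (γ t)) (-(a (deriv γ t))) t := (h.hda a t).neg
      rw [e.deriv]
      exact neg_pos.2 (hs t)
    · rw [abs_of_neg (hs t)]
      exact (h.hda a t).neg
    · rw [← abs_neg]
      congr 1
      ring

theorem bd_of_deriv {A h h' A' : ℝ → ℝ} {c : ℝ} (hA : ∀ t, HasDerivAt A (A' t) t)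
    (hh : ∀ t, HasDerivAt h (h' t) t) (H : ∀ t, |h' t| ≤ c * A' t) {s t : ℝ} (hst : s ≤ t) :
    |h t - h s| ≤ c * (A t - A s) := by
  have h1 : Monotone fun t => c * A t - h t := by
    have e : ∀ t, HasDerivAt (fun t => c * A t - h t) (c * A' t - h' t) t := fun t =>
      ((hA t).const_mul c).sub (hh t)
    refine monotone_of_deriv_nonneg (fun t => (e t).differentiableAt) fun t => ?_
    rw [(e t).deriv]
    have := (abs_le.1 (H t)).2
    linarith
  have h2 : Monotone fun t => c * A t + h t := by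
    have e : ∀ t, HasDerivAt (fun t => c * A t + h t) (c * A' t + h' t) t := fun t =>
      ((hA t).const_mul c).add (hh t)
    refine monotone_of_deriv_nonneg (fun t => (e t).differentiableAt) fun t => ?_
    rw [(e t).deriv]
    have := (abs_le.1 (H t)).1
    linarith
  have h3 := h1 hst
  have h4 := h2 hst
  simp only at h3 h4
  rw [abs_le]
  constructor <;> linarith

theorem Cv.cmp (h : Cv a b γ) {k k' : ℝ → ℝ} {c : ℝ} (hc : 0 ≤ c)
    (hk : ∀ t, HasDerivAt k (k' t) t)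
    (H : ∀ t, |k' t| ≤ c * |a (deriv γ t)|) (s t : ℝ) :
    |k t - k s| ≤ c * |a (γ t) - a (γ s)| := by
  obtain ⟨A, hA1, hA2, hA3⟩ := h.len
  rw [hA3]
  rcases le_total s t with hst | hst
  · exact (bd_of_deriv hA2 hk H hst).trans (mul_le_mul_of_nonneg_left (le_abs_self _) hc)
  · rw [abs_sub_comm (k t), abs_sub_comm (A t)]
    exact (bd_of_deriv hA2 hk H hst).trans (mul_le_mul_of_nonneg_left (le_abs_self _) hc)

theorem Cv.cone_diff (h : Cv a b γ) (s t : ℝ) :
    |b (γ t - γ s)| ≤ |a (γ t - γ s)| := by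
  have := h.cmp (c := 1) zero_le_one (h.hda b) (fun t => by rw [one_mul]; exact h.cone t) s t
  rwa [one_mul, ← map_sub, ← map_sub] at this

theorem Cv.comp {l M : ℝ} (hl : 1 < l) {g : TorusDiffeo} (hg : ConeMap a b l M g)
    (h : Cv a b γ) : Cv a b (fun t => g.map (γ t)) ∧
      (∀ t, l * |a (deriv γ t)| ≤ |a (deriv (fun t => g.map (γ t)) t)|) ∧
      ∀ t, |a (deriv (fun t => g.map (γ t)) t)| ≤ M * |a (deriv γ t)| := by
  have hd : ∀ t, deriv (fun t => g.map (γ t)) t = fderiv ℝ g.map (γ t) (deriv γ t) := by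
    intro t
    have h1 : HasFDerivAt g.map (fderiv ℝ g.map (γ t)) (γ t) :=
      ((g.contDiff_map.differentiable one_ne_zero) (γ t)).hasFDerivAt
    exact (h1.comp_hasDerivAt t (h.hd t)).deriv
  refine ⟨⟨g.contDiff_map.comp h.c1, fun t h0 => ?_, fun t => ?_⟩, fun t => ?_, fun t => ?_⟩
  · rw [hd] at h0
    have h2 := (hg (γ t) (deriv γ t) (h.cone t)).2.1
    rw [h0, abs_zero] at h2
    have h3 : 0 < |a (deriv γ t)| := abs_pos.2 (h.ne t)
    nlinarith
  · rw [hd]
    exact (hg (γ t) (deriv γ t) (h.cone t)).1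
  · rw [hd]
    exact (hg (γ t) (deriv γ t) (h.cone t)).2.1
  · rw [hd]
    exact (hg (γ t) (deriv γ t) (h.cone t)).2.2

theorem Cv.comp_len {l M : ℝ} (hl : 1 < l) (hM : 0 ≤ M) {g : TorusDiffeo}
    (hg : ConeMap a b l M g) (h : Cv a b γ) (s t : ℝ) :
    |a (g.map (γ t)) - a (g.map (γ s))| ≤ M * |a (γ t) - a (γ s)| :=
  h.cmp hM ((h.comp hl hg).1.hda a) (h.comp hl hg).2.2 s t

/-- the weighted length -/
noncomputable def F (a : E →L[ℝ] ℝ) (g : TorusDiffeo) (p : E) (r q : ℝ) (n : ℕ) (γ : ℝ → E)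
    (t : ℝ) : ENNReal :=
  ENNReal.ofReal (q ^ outs g p r n (γ t) * |a (deriv γ t)|)

theorem F_meas (h : Cv a b γ) (g : TorusDiffeo) (p : E) (r q : ℝ) (n : ℕ) :
    Measurable (F a g p r q n γ) := by
  unfold F
  refine Measurable.ennreal_ofReal (Measurable.mul ?_ ?_)
  · have h1 : Measurable fun t => outs g p r n (γ t) :=
      (cc5_4 g p r n).comp h.c1.continuous.measurable
    exact (measurable_from_top (f := fun k : ℕ => q ^ k)).comp h1
  · exact (a.continuous.comp h.cd).abs.measurable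

/-- the base case -/
theorem F_zero (h : Cv a b γ) (g : TorusDiffeo) (p : E) (r q : ℝ) {s t : ℝ} (hst : s ≤ t) :
    ∫⁻ τ in Icc s t, F a g p r q 0 γ τ = ENNReal.ofReal |a (γ t) - a (γ s)| := by
  obtain ⟨A, hA1, hA2, hA3⟩ := h.len
  have hc : Continuous fun t => |a (deriv γ t)| := (a.continuous.comp h.cd).abs
  have h1 : ∀ τ, F a g p r q 0 γ τ = ENNReal.ofReal |a (deriv γ τ)| := by
    intro τ
    unfold F outs
    simp
  simp only [h1]
  rw [← ofReal_integral_eq_lintegral_ofReal (hc.integrableOn_Icc)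
    (Eventually.of_forall fun _ => abs_nonneg _), integral_Icc_eq_integral_Ioc,
    ← intervalIntegral.integral_of_le hst,
    intervalIntegral.integral_eq_sub_of_hasDerivAt (fun x _ => hA2 x)
      (hc.intervalIntegrable s t), hA3, abs_of_nonneg (sub_nonneg.2 (hA1.monotone hst))]

/-- from short curves to long curves -/
theorem pieces (h : Cv a b γ) {ρ : ℝ} (hρ : 0 < ρ) {f : ℝ → ENNReal} {C : ENNReal}
    (H : ∀ s t, s ≤ t → |a (γ t) - a (γ s)| ≤ ρ → ∫⁻ τ in Icc s t, f τ ≤ C) (m : ℕ) :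
    ∀ s t, s ≤ t → |a (γ t) - a (γ s)| ≤ m * ρ → ∫⁻ τ in Icc s t, f τ ≤ m * C := by
  obtain ⟨A, hA1, hA2, hA3⟩ := h.len
  have hAc : Continuous A := continuous_iff_continuousAt.2 fun t => (hA2 t).continuousAt
  induction m with
  | zero =>
    intro s t hst hle
    rw [hA3, Nat.cast_zero, zero_mul] at hle
    have h1 : A t = A s := by
      have := abs_nonpos_iff.1 hle
      linarith
    have h2 : t = s := hA1.injective h1
    subst h2
    simp
  | succ m ih =>
    intro s t hst hle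
    by_cases hsm : |a (γ t) - a (γ s)| ≤ ρ
    · refine (H s t hst hsm).trans ?_
      push_cast
      rw [add_mul, one_mul]
      exact le_add_self
    · push Not at hsm
      rw [hA3, abs_of_nonneg (sub_nonneg.2 (hA1.monotone hst))] at hsm hle
      obtain ⟨u, hu, hu2⟩ : A s + ρ ∈ A '' Icc s t := by
        refine intermediate_value_Icc hst hAc.continuousOn ⟨by linarith, by linarith⟩
      have h1 : Icc s t ⊆ Icc s u ∪ Icc u t := by
        intro x hx
        rcases le_total x u with h | h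
        · exact Or.inl ⟨hx.1, h⟩
        · exact Or.inr ⟨h, hx.2⟩
      refine (lintegral_mono_set h1).trans ((lintegral_union_le _ _ _).trans ?_)
      push_cast
      rw [add_mul, one_mul, add_comm]
      refine add_le_add (ih u t hu.2 ?_) (H s u hu.1 ?_)
      · rw [hA3, abs_of_nonneg (sub_nonneg.2 (hA1.monotone hu.2))]
        push_cast at hle
        linarith
      · rw [hA3, abs_of_nonneg (sub_nonneg.2 (hA1.monotone hu.1))]
        linarith

theorem zv_small {m m' : Fin 2 → ℤ} (h : ‖zv m - zv m'‖ < 1) : m = m' := by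
  funext i
  have h1 : ‖(zv m - zv m') i‖ ≤ ‖zv m - zv m'‖ := PiLp.norm_apply_le (zv m - zv m') i
  have h2 : (zv m - zv m') i = ((m i - m' i : ℤ) : ℝ) := by
    unfold zv
    simp
  rw [h2, Real.norm_eq_abs] at h1
  have h3 : |((m i - m' i : ℤ) : ℝ)| < 1 := h1.trans_lt h
  rw [← Int.cast_abs] at h3
  have h4 : |m i - m' i| < 1 := by exact_mod_cast h3
  have h5 : m i - m' i = 0 := Int.abs_lt_one_iff.1 h4
  omega

/-- the part of a short curve near `p` lies in a curve with a short image -/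
theorem hull {l M : ℝ} (hl : 1 < l) (hM : 0 ≤ M) {g : TorusDiffeo} (hg : ConeMap a b l M g)
    (h : Cv a b γ) {K : ℝ} (hK0 : 0 < K) (hK : ∀ v, |b v| ≤ |a v| → ‖v‖ ≤ K * |a v|)
    {ρ r : ℝ} (hρ0 : 0 < ρ) (hρ : K * ρ ≤ 1 / 4) (hr0 : 0 < r) (hr : r ≤ 1 / 4)
    (hr2 : M * (‖a‖ * (2 * r)) ≤ ρ) (p : E) {s t : ℝ} (hst : s ≤ t)
    (hlen : |a (γ t) - a (γ s)| ≤ ρ) :
    ∃ s1 t1, s1 ≤ t1 ∧ (∀ τ ∈ Icc s t, Near r (γ τ) p → τ ∈ Icc s1 t1) ∧
      |a (g.map (γ t1)) - a (g.map (γ s1))| ≤ ρ := by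
  obtain ⟨A, hA1, hA2, hA3⟩ := h.len
  set N : Set ℝ := {τ | τ ∈ Icc s t ∧ Near r (γ τ) p} with hN
  by_cases hne : N.Nonempty
  · have key : ∀ x ∈ N, ∀ y ∈ N, |a (g.map (γ x)) - a (g.map (γ y))| ≤ ρ := by
      rintro x ⟨hx, m1, h1⟩ y ⟨hy, m2, h2⟩
      have h3 : |a (γ x) - a (γ y)| ≤ ρ := by
        refine le_trans ?_ hlen
        rw [hA3, hA3]
        have e1 := hA1.monotone hx.1
        have e2 := hA1.monotone hx.2
        have e3 := hA1.monotone hy.1
        have e4 := hA1.monotone hy.2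
        rw [abs_of_nonneg (sub_nonneg.2 (hA1.monotone hst)), abs_le]
        constructor <;> linarith
      have h4 : ‖γ x - γ y‖ ≤ K * ρ := by
        refine (hK _ (h.cone_diff y x)).trans ?_
        rw [map_sub]
        exact mul_le_mul_of_nonneg_left h3 hK0.le
      have h5 : m1 = m2 := by
        refine zv_small ?_
        have e1 : zv m1 - zv m2 = (γ x - γ y) - (γ x - p - zv m1) + (γ y - p - zv m2) := by
          abel
        rw [e1]
        have := norm_add_le ((γ x - γ y) - (γ x - p - zv m1)) (γ y - p - zv m2)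
        have := norm_sub_le (γ x - γ y) (γ x - p - zv m1)
        linarith
      subst h5
      have h6 : ‖γ x - γ y‖ ≤ 2 * r := by
        have e1 : γ x - γ y = (γ x - p - zv m1) - (γ y - p - zv m1) := by abel
        rw [e1]
        have := norm_sub_le (γ x - p - zv m1) (γ y - p - zv m1)
        linarith
      have h7 : |a (γ x) - a (γ y)| ≤ ‖a‖ * (2 * r) := by
        rw [← map_sub, ← Real.norm_eq_abs]
        exact (a.le_opNorm _).trans (mul_le_mul_of_nonneg_left h6 (norm_nonneg _))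
      exact ((h.comp_len hl hM hg y x).trans (mul_le_mul_of_nonneg_left h7 hM)).trans hr2
    have hbb : BddBelow N := ⟨s, fun x hx => hx.1.1⟩
    have hba : BddAbove N := ⟨t, fun x hx => hx.1.2⟩
    refine ⟨sInf N, sSup N, ?_, fun τ hτ hnear => ⟨csInf_le hbb ⟨hτ, hnear⟩,
      le_csSup hba ⟨hτ, hnear⟩⟩, ?_⟩
    · obtain ⟨x, hx⟩ := hne
      exact (csInf_le hbb hx).trans (le_csSup hba hx)
    · have hcont : Continuous fun x => a (g.map (γ x)) :=
        a.continuous.comp (g.contDiff_map.continuous.comp h.c1.continuous)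
      have hcl : IsClosed {z : ℝ × ℝ | |a (g.map (γ z.1)) - a (g.map (γ z.2))| ≤ ρ} :=
        isClosed_le ((hcont.comp continuous_fst).sub (hcont.comp continuous_snd)).abs
          continuous_const
      have hsub : N ×ˢ N ⊆ {z : ℝ × ℝ | |a (g.map (γ z.1)) - a (g.map (γ z.2))| ≤ ρ} := by
        rintro ⟨x, y⟩ ⟨hx, hy⟩
        exact key x hx y hy
      have h8 := closure_minimal hsub hcl
      rw [closure_prod_eq] at h8
      have h9 : (sSup N, sInf N) ∈ closure N ×ˢ closure N :=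
        ⟨csSup_mem_closure hne hba, csInf_mem_closure hne hbb⟩
      exact h8 h9
  · refine ⟨s, s, le_rfl, fun τ hτ hnear => (hne ⟨τ, hτ, hnear⟩).elim, ?_⟩
    rw [sub_self, abs_zero]
    exact hρ0.le

theorem outs_succ (g : TorusDiffeo) (p : E) (r : ℝ) (n : ℕ) (z : E) :
    outs g p r (n + 1) z = outs g p r n (g.map z) +
      Set.indicator {w | ¬ Near r w p} (fun _ => 1) z := by
  unfold outs
  rw [Finset.sum_range_succ']
  simp only [Function.iterate_succ, Function.comp_apply, Function.iterate_zero, id_eq]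

/-- the induction -/
theorem ind {l M : ℝ} (hl : 1 < l) (hM : 0 ≤ M) {g : TorusDiffeo} (hg : ConeMap a b l M g)
    {K : ℝ} (hK0 : 0 < K) (hK : ∀ v, |b v| ≤ |a v| → ‖v‖ ≤ K * |a v|)
    {ρ r : ℝ} (hρ0 : 0 < ρ) (hρ : K * ρ ≤ 1 / 4) (hr0 : 0 < r) (hr : r ≤ 1 / 4)
    (hr2 : M * (‖a‖ * (2 * r)) ≤ ρ) {q : ℝ} (hq0 : 0 < q) {m : ℕ} (hm : M ≤ m) {κ : ℝ}
    (hκ : l⁻¹ * (1 + q * m) ≤ κ) (p : E) (n : ℕ) :
    ∀ γ, Cv a b γ → ∀ s t, s ≤ t → |a (γ t) - a (γ s)| ≤ ρ →
      ∫⁻ τ in Icc s t, F a g p r q n γ τ ≤ ENNReal.ofReal (ρ * κ ^ n) := by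
  have hl0 : 0 < l := by linarith
  have hκ0 : 0 < κ := lt_of_lt_of_le (by positivity) hκ
  induction n with
  | zero =>
    intro γ h s t hst hlen
    rw [F_zero h g p r q hst, pow_zero, mul_one]
    exact ENNReal.ofReal_le_ofReal hlen
  | succ n ih =>
    intro γ h s t hst hlen
    obtain ⟨hc, hc1, hc2⟩ := h.comp hl hg
    obtain ⟨s1, t1, hst1, hin, hlen1⟩ := hull hl hM hg h hK0 hK hρ0 hρ hr0 hr hr2 p hst hlen
    set δ : ℝ → E := fun t => g.map (γ t) with hδ
    have hF := F_meas hc g p r q n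
    have hpt : ∀ τ ∈ Icc s t, F a g p r q (n + 1) γ τ ≤ ENNReal.ofReal l⁻¹ *
        ((Icc s1 t1).indicator (F a g p r q n δ) τ + ENNReal.ofReal q * F a g p r q n δ τ) := by
      intro τ hτ
      have e0 : |a (deriv γ τ)| ≤ l⁻¹ * |a (deriv δ τ)| := by
        rw [inv_mul_eq_div, le_div_iff₀ hl0, mul_comm]
        exact hc1 τ
      by_cases hnear : Near r (γ τ) p
      · rw [Set.indicator_of_mem (hin τ hτ hnear)]
        refine le_trans ?_ (mul_le_mul' le_rfl le_self_add)
        unfold F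
        rw [← ENNReal.ofReal_mul (inv_nonneg.2 hl0.le)]
        refine ENNReal.ofReal_le_ofReal ?_
        rw [outs_succ, Set.indicator_of_notMem (by simpa using hnear), add_zero]
        have h1 : 0 ≤ q ^ outs g p r n (g.map (γ τ)) := by positivity
        calc q ^ outs g p r n (g.map (γ τ)) * |a (deriv γ τ)|
            ≤ q ^ outs g p r n (g.map (γ τ)) * (l⁻¹ * |a (deriv δ τ)|) :=
              mul_le_mul_of_nonneg_left e0 h1
          _ = _ := by rw [hδ]; ring
      · refine le_trans ?_ (mul_le_mul' le_rfl le_add_self)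
        unfold F
        rw [← ENNReal.ofReal_mul hq0.le, ← ENNReal.ofReal_mul (inv_nonneg.2 hl0.le)]
        refine ENNReal.ofReal_le_ofReal ?_
        rw [outs_succ, Set.indicator_of_mem (by simpa using hnear), pow_add, pow_one]
        have h1 : 0 ≤ q ^ outs g p r n (g.map (γ τ)) * q := by positivity
        calc q ^ outs g p r n (g.map (γ τ)) * q * |a (deriv γ τ)|
            ≤ q ^ outs g p r n (g.map (γ τ)) * q * (l⁻¹ * |a (deriv δ τ)|) :=
              mul_le_mul_of_nonneg_left e0 h1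
          _ = _ := by rw [hδ]; ring
    have h1 : ∫⁻ τ in Icc s1 t1, F a g p r q n δ τ ≤ ENNReal.ofReal (ρ * κ ^ n) :=
      ih δ hc s1 t1 hst1 hlen1
    have h2 : ∫⁻ τ in Icc s t, F a g p r q n δ τ ≤ m * ENNReal.ofReal (ρ * κ ^ n) := by
      refine pieces hc hρ0 (ih δ hc) m s t hst ?_
      refine (h.comp_len hl hM hg s t).trans ?_
      exact mul_le_mul hm hlen (abs_nonneg _) (Nat.cast_nonneg m)
    calc ∫⁻ τ in Icc s t, F a g p r q (n + 1) γ τ
        ≤ ∫⁻ τ in Icc s t, ENNReal.ofReal l⁻¹ *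
        ((Icc s1 t1).indicator (F a g p r q n δ) τ + ENNReal.ofReal q * F a g p r q n δ τ) :=
          setLIntegral_mono' measurableSet_Icc hpt
      _ = ENNReal.ofReal l⁻¹ * ((∫⁻ τ in Icc s t, (Icc s1 t1).indicator (F a g p r q n δ) τ) +
          ENNReal.ofReal q * ∫⁻ τ in Icc s t, F a g p r q n δ τ) := by
          have e1 : Measurable fun τ => (Icc s1 t1).indicator (F a g p r q n δ) τ +
              ENNReal.ofReal q * F a g p r q n δ τ :=
            (hF.indicator measurableSet_Icc).add (hF.const_mul _)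
          rw [lintegral_const_mul _ e1,
            lintegral_add_left (hF.indicator measurableSet_Icc), lintegral_const_mul _ hF]
      _ ≤ ENNReal.ofReal l⁻¹ * (ENNReal.ofReal (ρ * κ ^ n) +
          ENNReal.ofReal q * (m * ENNReal.ofReal (ρ * κ ^ n))) := by
          refine mul_le_mul' le_rfl (add_le_add ?_ (mul_le_mul' le_rfl h2))
          refine le_trans ?_ h1
          refine (setLIntegral_le_lintegral _ _).trans ?_
          rw [lintegral_indicator measurableSet_Icc]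
      _ = ENNReal.ofReal (l⁻¹ * (1 + q * m) * (ρ * κ ^ n)) := by
          have e1 : (m : ENNReal) = ENNReal.ofReal (m : ℝ) := (ENNReal.ofReal_natCast m).symm
          rw [e1, ← ENNReal.ofReal_mul (Nat.cast_nonneg m), ← ENNReal.ofReal_mul hq0.le,
            ← ENNReal.ofReal_add (by positivity) (by positivity),
            ← ENNReal.ofReal_mul (inv_nonneg.2 hl0.le)]
          congr 1
          ring
      _ ≤ ENNReal.ofReal (ρ * κ ^ (n + 1)) := by
          refine ENNReal.ofReal_le_ofReal ?_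
          have h3 : l⁻¹ * (1 + q * m) * (ρ * κ ^ n) ≤ κ * (ρ * κ ^ n) :=
            mul_le_mul_of_nonneg_right hκ (by positivity)
          refine h3.trans (le_of_eq ?_)
          ring

theorem exists_dir (a b : E →L[ℝ] ℝ) (hab : ∀ v, a v = 0 → b v = 0 → v = 0) :
    ∃ v, a v = 1 ∧ b v = 0 := by
  let T : E →ₗ[ℝ] ℝ × ℝ := ((a.prod b : E →L[ℝ] ℝ × ℝ) : E →ₗ[ℝ] ℝ × ℝ)
  have hT : Function.Injective T := by
    rw [← LinearMap.ker_eq_bot, LinearMap.ker_eq_bot']
    intro v hv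
    have h1 : (a v, b v) = ((0 : ℝ), (0 : ℝ)) := hv
    exact hab v (congrArg Prod.fst h1) (congrArg Prod.snd h1)
  have hf : Module.finrank ℝ E = Module.finrank ℝ (ℝ × ℝ) := by simp
  have hS := (LinearMap.injective_iff_surjective_of_finrank_eq_finrank hf).1 hT
  obtain ⟨v, hv⟩ := hS (1, 0)
  have h1 : (a v, b v) = ((1 : ℝ), (0 : ℝ)) := hv
  exact ⟨v, congrArg Prod.fst h1, congrArg Prod.snd h1⟩

theorem cc2_5 : StCC2 := by
  intro a b hab l M hl hM
  obtain ⟨K, hK0, hK⟩ := cone_norm4 a b hab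
  obtain ⟨v, hv1, hv2⟩ := exists_dir a b hab
  have hM0 : 0 < M := by linarith
  have hl0 : 0 < l := by linarith
  set ρ : ℝ := 1 / (4 * K) with hρd
  have hρ0 : 0 < ρ := by positivity
  have hρ : K * ρ ≤ 1 / 4 := by
    rw [hρd]
    field_simp
    norm_num
  set r : ℝ := min (1 / 4) (ρ / (2 * M * (‖a‖ + 1))) with hrd
  have hr0 : 0 < r := lt_min (by norm_num) (by positivity)
  have hr : r ≤ 1 / 4 := min_le_left _ _
  have hr2 : M * (‖a‖ * (2 * r)) ≤ ρ := by
    have h1 : r ≤ ρ / (2 * M * (‖a‖ + 1)) := min_le_right _ _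
    rw [le_div_iff₀ (by positivity)] at h1
    have h2 : 0 ≤ ‖a‖ := norm_nonneg _
    have h3 : 0 ≤ r * M := by positivity
    nlinarith
  obtain ⟨m, hm⟩ := exists_nat_ge M
  have hm0 : (0 : ℝ) < m := lt_of_lt_of_le hM0 hm
  set q : ℝ := min (1 / 2) ((l - 1) / (2 * m)) with hqd
  have hq0 : 0 < q := lt_min (by norm_num) (div_pos (by linarith) (by positivity))
  have hq1 : q < 1 := lt_of_le_of_lt (min_le_left _ _) (by norm_num)
  have hqm : q * m ≤ (l - 1) / 2 := by
    have h1 : q ≤ (l - 1) / (2 * m) := min_le_right _ _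
    rw [le_div_iff₀ (by positivity)] at h1
    linarith
  have hκ1 : l⁻¹ * (1 + q * m) < 1 := by
    rw [inv_mul_eq_div, div_lt_one hl0]
    linarith
  have hκ0 : 0 < l⁻¹ * (1 + q * m) := by positivity
  obtain ⟨k, hk⟩ := exists_nat_ge (1 / ρ)
  refine ⟨r, hr0, q, hq0, hq1, l⁻¹ * (1 + q * m), hκ0, hκ1, k * ρ, v, fun g hg p y n => ?_⟩
  have hcv : Cv a b (fun t : ℝ => y + t • v) := by
    have hd : ∀ t, deriv (fun t : ℝ => y + t • v) t = v := by
      intro t
      have h1 : HasDerivAt (fun t : ℝ => y + t • v) ((1 : ℝ) • v) t :=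
        ((hasDerivAt_id t).smul_const v).const_add y
      rw [h1.deriv, one_smul]
    refine ⟨by fun_prop, fun t => ?_, fun t => ?_⟩
    · rw [hd, hv1]
      exact one_ne_zero
    · rw [hd, hv1, hv2, abs_zero]
      exact abs_nonneg _
  have hd : ∀ t, deriv (fun t : ℝ => y + t • v) t = v := by
    intro t
    have h1 : HasDerivAt (fun t : ℝ => y + t • v) ((1 : ℝ) • v) t :=
      ((hasDerivAt_id t).smul_const v).const_add y
    rw [h1.deriv, one_smul]
  have h1 := pieces hcv hρ0 (ind hl hM0.le hg hK0 hK hρ0 hρ hr0 hr hr2 hq0 hm le_rfl p n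
    (fun t : ℝ => y + t • v) hcv) k 0 1 zero_le_one (by
      rw [← map_sub, one_smul, zero_smul, add_zero, add_sub_cancel_left, hv1, abs_one]
      rwa [div_le_iff₀ hρ0] at hk)
  have h2 : ∀ t, F a g p r q n (fun t : ℝ => y + t • v) t =
      ENNReal.ofReal (q ^ outs g p r n (y + t • v)) := by
    intro t
    unfold F
    rw [hd, hv1, abs_one, mul_one]
  simp only [h2] at h1
  refine h1.trans (le_of_eq ?_)
  rw [← ENNReal.ofReal_natCast, ← ENNReal.ofReal_mul (Nat.cast_nonneg k), mul_assoc]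

end Pool.Agent.Lib.Plu.CC2_5
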