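import Mathlib
import Pool.Agent.Lib.MP_c44407_an.Cone10

/-! Row CC3: equal statistics with an orbit close to `p` bound the frequency of the visits outside
a neighbourhood of `p`. -/

open MeasureTheory Filter

namespace Pool.Agent.Lib.Plu.CC3_5

/-- the points above the point of the torus below `p` -/
def lat (p : E) : Set E := Set.range fun m : Fin 2 → ℤ => p + zv m

/-- the test function -/
noncomputable def tst (p : E) (r : ℝ) (z : E) : ℝ :=
  max 0 (min 1 (Metric.infDist z (lat p) - r / 2))

theorem lat_nonempty (p : E) : (lat p).Nonempty := Set.range_nonempty _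

theorem zv_add (m m' : Fin 2 → ℤ) : zv (m + m') = zv m + zv m' := by
  unfold zv
  ext i
  simp

theorem infDist_add (p : E) (z : E) (m : Fin 2 → ℤ) :
    Metric.infDist (z + zv m) (lat p) ≤ Metric.infDist z (lat p) := by
  refine le_of_forall_pos_le_add fun ε hε => ?_
  obtain ⟨w, ⟨m', rfl⟩, hw⟩ := (Metric.infDist_lt_iff (lat_nonempty p)).1
    (lt_add_of_pos_right (Metric.infDist z (lat p)) hε)
  refine (Metric.infDist_le_dist_of_mem (Set.mem_range_self (m + m'))).trans ?_
  have h1 : dist (z + zv m) (p + zv (m + m')) = dist z (p + zv m') := by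
    rw [zv_add, dist_eq_norm, dist_eq_norm]
    congr 1
    abel
  rw [h1]
  exact hw.le

theorem zv_neg (m : Fin 2 → ℤ) : zv (-m) = - zv m := by
  unfold zv
  ext i
  simp

theorem infDist_add_eq (p : E) (z : E) (m : Fin 2 → ℤ) :
    Metric.infDist (z + zv m) (lat p) = Metric.infDist z (lat p) := by
  refine le_antisymm (infDist_add p z m) ?_
  have h := infDist_add p (z + zv m) (-m)
  rwa [zv_neg, add_neg_cancel_right] at h

theorem test_tst (p : E) (r : ℝ) : Test (tst p r) := by
  refine ⟨fun x m => ?_, ?_, fun x => ?_⟩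
  · unfold tst
    rw [infDist_add_eq]
  · refine LipschitzWith.of_dist_le_mul fun x y => ?_
    have h1 : |Metric.infDist x (lat p) - Metric.infDist y (lat p)| ≤ dist x y := by
      have := (Metric.lipschitz_infDist_pt (lat p)).dist_le_mul x y
      rw [Real.dist_eq] at this
      simpa using this
    rw [Real.dist_eq, NNReal.coe_one, one_mul]
    unfold tst
    refine (abs_max_sub_max_le_max _ _ _ _).trans ?_
    refine max_le ?_ ?_
    · simp
    · refine (abs_min_sub_min_le_max _ _ _ _).trans (max_le ?_ ?_)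
      · simp
      · refine le_trans (le_of_eq ?_) h1
        congr 1
        ring
  · unfold tst
    rw [abs_of_nonneg (le_max_left _ _)]
    exact max_le zero_le_one (min_le_left _ _)

theorem tst_nonneg (p : E) (r : ℝ) (z : E) : 0 ≤ tst p r z := le_max_left _ _

theorem tst_near {p z : E} {r : ℝ} (h : Near (r / 2) z p) : tst p r z = 0 := by
  obtain ⟨m, hm⟩ := h
  have h1 : Metric.infDist z (lat p) ≤ r / 2 := by
    refine (Metric.infDist_le_dist_of_mem (Set.mem_range_self m)).trans ?_
    rw [dist_eq_norm]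
    refine le_trans (le_of_eq ?_) hm
    congr 1
    abel
  unfold tst
  refine max_eq_left ((min_le_right _ _).trans (by linarith))

theorem tst_far {p z : E} {r : ℝ} (h : ¬ Near r z p) : min 1 (r / 2) ≤ tst p r z := by
  have h1 : r ≤ Metric.infDist z (lat p) := by
    by_contra hlt
    push Not at hlt
    obtain ⟨w, ⟨m, rfl⟩, hw⟩ := (Metric.infDist_lt_iff (lat_nonempty p)).1 hlt
    refine h ⟨m, ?_⟩
    refine le_trans (le_of_eq ?_) hw.le
    show ‖z - p - zv m‖ = dist z (p + zv m)
    rw [dist_eq_norm, sub_sub]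
  unfold tst
  exact (min_le_min le_rfl (by linarith)).trans (le_max_right _ _)

theorem outs_le (g : TorusDiffeo) (p y : E) (r : ℝ) (n : ℕ) :
    min 1 (r / 2) * (outs g p r n y : ℝ) ≤ ∑ i ∈ Finset.range n, tst p r (g.map^[i] y) := by
  unfold outs
  push_cast
  rw [Finset.mul_sum]
  refine Finset.sum_le_sum fun i _ => ?_
  by_cases h : Near r (g.map^[i] y) p
  · rw [Set.indicator_of_notMem (by simpa using h)]
    simpa using tst_nonneg p r _
  · rw [Set.indicator_of_mem (by simpa using h)]
    simpa using tst_far h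

theorem cc3_5 : StCC3 := by
  intro g p x' y r hr hx hs η hη
  have hδ : 0 < min 1 (r / 2) := lt_min one_pos (by linarith)
  obtain ⟨N, hN⟩ := hs (η * min 1 (r / 2)) (mul_pos hη hδ)
  refine ⟨N, fun n hn => ?_⟩
  rcases Nat.eq_zero_or_pos n with rfl | hn0
  · simp [outs]
  have hn1 : (0 : ℝ) < n := Nat.cast_pos.2 hn0
  have h1 := hN n hn (tst p r) (test_tst p r)
  have h2 : avg g (tst p r) n x' = 0 := by
    unfold avg
    rw [Finset.sum_eq_zero fun i _ => tst_near (hx i), zero_div]
  rw [h2, sub_zero] at h1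
  have h3 : avg g (tst p r) n y ≤ η * min 1 (r / 2) := (le_abs_self _).trans h1
  unfold avg at h3
  rw [div_le_iff₀ hn1] at h3
  have h4 := (outs_le g p y r n).trans h3
  have h5 : min 1 (r / 2) * (outs g p r n y : ℝ) ≤ min 1 (r / 2) * (η * n) := by
    linarith
  exact le_of_mul_le_mul_left h5 hδ

end Pool.Agent.Lib.Plu.CC3_5
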