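import Pool.Agent.Lib.MP_c44407_an.Cone10

/-! Row CC4 (helper4): a line that meets a set of positive area in positive length. -/

open MeasureTheory Filter

namespace Pool.Agent.Lib.Plu

theorem cc4_4 : StCC4 := by
  intro D v hD hD0
  by_contra hcon
  push Not at hcon
  let S : Set (ℝ × E) := {z | z.1 ∈ Set.Icc (0 : ℝ) 1 ∧ z.2 + z.1 • v ∈ D}
  have hS : MeasurableSet S := by
    refine (measurableSet_Icc.preimage measurable_fst).inter (hD.preimage ?_)
    exact measurable_snd.add (measurable_fst.smul_const v)
  have h1 : ((volume : Measure ℝ).prod (volume : Measure E)) S = 0 := by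
    rw [Measure.prod_apply_symm hS]
    refine (lintegral_congr fun y => ?_).trans lintegral_zero
    exact le_antisymm (hcon y) zero_le
  have h2 : ((volume : Measure ℝ).prod (volume : Measure E)) S = volume D := by
    rw [Measure.prod_apply hS]
    have h3 : ∀ t : ℝ, (volume : Measure E) (Prod.mk t ⁻¹' S) =
        Set.indicator (Set.Icc (0 : ℝ) 1) (fun _ => volume D) t := by
      intro t
      by_cases ht : t ∈ Set.Icc (0 : ℝ) 1
      · rw [Set.indicator_of_mem ht]
        have h4 : Prod.mk t ⁻¹' S = (fun y : E => y + t • v) ⁻¹' D := by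
          ext y
          exact ⟨fun h => h.2, fun h => ⟨ht, h⟩⟩
        rw [h4, measure_preimage_add_right]
      · rw [Set.indicator_of_notMem ht]
        have h4 : Prod.mk t ⁻¹' S = ∅ := by
          ext y
          exact ⟨fun h => ht h.1, fun h => h.elim⟩
        rw [h4, measure_empty]
    simp_rw [h3]
    rw [lintegral_indicator measurableSet_Icc, lintegral_const, Measure.restrict_apply_univ,
      Real.volume_Icc]
    simp
  rw [h1] at h2
  exact hD0.ne h2

end Pool.Agent.Lib.Plu
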