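import Pool.Agent.Lib.MP_c44407_an.Cone10

open MeasureTheory Filter

namespace Pool.Agent.Lib.Plu

namespace CF45

lemma zv_apply (m : Fin 2 → ℤ) (i : Fin 2) : (zv m) i = (m i : ℝ) := rfl

lemma zv_add (m n : Fin 2 → ℤ) : zv (m + n) = zv m + zv n := by
  ext i
  simp [zv_apply]

lemma zv_zero : zv 0 = 0 := by
  ext i
  simp [zv_apply]

lemma near_mono {δ δ' : ℝ} (h : δ ≤ δ') {x y : E} (hn : Near δ x y) : Near δ' x y := by
  obtain ⟨m, hm⟩ := hn
  exact ⟨m, hm.trans h⟩

lemma near_shift {δ : ℝ} {x y : E} {m : Fin 2 → ℤ} (h : Near δ x (y + zv m)) : Near δ x y := by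
  obtain ⟨m', hm'⟩ := h
  refine ⟨m + m', ?_⟩
  rw [zv_add]
  have : x - y - (zv m + zv m') = x - (y + zv m) - zv m' := by abel
  rwa [this]

/-- iterates of a fixed point -/
lemma fix_iter (f : TorusDiffeo) {p : E} {m : Fin 2 → ℤ} (h : f.map p = p + zv m) (n : ℕ) :
    ∃ m', f.map^[n] p = p + zv m' := by
  induction n with
  | zero => exact ⟨0, by rw [zv_zero, add_zero]; rfl⟩
  | succ n ih =>
    obtain ⟨m1, h1⟩ := ih
    obtain ⟨m2, h2⟩ := f.map_add m1
    refine ⟨m + m2, ?_⟩
    rw [Function.iterate_succ_apply', h1, h2, h, zv_add]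
    abel

end CF45

open CF45 in
/-- Row CCF. -/
theorem ccf45 (c1 : StCC1) (c2 : StCC2) (c3 : StCC3) (c4 : StCC4) (c5 : StCC5) : StCCF := by
  intro f a b L hcone hp hplu
  obtain ⟨p, hpL, m, hpm⟩ := hp
  obtain ⟨ε0, hε0, l, hl, M, hM, hg⟩ := c1 f a b hcone
  obtain ⟨r, hr, q, hq0, hq1, κ, hκ0, hκ1, K, v, hint⟩ := c2 a b hcone.1 l M hl hM
  obtain ⟨g, hclose, x', hfol, D, hD, hDpos, hst⟩ := hplu p hpL (min ε0 (r / 2))
    (lt_min hε0 (by linarith))
  have hcl : C1Close ε0 f g := fun x =>
    ⟨near_mono (min_le_left _ _) (hclose x).1, (hclose x).2.trans (min_le_left _ _)⟩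
  have hgc := hg g hcl
  have hnear : ∀ n, Near (r / 2) (g.map^[n] x') p := by
    intro n
    obtain ⟨m', hm'⟩ := fix_iter f hpm n
    have h1 := (hfol n).1
    rw [hm'] at h1
    exact near_mono (min_le_right _ _) (near_shift h1)
  -- the exponent
  have hlq : Real.log q < 0 := Real.log_neg hq0 hq1
  have hlκ : Real.log κ < 0 := Real.log_neg hκ0 hκ1
  set η : ℝ := Real.log κ / (2 * Real.log q) with hη
  have hηpos : 0 < η := div_pos_of_neg_of_neg hlκ (by linarith)
  have hηq : η * Real.log q = Real.log κ / 2 := by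
    rw [hη]
    have : Real.log q ≠ 0 := hlq.ne
    field_simp
  -- a good set
  set DN : ℕ → Set E := fun N => D ∩ ⋂ n : ℕ, ⋂ _ : N ≤ n, {y | (outs g p r n y : ℝ) ≤ η * n}
    with hDN
  have hmeas : ∀ N, MeasurableSet (DN N) := by
    intro N
    refine hD.inter (MeasurableSet.iInter fun n => MeasurableSet.iInter fun _ => ?_)
    have h1 : Measurable fun y : E => ((outs g p r n y : ℕ) : ℝ) :=
      (measurable_from_top (f := fun k : ℕ => (k : ℝ))).comp (c5 g p r n)
    exact measurableSet_le h1 measurable_const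
  have hcov : D ⊆ ⋃ N, DN N := by
    intro y hy
    obtain ⟨N, hN⟩ := c3 g p x' y r hr hnear (hst y hy) η hηpos
    rw [Set.mem_iUnion]
    refine ⟨N, hy, ?_⟩
    simp only [Set.mem_iInter]
    intro n hn
    exact hN n hn
  have hex : ∃ N, 0 < volume (DN N) := by
    by_contra hcon
    push Not at hcon
    have : volume D = 0 := measure_mono_null hcov
      (measure_iUnion_null fun N => le_antisymm (hcon N) bot_le)
    exact hDpos.ne' this
  obtain ⟨N, hN⟩ := hex
  obtain ⟨y, hy⟩ := c4 (DN N) v (hmeas N) hN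
  set T : Set ℝ := {t : ℝ | t ∈ Set.Icc (0 : ℝ) 1 ∧ y + t • v ∈ DN N} with hT
  have hTsub : T ⊆ Set.Icc (0 : ℝ) 1 := fun t ht => ht.1
  have hTfin : volume T < ⊤ := lt_of_le_of_lt (measure_mono hTsub) (by simp)
  have hTmeas : MeasurableSet T := by
    have hc : Measurable fun t : ℝ => y + t • v := by fun_prop
    exact measurableSet_Icc.inter (hc (hmeas N))
  -- the lower bound
  have hlow : ∀ n, N ≤ n → ENNReal.ofReal (Real.exp (Real.log κ / 2) ^ n) * volume T ≤
      ENNReal.ofReal (K * κ ^ n) := by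
    intro n hn
    refine le_trans ?_ (hint g hgc p y n)
    calc ENNReal.ofReal (Real.exp (Real.log κ / 2) ^ n) * volume T
        = ∫⁻ _ in T, ENNReal.ofReal (Real.exp (Real.log κ / 2) ^ n) := by
          rw [setLIntegral_const]
      _ ≤ ∫⁻ t in T, ENNReal.ofReal (q ^ outs g p r n (y + t • v)) := by
          refine setLIntegral_mono' hTmeas fun t ht => ENNReal.ofReal_le_ofReal ?_
          have h1 : (outs g p r n (y + t • v) : ℝ) ≤ η * n := by
            have h2 := ht.2.2
            simp only [Set.mem_iInter] at h2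
            exact h2 n hn
          have h3 : q ^ outs g p r n (y + t • v) =
              Real.exp ((outs g p r n (y + t • v) : ℝ) * Real.log q) := by
            rw [← Real.exp_log (pow_pos hq0 _), Real.log_pow]
          rw [h3, ← Real.exp_nat_mul]
          refine Real.exp_le_exp.2 ?_
          have h4 : η * n * Real.log q ≤ (outs g p r n (y + t • v) : ℝ) * Real.log q :=
            mul_le_mul_of_nonpos_right h1 hlq.le
          have h5 : η * n * Real.log q = n * (Real.log κ / 2) := by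
            rw [← hηq]; ring
          linarith
      _ ≤ ∫⁻ t in Set.Icc (0 : ℝ) 1, ENNReal.ofReal (q ^ outs g p r n (y + t • v)) :=
          lintegral_mono_set hTsub
  -- the contradiction
  set s : ℝ := Real.exp (Real.log κ / 2) with hs
  have hs0 : 0 < s := Real.exp_pos _
  have hs1 : s < 1 := by rw [hs, Real.exp_lt_one_iff]; linarith
  have hss : s * s = κ := by
    rw [hs, ← Real.exp_add]
    have : Real.log κ / 2 + Real.log κ / 2 = Real.log κ := by ring
    rw [this, Real.exp_log hκ0]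
  have hTpos : 0 < (volume T).toReal := ENNReal.toReal_pos hy.ne' hTfin.ne
  have hineq : ∀ n, N ≤ n → (volume T).toReal ≤ |K| * s ^ n := by
    intro n hn
    have h1 := hlow n hn
    have h2 : ENNReal.ofReal (s ^ n) * volume T ≤ ENNReal.ofReal (|K| * κ ^ n) :=
      h1.trans (ENNReal.ofReal_le_ofReal
        (mul_le_mul_of_nonneg_right (le_abs_self K) (pow_nonneg hκ0.le n)))
    have h3 : s ^ n * (volume T).toReal ≤ |K| * κ ^ n := by
      have h4 := ENNReal.toReal_mono ENNReal.ofReal_ne_top h2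
      rwa [ENNReal.toReal_mul, ENNReal.toReal_ofReal (pow_nonneg hs0.le n),
        ENNReal.toReal_ofReal (mul_nonneg (abs_nonneg K) (pow_nonneg hκ0.le n))] at h4
    have h5 : κ ^ n = s ^ n * s ^ n := by rw [← mul_pow, hss]
    rw [h5] at h3
    have h6 : 0 < s ^ n := pow_pos hs0 n
    have h7 : s ^ n * (volume T).toReal ≤ s ^ n * (|K| * s ^ n) := by linarith
    exact le_of_mul_le_mul_left h7 h6
  have hlim : Tendsto (fun n : ℕ => |K| * s ^ n) atTop (nhds (|K| * 0)) :=
    (tendsto_pow_atTop_nhds_zero_of_lt_one hs0.le hs1).const_mul _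
  rw [mul_zero] at hlim
  obtain ⟨n, hn, hn2⟩ := ((hlim.eventually (gt_mem_nhds hTpos)).and
    (eventually_ge_atTop N)).exists
  exact absurd (hineq n hn2) (not_le.2 hn)

end Pool.Agent.Lib.Plu
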