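import Pool.Agent.Lib.MP_c44407_an.Defs10

/-!
# CLOSE: the Jacobians of C^1-close diffeomorphisms are close
-/

open MeasureTheory Filter

namespace Pool.Agent.Lib.Plu

theorem diffMap9 (f : TorusDiffeo) (x : E) : DifferentiableAt ℝ f.map x :=
  (f.contDiff_map.differentiable (by norm_num)) x

theorem diffInv9 (f : TorusDiffeo) (x : E) : DifferentiableAt ℝ f.inv x :=
  (f.contDiff_inv.differentiable (by norm_num)) x

theorem det_ne9 (f : TorusDiffeo) (x : E) : (fderiv ℝ f.map x).det ≠ 0 := by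
  have h1 : HasFDerivAt (f.inv ∘ f.map)
      ((fderiv ℝ f.inv (f.map x)).comp (fderiv ℝ f.map x)) x :=
    (diffInv9 f (f.map x)).hasFDerivAt.comp x (diffMap9 f x).hasFDerivAt
  have h2 : f.inv ∘ f.map = id := by
    funext z; exact f.left_inv z
  rw [h2] at h1
  have h3 := h1.unique (hasFDerivAt_id x)
  have h4 : ((fderiv ℝ f.inv (f.map x)).comp (fderiv ℝ f.map x)).det = 1 := by
    rw [h3]
    simp [ContinuousLinearMap.det]
  intro h0
  have h5 : ((fderiv ℝ f.inv (f.map x)).comp (fderiv ℝ f.map x)).det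
      = (fderiv ℝ f.inv (f.map x)).det * (fderiv ℝ f.map x).det := by
    exact LinearMap.det_comp _ _
  rw [h5, h0, mul_zero] at h4
  exact zero_ne_one h4

theorem fderiv_periodic9 (f : TorusDiffeo) (x : E) (m : Fin 2 → ℤ) :
    fderiv ℝ f.map (x + zv m) = fderiv ℝ f.map x := by
  obtain ⟨m', hm'⟩ := f.map_add m
  have h1 : HasFDerivAt (fun z => f.map (z + zv m)) (fderiv ℝ f.map (x + zv m)) x := by
    have h0 := (diffMap9 f (x + zv m)).hasFDerivAt
    have h0' := h0.comp x ((hasFDerivAt_id x).add_const (zv m))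
    simpa [Function.comp_def] using h0'
  have h2 : HasFDerivAt (fun z => f.map (z + zv m)) (fderiv ℝ f.map x) x := by
    have h3 : (fun z => f.map (z + zv m)) = fun z => f.map z + zv m' := by
      funext z; exact hm' z
    rw [h3]
    exact (diffMap9 f x).hasFDerivAt.add_const _
  exact h1.unique h2

/-- every point has an integer translate in the ball of radius `2` -/
theorem translate9 (x : E) : ∃ m : Fin 2 → ℤ, x + zv m ∈ Metric.closedBall (0 : E) 2 := by
  refine ⟨fun i => -⌊x i⌋, ?_⟩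
  rw [mem_closedBall_zero_iff, EuclideanSpace.norm_eq]
  rw [Real.sqrt_le_left (by norm_num)]
  have h : ∀ i, ‖(x + zv (fun i => -⌊x i⌋)) i‖ ^ 2 ≤ 1 := by
    intro i
    have h1 : (x + zv (fun i => -⌊x i⌋)) i = Int.fract (x i) := by
      have h2 : (x + zv (fun i => -⌊x i⌋)) i = x i + ((-⌊x i⌋ : ℤ) : ℝ) := rfl
      rw [h2, Int.cast_neg, ← sub_eq_add_neg, Int.self_sub_floor]
    rw [h1, Real.norm_eq_abs, abs_of_nonneg (Int.fract_nonneg _)]
    have := (Int.fract_lt_one (x i)).le
    have h0 := Int.fract_nonneg (x i)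
    nlinarith
  rw [Fin.sum_univ_two]
  have h0 := h 0
  have h1 := h 1
  linarith

theorem stClose9 : StClose := by
  intro f η hη
  set A : E → (E →L[ℝ] E) := fderiv ℝ f.map with hA
  have hAc : Continuous A := f.contDiff_map.continuous_fderiv (by norm_num)
  set B : Set E := Metric.closedBall (0 : E) 2 with hB
  have hBc : IsCompact B := isCompact_closedBall _ _
  have hK : IsCompact (A '' B) := hBc.image hAc
  have hF : ∀ T ∈ A '' B, ContinuousAt (fun T : E →L[ℝ] E => Real.log |T.det|) T := by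
    rintro T ⟨x, -, rfl⟩
    have h1 : Continuous fun T : E →L[ℝ] E => |T.det| := ContinuousLinearMap.continuous_det.abs
    exact h1.continuousAt.log (abs_ne_zero.mpr (det_ne9 f x))
  obtain ⟨ε1, hε1, h1⟩ := Metric.mem_uniformity_dist.mp
    (hK.uniformContinuousAt_of_continuousAt _ hF (Metric.dist_mem_uniformity hη))
  obtain ⟨ε2, hε2, h2⟩ := Metric.mem_uniformity_dist.mp
    (hBc.uniformContinuousAt_of_continuousAt A (fun x _ => hAc.continuousAt)
      (Metric.dist_mem_uniformity (half_pos hε1)))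
  refine ⟨min (ε2 / 2) (ε1 / 4), by positivity, ?_⟩
  intro g hg x y hxy
  obtain ⟨m, hm⟩ := hxy
  obtain ⟨m0, hm0⟩ := translate9 x
  -- the point `y'` close to `x + zv m0`
  have hAx : A (x + zv m0) = A x := fderiv_periodic9 f x m0
  have hzadd : ∀ a b : Fin 2 → ℤ, zv (a + b) = zv a + zv b := by
    intro a b
    ext i
    simp [zv]
  have hzneg : ∀ a : Fin 2 → ℤ, zv (-a) = -zv a := by
    intro a
    ext i
    simp [zv]
  have hAy : A (y + zv (m0 + -m)) = A y := fderiv_periodic9 f y _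
  have hd : dist (x + zv m0) (y + zv (m0 + -m)) < ε2 := by
    rw [dist_comm, dist_eq_norm, hzadd, hzneg]
    have : y + (zv m0 + -zv m) - (x + zv m0) = y - x - zv m := by abel
    rw [this]
    calc ‖y - x - zv m‖ ≤ min (ε2 / 2) (ε1 / 4) := hm
      _ ≤ ε2 / 2 := min_le_left _ _
      _ < ε2 := half_lt_self hε2
  have h3 : dist (A (x + zv m0)) (A (y + zv (m0 + -m))) < ε1 / 2 := h2 hd hm0
  rw [hAx, hAy] at h3
  have h4 : ‖fderiv ℝ g.map y - A y‖ ≤ ε1 / 4 := ((hg y).2).trans (min_le_right _ _)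
  have h5 : dist (A x) (fderiv ℝ g.map y) < ε1 := by
    calc dist (A x) (fderiv ℝ g.map y) ≤ dist (A x) (A y) + dist (A y) (fderiv ℝ g.map y) :=
          dist_triangle _ _ _
      _ < ε1 / 2 + ε1 / 2 := by
          rw [dist_comm (A y), dist_eq_norm (fderiv ℝ g.map y)]
          linarith
      _ = ε1 := by ring
  have h6 : A x ∈ A '' B := ⟨x + zv m0, hm0, hAx⟩
  have h7 : dist (Real.log |(A x).det|) (Real.log |(fderiv ℝ g.map y).det|) < η := h1 h5 h6
  rw [dist_comm, Real.dist_eq] at h7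
  exact h7.le

end Pool.Agent.Lib.Plu
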