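import Pool.Agent.Lib.MP_c44407_an.ConeP40
import Pool.Agent.Lib.MP_c44407_an.CC2_10

/-! The curve lemma with a moving target (after `CC2_10.lean`). -/

open MeasureTheory Filter

namespace Pool.Agent.Lib.Plu

namespace CM40

open CC2

variable (a b : E →L[ℝ] ℝ)

lemma outsM_succ (g : TorusDiffeo) (p : ℕ → E) (r : ℝ) (n : ℕ) (z : E) :
    outsM g p r (n + 1) z = Set.indicator {w | ¬ Near r w (p 0)} (fun _ => 1) z
      + outsM g (fun i => p (i + 1)) r n (g.map z) := by
  unfold outsM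
  rw [Finset.sum_range_succ', add_comm]
  simp only [Function.iterate_succ_apply, Function.iterate_zero, id]

lemma key {l M : ℝ} (hl : 1 < l) (hM : 1 < M) {g : TorusDiffeo}
    (hab : ∀ v, a v = 0 → b v = 0 → v = 0) (hg : ConeMap a b l M g) {c : ℝ} (hc0 : 0 < c)
    (hc : ∀ v, |b v| ≤ |a v| → ‖v‖ ≤ c * |a v|) {ρ r q κ : ℝ} (hρ : 0 < ρ)
    (hd : c * ρ + 2 * r < 1) (hMr : M * (‖a‖ * (2 * r)) ≤ ρ) (hq : 0 < q)
    (hκ : (1 + q * (2 * M + 1)) / l ≤ κ) (n : ℕ) :
    ∀ (p : ℕ → E) (γ : ℝ → E), Continuous γ → (∀ s t, |b (γ t - γ s)| ≤ |a (γ t - γ s)|) → ∀ Λ : ℝ, 0 < Λ →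
      (∀ s t, Λ * |t - s| ≤ |a (γ t - γ s)|) → ∀ A : Set ℝ, MeasurableSet A →
      (∀ s ∈ A, ∀ t ∈ A, |a (γ t - γ s)| ≤ ρ) →
      ∫⁻ t in A, ENNReal.ofReal (q ^ outsM g p r n (γ t)) ≤ ENNReal.ofReal (2 * (ρ / Λ) * κ ^ n) := by
  have hκ0 : 0 < κ := lt_of_lt_of_le (by positivity) hκ
  induction n with
  | zero =>
    intro p γ hγ hcone Λ hΛ hexp A hA hsmall
    have h1 : ∀ t, ENNReal.ofReal (q ^ outsM g p r 0 (γ t)) = 1 := by
      intro t; simp [outsM]
    simp only [h1]
    rw [setLIntegral_const, one_mul]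
    rcases A.eq_empty_or_nonempty with he | ⟨t0, ht0⟩
    · subst he; simp
    have hsub : A ⊆ Set.Icc (t0 - ρ / Λ) (t0 + ρ / Λ) := by
      intro t ht
      have h2 := (hexp t0 t).trans (hsmall t0 ht0 t ht)
      have h3 : |t - t0| ≤ ρ / Λ := by
        rw [le_div_iff₀ hΛ]; linarith
      rw [abs_le] at h3
      exact ⟨by linarith [h3.1], by linarith [h3.2]⟩
    calc volume A ≤ volume (Set.Icc (t0 - ρ / Λ) (t0 + ρ / Λ)) := measure_mono hsub
      _ = ENNReal.ofReal (t0 + ρ / Λ - (t0 - ρ / Λ)) := Real.volume_Icc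
      _ = ENNReal.ofReal (2 * (ρ / Λ) * κ ^ 0) := by congr 1; ring
  | succ n ih =>
    intro p γ hγ hcone Λ hΛ hexp A hA hsmall
    set p' : ℕ → E := fun i => p (i + 1) with hp'
    have hgc : Continuous (fun t => g.map (γ t)) := g.contDiff_map.continuous.comp hγ
    have hcone' : ∀ s t, |b (g.map (γ t) - g.map (γ s))| ≤ |a (g.map (γ t) - g.map (γ s))| :=
      fun s t => (cone_diff a b hl hab hg _ _ (hcone s t)).1
    have hexp' : ∀ s t, (l * Λ) * |t - s| ≤ |a (g.map (γ t) - g.map (γ s))| := by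
      intro s t
      refine le_trans ?_ (cone_diff a b hl hab hg _ _ (hcone s t)).2.1
      rw [mul_assoc]
      exact mul_le_mul_of_nonneg_left (hexp s t) (by linarith)
    have hlΛ : 0 < l * Λ := by positivity
    have IH := ih p' (fun t => g.map (γ t)) hgc hcone' (l * Λ) hlΛ hexp'
    set In : Set ℝ := {t | Near r (γ t) (p 0)} with hIn
    have hInm : MeasurableSet In := hγ.measurable (near_meas r (p 0))
    rw [← lintegral_inter_add_diff (fun t => ENNReal.ofReal (q ^ outsM g p r (n + 1) (γ t))) A hInm]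
    have hin : ∫⁻ t in A ∩ In, ENNReal.ofReal (q ^ outsM g p r (n + 1) (γ t))
        ≤ ENNReal.ofReal (2 * (ρ / (l * Λ)) * κ ^ n) := by
      have e1 : ∫⁻ t in A ∩ In, ENNReal.ofReal (q ^ outsM g p r (n + 1) (γ t))
          = ∫⁻ t in A ∩ In, ENNReal.ofReal (q ^ outsM g p' r n (g.map (γ t))) := by
        refine setLIntegral_congr_fun (hA.inter hInm) (fun t ht => ?_)
        have : outsM g p r (n + 1) (γ t) = outsM g p' r n (g.map (γ t)) := by
          rw [outsM_succ, Set.indicator_of_notMem, zero_add]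
          exact fun hno => hno ht.2
        simp only [this]
      rw [e1]
      refine IH _ (hA.inter hInm) ?_
      intro s hs t ht
      have h1 : ‖γ t - γ s‖ ≤ c * ρ :=
        (hc _ (hcone s t)).trans (mul_le_mul_of_nonneg_left (hsmall s hs.1 t ht.1) hc0.le)
      have h2 := same_translate hd ht.2 hs.2 h1
      calc |a (g.map (γ t) - g.map (γ s))| ≤ M * |a (γ t - γ s)| :=
            (cone_diff a b hl hab hg _ _ (hcone s t)).2.2
        _ ≤ M * (‖a‖ * ‖γ t - γ s‖) := by
            gcongr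
            exact a.le_opNorm _
        _ ≤ M * (‖a‖ * (2 * r)) := by gcongr
        _ ≤ ρ := hMr
    have hout : ∫⁻ t in A \ In, ENNReal.ofReal (q ^ outsM g p r (n + 1) (γ t))
        ≤ ENNReal.ofReal q * (ENNReal.ofReal (2 * M + 1)
          * ENNReal.ofReal (2 * (ρ / (l * Λ)) * κ ^ n)) := by
      have e1 : ∫⁻ t in A \ In, ENNReal.ofReal (q ^ outsM g p r (n + 1) (γ t))
          = ∫⁻ t in A \ In, ENNReal.ofReal q * ENNReal.ofReal (q ^ outsM g p' r n (g.map (γ t))) := by
        refine setLIntegral_congr_fun (hA.diff hInm) (fun t ht => ?_)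
        have : outsM g p r (n + 1) (γ t) = 1 + outsM g p' r n (g.map (γ t)) := by
          rw [outsM_succ, Set.indicator_of_mem]
          exact ht.2
        simp only [this]
        rw [pow_add, pow_one, ENNReal.ofReal_mul hq.le]
      rw [e1, lintegral_const_mul' _ _ ENNReal.ofReal_ne_top]
      gcongr
      have h3 := pieces (fun t => a (g.map (γ t))) (a.continuous.comp hgc).measurable (A \ In)
        (hA.diff hInm) (M * ρ) ρ hρ ?_ (fun t => ENNReal.ofReal (q ^ outsM g p' r n (g.map (γ t))))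
        (ENNReal.ofReal (2 * (ρ / (l * Λ)) * κ ^ n)) ?_
      · rwa [mul_div_assoc, div_self hρ.ne', mul_one] at h3
      · intro s hs t ht
        rw [← map_sub]
        exact ((cone_diff a b hl hab hg _ _ (hcone s t)).2.2).trans
          (mul_le_mul_of_nonneg_left (hsmall s hs.1 t ht.1) (by linarith))
      · intro A' hA' hA'm hA's
        refine IH A' hA'm ?_
        intro s hs t ht
        rw [map_sub]
        exact hA's s hs t ht
    refine (add_le_add hin hout).trans ?_
    have hX : 0 ≤ 2 * (ρ / (l * Λ)) * κ ^ n := by positivity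
    rw [← ENNReal.ofReal_mul (by positivity), ← ENNReal.ofReal_mul hq.le,
      ← ENNReal.ofReal_add hX (by positivity)]
    apply ENNReal.ofReal_le_ofReal
    have h4 : 2 * (ρ / (l * Λ)) * κ ^ n + q * ((2 * M + 1) * (2 * (ρ / (l * Λ)) * κ ^ n))
        = 2 * (ρ / Λ) * κ ^ n * ((1 + q * (2 * M + 1)) / l) := by
      field_simp
    rw [h4, pow_succ, ← mul_assoc]
    exact mul_le_mul_of_nonneg_left hκ (by positivity)

end CM40

theorem cm40 : StCM := by
  intro a b hab l M hl hM
  obtain ⟨c, hc0, hc⟩ := CC2.exists_c a b hab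
  obtain ⟨v, hav, hbv⟩ := CC2.exists_v a b hab
  set ρ : ℝ := 1 / (2 * c) with hρd
  have hρ : 0 < ρ := by positivity
  set r : ℝ := min (1 / 8) (ρ / (2 * M * (‖a‖ + 1))) with hrd
  have hr : 0 < r := lt_min (by norm_num) (by positivity)
  set q : ℝ := min (1 / 2) ((l - 1) / (2 * (2 * M + 1))) with hqd
  have hq : 0 < q := lt_min (by norm_num) (by
    have : 0 < l - 1 := by linarith
    positivity)
  have hq1 : q < 1 := lt_of_le_of_lt (min_le_left _ _) (by norm_num)
  set κ : ℝ := (l + 1) / (2 * l) with hκd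
  have hκ0 : 0 < κ := by positivity
  have hκ1 : κ < 1 := by
    rw [hκd, div_lt_one (by positivity)]; linarith
  have hκ : (1 + q * (2 * M + 1)) / l ≤ κ := by
    have h1 : q ≤ (l - 1) / (2 * (2 * M + 1)) := min_le_right _ _
    have h2 : q * (2 * M + 1) ≤ (l - 1) / 2 := by
      have h0 : (2 * M + 1) ≠ 0 := by positivity
      calc q * (2 * M + 1) ≤ (l - 1) / (2 * (2 * M + 1)) * (2 * M + 1) := by gcongr
        _ = (l - 1) / 2 := by rw [← div_div, div_mul_cancel₀ _ h0]
    rw [hκd, div_le_div_iff₀ (by positivity) (by positivity)]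
    nlinarith
  have hd : c * ρ + 2 * r < 1 := by
    have h1 : c * ρ = 1 / 2 := by rw [hρd]; field_simp
    have h2 : r ≤ 1 / 8 := min_le_left _ _
    linarith
  have hMr : M * (‖a‖ * (2 * r)) ≤ ρ := by
    have h1 : r ≤ ρ / (2 * M * (‖a‖ + 1)) := min_le_right _ _
    calc M * (‖a‖ * (2 * r)) ≤ M * ((‖a‖ + 1) * (2 * (ρ / (2 * M * (‖a‖ + 1))))) := by
          gcongr; linarith
      _ = ρ := by field_simp
  refine ⟨r, hr, q, hq, hq1, κ, hκ0, hκ1, (2 * (1 / ρ) + 1) * (2 * ρ), v, ?_⟩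
  intro g hg p y n
  have hdiff : ∀ s t : ℝ, (y + t • v) - (y + s • v) = (t - s) • v := by
    intro s t; rw [sub_smul]; abel
  have hcone : ∀ s t : ℝ, |b ((y + t • v) - (y + s • v))| ≤ |a ((y + t • v) - (y + s • v))| := by
    intro s t
    rw [hdiff, map_smul, map_smul, hbv, smul_zero, abs_zero]
    exact abs_nonneg _
  have ha1 : ∀ s t : ℝ, |a ((y + t • v) - (y + s • v))| = |t - s| := by
    intro s t
    rw [hdiff, map_smul, hav]; simp
  have h := CC2.pieces (fun t => t) measurable_id (Set.Icc (0 : ℝ) 1) measurableSet_Icc 1 ρ hρ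
    (fun s hs t ht => by rw [abs_le]; constructor <;> linarith [hs.1, hs.2, ht.1, ht.2])
    (fun t => ENNReal.ofReal (q ^ outsM g p r n (y + t • v)))
    (ENNReal.ofReal (2 * (ρ / 1) * κ ^ n)) (by
      intro A' _ hA'm hA's
      refine CM40.key a b hl hM hab hg hc0 hc hρ hd hMr hq hκ n p (fun t => y + t • v)
        (by fun_prop) hcone 1 one_pos (fun s t => by rw [ha1]; simp) A' hA'm ?_
      intro s hs t ht
      rw [ha1]
      exact hA's s hs t ht)
  refine h.trans ?_
  rw [← ENNReal.ofReal_mul (by positivity)]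
  apply le_of_eq
  congr 1
  ring

end Pool.Agent.Lib.Plu
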