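import Pool.Agent.Lib.MP_c44407_an.Defs10

/-!
# Row LIP: approximation of continuous functions on the torus by Lipschitz functions
-/

set_option autoImplicit false

namespace Pool.Agent.Lib.Plu

namespace LIP5

theorem shift (x : E) : ∃ m, ‖x + zv m‖ ≤ 2 := by
  refine ⟨fun i => -⌊x i⌋, ?_⟩
  rw [EuclideanSpace.norm_eq, Real.sqrt_le_left (by norm_num), Fin.sum_univ_two]
  have h : ∀ i : Fin 2, ‖(x + zv fun i => -⌊x i⌋) i‖ ^ 2 ≤ 1 := by
    intro i
    have h1 : (x + zv fun i => -⌊x i⌋) i = Int.fract (x i) := by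
      simp [zv, Int.fract, sub_eq_add_neg]
    rw [h1, Real.norm_eq_abs, sq_abs]
    have := Int.fract_nonneg (x i)
    have := Int.fract_lt_one (x i)
    nlinarith
  exact (add_le_add (h 0) (h 1)).trans (by norm_num)

variable {φ : E → ℝ}

theorem bound (hc : Continuous φ) (hp : ∀ x m, φ (x + zv m) = φ x) :
    ∃ B : ℝ, 0 < B ∧ ∀ x, |φ x| ≤ B := by
  obtain ⟨B, hB⟩ := (isCompact_closedBall (0 : E) 2).exists_bound_of_continuousOn hc.continuousOn
  refine ⟨max B 1, lt_max_of_lt_right one_pos, fun x => ?_⟩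
  obtain ⟨m, hm⟩ := shift x
  have := hB (x + zv m) (by simpa using hm)
  rw [hp, Real.norm_eq_abs] at this
  exact this.trans (le_max_left _ _)

theorem unif (hc : Continuous φ) (hp : ∀ x m, φ (x + zv m) = φ x) {η : ℝ} (hη : 0 < η) :
    ∃ δ : ℝ, 0 < δ ∧ ∀ x y : E, ‖x - y‖ < δ → |φ x - φ y| < η := by
  have h := (isCompact_closedBall (0 : E) 3).uniformContinuousOn_of_continuous hc.continuousOn
  rw [Metric.uniformContinuousOn_iff] at h
  obtain ⟨δ, hδ, h⟩ := h η hη
  refine ⟨min δ 1, lt_min hδ one_pos, fun x y hxy => ?_⟩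
  obtain ⟨m, hm⟩ := shift x
  have h1 : x + zv m - (y + zv m) = x - y := by abel
  have h2 : ‖y + zv m‖ ≤ 3 := by
    have : y + zv m = (x + zv m) - (x - y) := by abel
    rw [this]
    have := norm_sub_le (x + zv m) (x - y)
    have := hxy.trans_le (min_le_right _ _)
    linarith
  have h3 := h (x + zv m) (by simpa using hm.trans (by norm_num)) (y + zv m) (by simpa using h2)
    (by rw [dist_eq_norm, h1]; exact hxy.trans_le (min_le_left _ _))
  rwa [hp, hp, Real.dist_eq] at h3

end LIP5

open LIP5 in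
theorem lip5 : StLip := by
  intro φ hc hp η hη
  obtain ⟨B, hB0, hB⟩ := bound hc hp
  obtain ⟨δ, hδ, hu⟩ := unif hc hp hη
  set k : ℝ := 2 * B / δ with hk
  have hk0 : 0 < k := by positivity
  set g : E → ℝ := fun x => ⨅ y, (φ y + k * ‖x - y‖) with hg
  have hbd : ∀ x, BddBelow (Set.range fun y => φ y + k * ‖x - y‖) := by
    intro x
    refine ⟨-B, ?_⟩
    rintro _ ⟨y, rfl⟩
    have h1 := (abs_le.1 (hB y)).1
    have h2 : 0 ≤ k * ‖x - y‖ := by positivity
    show -B ≤ φ y + k * ‖x - y‖
    linarith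
  have hle : ∀ x y, g x ≤ φ y + k * ‖x - y‖ := fun x y => ciInf_le (hbd x) y
  have hge : ∀ x a, (∀ y, a ≤ φ y + k * ‖x - y‖) → a ≤ g x := fun x a h => le_ciInf h
  have hlip : ∀ x x', g x' ≤ g x + k * ‖x' - x‖ := by
    intro x x'
    have := hge x (g x' - k * ‖x' - x‖) (fun y => by
      have h1 := hle x' y
      have h2 : ‖x' - y‖ ≤ ‖x' - x‖ + ‖x - y‖ := by
        have : x' - y = (x' - x) + (x - y) := by abel
        rw [this]
        exact norm_add_le _ _
      have h3 := mul_le_mul_of_nonneg_left h2 hk0.le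
      linarith)
    linarith
  have hper : ∀ x m, g (x + zv m) = g x := by
    intro x m
    refine le_antisymm (hge x _ fun y => ?_) (hge _ _ fun y => ?_)
    · have h1 := hle (x + zv m) (y + zv m)
      rwa [hp, show x + zv m - (y + zv m) = x - y by abel] at h1
    · have h1 := hle x (y - zv m)
      rwa [show x - (y - zv m) = x + zv m - y by abel,
        show φ (y - zv m) = φ y by rw [← hp (y - zv m) m, sub_add_cancel]] at h1
  have hup : ∀ x, g x ≤ φ x := by
    intro x
    have := hle x x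
    simpa using this
  have hlow : ∀ x, φ x - η ≤ g x := by
    intro x
    refine hge x _ fun y => ?_
    rcases lt_or_ge ‖x - y‖ δ with h | h
    · have h1 := (abs_lt.1 (hu x y h)).2
      have h2 : 0 ≤ k * ‖x - y‖ := by positivity
      linarith
    · have h1 : 2 * B ≤ k * ‖x - y‖ := by
        calc 2 * B = k * δ := by rw [hk]; field_simp
          _ ≤ _ := mul_le_mul_of_nonneg_left h hk0.le
      have h2 := (abs_le.1 (hB x)).2
      have h3 := (abs_le.1 (hB y)).1
      linarith
  have hgb : ∀ x, |g x| ≤ B := by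
    intro x
    rw [abs_le]
    refine ⟨hge x _ fun y => ?_, (hup x).trans (abs_le.1 (hB x)).2⟩
    have h1 := (abs_le.1 (hB y)).1
    have h2 : 0 ≤ k * ‖x - y‖ := by positivity
    linarith
  set c : ℝ := max k B with hcdef
  have hc0 : 0 < c := lt_max_of_lt_left hk0
  refine ⟨c, hc0, fun x => g x / c, ⟨fun x m => by simp only [hper], ?_, fun x => ?_⟩, fun x => ?_⟩
  · refine LipschitzWith.of_dist_le_mul fun x y => ?_
    rw [Real.dist_eq, NNReal.coe_one, one_mul, dist_eq_norm, ← sub_div, abs_div, abs_of_pos hc0,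
      div_le_iff₀ hc0]
    have h1 := hlip x y
    have h2 := hlip y x
    rw [norm_sub_rev y x] at h1
    have h3 : k * ‖x - y‖ ≤ ‖x - y‖ * c := by
      rw [mul_comm]
      exact mul_le_mul_of_nonneg_left (le_max_left _ _) (norm_nonneg _)
    rw [abs_le]
    constructor <;> linarith
  · rw [abs_div, abs_of_pos hc0, div_le_one hc0]
    exact (hgb x).trans (le_max_right _ _)
  · rw [mul_div_cancel₀ _ hc0.ne', abs_le]
    have h1 := hup x
    have h2 := hlow x
    constructor <;> linarith

end Pool.Agent.Lib.Plu
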