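import Mathlib
import Pool.Agent.Lib.MP_c44407_an.Defs10
import Pool.Agent.Lib.MP_c44407_an.Fin10
import Pool.Agent.Lib.MP_c44407_an.LIP5

open MeasureTheory Filter

namespace Pool.Agent.Lib.Plu

/-- The closing property (every hyperbolic basic set has it): all finite orbit segments in `L`
are followed by periodic points of `L` whose period is longer by a bounded number. -/
def Closing (f : TorusDiffeo) (L : Set E) : Prop := ∀ η > 0, ∃ R : ℕ, ∀ x ∈ L, ∀ n : ℕ,
  ∃ p ∈ L, ∃ k, 1 ≤ k ∧ n ≤ k ∧ k ≤ n + R ∧ (∃ m, f.map^[k] p = p + zv m) ∧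
    ∀ i < n, Near η (f.map^[i] p) (f.map^[i] x)

theorem clo (hClose : StClose) (f : TorusDiffeo) (L : Set E) (c : ℝ) (hc0 : 0 < c) (hc1 : c < 1)
    (hc : ∀ p ∈ L, ∀ k : ℕ, 1 ≤ k → (∃ m, f.map^[k] p = p + zv m) →
      |(fderiv ℝ (f.map^[k]) p).det| ≤ c ^ k) (hL : Closing f L) :
    ∃ C c' : ℝ, 0 < c' ∧ c' < 1 ∧ ∀ x ∈ L, ∀ n : ℕ, |(fderiv ℝ (f.map^[n]) x).det| ≤ C * c' ^ n := by
  have hl : Real.log c < 0 := Real.log_neg hc0 hc1
  obtain ⟨ε, hε, hcl⟩ := hClose f (- Real.log c / 2) (by linarith)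
  obtain ⟨R, hR⟩ := hL ε hε
  obtain ⟨B, hB0, hB⟩ := LIP5.bound f.cont_J (fun x m => f.J_add x m)
  have hff : C1Close ε f f := fun y => ⟨near_refl hε _, by simpa using hε.le⟩
  refine ⟨Real.exp (R * B), Real.exp (Real.log c / 2), Real.exp_pos _, ?_, ?_⟩
  · rw [Real.exp_lt_one_iff]; linarith
  · intro x hx n
    obtain ⟨p, hp, k, hk1, hnk, hkR, hper, hnear⟩ := hR x hx n
    have h1 := hc p hp k hk1 hper
    have h2 : Real.log |(fderiv ℝ (f.map^[k]) p).det| ≤ k * Real.log c := by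
      rw [← Real.log_pow]
      exact Real.log_le_log (abs_pos.mpr (f.det_iter_ne k p)) h1
    rw [f.log_det] at h2
    obtain ⟨j, rfl⟩ : ∃ j, k = n + j := ⟨k - n, by omega⟩
    have hj : (j : ℝ) ≤ R := by
      have : j ≤ R := by omega
      exact_mod_cast this
    rw [Finset.sum_range_add] at h2
    have h3 : ∑ i ∈ Finset.range n, J f (f.map^[i] x)
        ≤ ∑ i ∈ Finset.range n, (J f (f.map^[i] p) + - Real.log c / 2) := by
      refine Finset.sum_le_sum (fun i hi => ?_)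
      have h4 := hcl f hff (f.map^[i] x) (f.map^[i] p) (hnear i (Finset.mem_range.mp hi))
      rw [abs_le] at h4
      linarith [h4.1]
    have h5 : - (j * B) ≤ ∑ i ∈ Finset.range j, J f (f.map^[n + i] p) := by
      have : ∑ i ∈ Finset.range j, (-B) ≤ ∑ i ∈ Finset.range j, J f (f.map^[n + i] p) :=
        Finset.sum_le_sum (fun i _ => (abs_le.mp (hB _)).1)
      simpa using this
    rw [Finset.sum_add_distrib] at h3
    simp only [Finset.sum_const, Finset.card_range, nsmul_eq_mul] at h3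
    push_cast at h2
    have hjl : (j : ℝ) * Real.log c ≤ 0 := mul_nonpos_of_nonneg_of_nonpos (Nat.cast_nonneg j) hl.le
    have hjB : (j : ℝ) * B ≤ R * B := mul_le_mul_of_nonneg_right hj hB0.le
    have h6 : Real.log |(fderiv ℝ (f.map^[n]) x).det| ≤ R * B + Real.log c / 2 * n := by
      rw [f.log_det]
      nlinarith
    calc |(fderiv ℝ (f.map^[n]) x).det|
        = Real.exp (Real.log |(fderiv ℝ (f.map^[n]) x).det|) :=
          (Real.exp_log (abs_pos.mpr (f.det_iter_ne n x))).symm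
      _ ≤ Real.exp (R * B + Real.log c / 2 * n) := Real.exp_le_exp.mpr h6
      _ = Real.exp (R * B) * Real.exp (Real.log c / 2) ^ n := by
        rw [Real.exp_add, mul_comm (Real.log c / 2) (n : ℝ), Real.exp_nat_mul (Real.log c / 2) n]

end Pool.Agent.Lib.Plu
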