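import Mathlib
import Pool.Agent.Lib.MP_c44407_an.Defs10
import Pool.Agent.Lib.MP_c44407_an.Cone10

/-! Expanding cones: no pluripotency at periodic points. -/

open MeasureTheory Filter

namespace Pool.Agent.Lib.Plu

/-- the number of the times `i < n` at which the `g`-orbit of `z` is not `r`-close to `P` -/
noncomputable def outsP (g : TorusDiffeo) (P : Finset E) (r : ℝ) (n : ℕ) (z : E) : ℕ :=
  ∑ i ∈ Finset.range n, Set.indicator {w | ¬ ∃ p ∈ P, Near r w p} (fun _ => 1) (g.map^[i] z)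

/-- P2: the curve lemma for a finite set -/
def StP2 : Prop := ∀ (a b : E →L[ℝ] ℝ), (∀ v, a v = 0 → b v = 0 → v = 0) → ∀ l M : ℝ, 1 < l →
  1 < M → ∀ P : Finset E, ∃ r > 0, ∃ q > 0, q < 1 ∧ ∃ κ > 0, κ < 1 ∧ ∃ K v, ∀ g,
    ConeMap a b l M g → ∀ y : E, ∀ n : ℕ,
      ∫⁻ t in Set.Icc (0 : ℝ) 1, ENNReal.ofReal (q ^ outsP g P r n (y + t • v))
        ≤ ENNReal.ofReal (K * κ ^ n)

/-- P3: the statistics give the frequency -/
def StP3 : Prop := ∀ (g : TorusDiffeo) (P : Finset E) (x' y : E) (r : ℝ), 0 < r →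
  (∀ n, ∃ p ∈ P, Near (r / 2) (g.map^[n] x') p) → SameStatistics g x' y → ∀ η > 0, ∃ N : ℕ,
    ∀ n ≥ N, (outsP g P r n y : ℝ) ≤ η * n

/-- P5: measurability -/
def StP5 : Prop := ∀ (g : TorusDiffeo) (P : Finset E) (r : ℝ) (n : ℕ), Measurable (outsP g P r n)

/-- PF: no pluripotency if the set contains a periodic point -/
def StPF : Prop := ∀ (f : TorusDiffeo) (a b : E →L[ℝ] ℝ) (L : Set E), ExpandingCone f a b →
  (∃ p ∈ L, ∃ k : ℕ, 1 ≤ k ∧ ∃ m, f.map^[k] p = p + zv m) → ¬ Pluripotent f L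

end Pool.Agent.Lib.Plu
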