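import Mathlib
import Pool.Agent.Lib.MP_c44407_an.Defs10

open MeasureTheory Filter

namespace Pool.Agent.Lib.Plu

/-- UNI1: perturbations whose size depends only on a bound `K` of the derivative of `ψ` -/
def StUni1 : Prop := ∀ (f : TorusDiffeo) (K : ℝ), ∀ ε > 0, ∃ s > 0, ∃ r > 0, ∀ ψ : E → E,
  ContDiff ℝ 1 ψ → (∀ x m, ψ (x + zv m) = ψ x) → (∀ x, ‖ψ x‖ ≤ r) →
  (∀ x, ‖fderiv ℝ ψ x‖ ≤ K) → ∃ h : TorusDiffeo, C1Close ε f h ∧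
    ∀ x, h.map x = f.map (x + (s : ℝ) • ψ x)

/-- UNI2: small periodic vector fields with derivative the identity at finitely many points -/
def StUni2 : Prop := ∃ K : ℝ, ∀ Q : Finset E,
  (∀ q ∈ Q, ∀ q' ∈ Q, q ≠ q' → ∀ m, q ≠ q' + zv m) → ∀ r > 0, ∃ ψ : E → E,
    ContDiff ℝ 1 ψ ∧ (∀ x m, ψ (x + zv m) = ψ x) ∧ (∀ x, ‖ψ x‖ ≤ r) ∧
    (∀ x, ‖fderiv ℝ ψ x‖ ≤ K) ∧
    ∀ q ∈ Q, ψ q = 0 ∧ fderiv ℝ ψ q = ContinuousLinearMap.id ℝ E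

end Pool.Agent.Lib.Plu
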