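import Mathlib
import Pool.Agent.Lib.MP_c44407_an.Defs10
import Pool.Agent.Lib.MP_c44407_an.St2
import Pool.Agent.Lib.MP_c44407_an.Fin10

open MeasureTheory Filter

namespace Pool.Agent.Lib.Plu

lemma zv_add (m m' : Fin 2 → ℤ) : zv (m + m') = zv m + zv m' := by
  ext i; simp [zv]

lemma zv_neg (m : Fin 2 → ℤ) : zv (-m) = - zv m := by
  ext i; simp [zv]

lemma zv_zero : zv 0 = 0 := by
  ext i; simp [zv]

/-- sums along a periodic orbit -/
lemma per_sum (h : TorusDiffeo) (p : E) (k : ℕ) (m : Fin 2 → ℤ) (hm' : h.map^[k] p = p + zv m)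
    (n : ℕ) : ∑ i ∈ Finset.range (n * k), J h (h.map^[i] p)
      = n * Real.log |(fderiv ℝ (h.map^[k]) p).det| := by
  have hperJ : ∀ i, J h (h.map^[i + k] p) = J h (h.map^[i] p) := by
    intro i
    rw [Function.iterate_add_apply, hm']
    obtain ⟨m', hm''⟩ := h.iter_add i m
    rw [hm'', h.J_add]
  induction n with
  | zero => simp
  | succ n ih =>
    rw [Nat.succ_mul, Finset.sum_range_add, ih]
    have h5 : ∀ j n : ℕ, J h (h.map^[n * k + j] p) = J h (h.map^[j] p) := by
      intro j n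
      induction n with
      | zero => simp
      | succ n ih2 =>
        rw [← ih2, ← hperJ (n * k + j)]
        congr 2
        ring_nf
    have h6 : ∑ j ∈ Finset.range k, J h (h.map^[n * k + j] p)
        = Real.log |(fderiv ℝ (h.map^[k]) p).det| := by
      rw [h.log_det]
      exact Finset.sum_congr rfl (fun j _ => h5 j n)
    rw [h6]; push_cast; ring

/-- the fractional part -/
noncomputable def fr (x : E) : E := WithLp.toLp 2 (fun i => Int.fract (x i))

lemma fr_eq (x : E) : ∃ m, x = fr x + zv m := by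
  refine ⟨fun i => ⌊x i⌋, ?_⟩
  ext i
  simp [fr, zv]

lemma fr_sep (x y : E) (m : Fin 2 → ℤ) (h : fr x = fr y + zv m) : fr x = fr y := by
  have hm : m = 0 := by
    funext i
    have h1 : fr x i = fr y i + m i := by
      rw [h]; simp [zv]
    have h2 : fr x i = Int.fract (x i) := by simp [fr]
    have h3 : fr y i = Int.fract (y i) := by simp [fr]
    rw [h2, h3] at h1
    have a1 := Int.fract_nonneg (x i)
    have a2 := Int.fract_lt_one (x i)
    have a3 := Int.fract_nonneg (y i)
    have a4 := Int.fract_lt_one (y i)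
    have b1 : ((m i : ℤ) : ℝ) < 1 := by linarith
    have b2 : (-1 : ℝ) < ((m i : ℤ) : ℝ) := by linarith
    have c1 : m i < 1 := by exact_mod_cast b1
    have c2 : -1 < m i := by exact_mod_cast b2
    simp only [Pi.zero_apply]; omega
  rw [h, hm, zv_zero, add_zero]

lemma det_scale (s : ℝ) : ((1 + s) • ContinuousLinearMap.id ℝ E).det = (1 + s) ^ 2 := by
  have : ((1 + s) • ContinuousLinearMap.id ℝ E).det
      = LinearMap.det ((1 + s) • (LinearMap.id : E →ₗ[ℝ] E)) := rfl
  rw [this, LinearMap.det_smul]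
  simp

theorem finalU (hLip : StLip) (hClose : StClose) (hU1 : StUni1) (hU2 : StUni2) (hVol : StVol)
    (f : TorusDiffeo) (L : Set E) (hf : RobustlyPluripotent f L) :
    (∀ x ∈ L, ∀ a > 0, ∀ᶠ n : ℕ in atTop, Real.log |(fderiv ℝ (f.map^[n]) x).det| ≤ a * n) ∧
    ∃ c : ℝ, 0 < c ∧ c < 1 ∧ ∀ p ∈ L, ∀ k : ℕ, 1 ≤ k → (∃ m, f.map^[k] p = p + zv m) →
      |(fderiv ℝ (f.map^[k]) p).det| ≤ c ^ k := by
  obtain ⟨ε, hε, δ, hδ, hrob⟩ := hf
  constructor
  · intro x hx a ha
    have h1 : C1Close ε f f := fun y => ⟨near_refl hε _, by simpa using hε.le⟩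
    have h2 : x ∈ continuation δ f f L := ⟨x, hx, fun n => ⟨near_refl hδ _, near_refl hδ _⟩⟩
    exact pluri hLip hClose hVol f _ (hrob f h1) x h2 a ha
  · obtain ⟨K, hK⟩ := hU2
    obtain ⟨s, hs, r, hr, hU⟩ := hU1 f K ε hε
    have hs1 : 1 < 1 + s := by linarith
    refine ⟨(1 + s)⁻¹, by positivity, inv_lt_one_of_one_lt₀ hs1, ?_⟩
    intro p hp k hk hper
    obtain ⟨m0, hm0⟩ := hper
    classical
    let Q : Finset E := (Finset.range k).image (fun i => fr (f.map^[i] p))
    have hQ : ∀ q ∈ Q, ∀ q' ∈ Q, q ≠ q' → ∀ m, q ≠ q' + zv m := by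
      intro q hq q' hq' hne m h
      obtain ⟨i, _, rfl⟩ := Finset.mem_image.mp hq
      obtain ⟨j, _, rfl⟩ := Finset.mem_image.mp hq'
      exact hne (fr_sep _ _ m h)
    obtain ⟨ψ, hψ1, hψ2, hψ3, hψ4, hψ5⟩ := hK Q hQ r hr
    obtain ⟨h, hclose, hmap⟩ := hU ψ hψ1 hψ2 hψ3 hψ4
    let A : Set E := {y | ∃ i < k, ∃ m, y = f.map^[i] p + zv m}
    have hpA : p ∈ A := ⟨0, hk, 0, by simp [zv_zero]⟩
    have hAf : ∀ y ∈ A, f.map y ∈ A := by
      rintro y ⟨i, hi, m, rfl⟩
      obtain ⟨m', hm'⟩ := f.map_add m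
      rw [hm', ← Function.iterate_succ_apply' f.map i p]
      by_cases hik : i + 1 < k
      · exact ⟨i + 1, hik, m', rfl⟩
      · have : i + 1 = k := by omega
        refine ⟨0, hk, m0 + m', ?_⟩
        have e : f.map^[i.succ] p = p + zv m0 := by
          have : i.succ = k := this
          rw [this, hm0]
        rw [e, zv_add, add_assoc]; rfl
    have hAinv : ∀ y ∈ A, f.inv y ∈ A := by
      rintro y ⟨i, hi, m, rfl⟩
      rcases i with _ | i
      · have h1 : f.map^[0] p + zv m = f.map^[k] p + zv (m - m0) := by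
          rw [hm0, sub_eq_add_neg, zv_add, zv_neg]
          simp only [Function.iterate_zero, id]
          abel
        obtain ⟨m', hm'⟩ := f.inv_add (m - m0)
        obtain ⟨k', rfl⟩ : ∃ k', k = k' + 1 := ⟨k - 1, by omega⟩
        refine ⟨k', by omega, m', ?_⟩
        rw [h1, hm', Function.iterate_succ_apply', f.left_inv]
      · obtain ⟨m', hm'⟩ := f.inv_add m
        refine ⟨i, by omega, m', ?_⟩
        rw [hm', Function.iterate_succ_apply', f.left_inv]
    have hψA : ∀ y ∈ A, ψ y = 0 ∧ fderiv ℝ ψ y = ContinuousLinearMap.id ℝ E := by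
      rintro y ⟨i, hi, m, rfl⟩
      obtain ⟨m', hm'⟩ := fr_eq (f.map^[i] p)
      have hq : fr (f.map^[i] p) ∈ Q := Finset.mem_image.mpr ⟨i, Finset.mem_range.mpr hi, rfl⟩
      have hy : f.map^[i] p + zv m = fr (f.map^[i] p) + zv (m' + m) := by
        conv_lhs => rw [hm']
        rw [zv_add, add_assoc]
      obtain ⟨h0, h1⟩ := hψ5 _ hq
      rw [hy]
      constructor
      · rw [hψ2, h0]
      · have h2 : fderiv ℝ (fun z => ψ (z + zv (m' + m))) (fr (f.map^[i] p))
            = fderiv ℝ ψ (fr (f.map^[i] p) + zv (m' + m)) := fderiv_comp_add_right _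
        have h3 : (fun z => ψ (z + zv (m' + m))) = ψ := by
          funext z; exact hψ2 z _
        rw [← h2, h3, h1]
    have hmapA : ∀ y ∈ A, h.map y = f.map y := by
      intro y hy
      rw [hmap, (hψA y hy).1, smul_zero, add_zero]
    have hinvA : ∀ y ∈ A, h.inv y = f.inv y := by
      intro y hy
      have h1 := hmapA _ (hAinv y hy)
      rw [f.right_inv] at h1
      rw [← h1, h.left_inv, h1]
    have horb : ∀ n : ℕ, (h.map^[n] p = f.map^[n] p ∧ f.map^[n] p ∈ A) ∧
        (h.inv^[n] p = f.inv^[n] p ∧ f.inv^[n] p ∈ A) := by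
      intro n
      induction n with
      | zero => exact ⟨⟨rfl, hpA⟩, ⟨rfl, hpA⟩⟩
      | succ n ih =>
        simp only [Function.iterate_succ_apply']
        refine ⟨⟨?_, hAf _ ih.1.2⟩, ⟨?_, hAinv _ ih.2.2⟩⟩
        · rw [ih.1.1, hmapA _ ih.1.2]
        · rw [ih.2.1, hinvA _ ih.2.2]
    have hJA : ∀ y ∈ A, J h y = J f y + 2 * Real.log (1 + s) := by
      intro y hy
      obtain ⟨h0, h1⟩ := hψA y hy
      have e1 : h.map = f.map ∘ (fun x => x + s • ψ x) := by
        funext x; exact hmap x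
      have d1 : HasFDerivAt (fun x => x + s • ψ x)
          (ContinuousLinearMap.id ℝ E + s • fderiv ℝ ψ y) y :=
        (hasFDerivAt_id y).add
          (((hψ1.differentiable (by norm_num)) y).hasFDerivAt.const_smul s)
      have d2 : HasFDerivAt f.map (fderiv ℝ f.map y) (y + s • ψ y) := by
        rw [h0, smul_zero, add_zero]
        exact (f.diff y).hasFDerivAt
      have d3 : fderiv ℝ h.map y
          = (fderiv ℝ f.map y).comp (ContinuousLinearMap.id ℝ E + s • fderiv ℝ ψ y) := by
        rw [e1]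
        exact (HasFDerivAt.comp y d2 d1).fderiv
      have d4 : ContinuousLinearMap.id ℝ E + s • fderiv ℝ ψ y
          = (1 + s) • ContinuousLinearMap.id ℝ E := by
        rw [h1]
        ext v i
        simp only [ContinuousLinearMap.add_apply, ContinuousLinearMap.smul_apply,
          ContinuousLinearMap.id_apply, PiLp.add_apply, PiLp.smul_apply, smul_eq_mul]
        ring
      unfold J
      rw [d3, d4, clm_det_comp, det_scale, abs_mul,
        Real.log_mul (abs_ne_zero.mpr (f.det_ne y)) (by positivity), abs_pow,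
        abs_of_pos (by linarith : 0 < 1 + s), Real.log_pow]
      push_cast; ring
    have h2 : p ∈ continuation δ f h L := by
      refine ⟨p, hp, fun n => ?_⟩
      rw [(horb n).1.1, (horb n).2.1]
      exact ⟨near_refl hδ _, near_refl hδ _⟩
    have hlog : 0 < Real.log (1 + s) := Real.log_pos hs1
    have h3 := pluri hLip hClose hVol h _ (hrob h hclose) p h2 (Real.log (1 + s)) hlog
    obtain ⟨M, hM⟩ := eventually_atTop.mp h3
    have h7 := hM ((M + 1) * k) (by nlinarith)
    have h8 : ∑ i ∈ Finset.range ((M + 1) * k), J h (h.map^[i] p)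
        = ∑ i ∈ Finset.range ((M + 1) * k), (J f (f.map^[i] p) + 2 * Real.log (1 + s)) := by
      refine Finset.sum_congr rfl (fun i _ => ?_)
      rw [(horb i).1.1, hJA _ (horb i).1.2]
    rw [h.log_det, h8, Finset.sum_add_distrib, per_sum f p k m0 hm0] at h7
    simp only [Finset.sum_const, Finset.card_range, nsmul_eq_mul] at h7
    push_cast at h7
    set b := Real.log |(fderiv ℝ (f.map^[k]) p).det| with hb
    have h9 : b ≤ - (k * Real.log (1 + s)) := by
      have hM1 : (0 : ℝ) < (M : ℝ) + 1 := by positivity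
      have : ((M : ℝ) + 1) * b ≤ ((M : ℝ) + 1) * (-(k * Real.log (1 + s))) := by
        nlinarith
      exact le_of_mul_le_mul_left this hM1
    have hd : 0 < |(fderiv ℝ (f.map^[k]) p).det| := abs_pos.mpr (f.det_iter_ne k p)
    calc |(fderiv ℝ (f.map^[k]) p).det| = Real.exp b := (Real.exp_log hd).symm
      _ ≤ Real.exp (- (k * Real.log (1 + s))) := Real.exp_le_exp.mpr h9
      _ = (1 + s)⁻¹ ^ k := by
        rw [Real.exp_neg, mul_comm, Real.exp_mul, Real.exp_log (by linarith), Real.rpow_natCast,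
          inv_pow]

end Pool.Agent.Lib.Plu
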