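import Pool.Agent.Lib.MP_c44407_an.Defs10

open MeasureTheory Filter

namespace Pool.Agent.Lib.Plu

lemma zv_apply (m : Fin 2 → ℤ) (i : Fin 2) : (zv m) i = (m i : ℝ) := rfl

lemma zv_add (m n : Fin 2 → ℤ) : zv (m + n) = zv m + zv n := by
  ext i
  simp [zv_apply]

lemma zv_neg (m : Fin 2 → ℤ) : zv (-m) = - zv m := by
  ext i
  simp [zv_apply]

lemma zv_zero : zv 0 = 0 := by
  ext i
  simp [zv_apply]

/-- every point has an integer translate in the ball of radius 2 -/
lemma exists_small (x : E) : ∃ m, ‖x + zv m‖ ≤ 2 := by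
  refine ⟨fun i => -⌊x i⌋, ?_⟩
  rw [EuclideanSpace.norm_eq]
  have h : ∀ i : Fin 2, ‖(x + zv (fun i => -⌊x i⌋)) i‖ ^ 2 ≤ 1 := by
    intro i
    have e : (x + zv (fun i => -⌊x i⌋)) i = x i - ⌊x i⌋ := by
      simp [zv_apply, sub_eq_add_neg]
    rw [e, Real.norm_eq_abs, sq_abs]
    have h0 : 0 ≤ x i - ⌊x i⌋ := sub_nonneg.2 (Int.floor_le _)
    have h1 : x i - ⌊x i⌋ ≤ 1 := by linarith [Int.lt_floor_add_one (x i)]
    nlinarith
  have : ∑ i : Fin 2, ‖(x + zv (fun i => -⌊x i⌋)) i‖ ^ 2 ≤ 2 := by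
    rw [Fin.sum_univ_two]
    linarith [h 0, h 1]
  calc Real.sqrt (∑ i : Fin 2, ‖(x + zv (fun i => -⌊x i⌋)) i‖ ^ 2)
      ≤ Real.sqrt (2 ^ 2) := Real.sqrt_le_sqrt (by linarith)
    _ = 2 := Real.sqrt_sq (by norm_num)

/-- continuous periodic functions are bounded -/
lemma bdd_of_periodic {φ : E → ℝ} (hc : Continuous φ) (hp : ∀ x m, φ (x + zv m) = φ x) :
    ∃ B, 0 ≤ B ∧ ∀ x, |φ x| ≤ B := by
  obtain ⟨B, hB⟩ := (isCompact_closedBall (0 : E) 2).exists_bound_of_continuousOn hc.continuousOn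
  refine ⟨max B 0, le_max_right _ _, fun x => ?_⟩
  obtain ⟨m, hm⟩ := exists_small x
  rw [← hp x m]
  have := hB (x + zv m) (by simpa using hm)
  rw [Real.norm_eq_abs] at this
  exact this.trans (le_max_left _ _)

/-- continuous periodic functions are uniformly continuous -/
lemma uc_of_periodic {φ : E → ℝ} (hc : Continuous φ) (hp : ∀ x m, φ (x + zv m) = φ x)
    {η : ℝ} (hη : 0 < η) : ∃ δ > 0, ∀ x y, ‖x - y‖ < δ → |φ x - φ y| < η := by
  have hu := (isCompact_closedBall (0 : E) 3).uniformContinuousOn_of_continuous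
    (f := φ) hc.continuousOn
  rw [Metric.uniformContinuousOn_iff] at hu
  obtain ⟨δ, hδ, h⟩ := hu η hη
  refine ⟨min δ 1, lt_min hδ one_pos, fun x y hxy => ?_⟩
  obtain ⟨m, hm⟩ := exists_small x
  have h1 : x + zv m ∈ Metric.closedBall (0 : E) 3 := by
    simp only [Metric.mem_closedBall, dist_zero_right]
    linarith
  have h2 : y + zv m ∈ Metric.closedBall (0 : E) 3 := by
    simp only [Metric.mem_closedBall, dist_zero_right]
    have : y + zv m = (x + zv m) - (x - y) := by abel
    rw [this]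
    have := norm_sub_le (x + zv m) (x - y)
    have := lt_of_lt_of_le hxy (min_le_right _ _)
    linarith
  have h3 := h _ h1 _ h2 (by
    rw [dist_eq_norm]
    have : x + zv m - (y + zv m) = x - y := by abel
    rw [this]
    exact lt_of_lt_of_le hxy (min_le_left _ _))
  rwa [hp, hp, Real.dist_eq] at h3

theorem lip45 : StLip := by
  intro φ hc hp η hη
  obtain ⟨B, hB0, hB⟩ := bdd_of_periodic hc hp
  obtain ⟨δ, hδ, hu⟩ := uc_of_periodic hc hp hη
  -- the slope
  set K : ℝ := 2 * B / δ with hK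
  have hK0 : 0 ≤ K := by positivity
  have hKδ : K * δ = 2 * B := by
    rw [hK]; field_simp
  set ψ : E → ℝ := fun x => ⨅ y, (φ y + K * ‖x - y‖) with hψ
  have hbdd : ∀ x, BddBelow (Set.range fun y => φ y + K * ‖x - y‖) := by
    intro x
    refine ⟨-B, ?_⟩
    rintro _ ⟨y, rfl⟩
    have h1 := (abs_le.1 (hB y)).1
    have h2 : 0 ≤ K * ‖x - y‖ := by positivity
    simp only
    linarith
  have hle : ∀ x, ψ x ≤ φ x := by
    intro x
    have := ciInf_le (hbdd x) x
    simpa [hψ] using this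
  have hge : ∀ x, φ x - η ≤ ψ x := by
    intro x
    refine le_ciInf fun y => ?_
    by_cases h : ‖x - y‖ < δ
    · have h1 := (abs_lt.1 (hu x y h)).2
      have h2 : 0 ≤ K * ‖x - y‖ := by positivity
      linarith
    · push Not at h
      have h1 := (abs_le.1 (hB y)).1
      have h2 := (abs_le.1 (hB x)).2
      have h3 : K * δ ≤ K * ‖x - y‖ := mul_le_mul_of_nonneg_left h hK0
      linarith
  have hlip : ∀ x x', ψ x ≤ ψ x' + K * ‖x - x'‖ := by
    intro x x'
    have : ψ x - K * ‖x - x'‖ ≤ ψ x' := by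
      refine le_ciInf fun y => ?_
      have h1 := ciInf_le (hbdd x) y
      have h2 : ‖x - y‖ ≤ ‖x - x'‖ + ‖x' - y‖ := by
        have : x - y = (x - x') + (x' - y) := by abel
        rw [this]; exact norm_add_le _ _
      have h3 : K * ‖x - y‖ ≤ K * (‖x - x'‖ + ‖x' - y‖) := mul_le_mul_of_nonneg_left h2 hK0
      simp only [hψ]
      nlinarith
    linarith
  have hper : ∀ x m, ψ (x + zv m) = ψ x := by
    have hone : ∀ x m, ψ (x + zv m) ≤ ψ x := by
      intro x m
      refine le_ciInf fun y => ?_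
      have h1 := ciInf_le (hbdd (x + zv m)) (y + zv m)
      rw [hp] at h1
      have : x + zv m - (y + zv m) = x - y := by abel
      rw [this] at h1
      exact h1
    intro x m
    refine le_antisymm (hone x m) ?_
    have := hone (x + zv m) (-m)
    rw [zv_neg] at this
    simpa using this
  -- the constant
  set c : ℝ := K + B + η + 1 with hcdef
  have hcpos : 0 < c := by positivity
  refine ⟨c, hcpos, fun x => ψ x / c, ⟨fun x m => by simp only [hper], ?_, ?_⟩, ?_⟩
  · refine LipschitzWith.of_dist_le_mul fun x y => ?_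
    rw [Real.dist_eq, dist_eq_norm, NNReal.coe_one, one_mul, ← sub_div, abs_div,
      abs_of_pos hcpos, div_le_iff₀ hcpos]
    have h1 := hlip x y
    have h2 := hlip y x
    rw [norm_sub_rev y x] at h2
    have h3 : K * ‖x - y‖ ≤ ‖x - y‖ * c := by
      rw [mul_comm]
      refine mul_le_mul_of_nonneg_left ?_ (norm_nonneg _)
      rw [hcdef]; linarith
    rw [abs_le]
    constructor <;> linarith
  · intro x
    rw [abs_div, abs_of_pos hcpos, div_le_one hcpos, abs_le]
    have h1 := (abs_le.1 (hB x)).1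
    have h2 := (abs_le.1 (hB x)).2
    have h3 := hle x
    have h4 := hge x
    constructor <;> rw [hcdef] <;> linarith
  · intro x
    have : c * (ψ x / c) = ψ x := by field_simp
    rw [this, abs_le]
    have h3 := hle x
    have h4 := hge x
    constructor <;> linarith

end Pool.Agent.Lib.Plu
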