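import Pool.Agent.Lib.MP_c44407_an.ConeP10
import Pool.Agent.Lib.MP_c44407_an.CC5_4

/-! Row P5 (helper4): measurability. -/

open MeasureTheory Filter

namespace Pool.Agent.Lib.Plu

theorem nearP_meas4 (P : Finset E) (r : ℝ) : MeasurableSet {w : E | ∃ p ∈ P, Near r w p} := by
  have h : {w : E | ∃ p ∈ P, Near r w p} = ⋃ p ∈ P, {w : E | Near r w p} := by
    ext w
    simp
  rw [h]
  exact Finset.measurableSet_biUnion _ fun p _ => near_meas4 p r

theorem p5_4 : StP5 := by
  intro g P r n
  show Measurable (fun z => ∑ i ∈ Finset.range n,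
    Set.indicator {w | ¬ ∃ p ∈ P, Near r w p} (fun _ => (1 : ℕ)) (g.map^[i] z))
  refine Finset.measurable_fun_sum _ fun i _ => ?_
  have hi : Measurable (Set.indicator {w : E | ¬ ∃ p ∈ P, Near r w p} (fun _ => (1 : ℕ))) :=
    measurable_const.indicator (nearP_meas4 P r).compl
  exact hi.comp (g.contDiff_map.continuous.iterate i).measurable

end Pool.Agent.Lib.Plu
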