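import Pool.Agent.Lib.MP_c44407_an.Defs10

set_option autoImplicit false

open Filter

namespace Pool.Agent.Lib.Plu

namespace P2_40

theorem zv_apply (m : Fin 2 → ℤ) (i : Fin 2) : zv m i = (m i : ℝ) := rfl

theorem zv_zero : zv 0 = 0 := by ext i; simp [zv]

theorem zv_add (m n : Fin 2 → ℤ) : zv (m + n) = zv m + zv n := by ext i; simp [zv]

theorem zv_neg (m : Fin 2 → ℤ) : zv (-m) = -zv m := by ext i; simp [zv]

/-- a nonnegative periodic function that vanishes exactly on `a + ℤ²` -/
noncomputable def w (a z : E) : ℝ := ∑ i : Fin 2, (1 - Real.cos (2 * Real.pi * (z i - a i)))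

theorem w_nonneg (a z : E) : 0 ≤ w a z :=
  Finset.sum_nonneg fun _ _ => sub_nonneg.2 (Real.cos_le_one _)

theorem w_self (a : E) : w a a = 0 := by simp [w]

theorem w_per (a z : E) (m : Fin 2 → ℤ) : w a (z + zv m) = w a z := by
  unfold w
  refine Finset.sum_congr rfl fun i _ => ?_
  have : 2 * Real.pi * ((z + zv m) i - a i) = 2 * Real.pi * (z i - a i) + (m i : ℝ) * (2 * Real.pi) := by
    rw [PiLp.add_apply, zv_apply]; ring
  rw [this, Real.cos_add_int_mul_two_pi]

theorem w_pos (a z : E) (h : ¬ ∃ m, a = z + zv m) : 0 < w a z := by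
  refine lt_of_le_of_ne (w_nonneg a z) fun h0 => h ?_
  have h1 : ∀ i : Fin 2, Real.cos (2 * Real.pi * (z i - a i)) = 1 := by
    intro i
    have := (Finset.sum_eq_zero_iff_of_nonneg
      (fun i _ => sub_nonneg.2 (Real.cos_le_one (2 * Real.pi * (z i - a i))))).1 h0.symm i
      (Finset.mem_univ i)
    linarith
  have h2 : ∀ i : Fin 2, ∃ n : ℤ, (n : ℝ) * (2 * Real.pi) = 2 * Real.pi * (z i - a i) := fun i =>
    (Real.cos_eq_one_iff _).1 (h1 i)
  choose n hn using h2
  refine ⟨fun i => - n i, ?_⟩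
  ext i
  have h3 := hn i
  have h4 : (n i : ℝ) = z i - a i := by
    have hp : (2 * Real.pi) ≠ 0 := by positivity
    apply mul_right_cancel₀ hp
    rw [h3]; ring
  rw [PiLp.add_apply, zv_apply]
  push_cast
  linarith

theorem coord_contDiff (i : Fin 2) : ContDiff ℝ 1 (fun z : E => z i) :=
  (EuclideanSpace.proj (𝕜 := ℝ) i).contDiff

theorem w_contDiff (a : E) : ContDiff ℝ 1 (w a) := by
  unfold w
  refine ContDiff.sum fun i _ => ?_
  refine contDiff_const.sub (Real.contDiff_cos.comp ?_)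
  exact contDiff_const.mul ((coord_contDiff i).sub contDiff_const)

/-- the field `(sin 2π(z - p)) / 2π` -/
noncomputable def S (p z : E) : E :=
  WithLp.toLp 2 (fun i => Real.sin (2 * Real.pi * (z i - p i)) / (2 * Real.pi))

theorem S_self (p : E) : S p p = 0 := by ext i; simp [S]

theorem S_per (p z : E) (m : Fin 2 → ℤ) : S p (z + zv m) = S p z := by
  ext i
  have : 2 * Real.pi * ((z + zv m) i - p i) = 2 * Real.pi * (z i - p i) + (m i : ℝ) * (2 * Real.pi) := by
    rw [PiLp.add_apply, zv_apply]; ring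
  simp only [S]
  rw [this, Real.sin_add_int_mul_two_pi]

theorem S_contDiff (p : E) : ContDiff ℝ 1 (S p) := by
  rw [contDiff_euclidean]
  intro i
  simp only [S]
  refine ContDiff.div_const ?_ _
  exact Real.contDiff_sin.comp (contDiff_const.mul ((coord_contDiff i).sub contDiff_const))

theorem S_deriv (p : E) : HasFDerivAt (S p) (ContinuousLinearMap.id ℝ E) p := by
  rw [← hasFDerivWithinAt_univ, hasFDerivWithinAt_euclidean]
  intro i
  rw [hasFDerivWithinAt_univ]
  have h1 : HasFDerivAt (fun z : E => z i) (EuclideanSpace.proj (𝕜 := ℝ) i) p :=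
    (EuclideanSpace.proj (𝕜 := ℝ) i).hasFDerivAt
  have h2 : HasFDerivAt (fun z : E => 2 * Real.pi * (z i - p i))
      ((2 * Real.pi) • (EuclideanSpace.proj (𝕜 := ℝ) i : E →L[ℝ] ℝ)) p :=
    (h1.sub_const (p i)).const_mul (2 * Real.pi)
  have h3 := h2.sin
  have h4 := h3.mul_const ((2 * Real.pi)⁻¹)
  refine (h4.congr_fderiv ?_).congr_of_eventuallyEq ?_
  · ext v
    have hp : Real.pi ≠ 0 := Real.pi_ne_zero
    simp
    field_simp
  · exact Eventually.of_forall fun z => by simp [S, div_eq_mul_inv]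

/-- existence of the perturbation field -/
theorem exists_psi (F : Finset E) (p : E) : ∃ ψ : E → E, ContDiff ℝ 1 ψ ∧
    (∀ x m, ψ (x + zv m) = ψ x) ∧ ψ p = 0 ∧ fderiv ℝ ψ p = ContinuousLinearMap.id ℝ E ∧
    ∀ q ∈ F, (¬ ∃ m, q = p + zv m) → ψ q = 0 ∧ fderiv ℝ ψ q = 0 := by
  classical
  let F' := F.filter fun q => ¬ ∃ m, q = p + zv m
  let c : E → ℝ := fun z => ∏ a ∈ F', (w a z / w a p)
  have hc0 : ∀ z, 0 ≤ c z := fun z =>
    Finset.prod_nonneg fun a _ => div_nonneg (w_nonneg a z) (w_nonneg a p)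
  have hcp : c p = 1 := by
    refine Finset.prod_eq_one fun a ha => ?_
    exact div_self (w_pos a p (Finset.mem_filter.1 ha).2).ne'
  have hcq : ∀ q ∈ F', c q = 0 := fun q hq =>
    Finset.prod_eq_zero hq (by rw [w_self]; simp)
  have hcC : ContDiff ℝ 1 c := by
    refine contDiff_prod fun a _ => ?_
    exact (w_contDiff a).div_const _
  have hcper : ∀ z m, c (z + zv m) = c z := fun z m =>
    Finset.prod_congr rfl fun a _ => by rw [w_per]
  have hcd : ∀ z, HasFDerivAt c (fderiv ℝ c z) z := fun z =>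
    (hcC.differentiable (by norm_num) z).hasFDerivAt
  have hSd : ∀ z, HasFDerivAt (S p) (fderiv ℝ (S p) z) z := fun z =>
    ((S_contDiff p).differentiable (by norm_num) z).hasFDerivAt
  refine ⟨fun z => c z • S p z, hcC.smul (S_contDiff p), fun x m => ?_, ?_, ?_, ?_⟩
  · simp only [hcper, S_per]
  · simp [S_self]
  · have h := (hcd p).fun_smul (S_deriv p)
    rw [HasFDerivAt.fderiv h, hcp, S_self]
    ext v
    simp
  · intro q hq hn
    have hqF : q ∈ F' := Finset.mem_filter.2 ⟨hq, hn⟩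
    have h0 : fderiv ℝ c q = 0 := by
      refine IsLocalMin.fderiv_eq_zero ?_
      exact Eventually.of_forall fun z => by rw [hcq q hqF]; exact hc0 z
    refine ⟨by simp [hcq q hqF], ?_⟩
    have h := (hcd q).fun_smul (hSd q)
    rw [HasFDerivAt.fderiv h, hcq q hqF, h0]
    ext v
    simp

theorem iter_add (g : E → E) (hg : ∀ m, ∃ m', ∀ x, g (x + zv m) = g x + zv m') (n : ℕ) :
    ∀ m, ∃ m', ∀ x, g^[n] (x + zv m) = g^[n] x + zv m' := by
  induction n with
  | zero => exact fun m => ⟨m, fun x => rfl⟩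
  | succ n ih =>
    intro m
    obtain ⟨m1, h1⟩ := ih m
    obtain ⟨m2, h2⟩ := hg m1
    refine ⟨m2, fun x => ?_⟩
    rw [Function.iterate_succ_apply', Function.iterate_succ_apply', h1, h2]

end P2_40

open P2_40

/-- PERT from PERT1. -/
theorem pert2_40 (h1 : ∀ (f : TorusDiffeo) (ψ : E → E), ContDiff ℝ 1 ψ →
    (∀ x m, ψ (x + zv m) = ψ x) → ∀ ε > 0, ∃ s : ℝ, 0 < s ∧ ∃ h : TorusDiffeo, C1Close ε f h ∧
      ∀ x, h.map x = f.map (x + s • ψ x)) : StPert := by
  classical
  intro f p k hk hper hdet ε hε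
  obtain ⟨m0, hm0⟩ := hper
  obtain ⟨ψ, hψC, hψper, hψp, hψd, hψq⟩ :=
    exists_psi ((Finset.range k).image fun j => f.map^[j] p) p
  obtain ⟨s, hs, h, hclose, hh⟩ := h1 f ψ hψC hψper ε hε
  refine ⟨h, hclose, ?_⟩
  -- the derivative of `ψ` is periodic
  have hdper : ∀ x m, fderiv ℝ ψ (x + zv m) = fderiv ℝ ψ x := by
    intro x m
    have e : (fun y => ψ (y + zv m)) = ψ := funext fun y => hψper y m
    have := fderiv_comp_add_right (𝕜 := ℝ) (f := ψ) (x := x) (zv m)
    rw [e] at this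
    exact this.symm
  let A : Set E := {z | ∃ j < k, ∃ m, z = f.map^[j] p + zv m}
  have hA0 : p ∈ A := ⟨0, hk, 0, by simp [zv_zero]⟩
  have hAψ : ∀ z ∈ A, ψ z = 0 ∧
      (fderiv ℝ ψ z = 0 ∨ fderiv ℝ ψ z = ContinuousLinearMap.id ℝ E) := by
    rintro z ⟨j, hj, m, rfl⟩
    rw [hψper, hdper]
    by_cases hc : ∃ m, f.map^[j] p = p + zv m
    · obtain ⟨m', hm'⟩ := hc
      rw [hm', hψper, hdper]
      exact ⟨hψp, Or.inr hψd⟩
    · have := hψq (f.map^[j] p)
        (Finset.mem_image.2 ⟨j, Finset.mem_range.2 hj, rfl⟩) hc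
      exact ⟨this.1, Or.inl this.2⟩
  have hAf : ∀ z ∈ A, f.map z ∈ A := by
    rintro z ⟨j, hj, m, rfl⟩
    obtain ⟨m', hm'⟩ := f.map_add m
    rw [hm', ← Function.iterate_succ_apply' f.map]
    by_cases hjk : j + 1 < k
    · exact ⟨j + 1, hjk, m', rfl⟩
    · have : j + 1 = k := by omega
      refine ⟨0, hk, m0 + m', ?_⟩
      rw [show j.succ = k from this, hm0, zv_add]
      simp [add_assoc]
  have hAi : ∀ z ∈ A, f.inv z ∈ A := by
    rintro z ⟨j, hj, m, rfl⟩
    obtain ⟨m', hm'⟩ := f.inv_add m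
    rw [hm']
    rcases Nat.eq_zero_or_pos j with rfl | hj0
    · obtain ⟨m2, hm2⟩ := f.inv_add (-m0)
      have e1 : p = f.map^[k] p + zv (-m0) := by rw [hm0, zv_neg]; simp
      have e2 : f.inv (f.map^[k] p) = f.map^[k - 1] p := by
        obtain ⟨k', rfl⟩ : ∃ k', k = k' + 1 := ⟨k - 1, by omega⟩
        rw [Function.iterate_succ_apply', f.left_inv]; simp
      refine ⟨k - 1, by omega, m2 + m', ?_⟩
      have e3 : f.inv p = f.map^[k - 1] p + zv m2 := by
        conv_lhs => rw [e1]
        rw [hm2, e2]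
      simp only [Function.iterate_zero, id_eq]
      rw [e3, zv_add, add_assoc]
    · obtain ⟨j', rfl⟩ : ∃ j', j = j' + 1 := ⟨j - 1, by omega⟩
      refine ⟨j', by omega, m', ?_⟩
      rw [Function.iterate_succ_apply', f.left_inv]
  have hOf : ∀ n : ℕ, f.map^[n] p ∈ A := by
    intro n
    induction n with
    | zero => exact hA0
    | succ n ih => rw [Function.iterate_succ_apply']; exact hAf _ ih
  have hOi : ∀ n : ℕ, f.inv^[n] p ∈ A := by
    intro n
    induction n with
    | zero => exact hA0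
    | succ n ih => rw [Function.iterate_succ_apply']; exact hAi _ ih
  have hmap : ∀ z ∈ A, h.map z = f.map z := by
    intro z hz
    rw [hh, (hAψ z hz).1]; simp
  have hinv : ∀ z ∈ A, h.inv z = f.inv z := by
    intro z hz
    have h2 := hmap _ (hAi z hz)
    rw [f.right_inv] at h2
    conv_lhs => rw [← h2]
    exact h.left_inv _
  have horb : ∀ n : ℕ, h.map^[n] p = f.map^[n] p := by
    intro n
    induction n with
    | zero => rfl
    | succ n ih =>
      rw [Function.iterate_succ_apply', Function.iterate_succ_apply', ih, hmap _ (hOf n)]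
  refine ⟨fun n => ⟨horb n, ?_⟩, ?_⟩
  · induction n with
    | zero => rfl
    | succ n ih =>
      rw [Function.iterate_succ_apply', Function.iterate_succ_apply', ih, hinv _ (hOi n)]
  -- the determinant
  have hfd : ∀ z, HasFDerivAt f.map (fderiv ℝ f.map z) z := fun z =>
    (f.contDiff_map.differentiable (by norm_num) z).hasFDerivAt
  have hhd : ∀ z, HasFDerivAt h.map (fderiv ℝ h.map z) z := fun z =>
    (h.contDiff_map.differentiable (by norm_num) z).hasFDerivAt
  have hψdd : ∀ z, HasFDerivAt ψ (fderiv ℝ ψ z) z := fun z =>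
    (hψC.differentiable (by norm_num) z).hasFDerivAt
  have hD : ∀ z ∈ A, fderiv ℝ h.map z =
      (fderiv ℝ f.map z).comp (ContinuousLinearMap.id ℝ E + s • fderiv ℝ ψ z) := by
    intro z hz
    have e : h.map = fun x => f.map (x + s • ψ x) := funext hh
    have h2 : HasFDerivAt (fun x => x + s • ψ x)
        (ContinuousLinearMap.id ℝ E + s • fderiv ℝ ψ z) z :=
      (hasFDerivAt_id z).add ((hψdd z).const_smul s)
    have h3 : HasFDerivAt f.map (fderiv ℝ f.map z) (z + s • ψ z) := by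
      rw [(hAψ z hz).1]; simpa using hfd z
    have h4 := h3.comp z h2
    have h5 : HasFDerivAt h.map ((fderiv ℝ f.map z).comp
        (ContinuousLinearMap.id ℝ E + s • fderiv ℝ ψ z)) z := by
      rw [e]; exact h4
    exact h5.fderiv
  have hdetc : ∀ (L M : E →L[ℝ] E), (L.comp M).det = L.det * M.det := by
    intro L M
    simp [ContinuousLinearMap.det, LinearMap.det_comp]
  have hdet1 : (ContinuousLinearMap.id ℝ E + s • ContinuousLinearMap.id ℝ E).det
      = (1 + s) ^ 2 := by
    have : (ContinuousLinearMap.id ℝ E + s • ContinuousLinearMap.id ℝ E : E →L[ℝ] E)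
        = (1 + s) • ContinuousLinearMap.id ℝ E := by
      ext v
      simp [add_mul]
    rw [this]
    simp [ContinuousLinearMap.det, LinearMap.det_smul]
  have hdet0 : (ContinuousLinearMap.id ℝ E + s • (0 : E →L[ℝ] E)).det = 1 := by
    simp [ContinuousLinearMap.det]
  have hs1 : 1 < (1 + s) ^ 2 := by nlinarith
  have hfac : ∀ z ∈ A, |(fderiv ℝ f.map z).det| ≤ |(fderiv ℝ h.map z).det| := by
    intro z hz
    rw [hD z hz, hdetc, abs_mul]
    rcases (hAψ z hz).2 with h0 | h0
    · rw [h0, hdet0]; simp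
    · rw [h0, hdet1, abs_of_pos (by positivity : (0 : ℝ) < (1 + s) ^ 2)]
      nlinarith [abs_nonneg (fderiv ℝ f.map z).det]
  have hiter : ∀ (g : TorusDiffeo) (n : ℕ), (fderiv ℝ (g.map^[n + 1]) p).det
      = (fderiv ℝ g.map (g.map^[n] p)).det * (fderiv ℝ (g.map^[n]) p).det := by
    intro g n
    have hgd : ∀ z, HasFDerivAt g.map (fderiv ℝ g.map z) z := fun z =>
      (g.contDiff_map.differentiable (by norm_num) z).hasFDerivAt
    have hgn : ContDiff ℝ 1 (g.map^[n]) := by
      induction n with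
      | zero => exact contDiff_id
      | succ n ih => rw [Function.iterate_succ']; exact g.contDiff_map.comp ih
    have hgnd : HasFDerivAt (g.map^[n]) (fderiv ℝ (g.map^[n]) p) p :=
      (hgn.differentiable (by norm_num) p).hasFDerivAt
    have h2 := (hgd (g.map^[n] p)).comp p hgnd
    rw [Function.iterate_succ', h2.fderiv, hdetc]
  have hmain : ∀ n : ℕ, (1 + s) ^ 2 * |(fderiv ℝ (f.map^[n + 1]) p).det|
      ≤ |(fderiv ℝ (h.map^[n + 1]) p).det| := by
    intro n
    induction n with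
    | zero =>
      have e : (fderiv ℝ h.map p).det = (fderiv ℝ f.map p).det * (1 + s) ^ 2 := by
        rw [hD p hA0, hdetc, hψd, hdet1]
      simp only [zero_add, Function.iterate_one]
      rw [e, abs_mul, abs_of_pos (by positivity : (0 : ℝ) < (1 + s) ^ 2)]
      linarith
    | succ n ih =>
      rw [hiter f (n + 1), hiter h (n + 1), abs_mul, abs_mul, horb (n + 1)]
      have := hfac _ (hOf (n + 1))
      calc (1 + s) ^ 2 * (|(fderiv ℝ f.map (f.map^[n + 1] p)).det| *
            |(fderiv ℝ (f.map^[n + 1]) p).det|)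
          = |(fderiv ℝ f.map (f.map^[n + 1] p)).det| *
            ((1 + s) ^ 2 * |(fderiv ℝ (f.map^[n + 1]) p).det|) := by ring
        _ ≤ _ := mul_le_mul this ih (by positivity) (abs_nonneg _)
  obtain ⟨k', rfl⟩ : ∃ k', k = k' + 1 := ⟨k - 1, by omega⟩
  have := hmain k'
  nlinarith

end Pool.Agent.Lib.Plu
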