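import Mathlib
import Pool.Agent.Lib.MP_c44407_an.Defs10

open MeasureTheory Filter

namespace Pool.Agent.Lib.Plu

/-- PERT1: small periodic perturbations -/
def StPert1 : Prop := ∀ (f : TorusDiffeo) (ψ : E → E), ContDiff ℝ 1 ψ →
  (∀ x m, ψ (x + zv m) = ψ x) → ∀ ε > 0, ∃ s > 0, ∃ h : TorusDiffeo, C1Close ε f h ∧
    ∀ x, h.map x = f.map (x + (s : ℝ) • ψ x)

end Pool.Agent.Lib.Plu
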