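import Mathlib
import Pool.Agent.Lib.MP_c44407_an.Defs10
import Pool.Agent.Lib.MP_c44407_an.St1

/-! Row PERT2 (helper56): the perturbation at a periodic point, from row PERT1. -/

open MeasureTheory Filter Set

namespace Pool.Agent.Lib.Plu
namespace PT56

theorem zv_apply (m : Fin 2 → ℤ) (i : Fin 2) : zv m i = (m i : ℝ) := rfl

theorem zv_zero : zv 0 = 0 := by
  ext i; simp [zv_apply]

theorem zv_add (m m' : Fin 2 → ℤ) : zv (m + m') = zv m + zv m' := by
  ext i; simp [zv_apply]

theorem zv_sub (m m' : Fin 2 → ℤ) : zv (m - m') = zv m - zv m' := by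
  ext i; simp [zv_apply]

/-- the points over the orbit of `p` -/
def Oc (f : TorusDiffeo) (p : E) (k : ℕ) : Set E :=
  {x | ∃ j < k, ∃ m, x = f.map^[j] p + zv m}

section orb
variable {f : TorusDiffeo} {p : E} {k : ℕ}

theorem p_mem (hk : 1 ≤ k) : p ∈ Oc f p k := ⟨0, hk, 0, by simp [zv_zero]⟩

theorem map_mem (hk : 1 ≤ k) {m0 : Fin 2 → ℤ} (h0 : f.map^[k] p = p + zv m0) {x : E}
    (hx : x ∈ Oc f p k) : f.map x ∈ Oc f p k := by
  obtain ⟨j, hj, m, rfl⟩ := hx
  obtain ⟨m', hm'⟩ := f.map_add m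
  rw [hm', ← Function.iterate_succ_apply' f.map j p]
  by_cases h : j + 1 < k
  · exact ⟨j + 1, h, m', rfl⟩
  · have : j + 1 = k := by omega
    refine ⟨0, hk, m0 + m', ?_⟩
    rw [Nat.succ_eq_add_one, this, h0, zv_add]
    simp [add_assoc]

theorem inv_mem (hk : 1 ≤ k) {m0 : Fin 2 → ℤ} (h0 : f.map^[k] p = p + zv m0) {x : E}
    (hx : x ∈ Oc f p k) : f.inv x ∈ Oc f p k := by
  have key : ∀ j < k, ∀ m, f.inv (f.map^[j + 1] p + zv m) ∈ Oc f p k := by
    intro j hj m
    obtain ⟨m', hm'⟩ := f.inv_add m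
    rw [hm', Function.iterate_succ_apply' f.map j p, f.left_inv]
    exact ⟨j, hj, m', rfl⟩
  obtain ⟨j, hj, m, rfl⟩ := hx
  rcases j with _ | j
  · have h1 := key (k - 1) (by omega) (m - m0)
    rw [Nat.sub_add_cancel hk, h0, zv_sub] at h1
    have e : p + zv m0 + (zv m - zv m0) = f.map^[0] p + zv m := by simp
    rwa [e] at h1
  · exact key j (by omega) m

theorem iter_mem (hk : 1 ≤ k) {m0 : Fin 2 → ℤ} (h0 : f.map^[k] p = p + zv m0) (n : ℕ) :
    f.map^[n] p ∈ Oc f p k := by
  induction n with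
  | zero => exact p_mem hk
  | succ n ih => rw [Function.iterate_succ_apply']; exact map_mem hk h0 ih

theorem iter_inv_mem (hk : 1 ≤ k) {m0 : Fin 2 → ℤ} (h0 : f.map^[k] p = p + zv m0) (n : ℕ) :
    f.inv^[n] p ∈ Oc f p k := by
  induction n with
  | zero => exact p_mem hk
  | succ n ih => rw [Function.iterate_succ_apply']; exact inv_mem hk h0 ih

end orb

/-- a nonnegative periodic function with zeros at the translates of `a` -/
noncomputable def qf (a z : E) : ℝ :=
  2 - Real.cos (2 * Real.pi * (z 0 - a 0)) - Real.cos (2 * Real.pi * (z 1 - a 1))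

theorem qf_nonneg (a z : E) : 0 ≤ qf a z := by
  have h1 := Real.cos_le_one (2 * Real.pi * (z 0 - a 0))
  have h2 := Real.cos_le_one (2 * Real.pi * (z 1 - a 1))
  unfold qf; linarith

theorem cos_shift (t : ℝ) (n : ℤ) :
    Real.cos (2 * Real.pi * (t + n)) = Real.cos (2 * Real.pi * t) := by
  rw [show 2 * Real.pi * (t + n) = 2 * Real.pi * t + n * (2 * Real.pi) by ring]
  exact Real.cos_add_int_mul_two_pi _ _

theorem sin_shift (t : ℝ) (n : ℤ) :
    Real.sin (2 * Real.pi * (t + n)) = Real.sin (2 * Real.pi * t) := by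
  rw [show 2 * Real.pi * (t + n) = 2 * Real.pi * t + n * (2 * Real.pi) by ring]
  exact Real.sin_add_int_mul_two_pi _ _

theorem qf_add (a z : E) (m : Fin 2 → ℤ) : qf a (z + zv m) = qf a z := by
  unfold qf
  simp only [PiLp.add_apply, zv_apply]
  rw [show z 0 + (m 0 : ℝ) - a 0 = (z 0 - a 0) + (m 0 : ℤ) by ring,
    show z 1 + (m 1 : ℝ) - a 1 = (z 1 - a 1) + (m 1 : ℤ) by ring, cos_shift, cos_shift]

theorem qf_self (a : E) : qf a a = 0 := by
  unfold qf; simp; norm_num

theorem qf_eq_zero {a z : E} (h : qf a z = 0) : ∃ m, a = z + zv m := by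
  have h1 := Real.cos_le_one (2 * Real.pi * (z 0 - a 0))
  have h2 := Real.cos_le_one (2 * Real.pi * (z 1 - a 1))
  have h3 : Real.cos (2 * Real.pi * (z 0 - a 0)) = 1 := by unfold qf at h; linarith
  have h4 : Real.cos (2 * Real.pi * (z 1 - a 1)) = 1 := by unfold qf at h; linarith
  obtain ⟨n0, hn0⟩ := (Real.cos_eq_one_iff _).1 h3
  obtain ⟨n1, hn1⟩ := (Real.cos_eq_one_iff _).1 h4
  have hpi : (2 * Real.pi) ≠ 0 := by positivity
  have e0 : z 0 - a 0 = n0 := by
    apply mul_left_cancel₀ hpi; rw [← hn0]; ring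
  have e1 : z 1 - a 1 = n1 := by
    apply mul_left_cancel₀ hpi; rw [← hn1]; ring
  refine ⟨![-n0, -n1], ?_⟩
  ext i
  fin_cases i
  · simp [zv_apply]; linarith
  · simp [zv_apply]; linarith

theorem contDiff_coord (i : Fin 2) : ContDiff ℝ 1 (fun z : E => z i) :=
  (contDiff_euclidean.1 (contDiff_id (𝕜 := ℝ) (n := 1) (E := E))) i

theorem contDiff_qf (a : E) : ContDiff ℝ 1 (qf a) := by
  unfold qf
  have h (i : Fin 2) := contDiff_coord i
  refine (contDiff_const.sub ?_).sub ?_
  · exact Real.contDiff_cos.comp (contDiff_const.mul ((h 0).sub contDiff_const))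
  · exact Real.contDiff_cos.comp (contDiff_const.mul ((h 1).sub contDiff_const))

/-- the sine field -/
noncomputable def Sf (p z : E) : E :=
  WithLp.toLp 2 (fun i => Real.sin (2 * Real.pi * (z i - p i)) / (2 * Real.pi))

theorem Sf_apply (p z : E) (i : Fin 2) :
    Sf p z i = Real.sin (2 * Real.pi * (z i - p i)) / (2 * Real.pi) := rfl

theorem Sf_add (p z : E) (m : Fin 2 → ℤ) : Sf p (z + zv m) = Sf p z := by
  ext i
  rw [Sf_apply, Sf_apply, PiLp.add_apply, zv_apply,
    show z i + (m i : ℝ) - p i = (z i - p i) + (m i : ℤ) by ring, sin_shift]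

theorem Sf_self (p : E) : Sf p p = 0 := by
  ext i
  rw [Sf_apply]; simp

theorem contDiff_Sf (p : E) : ContDiff ℝ 1 (Sf p) := by
  rw [contDiff_euclidean]
  intro i
  simp only [Sf_apply]
  exact (Real.contDiff_sin.comp (contDiff_const.mul ((contDiff_coord i).sub
    contDiff_const))).div_const _

theorem hasFDerivAt_Sf (p : E) : HasFDerivAt (Sf p) (ContinuousLinearMap.id ℝ E) p := by
  rw [← hasFDerivWithinAt_univ, hasFDerivWithinAt_euclidean]
  intro i
  rw [hasFDerivWithinAt_univ]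
  have hc : HasFDerivAt (fun z : E => z i)
      ((EuclideanSpace.proj i : E →L[ℝ] ℝ)) p := (EuclideanSpace.proj i : E →L[ℝ] ℝ).hasFDerivAt
  have h1 : HasFDerivAt (fun z : E => 2 * Real.pi * (z i - p i))
      ((2 * Real.pi) • (EuclideanSpace.proj i : E →L[ℝ] ℝ)) p :=
    (hc.sub_const (p i)).const_mul _
  have h2 := h1.sin
  have h3 := h2.mul_const (2 * Real.pi)⁻¹
  have hpi : (2 * Real.pi) ≠ 0 := by positivity
  have e1 : (fun z : E => Sf p z i) = fun z : E =>
      Real.sin (2 * Real.pi * (z i - p i)) * (2 * Real.pi)⁻¹ := by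
    funext z; rw [Sf_apply, div_eq_mul_inv]
  rw [e1]
  refine h3.congr_fderiv ?_
  ext v
  simp
  field_simp

/-- the determinant of the derivative of an iterate -/
theorem det_iter {F : E → E} (hF : ContDiff ℝ 1 F) (x : E) (n : ℕ) :
    (fderiv ℝ (F^[n]) x).det = ∏ j ∈ Finset.range n, (fderiv ℝ F (F^[j] x)).det := by
  induction n with
  | zero =>
    simp only [Function.iterate_zero, Finset.range_zero, Finset.prod_empty, fderiv_id]
    exact LinearMap.det_id
  | succ n ih =>
    rw [Finset.prod_range_succ, ← ih, Function.iterate_succ']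
    have h1 : DifferentiableAt ℝ F (F^[n] x) := (hF.differentiable (by norm_num)) _
    have h2 : DifferentiableAt ℝ (F^[n]) x := ((hF.differentiable (by norm_num)).iterate n) x
    rw [fderiv_comp x h1 h2]
    rw [mul_comm]
    exact LinearMap.det_comp _ _

/-- the perturbation field -/
noncomputable def cf (T : Finset ℕ) (f : TorusDiffeo) (p z : E) : ℝ :=
  ∏ j ∈ T, (qf (f.map^[j] p) z / qf (f.map^[j] p) p)

theorem cf_add (T : Finset ℕ) (f : TorusDiffeo) (p z : E) (m : Fin 2 → ℤ) :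
    cf T f p (z + zv m) = cf T f p z := by
  unfold cf; simp only [qf_add]

theorem cf_nonneg (T : Finset ℕ) (f : TorusDiffeo) (p z : E) : 0 ≤ cf T f p z :=
  Finset.prod_nonneg fun _ _ => div_nonneg (qf_nonneg _ _) (qf_nonneg _ _)

theorem contDiff_cf (T : Finset ℕ) (f : TorusDiffeo) (p : E) : ContDiff ℝ 1 (cf T f p) := by
  unfold cf
  exact contDiff_prod fun _ _ => (contDiff_qf _).div_const _

/-- the field -/
noncomputable def psif (T : Finset ℕ) (f : TorusDiffeo) (p z : E) : E := cf T f p z • Sf p z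

theorem psif_add (T : Finset ℕ) (f : TorusDiffeo) (p z : E) (m : Fin 2 → ℤ) :
    psif T f p (z + zv m) = psif T f p z := by
  unfold psif; rw [cf_add, Sf_add]

theorem contDiff_psif (T : Finset ℕ) (f : TorusDiffeo) (p : E) : ContDiff ℝ 1 (psif T f p) :=
  (contDiff_cf T f p).smul (contDiff_Sf p)

/-- a periodic function has a periodic derivative -/
theorem hasFDerivAt_shift {F : E → E} (hF : ∀ x m, F (x + zv m) = F x) {L : E →L[ℝ] E} {x : E}
    (h : HasFDerivAt F L x) (m : Fin 2 → ℤ) : HasFDerivAt F L (x + zv m) := by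
  have e : F = fun y => F (y - zv m) := by
    funext y
    have := hF (y - zv m) m
    rw [sub_add_cancel] at this
    exact this
  rw [e]
  have h' : HasFDerivAt F L (x + zv m - zv m) := by rwa [add_sub_cancel_right]
  have h2 : HasFDerivAt (fun y : E => y - zv m) (ContinuousLinearMap.id ℝ E) (x + zv m) :=
    (hasFDerivAt_id _).sub_const _
  have h3 := h'.comp (x + zv m) h2
  rwa [ContinuousLinearMap.comp_id] at h3

theorem hasFDerivAt_psif_self {T : Finset ℕ} {f : TorusDiffeo} {p : E} (h1 : cf T f p p = 1) :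
    HasFDerivAt (psif T f p) (ContinuousLinearMap.id ℝ E) p := by
  have hc : HasFDerivAt (cf T f p) (fderiv ℝ (cf T f p) p) p :=
    (((contDiff_cf T f p).differentiable (by norm_num)) p).hasFDerivAt
  have h := hc.smul (hasFDerivAt_Sf p)
  refine h.congr_fderiv ?_
  rw [h1, Sf_self]
  ext v
  simp

theorem hasFDerivAt_psif_zero {T : Finset ℕ} {f : TorusDiffeo} {p x : E} (h0 : cf T f p x = 0) :
    HasFDerivAt (psif T f p) ((0 : ℝ) • ContinuousLinearMap.id ℝ E) x := by
  have hmin : IsLocalMin (cf T f p) x := by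
    refine Filter.Eventually.of_forall fun y => ?_
    rw [h0]; exact cf_nonneg T f p y
  have hc : HasFDerivAt (cf T f p) (fderiv ℝ (cf T f p) x) x :=
    (((contDiff_cf T f p).differentiable (by norm_num)) x).hasFDerivAt
  have hS : HasFDerivAt (Sf p) (fderiv ℝ (Sf p) x) x :=
    (((contDiff_Sf p).differentiable (by norm_num)) x).hasFDerivAt
  have h := hc.smul hS
  refine h.congr_fderiv ?_
  rw [h0, hmin.fderiv_eq_zero]
  ext v
  simp

theorem psif_facts (f : TorusDiffeo) (p : E) (k : ℕ) :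
    ∃ ψ : E → E, ContDiff ℝ 1 ψ ∧ (∀ x m, ψ (x + zv m) = ψ x) ∧
      HasFDerivAt ψ (ContinuousLinearMap.id ℝ E) p ∧
      ∀ x ∈ Oc f p k, ψ x = 0 ∧ ∃ a : ℝ, 0 ≤ a ∧
        HasFDerivAt ψ (a • ContinuousLinearMap.id ℝ E) x := by
  classical
  set T := (Finset.range k).filter (fun j => ¬ ∃ m, f.map^[j] p = p + zv m) with hT
  have hc1 : cf T f p p = 1 := by
    unfold cf
    refine Finset.prod_eq_one fun j hj => div_self ?_
    intro h
    exact (Finset.mem_filter.1 hj).2 (qf_eq_zero h)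
  refine ⟨psif T f p, contDiff_psif T f p, psif_add T f p, hasFDerivAt_psif_self hc1, ?_⟩
  rintro x ⟨j, hj, m, rfl⟩
  by_cases h : ∃ m, f.map^[j] p = p + zv m
  · obtain ⟨m', hm'⟩ := h
    rw [hm', add_assoc, ← zv_add]
    refine ⟨by rw [psif_add]; unfold psif; rw [Sf_self, smul_zero], 1, zero_le_one, ?_⟩
    rw [one_smul]
    exact hasFDerivAt_shift (psif_add T f p) (hasFDerivAt_psif_self hc1) _
  · have hjT : j ∈ T := Finset.mem_filter.2 ⟨Finset.mem_range.2 hj, h⟩
    have h0 : cf T f p (f.map^[j] p) = 0 := by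
      unfold cf
      refine Finset.prod_eq_zero hjT ?_
      rw [qf_self, zero_div]
    refine ⟨by rw [psif_add]; unfold psif; rw [h0, zero_smul], 0, le_rfl, ?_⟩
    exact hasFDerivAt_shift (psif_add T f p) (hasFDerivAt_psif_zero h0) _

theorem det_smul_id (a : ℝ) (A : E →L[ℝ] E) :
    (A.comp (ContinuousLinearMap.id ℝ E + a • ContinuousLinearMap.id ℝ E)).det
      = A.det * (1 + a) ^ 2 := by
  have e : A.comp (ContinuousLinearMap.id ℝ E + a • ContinuousLinearMap.id ℝ E) = (1 + a) • A := by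
    ext v
    simp [add_smul]
  rw [e]
  change LinearMap.det ((1 + a) • (A : E →ₗ[ℝ] E)) = LinearMap.det (A : E →ₗ[ℝ] E) * _
  rw [LinearMap.det_smul]
  simp [mul_comm]

end PT56

open PT56 in
/-- PERT from PERT1 -/
theorem pert56 (h1 : StPert1) : StPert := by
  intro f p k hk hper hdet ε hε
  obtain ⟨m0, h0⟩ := hper
  obtain ⟨ψ, hψ, hψp, hψd, hψO⟩ := psif_facts f p k
  obtain ⟨s, hs, h, hclose, hmap⟩ := h1 f ψ hψ hψp ε hε
  have hO : ∀ x ∈ Oc f p k, h.map x = f.map x := by
    intro x hx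
    rw [hmap, (hψO x hx).1, smul_zero, add_zero]
  have hOi : ∀ x ∈ Oc f p k, h.inv x = f.inv x := by
    intro x hx
    have h2 := hO _ (inv_mem hk h0 hx)
    rw [f.right_inv] at h2
    rw [← h2, h.left_inv, h2]
  have hit : ∀ n, h.map^[n] p = f.map^[n] p := by
    intro n
    induction n with
    | zero => rfl
    | succ n ih =>
      rw [Function.iterate_succ_apply', Function.iterate_succ_apply', ih]
      exact hO _ (iter_mem hk h0 n)
  have hiti : ∀ n, h.inv^[n] p = f.inv^[n] p := by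
    intro n
    induction n with
    | zero => rfl
    | succ n ih =>
      rw [Function.iterate_succ_apply', Function.iterate_succ_apply', ih]
      exact hOi _ (iter_inv_mem hk h0 n)
  refine ⟨h, hclose, fun n => ⟨hit n, hiti n⟩, ?_⟩
  -- the derivative of `h` at a zero of `ψ`
  have hD : ∀ x, ψ x = 0 → ∀ a : ℝ, HasFDerivAt ψ (a • ContinuousLinearMap.id ℝ E) x →
      (fderiv ℝ h.map x).det = (fderiv ℝ f.map x).det * (1 + s * a) ^ 2 := by
    intro x hx a ha
    have e : h.map = f.map ∘ fun x => x + s • ψ x := funext hmap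
    have g1 : HasFDerivAt (fun x => x + s • ψ x)
        (ContinuousLinearMap.id ℝ E + s • (a • ContinuousLinearMap.id ℝ E)) x :=
      (hasFDerivAt_id x).add (ha.const_smul s)
    have g2 : HasFDerivAt f.map (fderiv ℝ f.map x) (x + s • ψ x) := by
      rw [hx, smul_zero, add_zero]
      exact ((f.contDiff_map.differentiable (by norm_num)) x).hasFDerivAt
    have g3 := g2.comp x g1
    rw [e, g3.fderiv, smul_smul, det_smul_id]
  rw [det_iter h.contDiff_map, Finset.abs_prod]
  rw [det_iter f.contDiff_map, Finset.abs_prod] at hdet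
  obtain ⟨k', rfl⟩ : ∃ k', k = k' + 1 := ⟨k - 1, by omega⟩
  rw [Finset.prod_range_succ'] at hdet ⊢
  simp only [Function.iterate_zero, id_eq] at hdet ⊢
  have hle : ∏ j ∈ Finset.range k', |(fderiv ℝ f.map (f.map^[j + 1] p)).det| ≤
      ∏ j ∈ Finset.range k', |(fderiv ℝ h.map (h.map^[j + 1] p)).det| := by
    refine Finset.prod_le_prod (fun j _ => abs_nonneg _) fun j _ => ?_
    rw [hit (j + 1)]
    obtain ⟨z0, a, ha, hda⟩ := hψO _ (iter_mem hk h0 (j + 1))
    rw [hD _ z0 a hda, abs_mul]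
    have h3 : (1 : ℝ) ≤ |(1 + s * a) ^ 2| := by
      rw [abs_of_nonneg (by positivity)]
      have : 0 ≤ s * a := by positivity
      nlinarith
    exact le_mul_of_one_le_right (abs_nonneg _) h3
  have hp : (fderiv ℝ h.map p).det = (fderiv ℝ f.map p).det * (1 + s) ^ 2 := by
    have := hD p (hψO p (p_mem hk)).1 1 (by rwa [one_smul])
    rwa [mul_one] at this
  rw [hp, abs_mul, abs_of_nonneg (by positivity : (0 : ℝ) ≤ (1 + s) ^ 2)]
  have h4 : (1 : ℝ) < (1 + s) ^ 2 := by nlinarith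
  set A := ∏ j ∈ Finset.range k', |(fderiv ℝ f.map (f.map^[j + 1] p)).det| with hA
  set B := ∏ j ∈ Finset.range k', |(fderiv ℝ h.map (h.map^[j + 1] p)).det| with hB
  have hd0 : 0 ≤ |(fderiv ℝ f.map p).det| := abs_nonneg _
  have h5 : A * |(fderiv ℝ f.map p).det| ≤ B * |(fderiv ℝ f.map p).det| :=
    mul_le_mul_of_nonneg_right hle hd0
  have h6 : 1 ≤ B * |(fderiv ℝ f.map p).det| := hdet.trans h5
  calc (1 : ℝ) < (1 + s) ^ 2 := h4
    _ ≤ (B * |(fderiv ℝ f.map p).det|) * (1 + s) ^ 2 := le_mul_of_one_le_left (by positivity) h6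
    _ = B * (|(fderiv ℝ f.map p).det| * (1 + s) ^ 2) := by ring

end Pool.Agent.Lib.Plu
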