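import Pool.Agent.Lib.MP_c44407_an.PERT2_40
import Pool.Agent.Lib.MP_c44407_an.PERT1_4

set_option autoImplicit false

namespace Pool.Agent.Lib.Plu

/-- PERT: perturbation at a periodic point -/
theorem pert40 : StPert := pert2_40 pert1_4

end Pool.Agent.Lib.Plu
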