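import Pool.Agent.Lib.MP_c44407_an.CCF45
import Pool.Agent.Lib.MP_c44407_an.ConeP40

open MeasureTheory Filter

namespace Pool.Agent.Lib.Plu

namespace ST45

/-- The end of the argument: a set of positive length on which the frequency of the outs tends
to zero uniformly. -/
lemma endgame (w : ℕ → ℝ → ℕ) {T : Set ℝ} (hTsub : T ⊆ Set.Icc (0 : ℝ) 1)
    (hTmeas : MeasurableSet T) (hy : 0 < volume T) {q κ K : ℝ} (hq0 : 0 < q) (hq1 : q < 1)
    (hκ0 : 0 < κ) (hκ1 : κ < 1)
    (hint : ∀ n, ∫⁻ t in Set.Icc (0 : ℝ) 1, ENNReal.ofReal (q ^ w n t) ≤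
      ENNReal.ofReal (K * κ ^ n))
    (hfreq : ∀ η > 0, ∃ N : ℕ, ∀ n ≥ N, ∀ t ∈ T, (w n t : ℝ) ≤ η * n) : False := by
  have hlq : Real.log q < 0 := Real.log_neg hq0 hq1
  have hlκ : Real.log κ < 0 := Real.log_neg hκ0 hκ1
  set η : ℝ := Real.log κ / (2 * Real.log q) with hη
  have hηpos : 0 < η := div_pos_of_neg_of_neg hlκ (by linarith)
  have hηq : η * Real.log q = Real.log κ / 2 := by
    rw [hη]
    have : Real.log q ≠ 0 := hlq.ne
    field_simp
  obtain ⟨N, hN⟩ := hfreq η hηpos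
  have hTfin : volume T < ⊤ := lt_of_le_of_lt (measure_mono hTsub) (by simp)
  set s : ℝ := Real.exp (Real.log κ / 2) with hs
  -- the lower bound
  have hlow : ∀ n, N ≤ n → ENNReal.ofReal (s ^ n) * volume T ≤
      ENNReal.ofReal (K * κ ^ n) := by
    intro n hn
    refine le_trans ?_ (hint n)
    calc ENNReal.ofReal (s ^ n) * volume T
        = ∫⁻ _ in T, ENNReal.ofReal (s ^ n) := by
          rw [setLIntegral_const]
      _ ≤ ∫⁻ t in T, ENNReal.ofReal (q ^ w n t) := by
          refine setLIntegral_mono' hTmeas fun t ht => ENNReal.ofReal_le_ofReal ?_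
          have h1 := hN n hn t ht
          have h3 : q ^ w n t = Real.exp ((w n t : ℝ) * Real.log q) := by
            rw [← Real.exp_log (pow_pos hq0 _), Real.log_pow]
          rw [h3, hs, ← Real.exp_nat_mul]
          refine Real.exp_le_exp.2 ?_
          have h4 : η * n * Real.log q ≤ (w n t : ℝ) * Real.log q :=
            mul_le_mul_of_nonpos_right h1 hlq.le
          have h5 : η * n * Real.log q = n * (Real.log κ / 2) := by
            rw [← hηq]; ring
          linarith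
      _ ≤ ∫⁻ t in Set.Icc (0 : ℝ) 1, ENNReal.ofReal (q ^ w n t) := lintegral_mono_set hTsub
  have hs0 : 0 < s := Real.exp_pos _
  have hs1 : s < 1 := by rw [hs, Real.exp_lt_one_iff]; linarith
  have hss : s * s = κ := by
    rw [hs, ← Real.exp_add]
    have : Real.log κ / 2 + Real.log κ / 2 = Real.log κ := by ring
    rw [this, Real.exp_log hκ0]
  have hTpos : 0 < (volume T).toReal := ENNReal.toReal_pos hy.ne' hTfin.ne
  have hineq : ∀ n, N ≤ n → (volume T).toReal ≤ |K| * s ^ n := by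
    intro n hn
    have h1 := hlow n hn
    have h2 : ENNReal.ofReal (s ^ n) * volume T ≤ ENNReal.ofReal (|K| * κ ^ n) :=
      h1.trans (ENNReal.ofReal_le_ofReal
        (mul_le_mul_of_nonneg_right (le_abs_self K) (pow_nonneg hκ0.le n)))
    have h3 : s ^ n * (volume T).toReal ≤ |K| * κ ^ n := by
      have h4 := ENNReal.toReal_mono ENNReal.ofReal_ne_top h2
      rwa [ENNReal.toReal_mul, ENNReal.toReal_ofReal (pow_nonneg hs0.le n),
        ENNReal.toReal_ofReal (mul_nonneg (abs_nonneg K) (pow_nonneg hκ0.le n))] at h4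
    have h5 : κ ^ n = s ^ n * s ^ n := by rw [← mul_pow, hss]
    rw [h5] at h3
    have h6 : 0 < s ^ n := pow_pos hs0 n
    have h7 : s ^ n * (volume T).toReal ≤ s ^ n * (|K| * s ^ n) := by linarith
    exact le_of_mul_le_mul_left h7 h6
  have hlim : Tendsto (fun n : ℕ => |K| * s ^ n) atTop (nhds (|K| * 0)) :=
    (tendsto_pow_atTop_nhds_zero_of_lt_one hs0.le hs1).const_mul _
  rw [mul_zero] at hlim
  obtain ⟨n, hn, hn2⟩ := ((hlim.eventually (gt_mem_nhds hTpos)).and
    (eventually_ge_atTop N)).exists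
  exact absurd (hineq n hn2) (not_le.2 hn)

end ST45

open CF45 in
/-- Row STRONG. -/
theorem strong45 (c1 : StCC1) (cp : StCM) (c4 : StCC4) : StStrong := by
  intro f a b L hcone hL hplu
  obtain ⟨x, hx⟩ := hL
  obtain ⟨ε0, hε0, l, hl, M, hM, hg⟩ := c1 f a b hcone
  obtain ⟨r, hr, q, hq0, hq1, κ, hκ0, hκ1, K, v, hint⟩ := cp a b hcone.1 l M hl hM
  obtain ⟨g, hclose, x', -, D, hD, hDpos, δ, hδ, hδlim⟩ := hplu x hx ε0 hε0
  have hgc := hg g hclose
  set P : ℕ → E := fun i => g.map^[i] x' with hP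
  -- the bounds are nonnegative
  have hDne : D.Nonempty := by
    by_contra h
    rw [Set.not_nonempty_iff_eq_empty] at h
    rw [h, measure_empty] at hDpos
    exact lt_irrefl _ hDpos
  obtain ⟨y1, hy1⟩ := hDne
  have hδ0 : ∀ i, 0 ≤ δ i := by
    intro i
    obtain ⟨m, hm⟩ := hδ i y1 hy1
    exact (norm_nonneg _).trans hm
  have hout : ∀ y ∈ D, ∀ n, (outsM g P r n y : ℝ) ≤ (∑ i ∈ Finset.range n, δ i) / r := by
    intro y hy n
    rw [outsM, Nat.cast_sum, Finset.sum_div]
    refine Finset.sum_le_sum fun i _ => ?_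
    by_cases hi : g.map^[i] y ∈ {w | ¬ Near r w (P i)}
    · rw [Set.indicator_of_mem hi, Nat.cast_one, le_div_iff₀ hr, one_mul]
      by_contra hcon
      push Not at hcon
      exact hi (near_mono hcon.le (hδ i y hy))
    · rw [Set.indicator_of_notMem hi, Nat.cast_zero]
      exact div_nonneg (hδ0 i) hr.le
  obtain ⟨y, hy⟩ := c4 D v hD hDpos
  set T : Set ℝ := {t : ℝ | t ∈ Set.Icc (0 : ℝ) 1 ∧ y + t • v ∈ D} with hT
  have hTsub : T ⊆ Set.Icc (0 : ℝ) 1 := fun t ht => ht.1
  have hTmeas : MeasurableSet T := by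
    have hc : Measurable fun t : ℝ => y + t • v := by fun_prop
    exact measurableSet_Icc.inter (hc hD)
  refine ST45.endgame (fun n t => outsM g P r n (y + t • v)) hTsub hTmeas hy hq0 hq1 hκ0 hκ1
    (fun n => hint g hgc P y n) ?_
  intro η hη
  have h1 : ∀ᶠ n : ℕ in atTop, (∑ i ∈ Finset.range n, δ i) / n < η * r :=
    hδlim.eventually (gt_mem_nhds (by positivity))
  obtain ⟨N, hN⟩ := eventually_atTop.1 h1
  refine ⟨max N 1, fun n hn t ht => ?_⟩
  have h2 := hN n ((le_max_left _ _).trans hn)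
  have hn0 : (0 : ℝ) < n := by
    have : 1 ≤ n := (le_max_right _ _).trans hn
    exact_mod_cast this
  rw [div_lt_iff₀ hn0] at h2
  refine (hout _ ht.2 n).trans ?_
  rw [div_le_iff₀ hr]
  nlinarith

end Pool.Agent.Lib.Plu
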