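import Pool.Agent.Lib.MP_c44407_an.CM40
import Pool.Agent.Lib.MP_c44407_an.CC1_4
import Pool.Agent.Lib.MP_c44407_an.CC4_4
import Pool.Agent.Lib.MP_c44407_an.CCF45

/-! Maps with an expanding cone are strongly pluripotent at no point (after `CCF45.lean`). -/

open MeasureTheory Filter

namespace Pool.Agent.Lib.Plu

open CF45 in
/-- Row STRONG. -/
theorem strong40 : StStrong := by
  intro f a b L hcone hL hplu
  obtain ⟨x, hxL⟩ := hL
  obtain ⟨ε0, hε0, l, hl, M, hM, hg⟩ := cc1_4 f a b hcone
  obtain ⟨r, hr, q, hq0, hq1, κ, hκ0, hκ1, K, v, hint⟩ := cm40 a b hcone.1 l M hl hM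
  obtain ⟨g, hcl, x', hfol, D, hD, hDpos, δ, hδ, hlimδ⟩ := hplu x hxL ε0 hε0
  have hgc := hg g hcl
  set p : ℕ → E := fun i => g.map^[i] x' with hp
  -- the exponent
  have hlq : Real.log q < 0 := Real.log_neg hq0 hq1
  have hlκ : Real.log κ < 0 := Real.log_neg hκ0 hκ1
  set η : ℝ := Real.log κ / (2 * Real.log q) with hη
  have hηpos : 0 < η := div_pos_of_neg_of_neg hlκ (by linarith)
  have hηq : η * Real.log q = Real.log κ / 2 := by
    rw [hη]
    have : Real.log q ≠ 0 := hlq.ne
    field_simp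
  -- the frequency
  have hfreq : ∃ N : ℕ, ∀ n, N ≤ n → ∀ y ∈ D, (outsM g p r n y : ℝ) ≤ η * n := by
    have hηr : 0 < η * r := mul_pos hηpos hr
    obtain ⟨N, hN⟩ := eventually_atTop.1 (hlimδ.eventually (gt_mem_nhds hηr))
    refine ⟨N, fun n hn y hy => ?_⟩
    rcases Nat.eq_zero_or_pos n with h0 | hn0
    · subst h0; simp [outsM]
    have hn0' : (0 : ℝ) < n := by exact_mod_cast hn0
    have h1 := hN n hn
    rw [div_lt_iff₀ hn0'] at h1
    have h2 : (outsM g p r n y : ℝ) * r ≤ ∑ i ∈ Finset.range n, δ i := by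
      unfold outsM
      push_cast
      rw [Finset.sum_mul]
      refine Finset.sum_le_sum fun i _ => ?_
      have h3 := hδ i y hy
      by_cases hnr : Near r (g.map^[i] y) (p i)
      · rw [Set.indicator_of_notMem (by exact fun h => h hnr)]
        obtain ⟨m, hm⟩ := h3
        simpa using (norm_nonneg _).trans hm
      · rw [Set.indicator_of_mem (show g.map^[i] y ∈ {w | ¬ Near r w (p i)} from hnr)]
        have : r < δ i := by
          by_contra hle
          exact hnr (near_mono (not_lt.1 hle) h3)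
        simpa using this.le
    have h3 : (outsM g p r n y : ℝ) * r ≤ (η * n) * r := by linarith
    exact le_of_mul_le_mul_right h3 hr
  obtain ⟨N, hfr⟩ := hfreq
  obtain ⟨y, hy⟩ := cc4_4 D v hD hDpos
  set T : Set ℝ := {t : ℝ | t ∈ Set.Icc (0 : ℝ) 1 ∧ y + t • v ∈ D} with hT
  have hTsub : T ⊆ Set.Icc (0 : ℝ) 1 := fun t ht => ht.1
  have hTfin : volume T < ⊤ := lt_of_le_of_lt (measure_mono hTsub) (by simp)
  have hTmeas : MeasurableSet T := by
    have hc : Measurable fun t : ℝ => y + t • v := by fun_prop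
    exact measurableSet_Icc.inter (hc hD)
  -- the lower bound
  have hlow : ∀ n, N ≤ n → ENNReal.ofReal (Real.exp (Real.log κ / 2) ^ n) * volume T ≤
      ENNReal.ofReal (K * κ ^ n) := by
    intro n hn
    refine le_trans ?_ (hint g hgc p y n)
    calc ENNReal.ofReal (Real.exp (Real.log κ / 2) ^ n) * volume T
        = ∫⁻ _ in T, ENNReal.ofReal (Real.exp (Real.log κ / 2) ^ n) := by
          rw [setLIntegral_const]
      _ ≤ ∫⁻ t in T, ENNReal.ofReal (q ^ outsM g p r n (y + t • v)) := by
          refine setLIntegral_mono' hTmeas fun t ht => ENNReal.ofReal_le_ofReal ?_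
          have h1 : (outsM g p r n (y + t • v) : ℝ) ≤ η * n := hfr n hn _ ht.2
          have h3 : q ^ outsM g p r n (y + t • v) =
              Real.exp ((outsM g p r n (y + t • v) : ℝ) * Real.log q) := by
            rw [← Real.exp_log (pow_pos hq0 _), Real.log_pow]
          rw [h3, ← Real.exp_nat_mul]
          refine Real.exp_le_exp.2 ?_
          have h4 : η * n * Real.log q ≤ (outsM g p r n (y + t • v) : ℝ) * Real.log q :=
            mul_le_mul_of_nonpos_right h1 hlq.le
          have h5 : η * n * Real.log q = n * (Real.log κ / 2) := by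
            rw [← hηq]; ring
          linarith
      _ ≤ ∫⁻ t in Set.Icc (0 : ℝ) 1, ENNReal.ofReal (q ^ outsM g p r n (y + t • v)) :=
          lintegral_mono_set hTsub
  -- the contradiction
  set s : ℝ := Real.exp (Real.log κ / 2) with hs
  have hs0 : 0 < s := Real.exp_pos _
  have hs1 : s < 1 := by rw [hs, Real.exp_lt_one_iff]; linarith
  have hss : s * s = κ := by
    rw [hs, ← Real.exp_add]
    have : Real.log κ / 2 + Real.log κ / 2 = Real.log κ := by ring
    rw [this, Real.exp_log hκ0]
  have hTpos : 0 < (volume T).toReal := ENNReal.toReal_pos hy.ne' hTfin.ne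
  have hineq : ∀ n, N ≤ n → (volume T).toReal ≤ |K| * s ^ n := by
    intro n hn
    have h1 := hlow n hn
    have h2 : ENNReal.ofReal (s ^ n) * volume T ≤ ENNReal.ofReal (|K| * κ ^ n) :=
      h1.trans (ENNReal.ofReal_le_ofReal
        (mul_le_mul_of_nonneg_right (le_abs_self K) (pow_nonneg hκ0.le n)))
    have h3 : s ^ n * (volume T).toReal ≤ |K| * κ ^ n := by
      have h4 := ENNReal.toReal_mono ENNReal.ofReal_ne_top h2
      rwa [ENNReal.toReal_mul, ENNReal.toReal_ofReal (pow_nonneg hs0.le n),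
        ENNReal.toReal_ofReal (mul_nonneg (abs_nonneg K) (pow_nonneg hκ0.le n))] at h4
    have h5 : κ ^ n = s ^ n * s ^ n := by rw [← mul_pow, hss]
    rw [h5] at h3
    have h6 : 0 < s ^ n := pow_pos hs0 n
    have h7 : s ^ n * (volume T).toReal ≤ s ^ n * (|K| * s ^ n) := by linarith
    exact le_of_mul_le_mul_left h7 h6
  have hlim : Tendsto (fun n : ℕ => |K| * s ^ n) atTop (nhds (|K| * 0)) :=
    (tendsto_pow_atTop_nhds_zero_of_lt_one hs0.le hs1).const_mul _
  rw [mul_zero] at hlim
  obtain ⟨n, hn, hn2⟩ := ((hlim.eventually (gt_mem_nhds hTpos)).and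
    (eventually_ge_atTop N)).exists
  exact absurd (hineq n hn2) (not_le.2 hn)

end Pool.Agent.Lib.Plu
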