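import Pool.Agent.Lib.MP_c44407_an.LIP5
import Pool.Agent.Lib.MP_c44407_an.St2

/-!
Row UNI1: small periodic perturbations of a diffeomorphism of the torus, with uniform size.
-/

set_option autoImplicit false

open Filter Topology
open scoped NNReal

namespace Pool.Agent.Lib.Plu

namespace P76

variable {F : Type*} [NormedAddCommGroup F] {g : E → F}

theorem bdd (hc : Continuous g) (hp : ∀ x m, g (x + zv m) = g x) :
    ∃ B : ℝ, 0 < B ∧ ∀ x, ‖g x‖ ≤ B := by
  obtain ⟨B, hB⟩ := (isCompact_closedBall (0 : E) 2).exists_bound_of_continuousOn hc.continuousOn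
  refine ⟨max B 1, lt_max_of_lt_right one_pos, fun x => ?_⟩
  obtain ⟨m, hm⟩ := LIP5.shift x
  have := hB (x + zv m) (by simpa using hm)
  rw [hp] at this
  exact this.trans (le_max_left _ _)

theorem unif (hc : Continuous g) (hp : ∀ x m, g (x + zv m) = g x) {η : ℝ} (hη : 0 < η) :
    ∃ δ : ℝ, 0 < δ ∧ ∀ x y : E, ‖x - y‖ < δ → ‖g x - g y‖ < η := by
  have h := (isCompact_closedBall (0 : E) 3).uniformContinuousOn_of_continuous hc.continuousOn
  rw [Metric.uniformContinuousOn_iff] at h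
  obtain ⟨δ, hδ, h⟩ := h η hη
  refine ⟨min δ 1, lt_min hδ one_pos, fun x y hxy => ?_⟩
  obtain ⟨m, hm⟩ := LIP5.shift x
  have h1 : x + zv m - (y + zv m) = x - y := by abel
  have h2 : ‖y + zv m‖ ≤ 3 := by
    have : y + zv m = (x + zv m) - (x - y) := by abel
    rw [this]
    have := norm_sub_le (x + zv m) (x - y)
    have := hxy.trans_le (min_le_right _ _)
    linarith
  have h3 := h (x + zv m) (by simpa using hm.trans (by norm_num)) (y + zv m) (by simpa using h2)
    (by rw [dist_eq_norm, h1]; exact hxy.trans_le (min_le_left _ _))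
  rwa [hp, hp, dist_eq_norm] at h3

theorem fderiv_shift {f : E → E} {a b : E} (h : ∀ x, f (x + a) = f x + b) (x : E) :
    fderiv ℝ f (x + a) = fderiv ℝ f x := by
  have h1 : (fun x => f (x + a)) = fun x => f x + b := funext h
  calc fderiv ℝ f (x + a) = fderiv ℝ (fun x => f (x + a)) x := (fderiv_comp_add_right a).symm
    _ = fderiv ℝ (fun x => f x + b) x := by rw [h1]
    _ = fderiv ℝ f x := fderiv_add_const b

/-- `x + s ψ x` is a homeomorphism with an inverse of class `C^1`. -/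
theorem homeo {ψ : E → E} (hψ : ContDiff ℝ 1 ψ) {K : ℝ} (hK : ∀ x, ‖fderiv ℝ ψ x‖ ≤ K) {s : ℝ}
    (hs : 0 < s) (hsK : s * K ≤ 1 / 2) :
    ∃ v : E → E, ContDiff ℝ 1 v ∧ (∀ x, v (x + s • ψ x) = x) ∧ ∀ x, v x + s • ψ (v x) = x := by
  have hd : Differentiable ℝ ψ := hψ.differentiable one_ne_zero
  set u : E → E := fun x => x + s • ψ x with hu
  have hA : ApproximatesLinearOn u
      ((ContinuousLinearEquiv.refl ℝ E : E ≃L[ℝ] E) : E →L[ℝ] E) Set.univ (1 / 2 : ℝ≥0) := by
    intro x _ y _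
    have e : u x - u y - ((ContinuousLinearEquiv.refl ℝ E : E ≃L[ℝ] E) : E →L[ℝ] E) (x - y) =
        s • (ψ x - ψ y) := by
      simp only [hu, ContinuousLinearEquiv.coe_refl, ContinuousLinearMap.coe_id', id_eq, smul_sub]
      abel
    rw [e, norm_smul, Real.norm_of_nonneg hs.le]
    have h1 := Convex.norm_image_sub_le_of_norm_fderiv_le (𝕜 := ℝ) (f := ψ) (C := K)
      (s := Set.univ) (fun x _ => hd x) (fun x _ => hK x) convex_univ (Set.mem_univ y)
      (Set.mem_univ x)
    have h2 := mul_le_mul_of_nonneg_left h1 hs.le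
    have h3 : s * (K * ‖x - y‖) = (s * K) * ‖x - y‖ := by ring
    rw [h3] at h2
    refine h2.trans ?_
    push_cast
    exact mul_le_mul_of_nonneg_right hsK (norm_nonneg _)
  have hc : Subsingleton E ∨ (1 / 2 : ℝ≥0) <
      ‖((ContinuousLinearEquiv.refl ℝ E : E ≃L[ℝ] E).symm : E →L[ℝ] E)‖₊⁻¹ := by
    right
    have h1 : ‖((ContinuousLinearEquiv.refl ℝ E : E ≃L[ℝ] E).symm : E →L[ℝ] E)‖₊ = 1 := by
      have : ((ContinuousLinearEquiv.refl ℝ E : E ≃L[ℝ] E).symm : E →L[ℝ] E) =
        ContinuousLinearMap.id ℝ E := rfl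
      rw [this]
      ext
      exact ContinuousLinearMap.norm_id
    rw [h1, inv_one]
    rw [← NNReal.coe_lt_coe]
    norm_num
  set H : E ≃ₜ E := hA.toHomeomorph u hc with hH
  have hHu : ∀ x, H x = u x := fun x => rfl
  have hcd : ContDiff ℝ 1 u := contDiff_id.add (hψ.const_smul s)
  have hder : ∀ x, HasFDerivAt u (ContinuousLinearMap.id ℝ E + s • fderiv ℝ ψ x) x := fun x =>
    (hasFDerivAt_id x).add ((hd x).hasFDerivAt.const_smul s)
  have hlt : ∀ x, ‖-(s • fderiv ℝ ψ x)‖ < 1 := by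
    intro x
    rw [norm_neg, norm_smul, Real.norm_of_nonneg hs.le]
    have := mul_le_mul_of_nonneg_left (hK x) hs.le
    linarith
  have hsymm : ContDiff ℝ 1 H.symm := by
    refine H.contDiff_symm (f₀' := fun x => ContinuousLinearEquiv.unitsEquiv ℝ E
      (Units.oneSub (-(s • fderiv ℝ ψ x)) (hlt x))) ?_ ?_
    · intro x
      have e : ((ContinuousLinearEquiv.unitsEquiv ℝ E
          (Units.oneSub (-(s • fderiv ℝ ψ x)) (hlt x)) : E ≃L[ℝ] E) : E →L[ℝ] E) =
          ContinuousLinearMap.id ℝ E + s • fderiv ℝ ψ x := by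
        ext1 y
        simp [ContinuousLinearEquiv.unitsEquiv_apply]
      rw [e]
      exact hder x
    · exact hcd
  refine ⟨H.symm, hsymm, fun x => ?_, fun x => ?_⟩
  · have := H.symm_apply_apply x
    rwa [hHu] at this
  · have := H.apply_symm_apply x
    rwa [hHu] at this

end P76

open P76 in
theorem uni1_76 : StUni1 := by
  intro f K₀ ε hε
  have hfd : Differentiable ℝ f.map := f.contDiff_map.differentiable one_ne_zero
  have hfp : ∀ x m, fderiv ℝ f.map (x + zv m) = fderiv ℝ f.map x := fun x m => by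
    obtain ⟨m', hm'⟩ := f.map_add m
    exact fderiv_shift hm' x
  have cf : Continuous (fderiv ℝ f.map) := f.contDiff_map.continuous_fderiv one_ne_zero
  obtain ⟨K1, hK1, hKK⟩ : ∃ K1 : ℝ, 0 < K1 ∧ K₀ ≤ K1 :=
    ⟨max K₀ 1, lt_max_of_lt_right one_pos, le_max_left _ _⟩
  obtain ⟨M, hM, bM⟩ := bdd cf hfp
  obtain ⟨δ, hδ, uδ⟩ := unif cf hfp (half_pos hε)
  -- the sizes
  obtain ⟨s, hs, h1, h4⟩ : ∃ s : ℝ, 0 < s ∧ s * K1 ≤ 1 / 2 ∧ M * (s * K1) ≤ ε / 2 := by
    refine ⟨min (1 / (2 * K1)) (ε / (2 * M * K1)), by positivity, ?_, ?_⟩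
    · calc _ ≤ 1 / (2 * K1) * K1 := mul_le_mul_of_nonneg_right (min_le_left _ _) hK1.le
        _ = 1 / 2 := by field_simp
    · calc _ ≤ M * (ε / (2 * M * K1) * K1) := mul_le_mul_of_nonneg_left
            (mul_le_mul_of_nonneg_right (min_le_right _ _) hK1.le) hM.le
        _ = ε / 2 := by field_simp
  obtain ⟨K0, hK0, h2, h3⟩ : ∃ K0 : ℝ, 0 < K0 ∧ s * K0 < δ ∧ M * (s * K0) ≤ ε := by
    refine ⟨min (δ / (2 * s)) (ε / (M * s)), by positivity, ?_, ?_⟩
    · calc _ ≤ s * (δ / (2 * s)) := mul_le_mul_of_nonneg_left (min_le_left _ _) hs.le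
        _ = δ / 2 := by field_simp
        _ < δ := half_lt_self hδ
    · calc _ ≤ M * (s * (ε / (M * s))) := mul_le_mul_of_nonneg_left
            (mul_le_mul_of_nonneg_left (min_le_right _ _) hs.le) hM.le
        _ = ε := by field_simp
  refine ⟨s, hs, K0, hK0, fun ψ hψ hp bK0 bK1' => ?_⟩
  have bK1 : ∀ x, ‖fderiv ℝ ψ x‖ ≤ K1 := fun x => (bK1' x).trans hKK
  have hd : Differentiable ℝ ψ := hψ.differentiable one_ne_zero
  obtain ⟨v, hv, hv1, hv2⟩ := homeo hψ bK1 hs h1
  have hvz : ∀ x m, v (x + zv m) = v x + zv m := by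
    intro x m
    have e : (v x + zv m) + s • ψ (v x + zv m) = x + zv m := by
      rw [hp]
      have := hv2 x
      calc v x + zv m + s • ψ (v x) = (v x + s • ψ (v x)) + zv m := by abel
        _ = x + zv m := by rw [this]
    calc v (x + zv m) = v ((v x + zv m) + s • ψ (v x + zv m)) := by rw [e]
      _ = v x + zv m := hv1 _
  have hcu : ContDiff ℝ 1 (fun x => x + s • ψ x) := contDiff_id.add (hψ.const_smul s)
  let h : TorusDiffeo :=
    { map := fun x => f.map (x + s • ψ x)
      inv := fun y => v (f.inv y)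
      contDiff_map := f.contDiff_map.comp hcu
      contDiff_inv := hv.comp f.contDiff_inv
      left_inv := fun x => by rw [f.left_inv, hv1]
      right_inv := fun x => by rw [hv2, f.right_inv]
      map_add := fun m => by
        obtain ⟨m', hm'⟩ := f.map_add m
        refine ⟨m', fun x => ?_⟩
        rw [hp, ← hm']
        congr 1
        abel
      inv_add := fun m => by
        obtain ⟨m', hm'⟩ := f.inv_add m
        exact ⟨m', fun x => by rw [hm', hvz]⟩ }
  refine ⟨h, fun x => ⟨⟨0, ?_⟩, ?_⟩, fun x => rfl⟩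
  · have hz : zv 0 = 0 := by
      ext i; simp [zv]
    rw [hz, sub_zero]
    have := Convex.norm_image_sub_le_of_norm_fderiv_le (𝕜 := ℝ) (f := f.map) (C := M)
      (s := Set.univ) (fun x _ => hfd x) (fun x _ => bM x) convex_univ (Set.mem_univ x)
      (Set.mem_univ (x + s • ψ x))
    refine this.trans ?_
    rw [add_sub_cancel_left, norm_smul, Real.norm_of_nonneg hs.le]
    refine le_trans ?_ h3
    exact mul_le_mul_of_nonneg_left (mul_le_mul_of_nonneg_left (bK0 x) hs.le) hM.le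
  · have hder : HasFDerivAt h.map ((fderiv ℝ f.map (x + s • ψ x)).comp
        (ContinuousLinearMap.id ℝ E + s • fderiv ℝ ψ x)) x := by
      have hu : HasFDerivAt (fun x => x + s • ψ x)
          (ContinuousLinearMap.id ℝ E + s • fderiv ℝ ψ x) x :=
        (hasFDerivAt_id x).add ((hd x).hasFDerivAt.const_smul s)
      exact HasFDerivAt.comp (g := f.map) (f := fun x => x + s • ψ x) x
        (hfd (x + s • ψ x)).hasFDerivAt hu
    rw [hder.fderiv]
    have e : (fderiv ℝ f.map (x + s • ψ x)).comp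
        (ContinuousLinearMap.id ℝ E + s • fderiv ℝ ψ x) - fderiv ℝ f.map x =
        (fderiv ℝ f.map (x + s • ψ x) - fderiv ℝ f.map x) +
          (fderiv ℝ f.map (x + s • ψ x)).comp (s • fderiv ℝ ψ x) := by
      rw [ContinuousLinearMap.comp_add, ContinuousLinearMap.comp_id]
      abel
    rw [e]
    refine (norm_add_le _ _).trans ?_
    have b1 : ‖fderiv ℝ f.map (x + s • ψ x) - fderiv ℝ f.map x‖ ≤ ε / 2 := by
      refine (uδ _ _ ?_).le
      rw [add_sub_cancel_left, norm_smul, Real.norm_of_nonneg hs.le]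
      exact (mul_le_mul_of_nonneg_left (bK0 x) hs.le).trans_lt h2
    have b2 : ‖(fderiv ℝ f.map (x + s • ψ x)).comp (s • fderiv ℝ ψ x)‖ ≤ ε / 2 := by
      refine (ContinuousLinearMap.opNorm_comp_le _ _).trans (le_trans ?_ h4)
      rw [norm_smul, Real.norm_of_nonneg hs.le]
      exact mul_le_mul (bM _) (mul_le_mul_of_nonneg_left (bK1 x) hs.le)
        (mul_nonneg hs.le (norm_nonneg _)) hM.le
    linarith

end Pool.Agent.Lib.Plu
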