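import Mathlib
import Pool.Agent.Lib.MP_c44407_an.St2

/-!
Row UNI2: small periodic vector fields with a uniformly bounded derivative which is the identity at
the points of a finite set.
-/

set_option autoImplicit false

open Filter

namespace Pool.Agent.Lib.Plu

namespace U53

theorem zv_apply (m : Fin 2 → ℤ) (i : Fin 2) : zv m i = (m i : ℝ) := rfl

/-- a nonnegative periodic function that vanishes exactly on `a + ℤ²` -/
noncomputable def w (a z : E) : ℝ := ∑ i : Fin 2, (1 - Real.cos (2 * Real.pi * (z i - a i)))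

theorem w_nonneg (a z : E) : 0 ≤ w a z :=
  Finset.sum_nonneg fun _ _ => sub_nonneg.2 (Real.cos_le_one _)

theorem w_self (a : E) : w a a = 0 := by simp [w]

theorem w_per (a z : E) (m : Fin 2 → ℤ) : w a (z + zv m) = w a z := by
  unfold w
  refine Finset.sum_congr rfl fun i _ => ?_
  have : 2 * Real.pi * ((z + zv m) i - a i) =
      2 * Real.pi * (z i - a i) + (m i : ℝ) * (2 * Real.pi) := by
    rw [PiLp.add_apply, zv_apply]; ring
  rw [this, Real.cos_add_int_mul_two_pi]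

theorem w_pos (a z : E) (h : ¬ ∃ m, a = z + zv m) : 0 < w a z := by
  refine lt_of_le_of_ne (w_nonneg a z) fun h0 => h ?_
  have h1 : ∀ i : Fin 2, Real.cos (2 * Real.pi * (z i - a i)) = 1 := by
    intro i
    have := (Finset.sum_eq_zero_iff_of_nonneg
      (fun i _ => sub_nonneg.2 (Real.cos_le_one (2 * Real.pi * (z i - a i))))).1 h0.symm i
      (Finset.mem_univ i)
    linarith
  have h2 : ∀ i : Fin 2, ∃ n : ℤ, (n : ℝ) * (2 * Real.pi) = 2 * Real.pi * (z i - a i) := fun i =>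
    (Real.cos_eq_one_iff _).1 (h1 i)
  choose n hn using h2
  refine ⟨fun i => - n i, ?_⟩
  ext i
  have h3 := hn i
  have h4 : (n i : ℝ) = z i - a i := by
    have hp : (2 * Real.pi) ≠ 0 := by positivity
    apply mul_right_cancel₀ hp
    rw [h3]; ring
  rw [PiLp.add_apply, zv_apply]
  push_cast
  linarith

theorem coord_contDiff (i : Fin 2) : ContDiff ℝ 1 (fun z : E => z i) :=
  (EuclideanSpace.proj (𝕜 := ℝ) i).contDiff

theorem w_contDiff (a : E) : ContDiff ℝ 1 (w a) := by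
  unfold w
  refine ContDiff.sum fun i _ => ?_
  refine contDiff_const.sub (Real.contDiff_cos.comp ?_)
  exact contDiff_const.mul ((coord_contDiff i).sub contDiff_const)

/-- the field `(sin 2π(z - p)) / 2π` -/
noncomputable def S (p z : E) : E :=
  WithLp.toLp 2 (fun i => Real.sin (2 * Real.pi * (z i - p i)) / (2 * Real.pi))

theorem S_self (p : E) : S p p = 0 := by ext i; simp [S]

theorem S_apply (p z : E) (i : Fin 2) :
    S p z i = Real.sin (2 * Real.pi * (z i - p i)) / (2 * Real.pi) := rfl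

theorem S_per (p z : E) (m : Fin 2 → ℤ) : S p (z + zv m) = S p z := by
  ext i
  have : 2 * Real.pi * ((z + zv m) i - p i) =
      2 * Real.pi * (z i - p i) + (m i : ℝ) * (2 * Real.pi) := by
    rw [PiLp.add_apply, zv_apply]; ring
  simp only [S]
  rw [this, Real.sin_add_int_mul_two_pi]

theorem S_contDiff (p : E) : ContDiff ℝ 1 (S p) := by
  rw [contDiff_euclidean]
  intro i
  simp only [S]
  refine ContDiff.div_const ?_ _
  exact Real.contDiff_sin.comp (contDiff_const.mul ((coord_contDiff i).sub contDiff_const))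

/-- the derivative of `S` -/
noncomputable def DS (p z : E) : E →L[ℝ] E :=
  ((EuclideanSpace.equiv (Fin 2) ℝ).symm : (Fin 2 → ℝ) →L[ℝ] E).comp
    (ContinuousLinearMap.pi fun i =>
      Real.cos (2 * Real.pi * (z i - p i)) • (EuclideanSpace.proj (𝕜 := ℝ) i : E →L[ℝ] ℝ))

theorem DS_apply (p z v : E) (i : Fin 2) :
    DS p z v i = Real.cos (2 * Real.pi * (z i - p i)) * v i := rfl

theorem S_deriv (p z : E) : HasFDerivAt (S p) (DS p z) z := by
  rw [← hasFDerivWithinAt_univ, hasFDerivWithinAt_euclidean]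
  intro i
  rw [hasFDerivWithinAt_univ]
  have h1 : HasFDerivAt (fun z : E => z i) (EuclideanSpace.proj (𝕜 := ℝ) i) z :=
    (EuclideanSpace.proj (𝕜 := ℝ) i).hasFDerivAt
  have h2 : HasFDerivAt (fun z : E => 2 * Real.pi * (z i - p i))
      ((2 * Real.pi) • (EuclideanSpace.proj (𝕜 := ℝ) i : E →L[ℝ] ℝ)) z :=
    (h1.sub_const (p i)).const_mul (2 * Real.pi)
  have h3 := h2.sin
  have h4 := h3.mul_const ((2 * Real.pi)⁻¹)
  refine (h4.congr_fderiv ?_).congr_of_eventuallyEq ?_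
  · ext v
    have hp : Real.pi ≠ 0 := Real.pi_ne_zero
    simp [DS_apply]
    field_simp
  · exact Eventually.of_forall fun z => by simp [S, div_eq_mul_inv]

theorem DS_self (p : E) : DS p p = ContinuousLinearMap.id ℝ E := by
  ext v i
  rw [DS_apply]
  simp

theorem norm_DS_apply (p z v : E) : ‖DS p z v‖ ≤ ‖v‖ := by
  rw [EuclideanSpace.norm_eq, EuclideanSpace.norm_eq]
  apply Real.sqrt_le_sqrt
  apply Finset.sum_le_sum
  intro i _
  rw [DS_apply, norm_mul, mul_pow, Real.norm_eq_abs, sq_abs]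
  have h1 : Real.cos (2 * Real.pi * (z i - p i)) ^ 2 ≤ 1 := Real.cos_sq_le_one _
  have h2 : 0 ≤ ‖v i‖ ^ 2 := by positivity
  nlinarith

/-- the derivative of `w` -/
noncomputable def Dw (a z : E) : E →L[ℝ] ℝ :=
  ∑ i : Fin 2, (2 * Real.pi * Real.sin (2 * Real.pi * (z i - a i))) •
    (EuclideanSpace.proj (𝕜 := ℝ) i : E →L[ℝ] ℝ)

theorem Dw_apply (a z v : E) :
    Dw a z v = ∑ i : Fin 2, 2 * Real.pi * Real.sin (2 * Real.pi * (z i - a i)) * v i := by
  unfold Dw
  rw [ContinuousLinearMap.sum_apply]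
  rfl

theorem w_deriv (a z : E) : HasFDerivAt (w a) (Dw a z) z := by
  unfold w Dw
  apply HasFDerivAt.fun_sum
  intro i _
  have h1 : HasFDerivAt (fun z : E => z i) (EuclideanSpace.proj (𝕜 := ℝ) i) z :=
    (EuclideanSpace.proj (𝕜 := ℝ) i).hasFDerivAt
  have h2 : HasFDerivAt (fun z : E => 2 * Real.pi * (z i - a i))
      ((2 * Real.pi) • (EuclideanSpace.proj (𝕜 := ℝ) i : E →L[ℝ] ℝ)) z :=
    (h1.sub_const (a i)).const_mul (2 * Real.pi)
  have h3 := h2.cos.const_sub 1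
  refine h3.congr_fderiv ?_
  ext v
  simp
  ring

theorem Dw_inner (a z v : E) : Dw a z v = (4 * Real.pi ^ 2) * inner ℝ (S a z) v := by
  rw [Dw_apply, PiLp.inner_apply, Finset.mul_sum]
  refine Finset.sum_congr rfl fun i _ => ?_
  rw [S_apply]
  have hp : Real.pi ≠ 0 := Real.pi_ne_zero
  simp only [RCLike.inner_apply, conj_trivial]
  field_simp
  try ring

theorem norm_S_sq (a z : E) : (4 * Real.pi ^ 2) * ‖S a z‖ ^ 2 ≤ 2 * w a z := by
  rw [EuclideanSpace.norm_sq_eq, Finset.mul_sum]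
  unfold w
  rw [Finset.mul_sum]
  apply Finset.sum_le_sum
  intro i _
  rw [S_apply, Real.norm_eq_abs, sq_abs, div_pow]
  have hp : 0 < Real.pi := Real.pi_pos
  have h1 : 4 * Real.pi ^ 2 * (Real.sin (2 * Real.pi * (z i - a i)) ^ 2 / (2 * Real.pi) ^ 2) =
      Real.sin (2 * Real.pi * (z i - a i)) ^ 2 := by
    field_simp
    try ring
  rw [h1, Real.sin_sq]
  have h2 := Real.cos_le_one (2 * Real.pi * (z i - a i))
  have h3 := Real.neg_one_le_cos (2 * Real.pi * (z i - a i))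
  nlinarith

/-- the triangle inequality -/
theorem cos_triangle (x y : ℝ) :
    1 - Real.cos (x + y) ≤ 2 * (1 - Real.cos x) + 2 * (1 - Real.cos y) := by
  rw [Real.cos_add]
  have h1 := Real.sin_sq_add_cos_sq x
  have h2 := Real.sin_sq_add_cos_sq y
  nlinarith [sq_nonneg (Real.sin x + Real.sin y), sq_nonneg (Real.sin x - Real.sin y),
    sq_nonneg (Real.cos x + Real.cos y - 2)]

theorem w_triangle (a b z : E) : w a b ≤ 2 * w a z + 2 * w b z := by
  unfold w
  rw [Finset.mul_sum, Finset.mul_sum, ← Finset.sum_add_distrib]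
  apply Finset.sum_le_sum
  intro i _
  have h := cos_triangle (2 * Real.pi * (z i - a i)) (-(2 * Real.pi * (z i - b i)))
  rw [Real.cos_neg] at h
  have h2 : 2 * Real.pi * (z i - a i) + -(2 * Real.pi * (z i - b i)) =
      2 * Real.pi * (b i - a i) := by ring
  rw [h2] at h
  exact h

/-- the square of the positive part -/
theorem hasDerivAt_sqpos (s : ℝ) :
    HasDerivAt (fun x : ℝ => (max x 0) ^ 2) (2 * max s 0) s := by
  rcases lt_trichotomy s 0 with h | h | h
  · have h1 : HasDerivAt (fun _ : ℝ => (0 : ℝ)) 0 s := hasDerivAt_const s 0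
    have h2 : (fun x : ℝ => (max x 0) ^ 2) =ᶠ[nhds s] fun _ => 0 := by
      filter_upwards [gt_mem_nhds h] with x hx
      rw [max_eq_right hx.le]; simp
    have h3 := h1.congr_of_eventuallyEq h2
    rw [max_eq_right h.le, mul_zero]
    exact h3
  · subst h
    have h1 : HasDerivWithinAt (fun x : ℝ => (max x 0) ^ 2) 0 (Set.Iic 0) 0 := by
      refine (hasDerivWithinAt_const (0 : ℝ) (Set.Iic 0) (0 : ℝ)).congr (fun x hx => ?_) ?_
      · have hx' : x ≤ 0 := hx
        rw [max_eq_right hx']; simp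
      · simp
    have h2 : HasDerivWithinAt (fun x : ℝ => (max x 0) ^ 2) 0 (Set.Ici 0) 0 := by
      have h3 : HasDerivAt (fun x : ℝ => x ^ 2) 0 0 := by
        simpa using hasDerivAt_pow 2 (0 : ℝ)
      refine h3.hasDerivWithinAt.congr (fun x hx => ?_) ?_
      · have hx' : 0 ≤ x := hx
        rw [max_eq_left hx']
      · simp
    have h4 := h1.union h2
    rw [Set.Iic_union_Ici, hasDerivWithinAt_univ] at h4
    simpa using h4
  · have h1 : HasDerivAt (fun x : ℝ => x ^ 2) (2 * s) s := by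
      simpa using hasDerivAt_pow 2 s
    have h2 : (fun x : ℝ => (max x 0) ^ 2) =ᶠ[nhds s] fun x => x ^ 2 := by
      filter_upwards [lt_mem_nhds h] with x hx
      rw [max_eq_left hx.le]
    have h3 := h1.congr_of_eventuallyEq h2
    rw [max_eq_left h.le]
    exact h3

/-- the cutoff -/
noncomputable def hc (t : ℝ) : ℝ := (max (1 - t) 0) ^ 2

/-- its derivative -/
noncomputable def hd (t : ℝ) : ℝ := -(2 * max (1 - t) 0)

theorem hc_deriv (t : ℝ) : HasDerivAt hc (hd t) t := by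
  have h1 : HasDerivAt hc (2 * max (1 - t) 0 * -1) t :=
    (hasDerivAt_sqpos (1 - t)).comp t ((hasDerivAt_id t).const_sub 1)
  have h2 : hd t = 2 * max (1 - t) 0 * -1 := by unfold hd; ring
  rw [h2]
  exact h1

theorem hc_contDiff : ContDiff ℝ 1 hc := by
  rw [contDiff_one_iff_deriv]
  refine ⟨fun t => (hc_deriv t).differentiableAt, ?_⟩
  have : deriv hc = hd := funext fun t => (hc_deriv t).deriv
  rw [this]
  unfold hd
  fun_prop

theorem hc_zero : hc 0 = 1 := by unfold hc; norm_num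

theorem hc_out (t : ℝ) (ht : 1 ≤ t) : hc t = 0 := by
  unfold hc
  rw [max_eq_right (by linarith)]; simp

theorem hd_out (t : ℝ) (ht : 1 ≤ t) : hd t = 0 := by
  unfold hd
  rw [max_eq_right (by linarith)]; simp

theorem hc_nonneg (t : ℝ) : 0 ≤ hc t := by unfold hc; positivity

theorem hc_le (t : ℝ) (ht : 0 ≤ t) : hc t ≤ 1 := by
  unfold hc
  have h1 : max (1 - t) 0 ≤ 1 := max_le (by linarith) (by norm_num)
  have h0 : 0 ≤ max (1 - t) 0 := le_max_right _ _
  nlinarith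

theorem hd_le (t : ℝ) (ht : 0 ≤ t) : |hd t| ≤ 2 := by
  unfold hd
  have h1 : max (1 - t) 0 ≤ 1 := max_le (by linarith) (by norm_num)
  have h0 : 0 ≤ max (1 - t) 0 := le_max_right _ _
  rw [abs_neg, abs_of_nonneg (by linarith)]
  linarith

/-- one bump -/
noncomputable def phi (ρ : ℝ) (q z : E) : E := hc (w q z / ρ) • S q z

/-- its derivative -/
noncomputable def Dphi (ρ : ℝ) (q z : E) : E →L[ℝ] E :=
  hc (w q z / ρ) • DS q z + ((hd (w q z / ρ) * ρ⁻¹) • Dw q z).smulRight (S q z)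

theorem phi_contDiff (ρ : ℝ) (q : E) : ContDiff ℝ 1 (phi ρ q) := by
  unfold phi
  exact (hc_contDiff.comp ((w_contDiff q).div_const ρ)).smul (S_contDiff q)

theorem phi_deriv (ρ : ℝ) (q z : E) : HasFDerivAt (phi ρ q) (Dphi ρ q z) z := by
  have h1 : HasFDerivAt (fun z => w q z / ρ) (ρ⁻¹ • Dw q z) z := by
    have := (w_deriv q z).mul_const (ρ⁻¹)
    simpa [div_eq_mul_inv] using this
  have h2 : HasFDerivAt (fun z => hc (w q z / ρ)) (hd (w q z / ρ) • (ρ⁻¹ • Dw q z)) z := by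
    have h5 := hc_deriv (w q z / ρ)
    exact HasDerivAt.comp_hasFDerivAt (h₂ := hc) (f := fun z => w q z / ρ) z h5 h1
  have h3 := h2.fun_smul (S_deriv q z)
  refine h3.congr_fderiv ?_
  unfold Dphi
  rw [smul_smul]

theorem phi_per (ρ : ℝ) (q z : E) (m : Fin 2 → ℤ) : phi ρ q (z + zv m) = phi ρ q z := by
  unfold phi
  rw [w_per, S_per]

theorem phi_out (ρ : ℝ) (hρ : 0 < ρ) (q z : E) (h : ρ ≤ w q z) : phi ρ q z = 0 := by
  unfold phi
  rw [hc_out _ ((one_le_div hρ).mpr h), zero_smul]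

theorem Dphi_out (ρ : ℝ) (hρ : 0 < ρ) (q z : E) (h : ρ ≤ w q z) : Dphi ρ q z = 0 := by
  unfold Dphi
  rw [hc_out _ ((one_le_div hρ).mpr h), hd_out _ ((one_le_div hρ).mpr h)]
  ext v
  simp

theorem Dphi_self (ρ : ℝ) (q : E) : Dphi ρ q q = ContinuousLinearMap.id ℝ E := by
  unfold Dphi
  rw [w_self, zero_div, hc_zero, S_self, DS_self]
  ext v
  simp

theorem phi_self (ρ : ℝ) (q : E) : phi ρ q q = 0 := by
  unfold phi
  rw [S_self, smul_zero]

theorem norm_phi (ρ r : ℝ) (hρ : 0 < ρ) (hr : 0 < r) (hρr : ρ ≤ r ^ 2) (q z : E) :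
    ‖phi ρ q z‖ ≤ r := by
  rcases le_or_gt ρ (w q z) with h | h
  · rw [phi_out ρ hρ q z h, norm_zero]
    exact hr.le
  · unfold phi
    rw [norm_smul, Real.norm_eq_abs, abs_of_nonneg (hc_nonneg _)]
    have h1 : hc (w q z / ρ) ≤ 1 := hc_le _ (div_nonneg (w_nonneg _ _) hρ.le)
    have h2 := norm_S_sq q z
    have h3 : (1 : ℝ) ≤ Real.pi ^ 2 := by nlinarith [Real.pi_gt_three]
    have h4 : ‖S q z‖ ^ 2 ≤ r ^ 2 := by nlinarith [sq_nonneg ‖S q z‖]
    have h5 : ‖S q z‖ ≤ r := by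
      exact le_of_sq_le_sq h4 hr.le
    calc hc (w q z / ρ) * ‖S q z‖ ≤ 1 * r :=
          mul_le_mul h1 h5 (norm_nonneg _) zero_le_one
      _ = r := one_mul r

theorem norm_Dphi (ρ : ℝ) (hρ : 0 < ρ) (q z : E) : ‖Dphi ρ q z‖ ≤ 5 := by
  rcases le_or_gt ρ (w q z) with h | h
  · rw [Dphi_out ρ hρ q z h, norm_zero]
    norm_num
  · apply ContinuousLinearMap.opNorm_le_bound _ (by norm_num)
    intro v
    have ht : 0 ≤ w q z / ρ := div_nonneg (w_nonneg _ _) hρ.le
    have e : Dphi ρ q z v = hc (w q z / ρ) • DS q z v +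
        ((hd (w q z / ρ) * ρ⁻¹) * Dw q z v) • S q z := by
      unfold Dphi
      simp
    rw [e]
    have h1 : ‖hc (w q z / ρ) • DS q z v‖ ≤ 1 * ‖v‖ := by
      rw [norm_smul, Real.norm_eq_abs, abs_of_nonneg (hc_nonneg _)]
      exact mul_le_mul (hc_le _ ht) (norm_DS_apply q z v) (norm_nonneg _) zero_le_one
    have h2 : ‖((hd (w q z / ρ) * ρ⁻¹) * Dw q z v) • S q z‖ ≤ 4 * ‖v‖ := by
      rw [norm_smul, Real.norm_eq_abs, abs_mul, abs_mul, Dw_inner, abs_mul,
        abs_of_pos (inv_pos.mpr hρ), abs_of_nonneg (by positivity : (0 : ℝ) ≤ 4 * Real.pi ^ 2)]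
      have h3 : |inner ℝ (S q z) v| ≤ ‖S q z‖ * ‖v‖ := abs_real_inner_le_norm _ _
      have h4 := hd_le _ ht
      have h5 := norm_S_sq q z
      have hpi : (0 : ℝ) ≤ 4 * Real.pi ^ 2 := by positivity
      have hv := norm_nonneg v
      have hS := norm_nonneg (S q z)
      calc |hd (w q z / ρ)| * ρ⁻¹ * (4 * Real.pi ^ 2 * |inner ℝ (S q z) v|) * ‖S q z‖
          ≤ 2 * ρ⁻¹ * (4 * Real.pi ^ 2 * (‖S q z‖ * ‖v‖)) * ‖S q z‖ := by
            gcongr
        _ = 2 * ρ⁻¹ * ((4 * Real.pi ^ 2) * ‖S q z‖ ^ 2) * ‖v‖ := by ring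
        _ ≤ 2 * ρ⁻¹ * (2 * ρ) * ‖v‖ := by
            have h6 : (4 * Real.pi ^ 2) * ‖S q z‖ ^ 2 ≤ 2 * ρ := by linarith
            gcongr
        _ = 4 * ‖v‖ := by field_simp; ring
    calc ‖hc (w q z / ρ) • DS q z v + ((hd (w q z / ρ) * ρ⁻¹) * Dw q z v) • S q z‖
        ≤ ‖hc (w q z / ρ) • DS q z v‖ + ‖((hd (w q z / ρ) * ρ⁻¹) * Dw q z v) • S q z‖ :=
          norm_add_le _ _
      _ ≤ 1 * ‖v‖ + 4 * ‖v‖ := add_le_add h1 h2
      _ = 5 * ‖v‖ := by ring

/-- a sum with at most one nonzero term -/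
theorem norm_sum_le_one {V : Type*} [NormedAddCommGroup V] (Q : Finset E) (f : E → V) (K : ℝ)
    (hK : 0 ≤ K) (hf : ∀ q ∈ Q, ‖f q‖ ≤ K)
    (h1 : ∀ q ∈ Q, ∀ q' ∈ Q, q ≠ q' → f q = 0 ∨ f q' = 0) : ‖∑ q ∈ Q, f q‖ ≤ K := by
  classical
  by_cases h : ∃ q ∈ Q, f q ≠ 0
  · obtain ⟨q, hq, hfq⟩ := h
    rw [Finset.sum_eq_single_of_mem q hq]
    · exact hf q hq
    · intro q' hq' hne
      rcases h1 q' hq' q hq hne with h2 | h2
      · exact h2
      · exact absurd h2 hfq
  · push Not at h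
    rw [Finset.sum_eq_zero h, norm_zero]
    exact hK

theorem uni53 : StUni2 := by
  classical
  refine ⟨5, fun Q hQ r hr => ?_⟩
  -- the separation
  obtain ⟨δ, hδ, hsep⟩ : ∃ δ > 0, ∀ q ∈ Q, ∀ q' ∈ Q, q ≠ q' → δ ≤ w q q' := by
    set P := (Q ×ˢ Q).filter (fun x => x.1 ≠ x.2) with hP
    rcases P.eq_empty_or_nonempty with h | h
    · refine ⟨1, one_pos, fun q hq q' hq' hne => ?_⟩
      exfalso
      have : (q, q') ∈ P := Finset.mem_filter.mpr ⟨Finset.mem_product.mpr ⟨hq, hq'⟩, hne⟩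
      rw [h] at this
      exact absurd this (Finset.notMem_empty _)
    · obtain ⟨x, hx, hmin⟩ := P.exists_min_image (fun x => w x.1 x.2) h
      have hx' := Finset.mem_filter.mp hx
      have hx2 := Finset.mem_product.mp hx'.1
      refine ⟨w x.1 x.2, w_pos _ _ ?_, fun q hq q' hq' hne => ?_⟩
      · rintro ⟨m, hm⟩
        exact hQ x.1 hx2.1 x.2 hx2.2 hx'.2 m hm
      · exact hmin (q, q') (Finset.mem_filter.mpr ⟨Finset.mem_product.mpr ⟨hq, hq'⟩, hne⟩)
  set ρ : ℝ := min (r ^ 2) (δ / 4) with hρdef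
  have hρ : 0 < ρ := lt_min (by positivity) (by positivity)
  have hρr : ρ ≤ r ^ 2 := min_le_left _ _
  have hρδ : 4 * ρ ≤ δ := by
    have : ρ ≤ δ / 4 := min_le_right _ _
    linarith
  have hone : ∀ z, ∀ q ∈ Q, ∀ q' ∈ Q, q ≠ q' → ρ ≤ w q z ∨ ρ ≤ w q' z := by
    intro z q hq q' hq' hne
    by_contra hcon
    push Not at hcon
    have h1 := hsep q hq q' hq' hne
    have h2 := w_triangle q q' z
    linarith [hcon.1, hcon.2]
  have hder : ∀ z, HasFDerivAt (fun z => ∑ q ∈ Q, phi ρ q z) (∑ q ∈ Q, Dphi ρ q z) z := by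
    intro z
    apply HasFDerivAt.fun_sum
    intro q _
    exact phi_deriv ρ q z
  refine ⟨fun z => ∑ q ∈ Q, phi ρ q z, ?_, ?_, ?_, ?_, ?_⟩
  · exact ContDiff.sum fun q _ => phi_contDiff ρ q
  · intro x m
    exact Finset.sum_congr rfl fun q _ => phi_per ρ q x m
  · intro x
    apply norm_sum_le_one Q _ r hr.le (fun q _ => norm_phi ρ r hρ hr hρr q x)
    intro q hq q' hq' hne
    rcases hone x q hq q' hq' hne with h | h
    · exact Or.inl (phi_out ρ hρ q x h)
    · exact Or.inr (phi_out ρ hρ q' x h)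
  · intro x
    rw [(hder x).fderiv]
    apply norm_sum_le_one Q _ 5 (by norm_num) (fun q _ => norm_Dphi ρ hρ q x)
    intro q hq q' hq' hne
    rcases hone x q hq q' hq' hne with h | h
    · exact Or.inl (Dphi_out ρ hρ q x h)
    · exact Or.inr (Dphi_out ρ hρ q' x h)
  · intro q hq
    have hout : ∀ q' ∈ Q, q' ≠ q → ρ ≤ w q' q := by
      intro q' hq' hne
      rcases hone q q' hq' q hq hne with h | h
      · exact h
      · rw [w_self] at h
        exact absurd h (not_le.mpr hρ)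
    constructor
    · show ∑ q' ∈ Q, phi ρ q' q = 0
      rw [Finset.sum_eq_single_of_mem q hq]
      · exact phi_self ρ q
      · intro q' hq' hne
        exact phi_out ρ hρ q' q (hout q' hq' hne)
    · rw [(hder q).fderiv, Finset.sum_eq_single_of_mem q hq]
      · exact Dphi_self ρ q
      · intro q' hq' hne
        exact Dphi_out ρ hρ q' q (hout q' hq' hne)

end U53

end Pool.Agent.Lib.Plu
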