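import Pool.Agent.Lib.MP_c44407_an.Var10
import Pool.Agent.Lib.MP_c44407_an.PERT1_4

/-! Row V1 (helper53): the local cone property is open. -/

open MeasureTheory Filter

namespace Pool.Agent.Lib.Plu

namespace V153

theorem near_symm {δ : ℝ} {x y : E} (h : Near δ x y) : Near δ y x := by
  obtain ⟨m, hm⟩ := h
  refine ⟨-m, ?_⟩
  have h1 : y - x - zv (-m) = -(x - y - zv m) := by
    have h2 : zv (-m) = -zv m := by
      ext i
      simp [zv]
    rw [h2]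
    abel
  rw [h1, norm_neg]
  exact hm

theorem near_mono {δ δ' : ℝ} {x y : E} (h : Near δ x y) (hd : δ ≤ δ') : Near δ' x y := by
  obtain ⟨m, hm⟩ := h
  exact ⟨m, hm.trans hd⟩

theorem v1_53 : Var.StV1 := by
  rintro f U a b hU ⟨σ, hσ, hT⟩ ⟨hua, hub, ⟨C, hC⟩, ⟨c, hc⟩, -, l, κ, hl, hκ, hf⟩
  obtain ⟨P, hP0, hP⟩ := bdd4 (fderiv ℝ f.map) (fderiv_cont4 f) (fderiv_per4 f)
  obtain ⟨κ', hκ0, hκ1, hκκ⟩ : ∃ κ' : ℝ, 0 ≤ κ' ∧ κ' < 1 ∧ κ ≤ κ' :=
    ⟨max κ 0, le_max_right _ _, max_lt hκ one_pos, le_max_left _ _⟩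
  obtain ⟨C', hC0, hCa, hCb⟩ : ∃ C' : ℝ, 0 < C' ∧ (∀ x ∈ U, ‖a x‖ ≤ C') ∧
      ∀ x ∈ U, ‖b x‖ ≤ C' :=
    ⟨max C 1, lt_max_of_lt_right one_pos, fun x hx => (hC x hx).1.trans (le_max_left _ _),
      fun x hx => (hC x hx).2.trans (le_max_left _ _)⟩
  obtain ⟨c', hc0, hcv⟩ : ∃ c' : ℝ, 0 < c' ∧ ∀ x ∈ U, ∀ v, |b x v| ≤ |a x v| →
      ‖v‖ ≤ c' * |a x v| :=
    ⟨max c 1, lt_max_of_lt_right one_pos, fun x hx v hv => (hc x hx v hv).trans
      (mul_le_mul_of_nonneg_right (le_max_left _ _) (abs_nonneg _))⟩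
  obtain ⟨s, hs0, hs1, hs2⟩ : ∃ s : ℝ, 0 < s ∧ s ≤ (l - 1) / 2 ∧ 2 * s ≤ 1 - κ' :=
    ⟨min ((l - 1) / 2) ((1 - κ') / 2), lt_min (by linarith) (by linarith), min_le_left _ _, by
      have := min_le_right ((l - 1) / 2) ((1 - κ') / 2)
      linarith⟩
  obtain ⟨η, hη0, hη⟩ : ∃ η : ℝ, 0 < η ∧ η * ((P + 1) * c') = s / 2 :=
    ⟨s / 2 / ((P + 1) * c'), by positivity, by
      have : (P + 1) * c' ≠ 0 := by positivity
      field_simp⟩
  obtain ⟨e, he0, he1, he⟩ : ∃ e : ℝ, 0 < e ∧ e ≤ 1 ∧ C' * (e * c') ≤ s / 2 := by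
    refine ⟨min 1 (s / 2 / (C' * c')), lt_min one_pos (by positivity), min_le_left _ _, ?_⟩
    have h1 := mul_le_mul_of_nonneg_left (min_le_right 1 (s / 2 / (C' * c')))
      (by positivity : 0 ≤ C' * c')
    rw [mul_div_cancel₀ _ (by positivity : C' * c' ≠ 0)] at h1
    linarith
  obtain ⟨δa, hδa, hua⟩ := hua η hη0
  obtain ⟨δb, hδb, hub⟩ := hub η hη0
  obtain ⟨ρ, hρ, hD⟩ := uc4 (fderiv ℝ f.map) (fderiv_cont4 f) (fderiv_per4 f) (e / 2)
    (by positivity)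
  obtain ⟨ε, hε0, hεσ, hεa, hεb, hεe⟩ : ∃ ε : ℝ, 0 < ε ∧ ε ≤ σ ∧ ε ≤ δa ∧ ε ≤ δb ∧ ε ≤ e / 2 :=
    ⟨min (min σ δa) (min δb (e / 2)), lt_min (lt_min hσ hδa) (lt_min hδb (by positivity)),
      (min_le_left _ _).trans (min_le_left _ _), (min_le_left _ _).trans (min_le_right _ _),
      (min_le_right _ _).trans (min_le_left _ _), (min_le_right _ _).trans (min_le_right _ _)⟩
  refine ⟨ε, hε0, ρ, hρ, (l + 1) / 2, by linarith, P + 2, by linarith, ?_⟩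
  intro g hg
  have hgU : ∀ x ∈ U, g.map x ∈ U := fun x hx => hT x hx _ (near_mono (hg x).1 hεσ)
  have hfU : ∀ x ∈ U, f.map x ∈ U := fun x hx => hT x hx _ ⟨0, by
    have : zv 0 = 0 := zv_zero4
    rw [this, sub_self, sub_zero, norm_zero]
    exact hσ.le⟩
  refine ⟨hgU, ?_⟩
  intro z hz w hw hzw
  obtain ⟨v, hv⟩ : ∃ v, v = z - w := ⟨_, rfl⟩
  have hdiff : ‖g.map z - g.map w - fderiv ℝ f.map w v‖ ≤ e * ‖v‖ := by
    rw [hv]
    refine Convex.norm_image_sub_le_of_norm_fderiv_le' (𝕜 := ℝ)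
      (fun x _ => diff4 g x) (fun x hx => ?_) (convex_closedBall w ρ)
      (Metric.mem_closedBall_self hρ.le)
      (by rwa [Metric.mem_closedBall, dist_eq_norm])
    rw [Metric.mem_closedBall, dist_eq_norm] at hx
    have h1 := (hg x).2
    have h2 := hD x w hx
    have h3 := norm_sub_le_norm_sub_add_norm_sub (fderiv ℝ g.map x) (fderiv ℝ f.map x)
      (fderiv ℝ f.map w)
    linarith
  have hfv : ‖fderiv ℝ f.map w v‖ ≤ P * ‖v‖ :=
    (ContinuousLinearMap.le_opNorm _ _).trans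
      (mul_le_mul_of_nonneg_right (hP w) (norm_nonneg _))
  have hgv : ‖g.map z - g.map w‖ ≤ (P + 1) * ‖v‖ := by
    have h1 := norm_le_norm_add_norm_sub' (g.map z - g.map w) (fderiv ℝ f.map w v)
    have h2 : e * ‖v‖ ≤ 1 * ‖v‖ := mul_le_mul_of_nonneg_right he1 (norm_nonneg _)
    linarith
  refine ⟨?_, ?_⟩
  · rw [hv] at hgv
    have h1 := norm_nonneg (z - w)
    nlinarith
  rw [← hv]
  intro hcone
  have hA0 := abs_nonneg (a w v)
  have hvn := hcv w hw v hcone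
  obtain ⟨h1, h2⟩ := hf w hw v hcone
  have hfw := hfU w hw
  have hgw := hgU w hw
  obtain ⟨u, hu⟩ : ∃ u, u = fderiv ℝ f.map w v := ⟨_, rfl⟩
  obtain ⟨u', hu'⟩ : ∃ u', u' = g.map z - g.map w := ⟨_, rfl⟩
  rw [← hu] at h1 h2 hdiff
  rw [← hu'] at hdiff hgv ⊢
  have hda : |a (f.map w) u - a (f.map w) u'| ≤ C' * (e * c') * |a w v| := by
    rw [← map_sub, ← Real.norm_eq_abs]
    calc ‖a (f.map w) (u - u')‖ ≤ ‖a (f.map w)‖ * ‖u - u'‖ := ContinuousLinearMap.le_opNorm _ _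
      _ ≤ C' * (e * ‖v‖) := by
          rw [norm_sub_rev]
          exact mul_le_mul (hCa _ hfw) hdiff (norm_nonneg _) hC0.le
      _ ≤ C' * (e * (c' * |a w v|)) := by gcongr
      _ = C' * (e * c') * |a w v| := by ring
  have hdb : |b (f.map w) u' - b (f.map w) u| ≤ C' * (e * c') * |a w v| := by
    rw [← map_sub, ← Real.norm_eq_abs]
    calc ‖b (f.map w) (u' - u)‖ ≤ ‖b (f.map w)‖ * ‖u' - u‖ := ContinuousLinearMap.le_opNorm _ _
      _ ≤ C' * (e * ‖v‖) := mul_le_mul (hCb _ hfw) hdiff (norm_nonneg _) hC0.le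
      _ ≤ C' * (e * (c' * |a w v|)) := by gcongr
      _ = C' * (e * c') * |a w v| := by ring
  have hun : η * ‖u'‖ ≤ s / 2 * |a w v| := by
    calc η * ‖u'‖ ≤ η * ((P + 1) * (c' * |a w v|)) := by gcongr; exact hgv.trans (by gcongr)
      _ = η * ((P + 1) * c') * |a w v| := by ring
      _ = s / 2 * |a w v| := by rw [hη]
  have he' : C' * (e * c') * |a w v| ≤ s / 2 * |a w v| := mul_le_mul_of_nonneg_right he hA0
  have h3 := hua (f.map w) hfw (g.map w) hgw (near_symm (near_mono (hg w).1 hεa)) u'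
  have h4 := hub (g.map w) hgw (f.map w) hfw (near_mono (hg w).1 hεb) u'
  have h5 : |a (f.map w) u| ≤ |a (f.map w) u'| + C' * (e * c') * |a w v| := by
    have := abs_sub_abs_le_abs_sub (a (f.map w) u) (a (f.map w) u')
    linarith
  have h6 : |b (f.map w) u'| ≤ |b (f.map w) u| + C' * (e * c') * |a w v| := by
    have := abs_sub_abs_le_abs_sub (b (f.map w) u') (b (f.map w) u)
    linarith
  have h7 : |a (f.map w) u| ≤ |a (g.map w) u'| + s * |a w v| := by linarith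
  have h8 : |b (g.map w) u'| ≤ |b (f.map w) u| + s * |a w v| := by linarith
  have h9 : |b (f.map w) u| ≤ κ' * |a (f.map w) u| :=
    h1.trans (mul_le_mul_of_nonneg_right hκκ (abs_nonneg _))
  have h10 : |a w v| ≤ |a (f.map w) u| := by nlinarith
  have h11 : 2 * s * |a w v| ≤ (1 - κ') * |a (f.map w) u| :=
    mul_le_mul hs2 h10 hA0 (by linarith)
  refine ⟨by linarith, ?_⟩
  have h12 : s * |a w v| ≤ (l - 1) / 2 * |a w v| := mul_le_mul_of_nonneg_right hs1 hA0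
  linarith

end V153

end Pool.Agent.Lib.Plu
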