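import Pool.Agent.Lib.MP_c44407_an.Var10
import Pool.Agent.Lib.MP_c44407_an.CC4_4

/-! Row V4: a line in the direction of the cones that meets `D` in positive length. -/

open MeasureTheory Filter

namespace Pool.Agent.Lib.Plu

namespace V4_5

open Var

lemma near_of_norm {δ : ℝ} {x y : E} (h : ‖x - y‖ ≤ δ) : Near δ x y := by
  refine ⟨0, ?_⟩
  have : zv 0 = 0 := by
    ext i
    simp [zv]
  rwa [this, sub_zero]

theorem v4_5 : StV4 := by
  intro f U a b hU hfield ρ hρ D hDU hD hDpos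
  obtain ⟨hUa, hUb, -, -, hv, -⟩ := hfield
  -- a point of `D` at which `D` has positive measure
  obtain ⟨x0, hx0, hpos⟩ : ∃ x0 ∈ D, ∀ u ∈ nhdsWithin x0 D, 0 < volume u := by
    by_contra hcon
    push Not at hcon
    refine hDpos.ne' (measure_null_of_locally_null D fun x hx => ?_)
    obtain ⟨u, hu, hu0⟩ := hcon x hx
    exact ⟨u, hu, le_antisymm hu0 bot_le⟩
  have hx0U := hDU hx0
  obtain ⟨v, hav, hbv⟩ := hv x0 hx0U
  set η : ℝ := 1 / (4 * (‖v‖ + 1)) with hη
  have hv0 := norm_nonneg v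
  have hη0 : 0 < η := by positivity
  have hηv : η * ‖v‖ ≤ 1 / 4 := by
    rw [hη, div_mul_eq_mul_div, one_mul, div_le_div_iff₀ (by positivity) (by norm_num)]
    linarith
  obtain ⟨δ1, hδ1, h1⟩ := hUa η hη0
  obtain ⟨δ2, hδ2, h2⟩ := hUb η hη0
  obtain ⟨δ3, hδ3, h3⟩ := Metric.isOpen_iff.1 hU x0 hx0U
  set δ : ℝ := min (min δ1 δ2) (min δ3 (ρ / 2)) with hδ
  have hδ0 : 0 < δ := lt_min (lt_min hδ1 hδ2) (lt_min hδ3 (by linarith))
  have e1 : δ ≤ δ1 := (min_le_left _ _).trans (min_le_left _ _)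
  have e2 : δ ≤ δ2 := (min_le_left _ _).trans (min_le_right _ _)
  have e3 : δ ≤ δ3 := (min_le_right _ _).trans (min_le_left _ _)
  have e4 : δ ≤ ρ / 2 := (min_le_right _ _).trans (min_le_right _ _)
  have hball : Metric.ball x0 δ ⊆ U := (Metric.ball_subset_ball e3).trans h3
  have hD1pos : 0 < volume (D ∩ Metric.ball x0 δ) :=
    hpos _ (inter_mem self_mem_nhdsWithin (mem_nhdsWithin_of_mem_nhds (Metric.ball_mem_nhds x0 hδ0)))
  obtain ⟨y, hy⟩ := cc4_4 (D ∩ Metric.ball x0 δ) v (hD.inter measurableSet_ball) hD1pos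
  have hc : Continuous fun t : ℝ => y + t • v := by fun_prop
  refine ⟨y, v, 1 / 2, by norm_num, {t | t ∈ Set.Icc (0 : ℝ) 1 ∧ y + t • v ∈ Metric.ball x0 δ},
    ?_, fun t ht => hball ht.2, fun s hs t ht => ?_, ?_⟩
  · exact measurableSet_Icc.inter (hc.measurable measurableSet_ball)
  · have hw : (y + t • v) - (y + s • v) = (t - s) • v := by
      rw [sub_smul]
      abel
    have hsx : ‖(y + s • v) - x0‖ < δ := by
      have := hs.2
      rwa [Metric.mem_ball, dist_eq_norm] at this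
    have htx : ‖(y + t • v) - x0‖ < δ := by
      have := ht.2
      rwa [Metric.mem_ball, dist_eq_norm] at this
    have hsU := hball hs.2
    rw [hw]
    have hnorm : ‖(t - s) • v‖ = |t - s| * ‖v‖ := by rw [norm_smul, Real.norm_eq_abs]
    have habs := abs_nonneg (t - s)
    have ha : |t - s| ≤ |a (y + s • v) ((t - s) • v)| + η * ‖(t - s) • v‖ := by
      have := h1 x0 hx0U _ hsU (near_of_norm (by
        rw [norm_sub_rev]
        exact hsx.le.trans e1)) ((t - s) • v)
      rwa [map_smul, hav, smul_eq_mul, mul_one] at this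
    have hb : |b (y + s • v) ((t - s) • v)| ≤ η * ‖(t - s) • v‖ := by
      have := h2 _ hsU x0 hx0U (near_of_norm (hsx.le.trans e2)) ((t - s) • v)
      rwa [map_smul (b x0), hbv, smul_zero, abs_zero, zero_add] at this
    have hηn : η * ‖(t - s) • v‖ ≤ |t - s| * (1 / 4) := by
      rw [hnorm]
      calc η * (|t - s| * ‖v‖) = |t - s| * (η * ‖v‖) := by ring
        _ ≤ _ := mul_le_mul_of_nonneg_left hηv habs
    refine ⟨?_, ?_, ?_⟩
    · rw [← hw]
      have e : (y + t • v) - (y + s • v) = ((y + t • v) - x0) - ((y + s • v) - x0) := by abel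
      rw [e]
      have := norm_sub_le ((y + t • v) - x0) ((y + s • v) - x0)
      linarith
    · linarith
    · linarith
  · refine lt_of_lt_of_le hy (measure_mono ?_)
    rintro t ⟨ht, ht2⟩
    exact ⟨⟨ht, ht2.2⟩, ht2.1⟩

end V4_5

end Pool.Agent.Lib.Plu
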