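import Pool.Agent.Lib.MP_c44407_an.PF45
import Pool.Agent.Lib.MP_c44407_an.P2_10
import Pool.Agent.Lib.MP_c44407_an.P5_4
import Pool.Agent.Lib.MP_c44407_an.Var10

open MeasureTheory Filter

namespace Pool.Agent.Lib.Plu

namespace Var

namespace VF45

/-- The end of the argument: a set of positive length on which the frequency of the outs is
small. -/
lemma endgame (w : ℕ → ℝ → ℕ) {I T : Set ℝ} (hTsub : T ⊆ I)
    (hTmeas : MeasurableSet T) (hy : 0 < volume T) {q κ K : ℝ} (hq0 : 0 < q) (hq1 : q < 1)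
    (hκ0 : 0 < κ) (hκ1 : κ < 1)
    (hint : ∀ n, ∫⁻ t in I, ENNReal.ofReal (q ^ w n t) ≤ ENNReal.ofReal (K * κ ^ n)) {N : ℕ}
    (hN : ∀ n ≥ N, ∀ t ∈ T, (w n t : ℝ) ≤ (Real.log κ / (2 * Real.log q)) * n) : False := by
  have hlq : Real.log q < 0 := Real.log_neg hq0 hq1
  have hlκ : Real.log κ < 0 := Real.log_neg hκ0 hκ1
  set η : ℝ := Real.log κ / (2 * Real.log q) with hη
  have hηpos : 0 < η := div_pos_of_neg_of_neg hlκ (by linarith)
  have hηq : η * Real.log q = Real.log κ / 2 := by
    rw [hη]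
    have : Real.log q ≠ 0 := hlq.ne
    field_simp
  set s : ℝ := Real.exp (Real.log κ / 2) with hs
  -- the lower bound
  have hlow : ∀ n, N ≤ n → ENNReal.ofReal (s ^ n) * volume T ≤
      ENNReal.ofReal (K * κ ^ n) := by
    intro n hn
    refine le_trans ?_ (hint n)
    calc ENNReal.ofReal (s ^ n) * volume T
        = ∫⁻ _ in T, ENNReal.ofReal (s ^ n) := by
          rw [setLIntegral_const]
      _ ≤ ∫⁻ t in T, ENNReal.ofReal (q ^ w n t) := by
          refine setLIntegral_mono' hTmeas fun t ht => ENNReal.ofReal_le_ofReal ?_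
          have h1 := hN n hn t ht
          have h3 : q ^ w n t = Real.exp ((w n t : ℝ) * Real.log q) := by
            rw [← Real.exp_log (pow_pos hq0 _), Real.log_pow]
          rw [h3, hs, ← Real.exp_nat_mul]
          refine Real.exp_le_exp.2 ?_
          have h4 : η * n * Real.log q ≤ (w n t : ℝ) * Real.log q :=
            mul_le_mul_of_nonpos_right h1 hlq.le
          have h5 : η * n * Real.log q = n * (Real.log κ / 2) := by
            rw [← hηq]; ring
          linarith
      _ ≤ ∫⁻ t in I, ENNReal.ofReal (q ^ w n t) := lintegral_mono_set hTsub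
  have hs0 : 0 < s := Real.exp_pos _
  have hs1 : s < 1 := by rw [hs, Real.exp_lt_one_iff]; linarith
  have hss : s * s = κ := by
    rw [hs, ← Real.exp_add]
    have : Real.log κ / 2 + Real.log κ / 2 = Real.log κ := by ring
    rw [this, Real.exp_log hκ0]
  have hTfin : volume T < ⊤ := by
    by_contra hcon
    rw [not_lt, top_le_iff] at hcon
    have h1 := hlow N le_rfl
    rw [hcon, ENNReal.mul_top (by simpa using pow_pos hs0 N)] at h1
    exact absurd h1 (not_le.2 ENNReal.ofReal_lt_top)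
  have hTpos : 0 < (volume T).toReal := ENNReal.toReal_pos hy.ne' hTfin.ne
  have hineq : ∀ n, N ≤ n → (volume T).toReal ≤ |K| * s ^ n := by
    intro n hn
    have h1 := hlow n hn
    have h2 : ENNReal.ofReal (s ^ n) * volume T ≤ ENNReal.ofReal (|K| * κ ^ n) :=
      h1.trans (ENNReal.ofReal_le_ofReal
        (mul_le_mul_of_nonneg_right (le_abs_self K) (pow_nonneg hκ0.le n)))
    have h3 : s ^ n * (volume T).toReal ≤ |K| * κ ^ n := by
      have h4 := ENNReal.toReal_mono ENNReal.ofReal_ne_top h2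
      rwa [ENNReal.toReal_mul, ENNReal.toReal_ofReal (pow_nonneg hs0.le n),
        ENNReal.toReal_ofReal (mul_nonneg (abs_nonneg K) (pow_nonneg hκ0.le n))] at h4
    have h5 : κ ^ n = s ^ n * s ^ n := by rw [← mul_pow, hss]
    rw [h5] at h3
    have h6 : 0 < s ^ n := pow_pos hs0 n
    have h7 : s ^ n * (volume T).toReal ≤ s ^ n * (|K| * s ^ n) := by linarith
    exact le_of_mul_le_mul_left h7 h6
  have hlim : Tendsto (fun n : ℕ => |K| * s ^ n) atTop (nhds (|K| * 0)) :=
    (tendsto_pow_atTop_nhds_zero_of_lt_one hs0.le hs1).const_mul _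
  rw [mul_zero] at hlim
  obtain ⟨n, hn, hn2⟩ := ((hlim.eventually (gt_mem_nhds hTpos)).and
    (eventually_ge_atTop N)).exists
  exact absurd (hineq n hn2) (not_le.2 hn)

lemma near_unshift {δ : ℝ} {x y : E} {m : Fin 2 → ℤ} (h : Near δ x y) :
    Near δ x (y + zv m) := by
  obtain ⟨m', hm'⟩ := h
  refine ⟨m' - m, ?_⟩
  have e : x - (y + zv m) - zv (m' - m) = x - y - zv m' := by
    rw [P2.zv_add']; abel
  rwa [e]

lemma near_self {δ : ℝ} (hδ : 0 ≤ δ) (x : E) : Near δ x x :=
  ⟨0, by rw [sub_self, CF45.zv_zero, sub_zero, norm_zero]; exact hδ⟩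

lemma outs_shift (g : TorusDiffeo) (P : Finset E) (r : ℝ) (n j : ℕ) (y : E) :
    outsP g P r n (g.map^[j] y) ≤ outsP g P r (n + j) y := by
  unfold outsP
  rw [add_comm n j, Finset.sum_range_add]
  refine le_add_left (Finset.sum_le_sum fun i _ => ?_)
  rw [add_comm j i, Function.iterate_add_apply]

lemma inv_map_iter (g : TorusDiffeo) (n : ℕ) (x : E) : g.inv^[n] (g.map^[n] x) = x :=
  (Function.LeftInverse.iterate g.left_inv n) x

lemma map_inv_iter (g : TorusDiffeo) (n : ℕ) (x : E) : g.map^[n] (g.inv^[n] x) = x :=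
  (Function.LeftInverse.iterate g.right_inv n) x

lemma diff_inv_iter (g : TorusDiffeo) (n : ℕ) : Differentiable ℝ (g.inv^[n]) := by
  have h : Differentiable ℝ g.inv := g.contDiff_inv.differentiable (by simp)
  exact h.iterate n

end VF45

open CF45 VF45 in
/-- Row VF. -/
theorem vf45 (v1 : StV1) (v2 : StV2) (v4 : StV4) (c3 : StP3) : StVF := by
  classical
  intro f U a b L hU htr hfield hp hplu
  obtain ⟨p, hpL, hpU, k, hk, m, hpm⟩ := hp
  obtain ⟨σ, hσ, htr'⟩ := id htr
  obtain ⟨-, -, ⟨C, hC⟩, -⟩ := id hfield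
  obtain ⟨ε1, hε1, ρ0, hρ0, l, hl, M, hM, hloc⟩ := v1 f U a b hU htr hfield
  obtain ⟨q, hq0, hq1, κ, hκ0, hκ1, hint⟩ := v2 U a b (max C 1) l M ρ0
    (fun x hx => ((hC x hx).1).trans (le_max_left _ _)) (lt_max_of_lt_right one_pos) hl hM hρ0
  set P : Finset E := (Finset.range k).image fun j => f.map^[j] p with hP
  have horb : ∀ n, f.map^[n] p ∈ U := by
    intro n
    induction n with
    | zero => exact hpU
    | succ n ih => rw [Function.iterate_succ_apply']; exact htr' _ ih _ (near_self hσ.le _)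
  have hPU : ∀ p' ∈ P, ∀ z, Near σ z p' → z ∈ U := by
    intro p' hp' z hz
    obtain ⟨j, hj, rfl⟩ := Finset.mem_image.1 hp'
    rcases Nat.eq_zero_or_pos j with rfl | hj0
    · have h1 : Near σ z (f.map^[k] p) := by
        rw [hpm]; exact near_unshift hz
      obtain ⟨k', rfl⟩ : ∃ k', k = k' + 1 := ⟨k - 1, by omega⟩
      rw [Function.iterate_succ_apply'] at h1
      exact htr' _ (horb k') _ h1
    · obtain ⟨j', rfl⟩ : ∃ j', j = j' + 1 := ⟨j - 1, by omega⟩
      simp only [Function.iterate_succ_apply'] at hz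
      exact htr' _ (horb j') _ hz
  obtain ⟨s0, hs0, hsep⟩ := P2.sep P
  set ρ : ℝ := min ρ0 (s0 / 4) with hρdef
  have hρ : 0 < ρ := lt_min hρ0 (by linarith)
  have hM0 : 0 < M := by linarith
  set r : ℝ := min (min (ρ / (2 * M)) (s0 / 8)) σ with hrdef
  have hr : 0 < r := lt_min (lt_min (by positivity) (by linarith)) hσ
  have hr1 : r ≤ ρ / (2 * M) := (min_le_left _ _).trans (min_le_left _ _)
  have hr2 : r ≤ s0 / 8 := (min_le_left _ _).trans (min_le_right _ _)
  have hr3 : r ≤ σ := min_le_right _ _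
  have hρs : ρ ≤ s0 / 4 := min_le_right _ _
  have hMr : M * (2 * r) ≤ ρ := by
    have h1 : r * (2 * M) ≤ ρ := by rwa [le_div_iff₀ (by positivity)] at hr1
    linarith
  set T : Set E := {w | ∃ p ∈ P, Near r w p} with hTdef
  have hTmeas : MeasurableSet T := P2.near_measP r P
  have hT : ∀ z ∈ T, ∀ w ∈ T, ‖z - w‖ ≤ ρ → M * ‖z - w‖ ≤ ρ := by
    intro z hz w hw hzw
    have h1 : ‖z - w‖ ≤ 2 * r := P2.same_translate (by linarith) hsep hz hw hzw
    exact (mul_le_mul_of_nonneg_left h1 hM0.le).trans hMr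
  have hTU : T ⊆ U := by
    rintro z ⟨p', hp', hz⟩
    exact hPU p' hp' z (near_mono hr3 hz)
  obtain ⟨g, hclose, x', hfol, D, hD, hDpos, hst⟩ := hplu p hpL (min ε1 (r / 2))
    (lt_min hε1 (by linarith))
  have hcl : C1Close ε1 f g := fun x =>
    ⟨near_mono (min_le_left _ _) (hclose x).1, (hclose x).2.trans (min_le_left _ _)⟩
  have hgl := hloc g hcl
  have hnear : ∀ n, ∃ p' ∈ P, Near (r / 2) (g.map^[n] x') p' := by
    intro n
    obtain ⟨j, hj, m', hm'⟩ := PF45.per_iter f hk hpm n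
    have h1 := (hfol n).1
    rw [hm'] at h1
    exact ⟨f.map^[j] p, Finset.mem_image_of_mem _ (Finset.mem_range.2 hj),
      near_mono (min_le_right _ _) (near_shift h1)⟩
  have hfreqD : ∀ y ∈ D, ∀ η > 0, ∃ N : ℕ, ∀ n ≥ N, (outsP g P r n y : ℝ) ≤ η * n :=
    fun y hy => c3 g P x' y r hr hnear (hst y hy)
  -- the points of `D` enter `U`
  have hentry : ∀ y ∈ D, ∃ j, g.map^[j] y ∈ U := by
    intro y hy
    obtain ⟨N, hN⟩ := hfreqD y hy (1 / 2) (by norm_num)
    by_contra hcon
    push Not at hcon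
    have h1 : outsP g P r (N + 1) y = N + 1 := by
      unfold outsP
      rw [Finset.sum_congr rfl (g := fun _ => 1)]
      · simp
      · intro i _
        rw [Set.indicator_of_mem]
        intro h2
        exact hcon i (hTU h2)
    have h2 := hN (N + 1) (by omega)
    rw [h1] at h2
    push_cast at h2
    have : (0 : ℝ) ≤ N := Nat.cast_nonneg N
    linarith
  have hexj : ∃ j, 0 < volume (D ∩ g.map^[j] ⁻¹' U) := by
    by_contra hcon
    push Not at hcon
    have : volume D = 0 := by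
      refine measure_mono_null (t := ⋃ j, (D ∩ g.map^[j] ⁻¹' U)) ?_
        (measure_iUnion_null fun j => le_antisymm (hcon j) bot_le)
      intro y hy
      obtain ⟨j, hj⟩ := hentry y hy
      exact Set.mem_iUnion.2 ⟨j, hy, hj⟩
    exact hDpos.ne' this
  obtain ⟨j, hj⟩ := hexj
  set Dj : Set E := D ∩ g.map^[j] ⁻¹' U with hDj
  have hcont : Continuous (g.map^[j]) := g.contDiff_map.continuous.iterate j
  have hDjmeas : MeasurableSet Dj := hD.inter (hcont.measurable hU.measurableSet)
  set D' : Set E := g.map^[j] '' Dj with hD'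
  have himg : D' = g.inv^[j] ⁻¹' Dj := by
    ext z
    constructor
    · rintro ⟨w, hw, rfl⟩
      show g.inv^[j] (g.map^[j] w) ∈ Dj
      rwa [inv_map_iter]
    · intro hz
      exact ⟨g.inv^[j] z, hz, map_inv_iter g j z⟩
  have hD'meas : MeasurableSet D' := by
    rw [himg]
    exact (diff_inv_iter g j).continuous.measurable hDjmeas
  have hD'pos : 0 < volume D' := by
    rw [pos_iff_ne_zero]
    intro h0
    have h1 := addHaar_image_eq_zero_of_differentiableOn_of_addHaar_eq_zero volume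
      (f := g.inv^[j]) (s := D') (diff_inv_iter g j).differentiableOn h0
    have h2 : g.inv^[j] '' D' = Dj := by
      rw [hD', Set.image_image]
      simp only [inv_map_iter, Set.image_id']
    rw [h2] at h1
    exact hj.ne' h1
  have hD'U : D' ⊆ U := by
    rintro z ⟨w, hw, rfl⟩
    exact hw.2
  have hfreqD' : ∀ y ∈ D', ∀ η > 0, ∃ N : ℕ, ∀ n ≥ N, (outsP g P r n y : ℝ) ≤ η * n := by
    rintro z ⟨y, hy, rfl⟩ η hη
    obtain ⟨N, hN⟩ := hfreqD y hy.1 (η / 2) (by linarith)
    refine ⟨max N j, fun n hn => ?_⟩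
    have h1 := hN (n + j) (((le_max_left _ _).trans hn).trans (Nat.le_add_right _ _))
    have h2 : (outsP g P r n (g.map^[j] y) : ℝ) ≤ outsP g P r (n + j) y := by
      exact_mod_cast outs_shift g P r n j y
    have h3 : (j : ℝ) ≤ n := by exact_mod_cast (le_max_right _ _).trans hn
    push_cast at h1
    nlinarith
  -- a good set
  have hlq : Real.log q < 0 := Real.log_neg hq0 hq1
  have hlκ : Real.log κ < 0 := Real.log_neg hκ0 hκ1
  set η : ℝ := Real.log κ / (2 * Real.log q) with hη
  have hηpos : 0 < η := div_pos_of_neg_of_neg hlκ (by linarith)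
  set DN : ℕ → Set E := fun N => D' ∩ ⋂ n : ℕ, ⋂ _ : N ≤ n, {y | (outsP g P r n y : ℝ) ≤ η * n}
    with hDN
  have hmeas : ∀ N, MeasurableSet (DN N) := by
    intro N
    refine hD'meas.inter (MeasurableSet.iInter fun n => MeasurableSet.iInter fun _ => ?_)
    have h1 : Measurable fun y : E => ((outsP g P r n y : ℕ) : ℝ) :=
      (measurable_from_top (f := fun k : ℕ => (k : ℝ))).comp (p5_4 g P r n)
    exact measurableSet_le h1 measurable_const
  have hcov : D' ⊆ ⋃ N, DN N := by
    intro y hy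
    obtain ⟨N, hN⟩ := hfreqD' y hy η hηpos
    rw [Set.mem_iUnion]
    refine ⟨N, hy, ?_⟩
    simp only [Set.mem_iInter]
    intro n hn
    exact hN n hn
  have hex : ∃ N, 0 < volume (DN N) := by
    by_contra hcon
    push Not at hcon
    have : volume D' = 0 := measure_mono_null hcov
      (measure_iUnion_null fun N => le_antisymm (hcon N) bot_le)
    exact hD'pos.ne' this
  obtain ⟨N, hN⟩ := hex
  obtain ⟨y, v, Λ, hΛ, I, hI, hIU, hpair, hvol⟩ := v4 f U a b hU hfield ρ hρ (DN N)
    (Set.inter_subset_left.trans hD'U) (hmeas N) hN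
  have hγ : Continuous fun t : ℝ => y + t • v := by fun_prop
  refine endgame (fun n t => outsP g P r n (y + t • v)) (I := I)
    (T := {t : ℝ | t ∈ I ∧ y + t • v ∈ DN N}) (fun t ht => ht.1)
    (hI.inter (hγ.measurable (hmeas N))) hvol hq0 hq1 hκ0 hκ1
    (K := 2 * (max C 1 * ρ / Λ)) (fun n => ?_) (N := N) ?_
  · exact hint ρ hρ (min_le_left _ _) g hgl (fun _ => T) (fun _ => hTmeas) (fun _ => hT)
      (fun t => y + t • v) hγ Λ hΛ I hI hIU hpair n
  · intro n hn t ht
    have h2 := ht.2.2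
    simp only [Set.mem_iInter] at h2
    exact h2 n hn

end Var

end Pool.Agent.Lib.Plu
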