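import Pool.Agent.Lib.MP_c44407_an.Var10
import Pool.Agent.Lib.MP_c44407_an.PF45
import Pool.Agent.Lib.MP_c44407_an.P2_10
import Pool.Agent.Lib.MP_c44407_an.P5_4

/-! Row VF: no pluripotency at periodic points in a trapping region with an expanding cone field. -/

open MeasureTheory Filter

namespace Pool.Agent.Lib.Plu

namespace VF5

open Var CF45

lemma near_shift' {δ : ℝ} {x y : E} (m : Fin 2 → ℤ) (h : Near δ x y) : Near δ x (y + zv m) := by
  obtain ⟨m', hm'⟩ := h
  refine ⟨m' - m, ?_⟩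
  have h1 : zv (m' - m) = zv m' - zv m := by
    ext i
    simp [zv_apply]
  rw [h1]
  have : x - (y + zv m) - (zv m' - zv m) = x - y - zv m' := by abel
  rwa [this]

lemma near_refl' {δ : ℝ} (hδ : 0 < δ) (x : E) : Near δ x x :=
  ⟨0, by rw [zv_zero]; simpa using hδ.le⟩

/-- the neighbourhood of the periodic orbit is in `U` -/
lemma orbit_nbhd {f : TorusDiffeo} {U : Set E} {σ : ℝ} (hσ : 0 < σ)
    (ht : ∀ x ∈ U, ∀ z, Near σ z (f.map x) → z ∈ U) {p : E} (hp : p ∈ U) {k : ℕ} (hk : 1 ≤ k)
    {m : Fin 2 → ℤ} (hpm : f.map^[k] p = p + zv m) (i : ℕ) {w : E}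
    (hw : Near σ w (f.map^[i] p)) : w ∈ U := by
  have h1 : ∀ i, f.map^[i] p ∈ U := by
    intro i
    induction i with
    | zero => exact hp
    | succ i ih =>
      rw [Function.iterate_succ_apply']
      exact ht _ ih _ (near_refl' hσ _)
  rcases Nat.eq_zero_or_pos i with rfl | hi
  · obtain ⟨k', rfl⟩ : ∃ k', k = k' + 1 := ⟨k - 1, by omega⟩
    rw [Function.iterate_succ_apply'] at hpm
    refine ht _ (h1 k') w ?_
    rw [hpm]
    exact near_shift' m hw
  · obtain ⟨i', rfl⟩ : ∃ i', i = i' + 1 := ⟨i - 1, by omega⟩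
    rw [Function.iterate_succ_apply'] at hw
    exact ht _ (h1 i') w hw

theorem vf5 (v1 : StV1) (v2 : StV2) (v4 : StV4) (c3 : StP3) : StVF := by
  classical
  intro f U a b L hU htr hfield hp hplu
  obtain ⟨p, hpL, hpU, k, hk, m, hpm⟩ := hp
  obtain ⟨ε0, hε0, ρ₀, hρ₀, l, hl, M, hM, hg⟩ := v1 f U a b hU htr hfield
  obtain ⟨σ1, hσ1, ht⟩ := htr
  obtain ⟨C', hC'⟩ := hfield.2.2.1
  set C : ℝ := max C' 1 with hCd
  have hC0 : 0 < C := lt_of_lt_of_le one_pos (le_max_right _ _)
  have hC : ∀ x ∈ U, ‖a x‖ ≤ C := fun x hx => (hC' x hx).1.trans (le_max_left _ _)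
  obtain ⟨q, hq0, hq1, κ, hκ0, hκ1, hint⟩ := v2 U a b C l M ρ₀ hC hC0 hl hM hρ₀
  set P : Finset E := (Finset.range k).image fun j => f.map^[j] p with hP
  obtain ⟨σ, hσ0, hσ⟩ := P2.sep P
  have hM0 : 0 < M := by linarith
  set ρ : ℝ := min ρ₀ (σ / 4) with hρd
  have hρ0 : 0 < ρ := lt_min hρ₀ (by positivity)
  set r : ℝ := min (σ / 8) (min (ρ / (2 * M)) σ1) with hrd
  have hr : 0 < r := lt_min (by positivity) (lt_min (by positivity) hσ1)
  have hr1 : r ≤ σ / 8 := min_le_left _ _
  have hr2 : r ≤ ρ / (2 * M) := (min_le_right _ _).trans (min_le_left _ _)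
  have hr3 : r ≤ σ1 := (min_le_right _ _).trans (min_le_right _ _)
  have hρσ : ρ ≤ σ / 4 := min_le_right _ _
  rw [le_div_iff₀ (by positivity)] at hr2
  set T : ℕ → Set E := fun _ => {w | ∃ p' ∈ P, Near r w p'} with hT
  have hTm : ∀ i, MeasurableSet (T i) := fun _ => P2.near_measP r P
  have hTU : ∀ w, (∃ p' ∈ P, Near r w p') → w ∈ U := by
    rintro w ⟨p', hp', hw⟩
    rw [hP, Finset.mem_image] at hp'
    obtain ⟨i, -, rfl⟩ := hp'
    exact orbit_nbhd hσ1 ht hpU hk hpm i (near_mono hr3 hw)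
  have hpair : ∀ i, ∀ z ∈ T i, ∀ w ∈ T i, ‖z - w‖ ≤ ρ → M * ‖z - w‖ ≤ ρ := by
    intro i z hz w hw hzw
    have h1 := P2.same_translate (σ := σ) (r := r) (d := ρ) (by linarith) hσ hz hw hzw
    have h2 : M * ‖z - w‖ ≤ M * (2 * r) := mul_le_mul_of_nonneg_left h1 hM0.le
    linarith
  obtain ⟨g, hclose, x', hfol, D, hD, hDpos, hst⟩ := hplu p hpL (min ε0 (r / 2))
    (lt_min hε0 (by linarith))
  have hcl : C1Close ε0 f g := fun x =>
    ⟨near_mono (min_le_left _ _) (hclose x).1, (hclose x).2.trans (min_le_left _ _)⟩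
  have hgc := hg g hcl
  have hnear : ∀ n, ∃ p' ∈ P, Near (r / 2) (g.map^[n] x') p' := by
    intro n
    obtain ⟨j, hj, m', hm'⟩ := PF45.per_iter f hk hpm n
    have h1 := (hfol n).1
    rw [hm'] at h1
    exact ⟨f.map^[j] p, Finset.mem_image_of_mem _ (Finset.mem_range.2 hj),
      near_mono (min_le_right _ _) (near_shift h1)⟩
  -- the exponent
  have hlq : Real.log q < 0 := Real.log_neg hq0 hq1
  have hlκ : Real.log κ < 0 := Real.log_neg hκ0 hκ1
  set η : ℝ := Real.log κ / (2 * Real.log q) with hη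
  have hηpos : 0 < η := div_pos_of_neg_of_neg hlκ (by linarith)
  have hηq : η * Real.log q = Real.log κ / 2 := by
    rw [hη]
    have : Real.log q ≠ 0 := hlq.ne
    field_simp
  have hη'pos : 0 < min η (1 / 2) := lt_min hηpos (by norm_num)
  -- a good set
  set DN : ℕ × ℕ → Set E := fun N => (D ∩ {y | g.map^[N.2] y ∈ U}) ∩
    ⋂ n : ℕ, ⋂ _ : N.1 ≤ n, {y | (outsP g P r n y : ℝ) ≤ η * n} with hDN
  have hmeas : ∀ N, MeasurableSet (DN N) := by
    intro N
    refine (hD.inter ?_).inter (MeasurableSet.iInter fun n => MeasurableSet.iInter fun _ => ?_)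
    · exact (hU.preimage (g.contDiff_map.continuous.iterate N.2)).measurableSet
    · have h1 : Measurable fun y : E => ((outsP g P r n y : ℕ) : ℝ) :=
        (measurable_from_top (f := fun k : ℕ => (k : ℝ))).comp (p5_4 g P r n)
      exact measurableSet_le h1 measurable_const
  have hcov : D ⊆ ⋃ N, DN N := by
    intro y hy
    obtain ⟨N, hN⟩ := c3 g P x' y r hr hnear (hst y hy) _ hη'pos
    have hfreq := hN (N + 1) (by omega)
    have hex : ∃ j < N + 1, ∃ p' ∈ P, Near r (g.map^[j] y) p' := by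
      by_contra hcon
      push Not at hcon
      have h1 : outsP g P r (N + 1) y = N + 1 := by
        unfold outsP
        have h2 : ∀ i ∈ Finset.range (N + 1), Set.indicator {w | ¬ ∃ p ∈ P, Near r w p}
            (fun _ => 1) (g.map^[i] y) = 1 := by
          intro i hi
          have hm : g.map^[i] y ∈ {w | ¬ ∃ p ∈ P, Near r w p} := by
            rintro ⟨p', hp', h3⟩
            exact hcon i (Finset.mem_range.1 hi) p' hp' h3
          rw [Set.indicator_of_mem hm]
        rw [Finset.sum_congr rfl h2]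
        simp
      rw [h1] at hfreq
      have h2 : min η (1 / 2) ≤ 1 / 2 := min_le_right _ _
      have h3 : (0 : ℝ) < ((N + 1 : ℕ) : ℝ) := by positivity
      nlinarith
    obtain ⟨j, -, hj⟩ := hex
    rw [Set.mem_iUnion]
    refine ⟨(N, j), ⟨hy, hTU _ hj⟩, ?_⟩
    simp only [Set.mem_iInter]
    intro n hn
    refine (hN n hn).trans ?_
    exact mul_le_mul_of_nonneg_right (min_le_left _ _) (Nat.cast_nonneg n)
  have hex : ∃ N, 0 < volume (DN N) := by
    by_contra hcon
    push Not at hcon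
    have : volume D = 0 := measure_mono_null hcov
      (measure_iUnion_null fun N => le_antisymm (hcon N) bot_le)
    exact hDpos.ne' this
  obtain ⟨⟨N, j⟩, hN⟩ := hex
  -- the image
  have hli : Function.LeftInverse g.inv^[j] g.map^[j] :=
    Function.LeftInverse.iterate g.left_inv j
  have hri : Function.LeftInverse g.map^[j] g.inv^[j] :=
    Function.LeftInverse.iterate g.right_inv j
  set D' : Set E := g.inv^[j] ⁻¹' (DN (N, j)) with hD'
  have hD'm : MeasurableSet D' :=
    (g.contDiff_inv.continuous.iterate j).measurable (hmeas (N, j))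
  have hD'U : D' ⊆ U := by
    intro z hz
    have h1 : g.map^[j] (g.inv^[j] z) ∈ U := hz.1.2
    rwa [hri z] at h1
  have hD'pos : 0 < volume D' := by
    rw [pos_iff_ne_zero]
    intro h0
    have hdiff : Differentiable ℝ g.inv^[j] := by
      have h1 : Differentiable ℝ g.inv := g.contDiff_inv.differentiable one_ne_zero
      exact h1.iterate j
    have h1 := addHaar_image_eq_zero_of_differentiableOn_of_addHaar_eq_zero (volume : Measure E)
      (hdiff.differentiableOn (s := D')) h0
    have h2 : DN (N, j) ⊆ g.inv^[j] '' D' := by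
      intro y hy
      refine ⟨g.map^[j] y, ?_, hli y⟩
      show g.inv^[j] (g.map^[j] y) ∈ DN (N, j)
      rw [hli y]
      exact hy
    exact hN.ne' (measure_mono_null h2 h1)
  have houts : ∀ z ∈ D', ∀ n, N ≤ n → (outsT g T n z : ℝ) ≤ η * (n + j) := by
    intro z hz n hn
    have h1 : (outsP g P r (j + n) (g.inv^[j] z) : ℝ) ≤ η * ((j + n : ℕ) : ℝ) := by
      have h2 := hz.2
      simp only [Set.mem_iInter] at h2
      exact h2 (j + n) (by omega)
    have h3 : outsT g T n z ≤ outsP g P r (j + n) (g.inv^[j] z) := by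
      unfold outsT outsP
      rw [Finset.sum_range_add]
      refine le_trans (le_of_eq ?_) (Nat.le_add_left _ _)
      refine Finset.sum_congr rfl fun i _ => ?_
      have h4 : g.map^[j + i] (g.inv^[j] z) = g.map^[i] z := by
        rw [add_comm, Function.iterate_add_apply, hri z]
      rw [h4]
      rfl
    have h5 : (outsT g T n z : ℝ) ≤ (outsP g P r (j + n) (g.inv^[j] z) : ℝ) := by
      exact_mod_cast h3
    refine (h5.trans h1).trans (le_of_eq ?_)
    push_cast
    ring
  obtain ⟨y, v, Λ, hΛ, I, hI, hIU, hIpair, hy⟩ := v4 f U a b hU hfield ρ hρ0 D' hD'U hD'm hD'pos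
  set A : Set ℝ := {t : ℝ | t ∈ I ∧ y + t • v ∈ D'} with hA
  have hAm : MeasurableSet A := by
    have hc : Measurable fun t : ℝ => y + t • v := by fun_prop
    exact hI.inter (hc hD'm)
  have hV : ∀ n, ∫⁻ t in A, ENNReal.ofReal (q ^ outsT g T n (y + t • v)) ≤
      ENNReal.ofReal (2 * (C * ρ / Λ) * κ ^ n) := by
    intro n
    exact hint ρ hρ0 (min_le_left _ _) g hgc T hTm hpair (fun t => y + t • v) (by fun_prop) Λ hΛ A
      hAm (fun t ht' => hIU t ht'.1) (fun s hs t ht' => hIpair s hs.1 t ht'.1) n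
  set B : ℝ := 2 * (C * ρ / Λ) with hB
  have hB0 : 0 ≤ B := by positivity
  have hAfin : volume A < ⊤ := by
    have h1 := hV 0
    have h2 : ∀ t : ℝ, ENNReal.ofReal (q ^ outsT g T 0 (y + t • v)) = 1 := by
      intro t
      simp [outsT]
    simp only [h2, lintegral_const, one_mul, Measure.restrict_apply_univ] at h1
    exact lt_of_le_of_lt h1 ENNReal.ofReal_lt_top
  set s : ℝ := Real.exp (Real.log κ / 2) with hs
  have hs0 : 0 < s := Real.exp_pos _
  have hs1 : s < 1 := by rw [hs, Real.exp_lt_one_iff]; linarith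
  have hss : s * s = κ := by
    rw [hs, ← Real.exp_add]
    have : Real.log κ / 2 + Real.log κ / 2 = Real.log κ := by ring
    rw [this, Real.exp_log hκ0]
  -- the lower bound
  have hlow : ∀ n, N ≤ n → ENNReal.ofReal (s ^ (n + j)) * volume A ≤
      ENNReal.ofReal (B * κ ^ n) := by
    intro n hn
    refine le_trans ?_ (hV n)
    calc ENNReal.ofReal (s ^ (n + j)) * volume A
        = ∫⁻ _ in A, ENNReal.ofReal (s ^ (n + j)) := by
          rw [setLIntegral_const]
      _ ≤ ∫⁻ t in A, ENNReal.ofReal (q ^ outsT g T n (y + t • v)) := by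
          refine setLIntegral_mono' hAm fun t ht' => ENNReal.ofReal_le_ofReal ?_
          have h1 := houts _ ht'.2 n hn
          have h3 : q ^ outsT g T n (y + t • v) =
              Real.exp ((outsT g T n (y + t • v) : ℝ) * Real.log q) := by
            rw [← Real.exp_log (pow_pos hq0 _), Real.log_pow]
          rw [h3, hs, ← Real.exp_nat_mul]
          refine Real.exp_le_exp.2 ?_
          have h4 : η * (n + j) * Real.log q ≤ (outsT g T n (y + t • v) : ℝ) * Real.log q :=
            mul_le_mul_of_nonpos_right h1 hlq.le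
          have h5 : η * (n + j) * Real.log q = (n + j) * (Real.log κ / 2) := by
            rw [← hηq]; ring
          push_cast
          linarith
  have hApos : 0 < (volume A).toReal := ENNReal.toReal_pos hy.ne' hAfin.ne
  have hineq : ∀ n, N ≤ n → s ^ j * (volume A).toReal ≤ B * s ^ n := by
    intro n hn
    have h3 : s ^ (n + j) * (volume A).toReal ≤ B * κ ^ n := by
      have h4 := ENNReal.toReal_mono ENNReal.ofReal_ne_top (hlow n hn)
      rwa [ENNReal.toReal_mul, ENNReal.toReal_ofReal (pow_nonneg hs0.le _),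
        ENNReal.toReal_ofReal (mul_nonneg hB0 (pow_nonneg hκ0.le n))] at h4
    have h5 : κ ^ n = s ^ n * s ^ n := by rw [← mul_pow, hss]
    rw [h5, pow_add] at h3
    have h6 : 0 < s ^ n := pow_pos hs0 n
    have h7 : s ^ n * (s ^ j * (volume A).toReal) ≤ s ^ n * (B * s ^ n) := by linarith
    exact le_of_mul_le_mul_left h7 h6
  have hpos : 0 < s ^ j * (volume A).toReal := mul_pos (pow_pos hs0 j) hApos
  have hlim : Tendsto (fun n : ℕ => B * s ^ n) atTop (nhds (B * 0)) :=
    (tendsto_pow_atTop_nhds_zero_of_lt_one hs0.le hs1).const_mul _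
  rw [mul_zero] at hlim
  obtain ⟨n, hn, hn2⟩ := ((hlim.eventually (gt_mem_nhds hpos)).and
    (eventually_ge_atTop N)).exists
  exact absurd (hineq n hn2) (not_le.2 hn)

end VF5

end Pool.Agent.Lib.Plu
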