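import Pool.Agent.Lib.MP_c44407_an.Defs10

/-!
# Row VOL: the area of the images of a set of the torus stays bounded (helper12)
-/

open MeasureTheory Filter

namespace Pool.Agent.Lib.Plu.Vol12

/-- the standard basis of the plane -/
noncomputable def bas : Module.Basis (Fin 2) ℝ E := (EuclideanSpace.basisFun (Fin 2) ℝ).toBasis

theorem exists_zv (v : E) (hv : v ∈ Submodule.span ℤ (Set.range bas)) : ∃ m, v = zv m := by
  rw [Module.Basis.mem_span_iff_repr_mem ℤ bas] at hv
  choose m hm using hv
  refine ⟨m, ?_⟩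
  ext i
  have h := hm i
  simp [bas] at h
  simp [zv, h]

theorem zv_mem (m : Fin 2 → ℤ) : zv m ∈ Submodule.span ℤ (Set.range bas) := by
  rw [Module.Basis.mem_span_iff_repr_mem ℤ bas]
  intro i
  exact ⟨m i, by simp [bas, zv]⟩

theorem inv_iter_add (g : TorusDiffeo) (n : ℕ) (m : Fin 2 → ℤ) :
    ∃ m', ∀ x, g.inv^[n] (x + zv m) = g.inv^[n] x + zv m' := by
  induction n generalizing m with
  | zero => exact ⟨m, fun x => rfl⟩
  | succ n ih =>
    obtain ⟨m₁, h₁⟩ := g.inv_add m
    obtain ⟨m₂, h₂⟩ := ih m₁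
    exact ⟨m₂, fun x => by rw [Function.iterate_succ_apply, Function.iterate_succ_apply, h₁, h₂]⟩

theorem inv_map_iter (g : TorusDiffeo) (n : ℕ) (x : E) : g.inv^[n] (g.map^[n] x) = x :=
  Function.LeftInverse.iterate g.left_inv n x

theorem map_inv_iter (g : TorusDiffeo) (n : ℕ) (x : E) : g.map^[n] (g.inv^[n] x) = x :=
  Function.LeftInverse.iterate g.right_inv n x

theorem image_eq (g : TorusDiffeo) (n : ℕ) (s : Set E) :
    g.map^[n] '' s = g.inv^[n] ⁻¹' s := by
  ext y
  constructor
  · rintro ⟨x, hx, rfl⟩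
    simpa [inv_map_iter] using hx
  · intro hy
    exact ⟨g.inv^[n] y, hy, map_inv_iter g n y⟩

theorem stVol : StVol := by
  intro g D hD hpos
  have fund := ZSpan.isAddFundamentalDomain' bas (volume : Measure E)
  set F := ZSpan.fundamentalDomain bas with hF
  have hFm : MeasurableSet F := ZSpan.fundamentalDomain_measurableSet bas
  have hFfin : volume F ≠ ⊤ := (ZSpan.fundamentalDomain_isBounded bas).measure_lt_top.ne
  let P : Submodule.span ℤ (Set.range bas) → Set E := fun v => D ∩ {x | (v : E) + x ∈ F}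
  have hPm : ∀ v, MeasurableSet (P v) := fun v =>
    hD.inter (measurableSet_preimage (measurable_const_add (v : E)) hFm)
  have hU : D ⊆ ⋃ v, P v := by
    intro x hx
    obtain ⟨v, hv, -⟩ := ZSpan.exist_unique_vadd_mem_fundamentalDomain bas x
    exact Set.mem_iUnion.2 ⟨v, hx, hv⟩
  have hex : ∃ v, 0 < volume (P v) := by
    by_contra hcon
    push Not at hcon
    have h0 : volume (⋃ v, P v) = 0 := measure_iUnion_null fun v => le_antisymm (hcon v) zero_le
    exact absurd (measure_mono_null hU h0) hpos.ne'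
  obtain ⟨v, hv⟩ := hex
  have key : ∀ x m, x ∈ P v → x + zv m ∈ P v → zv m = 0 := by
    intro x m hx hx'
    obtain ⟨w, -, hw⟩ := ZSpan.exist_unique_vadd_mem_fundamentalDomain bas x
    have h1 : v = w := hw v hx.2
    have h2 : v + ⟨zv m, zv_mem m⟩ = w := by
      refine hw _ ?_
      have := hx'.2
      have e : (v : E) + (x + zv m) = ((v : E) + zv m) + x := by abel
      simp only [Set.mem_ofPred_eq, e] at this
      exact this
    rw [h1] at h2
    have h3 : (⟨zv m, zv_mem m⟩ : Submodule.span ℤ (Set.range bas)) = 0 := by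
      simpa using h2
    exact congrArg Subtype.val h3
  refine ⟨P v, Set.inter_subset_left, hPm v, hv, (volume F).toReal, fun D'' hD'' hm n => ?_⟩
  rw [ENNReal.ofReal_toReal hFfin]
  by_contra hcon
  push Not at hcon
  have hmeas : MeasurableSet (g.map^[n] '' D'') := by
    rw [image_eq]
    exact measurableSet_preimage (g.contDiff_inv.continuous.iterate n).measurable hm
  have : Countable (Submodule.span ℤ (Set.range bas)).toAddSubgroup :=
    inferInstanceAs (Countable (Submodule.span ℤ (Set.range bas)))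
  obtain ⟨x, hx, y, hy, w, hw, hxy⟩ := fund.exists_ne_zero_vadd_eq hmeas.nullMeasurableSet hcon
  obtain ⟨a, ha, rfl⟩ := hx
  obtain ⟨b, hb, rfl⟩ := hy
  obtain ⟨m, hm'⟩ := exists_zv (w : E) w.2
  obtain ⟨m', h'⟩ := inv_iter_add g n m
  have h1 : g.map^[n] a + zv m = g.map^[n] b := by
    rw [← hm', ← hxy, add_comm]; rfl
  have h2 : b = a + zv m' := by
    rw [← inv_map_iter g n b, ← h1, h', inv_map_iter]
  have h3 : zv m' = 0 := key a m' (hD'' ha) (h2 ▸ hD'' hb)
  rw [h3, add_zero] at h2
  rw [h2] at h1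
  have h4 : zv m = 0 := by simpa using h1
  apply hw
  ext1
  rw [hm', h4]; rfl

end Pool.Agent.Lib.Plu.Vol12
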