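import Pool.Agent.Lib.MP_c44407_an.LIP45

open MeasureTheory Filter

namespace Pool.Agent.Lib.Plu

/-- the integer cells -/
def cellZ (m : Fin 2 → ℤ) : Set E := {x | ∀ i, (m i : ℝ) ≤ x i ∧ x i < m i + 1}

lemma mem_cellZ_floor (x : E) : x ∈ cellZ (fun i => ⌊x i⌋) :=
  fun i => ⟨Int.floor_le _, Int.lt_floor_add_one _⟩

lemma cellZ_unique {x : E} {m : Fin 2 → ℤ} (h : x ∈ cellZ m) : m = fun i => ⌊x i⌋ := by
  funext i
  exact (Int.floor_eq_iff.2 ⟨(h i).1, (h i).2⟩).symm

lemma measurableSet_cellZ (m : Fin 2 → ℤ) : MeasurableSet (cellZ m) := by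
  have : cellZ m = ⋂ i : Fin 2, {x : E | (m i : ℝ) ≤ x i ∧ x i < m i + 1} := by
    ext x; simp [cellZ]
  rw [this]
  refine MeasurableSet.iInter fun i => ?_
  have hc : Measurable fun x : E => x i := by fun_prop
  exact (measurableSet_le measurable_const hc).inter (measurableSet_lt hc measurable_const)

lemma iUnion_cellZ : (⋃ m, cellZ m) = Set.univ := by
  ext x
  simp only [Set.mem_iUnion, Set.mem_univ, iff_true]
  exact ⟨_, mem_cellZ_floor x⟩

lemma cellZ_disj {m n : Fin 2 → ℤ} (h : m ≠ n) : Disjoint (cellZ m) (cellZ n) := by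
  rw [Set.disjoint_left]
  intro x hx hx'
  exact h ((cellZ_unique hx).trans (cellZ_unique hx').symm)

lemma volume_cellZ_lt : volume (cellZ 0) < ⊤ := by
  refine lt_of_le_of_lt (measure_mono (t := Metric.closedBall (0 : E) 2) ?_)
    measure_closedBall_lt_top
  intro x hx
  rw [Metric.mem_closedBall, dist_zero_right, EuclideanSpace.norm_eq]
  have h : ∀ i : Fin 2, ‖x i‖ ^ 2 ≤ 1 := by
    intro i
    have h1 := (hx i).1
    have h2 := (hx i).2
    simp only [Pi.zero_apply, Int.cast_zero, zero_add] at h1 h2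
    rw [Real.norm_eq_abs, sq_abs]
    nlinarith
  have h2 : ∑ i : Fin 2, ‖x i‖ ^ 2 ≤ 2 := by
    rw [Fin.sum_univ_two]
    linarith [h 0, h 1]
  calc Real.sqrt (∑ i : Fin 2, ‖x i‖ ^ 2)
      ≤ Real.sqrt (2 ^ 2) := Real.sqrt_le_sqrt (by linarith)
    _ = 2 := Real.sqrt_sq (by norm_num)

/-- a set with pairwise disjoint integer translates has at most the measure of the cell -/
lemma volume_le_cell {S : Set E} (hS : MeasurableSet S)
    (hd : ∀ x ∈ S, ∀ y ∈ S, ∀ m, x = y + zv m → m = 0) : volume S ≤ volume (cellZ 0) := by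
  have h1 : S = ⋃ m, (S ∩ cellZ m) := by
    rw [← Set.inter_iUnion, iUnion_cellZ, Set.inter_univ]
  have h2 : volume S = ∑' m : Fin 2 → ℤ, volume (S ∩ cellZ m) := by
    conv_lhs => rw [h1]
    refine measure_iUnion ?_ fun m => hS.inter (measurableSet_cellZ m)
    intro m n hmn
    exact (cellZ_disj hmn).mono Set.inter_subset_right Set.inter_subset_right
  -- translates
  have h3 : ∀ m : Fin 2 → ℤ, volume (S ∩ cellZ m) =
      volume ((fun x => x + zv m) ⁻¹' (S ∩ cellZ m)) := by
    intro m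
    rw [measure_preimage_add_right]
  have hmeas : ∀ m : Fin 2 → ℤ, MeasurableSet ((fun x : E => x + zv m) ⁻¹' (S ∩ cellZ m)) := by
    intro m
    exact (hS.inter (measurableSet_cellZ m)).preimage (measurable_add_const _)
  have h4 : ∑' m : Fin 2 → ℤ, volume ((fun x : E => x + zv m) ⁻¹' (S ∩ cellZ m)) =
      volume (⋃ m : Fin 2 → ℤ, (fun x : E => x + zv m) ⁻¹' (S ∩ cellZ m)) := by
    rw [measure_iUnion _ hmeas]
    intro m n hmn
    rw [Function.onFun, Set.disjoint_left]
    intro x hx hx'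
    have e : x + zv m = (x + zv n) + zv (m - n) := by
      rw [sub_eq_add_neg, zv_add, zv_neg]; abel
    have := hd _ hx.1 _ hx'.1 _ e
    exact hmn (sub_eq_zero.1 this)
  rw [h2, tsum_congr h3, h4]
  refine measure_mono ?_
  intro x hx
  simp only [Set.mem_iUnion] at hx
  obtain ⟨m, -, hm⟩ := hx
  intro i
  have h5 := (hm i).1
  have h6 := (hm i).2
  have e : (x + zv m) i = x i + m i := by simp [zv_apply]
  rw [e] at h5 h6
  simp only [Pi.zero_apply, Int.cast_zero, zero_add]
  constructor <;> linarith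

lemma inv_iter (g : TorusDiffeo) (n : ℕ) (x : E) : g.inv^[n] (g.map^[n] x) = x :=
  (Function.LeftInverse.iterate g.left_inv n) x

lemma map_iter (g : TorusDiffeo) (n : ℕ) (x : E) : g.map^[n] (g.inv^[n] x) = x :=
  (Function.LeftInverse.iterate g.right_inv n) x

lemma inv_iter_add (g : TorusDiffeo) (n : ℕ) (m : Fin 2 → ℤ) :
    ∃ m', ∀ x, g.inv^[n] (x + zv m) = g.inv^[n] x + zv m' := by
  induction n generalizing m with
  | zero => exact ⟨m, fun x => rfl⟩
  | succ n ih =>
    obtain ⟨m1, h1⟩ := g.inv_add m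
    obtain ⟨m2, h2⟩ := ih m1
    refine ⟨m2, fun x => ?_⟩
    rw [Function.iterate_succ_apply, Function.iterate_succ_apply, h1, h2]

theorem vol45 : StVol := by
  intro g D hD hpos
  -- a cell
  have h1 : ∃ m, 0 < volume (D ∩ cellZ m) := by
    by_contra hcon
    push Not at hcon
    have h2 : D = ⋃ m, (D ∩ cellZ m) := by
      rw [← Set.inter_iUnion, iUnion_cellZ, Set.inter_univ]
    have h3 : volume D = 0 := by
      rw [h2]
      exact measure_iUnion_null fun m => le_antisymm (hcon m) bot_le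
    exact hpos.ne' h3
  obtain ⟨m, hm⟩ := h1
  refine ⟨D ∩ cellZ m, Set.inter_subset_left, hD.inter (measurableSet_cellZ m), hm,
    (volume (cellZ 0)).toReal, ?_⟩
  intro D'' hD'' hmeas n
  rw [ENNReal.ofReal_toReal volume_cellZ_lt.ne]
  have himg : g.map^[n] '' D'' = g.inv^[n] ⁻¹' D'' := by
    ext y
    constructor
    · rintro ⟨x, hx, rfl⟩
      simp only [Set.mem_preimage, inv_iter]
      exact hx
    · intro hy
      exact ⟨_, hy, map_iter g n y⟩
  rw [himg]
  have hcont : Continuous (g.inv^[n]) := (g.contDiff_inv.continuous).iterate n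
  refine volume_le_cell (hmeas.preimage hcont.measurable) ?_
  intro x hx y hy m' he
  obtain ⟨m2, h2⟩ := inv_iter_add g n m'
  have h3 : g.inv^[n] x = g.inv^[n] y + zv m2 := by rw [he, h2]
  have hx' := (hD'' hx).2
  have hy' := (hD'' hy).2
  have hm2 : m2 = 0 := by
    funext i
    have a1 := (hx' i).1
    have a2 := (hx' i).2
    have b1 := (hy' i).1
    have b2 := (hy' i).2
    have e : (g.inv^[n] x) i = (g.inv^[n] y) i + m2 i := by rw [h3]; simp [zv_apply]
    have c1 : (m2 i : ℝ) < 1 := by linarith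
    have c2 : (-1 : ℝ) < m2 i := by linarith
    have c1' : m2 i < 1 := by exact_mod_cast c1
    have c2' : -1 < m2 i := by exact_mod_cast c2
    simp only [Pi.zero_apply]
    omega
  have h4 : g.inv^[n] x = g.inv^[n] y := by rw [h3, hm2, zv_zero, add_zero]
  have h5 : x = y := by
    rw [← map_iter g n x, ← map_iter g n y, h4]
  have h6 : zv m' = 0 := by
    have : y + zv m' = y := by rw [← he, h5]
    simpa using this
  funext i
  have : (zv m') i = (0 : E) i := by rw [h6]
  rw [zv_apply] at this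
  simpa using this

end Pool.Agent.Lib.Plu
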