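import Pool.Agent.Lib.MP_c44407_an.Var10
import Pool.Agent.Lib.MP_c44407_an.ConeP40
import Pool.Agent.Lib.MP_c44407_an.CC2_10
import Pool.Agent.Lib.MP_c44407_an.CC5_4
import Pool.Agent.Lib.MP_c44407_an.CCF45

/-! Expanding cone fields over a trapping region: no strong pluripotency at any point. -/

open MeasureTheory Filter

namespace Pool.Agent.Lib.Plu

namespace Var

/-- VS: no strong pluripotency in a trapping region with an expanding cone field -/
def StVS : Prop := ∀ (f : TorusDiffeo) (U : Set E) (a b : E → E →L[ℝ] ℝ) (L : Set E), IsOpen U →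
  Trapping f U → ExpandingField f U a b → (∃ x ∈ L, x ∈ U) → ¬ StronglyPluripotent f L

namespace VS40

open CF45

/-- The end of the argument (after `ST45.endgame`). -/
lemma endgame (w : ℕ → ℝ → ℕ) {I T : Set ℝ} (hTsub : T ⊆ I)
    (hTmeas : MeasurableSet T) (hTfin : volume T < ⊤) (hy : 0 < volume T) {q κ K : ℝ}
    (hq0 : 0 < q) (hq1 : q < 1) (hκ0 : 0 < κ) (hκ1 : κ < 1)
    (hint : ∀ n, ∫⁻ t in I, ENNReal.ofReal (q ^ w n t) ≤ ENNReal.ofReal (K * κ ^ n))
    (hfreq : ∀ η > 0, ∃ N : ℕ, ∀ n ≥ N, ∀ t ∈ T, (w n t : ℝ) ≤ η * n) : False := by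
  have hlq : Real.log q < 0 := Real.log_neg hq0 hq1
  have hlκ : Real.log κ < 0 := Real.log_neg hκ0 hκ1
  set η : ℝ := Real.log κ / (2 * Real.log q) with hη
  have hηpos : 0 < η := div_pos_of_neg_of_neg hlκ (by linarith)
  have hηq : η * Real.log q = Real.log κ / 2 := by
    rw [hη]
    have : Real.log q ≠ 0 := hlq.ne
    field_simp
  obtain ⟨N, hN⟩ := hfreq η hηpos
  set s : ℝ := Real.exp (Real.log κ / 2) with hs
  have hlow : ∀ n, N ≤ n → ENNReal.ofReal (s ^ n) * volume T ≤
      ENNReal.ofReal (K * κ ^ n) := by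
    intro n hn
    refine le_trans ?_ (hint n)
    calc ENNReal.ofReal (s ^ n) * volume T
        = ∫⁻ _ in T, ENNReal.ofReal (s ^ n) := by
          rw [setLIntegral_const]
      _ ≤ ∫⁻ t in T, ENNReal.ofReal (q ^ w n t) := by
          refine setLIntegral_mono' hTmeas fun t ht => ENNReal.ofReal_le_ofReal ?_
          have h1 := hN n hn t ht
          have h3 : q ^ w n t = Real.exp ((w n t : ℝ) * Real.log q) := by
            rw [← Real.exp_log (pow_pos hq0 _), Real.log_pow]
          rw [h3, hs, ← Real.exp_nat_mul]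
          refine Real.exp_le_exp.2 ?_
          have h4 : η * n * Real.log q ≤ (w n t : ℝ) * Real.log q :=
            mul_le_mul_of_nonpos_right h1 hlq.le
          have h5 : η * n * Real.log q = n * (Real.log κ / 2) := by
            rw [← hηq]; ring
          linarith
      _ ≤ ∫⁻ t in I, ENNReal.ofReal (q ^ w n t) := lintegral_mono_set hTsub
  have hs0 : 0 < s := Real.exp_pos _
  have hs1 : s < 1 := by rw [hs, Real.exp_lt_one_iff]; linarith
  have hss : s * s = κ := by
    rw [hs, ← Real.exp_add]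
    have : Real.log κ / 2 + Real.log κ / 2 = Real.log κ := by ring
    rw [this, Real.exp_log hκ0]
  have hTpos : 0 < (volume T).toReal := ENNReal.toReal_pos hy.ne' hTfin.ne
  have hineq : ∀ n, N ≤ n → (volume T).toReal ≤ |K| * s ^ n := by
    intro n hn
    have h1 := hlow n hn
    have h2 : ENNReal.ofReal (s ^ n) * volume T ≤ ENNReal.ofReal (|K| * κ ^ n) :=
      h1.trans (ENNReal.ofReal_le_ofReal
        (mul_le_mul_of_nonneg_right (le_abs_self K) (pow_nonneg hκ0.le n)))
    have h3 : s ^ n * (volume T).toReal ≤ |K| * κ ^ n := by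
      have h4 := ENNReal.toReal_mono ENNReal.ofReal_ne_top h2
      rwa [ENNReal.toReal_mul, ENNReal.toReal_ofReal (pow_nonneg hs0.le n),
        ENNReal.toReal_ofReal (mul_nonneg (abs_nonneg K) (pow_nonneg hκ0.le n))] at h4
    have h5 : κ ^ n = s ^ n * s ^ n := by rw [← mul_pow, hss]
    rw [h5] at h3
    have h6 : 0 < s ^ n := pow_pos hs0 n
    have h7 : s ^ n * (volume T).toReal ≤ s ^ n * (|K| * s ^ n) := by linarith
    exact le_of_mul_le_mul_left h7 h6
  have hlim : Tendsto (fun n : ℕ => |K| * s ^ n) atTop (nhds (|K| * 0)) :=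
    (tendsto_pow_atTop_nhds_zero_of_lt_one hs0.le hs1).const_mul _
  rw [mul_zero] at hlim
  obtain ⟨n, hn, hn2⟩ := ((hlim.eventually (gt_mem_nhds hTpos)).and
    (eventually_ge_atTop N)).exists
  exact absurd (hineq n hn2) (not_le.2 hn)

lemma near_trans' {α β : ℝ} {x y z : E} (h : Near α x y) (h' : Near β y z) :
    Near (α + β) x z := by
  obtain ⟨m, hm⟩ := h
  obtain ⟨m', hm'⟩ := h'
  refine ⟨m + m', ?_⟩
  rw [zv_add]
  have e : x - z - (zv m + zv m') = (x - y - zv m) + (y - z - zv m') := by abel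
  rw [e]
  exact (norm_add_le _ _).trans (add_le_add hm hm')

/-- the image of a set of positive area under an iterate -/
lemma image_pos (g : TorusDiffeo) (j : ℕ) {D : Set E} (hD : MeasurableSet D)
    (h0 : 0 < volume D) :
    MeasurableSet (g.map^[j] '' D) ∧ 0 < volume (g.map^[j] '' D) := by
  have hl : Function.LeftInverse (g.inv^[j]) (g.map^[j]) :=
    Function.LeftInverse.iterate g.left_inv j
  have hr : Function.RightInverse (g.inv^[j]) (g.map^[j]) :=
    Function.LeftInverse.iterate g.right_inv j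
  refine ⟨?_, ?_⟩
  · rw [Set.image_eq_preimage_of_inverse hl hr]
    exact (g.contDiff_inv.continuous.iterate j).measurable hD
  · by_contra hno
    have hz : volume (g.map^[j] '' D) = 0 := le_antisymm (not_lt.1 hno) bot_le
    have hdiff : Differentiable ℝ (g.inv^[j]) :=
      (g.contDiff_inv.differentiable (by norm_num)).iterate j
    have h1 := addHaar_image_eq_zero_of_differentiableOn_of_addHaar_eq_zero volume
      (hdiff.differentiableOn (s := g.map^[j] '' D)) hz
    rw [← Set.image_comp, hl.comp_eq_id, Set.image_id] at h1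
    exact h0.ne' h1

end VS40

open CF45 VS40 in
/-- Row VS. -/
theorem vs40 (hV1 : StV1) (hV2 : StV2) (hV4 : StV4) : StVS := by
  intro f U a b L hU hT hE hx hplu
  obtain ⟨x, hxL, hxU⟩ := hx
  obtain ⟨ε0, hε0, ρ₀, hρ₀, l, hl, M, hM, hg⟩ := hV1 f U a b hU hT hE
  obtain ⟨σ, hσ, hσT⟩ := hT
  obtain ⟨C, hC⟩ := hE.2.2.1
  obtain ⟨q, hq0, hq1, κ, hκ0, hκ1, hV⟩ := hV2 U a b (max C 1) l M ρ₀
    (fun x hx => ((hC x hx).1).trans (le_max_left _ _))
    (lt_of_lt_of_le one_pos (le_max_right _ _)) hl hM hρ₀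
  set ρ : ℝ := min ρ₀ (1 / 4) with hρd
  have hρ : 0 < ρ := lt_min hρ₀ (by norm_num)
  have hρ4 : ρ ≤ 1 / 4 := min_le_right _ _
  set r : ℝ := min (1 / 8) (ρ / (2 * M)) with hrd
  have hM0 : 0 < M := by linarith
  have hr : 0 < r := lt_min (by norm_num) (by positivity)
  have hr8 : r ≤ 1 / 8 := min_le_left _ _
  have hrM : M * (2 * r) ≤ ρ := by
    have h1 : r ≤ ρ / (2 * M) := min_le_right _ _
    rw [le_div_iff₀ (by positivity)] at h1
    linarith
  obtain ⟨g, hclose, x', hfol, D, hD, hDpos, δ, hδ, hlim⟩ := hplu x hxL (min ε0 (σ / 2))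
    (lt_min hε0 (by linarith))
  have hcl : C1Close ε0 f g := fun x =>
    ⟨near_mono (min_le_left _ _) (hclose x).1, (hclose x).2.trans (min_le_left _ _)⟩
  have hLC := hg g hcl
  have hfU : ∀ n : ℕ, f.map^[n] x ∈ U := by
    intro n
    induction n with
    | zero => exact hxU
    | succ n ih =>
      rw [Function.iterate_succ_apply']
      exact hσT _ ih _ ⟨0, by rw [zv_zero]; simpa using hσ.le⟩
  obtain ⟨y0, hy0⟩ : D.Nonempty := nonempty_of_measure_ne_zero hDpos.ne'
  have hδ0 : ∀ i, 0 ≤ δ i := by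
    intro i
    obtain ⟨m, hm⟩ := hδ i y0 hy0
    exact (norm_nonneg _).trans hm
  -- a time at which `D` is close to the orbit
  obtain ⟨j, hj⟩ : ∃ j, δ (j + 1) ≤ σ / 2 := by
    by_contra hno
    push Not at hno
    obtain ⟨N, hN⟩ := eventually_atTop.1
      (hlim.eventually (gt_mem_nhds (show (0 : ℝ) < σ / 4 by linarith)))
    have h1 := hN (N + 1 + 1) (by omega)
    rw [div_lt_iff₀ (by positivity), Finset.sum_range_succ'] at h1
    have h2 : ∑ i ∈ Finset.range (N + 1), σ / 2 ≤ ∑ i ∈ Finset.range (N + 1), δ (i + 1) :=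
      Finset.sum_le_sum fun i _ => (hno i).le
    rw [Finset.sum_const, Finset.card_range, nsmul_eq_mul] at h2
    have h3 := hδ0 0
    push_cast at h1 h2
    have h4 : (0 : ℝ) ≤ N := Nat.cast_nonneg N
    nlinarith
  set D' : Set E := g.map^[j + 1] '' D with hD'
  obtain ⟨hD'm, hD'pos⟩ := image_pos g (j + 1) hD hDpos
  have hD'U : D' ⊆ U := by
    rintro _ ⟨y, hy, rfl⟩
    have h1 := hδ (j + 1) y hy
    have h2 := (hfol (j + 1)).1
    have h3 := near_trans' (near_mono hj h1) (near_mono (min_le_right _ _) h2)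
    rw [Function.iterate_succ_apply' f.map] at h3
    exact hσT _ (hfU j) _ (by simpa using h3)
  set x'' : E := g.map^[j + 1] x' with hx''
  set T : ℕ → Set E := fun i => {w | Near r w (g.map^[i] x'')} with hTd
  have hTm : ∀ i, MeasurableSet (T i) := fun i => near_meas4 _ r
  have hTsep : ∀ i, ∀ z ∈ T i, ∀ w ∈ T i, ‖z - w‖ ≤ ρ → M * ‖z - w‖ ≤ ρ := by
    intro i z hz w hw hzw
    have h1 := CC2.same_translate (r := r) (d := ρ) (by linarith) hz hw hzw
    exact (mul_le_mul_of_nonneg_left h1 hM0.le).trans hrM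
  have hfreq : ∀ η > 0, ∃ N : ℕ, ∀ n ≥ N, ∀ z ∈ D', (outsT g T n z : ℝ) ≤ η * n := by
    intro η hη
    have hηr : 0 < η * r / 2 := by positivity
    obtain ⟨N, hN⟩ := eventually_atTop.1 (hlim.eventually (gt_mem_nhds hηr))
    refine ⟨max N (j + 1), fun n hn z hz => ?_⟩
    obtain ⟨y, hy, rfl⟩ := hz
    have hnN : N ≤ n := le_of_max_le_left hn
    have hnj : j + 1 ≤ n := le_of_max_le_right hn
    have h1 := hN (j + 1 + n) (by omega)
    have hpos : (0 : ℝ) < ((j + 1 + n : ℕ) : ℝ) := by positivity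
    rw [div_lt_iff₀ hpos, Finset.sum_range_add] at h1
    have h0 : 0 ≤ ∑ i ∈ Finset.range (j + 1), δ i := Finset.sum_nonneg fun i _ => hδ0 i
    have h2 : (outsT g T n (g.map^[j + 1] y) : ℝ) * r ≤
        ∑ i ∈ Finset.range n, δ (j + 1 + i) := by
      unfold outsT
      push_cast
      rw [Finset.sum_mul]
      refine Finset.sum_le_sum fun i _ => ?_
      have h3 := hδ (j + 1 + i) y hy
      have e1 : g.map^[i] (g.map^[j + 1] y) = g.map^[j + 1 + i] y := by
        rw [← Function.iterate_add_apply, add_comm]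
      have e2 : g.map^[i] x'' = g.map^[j + 1 + i] x' := by
        rw [hx'', ← Function.iterate_add_apply, add_comm]
      by_cases hnr : g.map^[i] (g.map^[j + 1] y) ∈ T i
      · rw [Set.indicator_of_notMem (by exact fun h => h hnr)]
        simpa using hδ0 (j + 1 + i)
      · rw [Set.indicator_of_mem (show g.map^[i] (g.map^[j + 1] y) ∈ (T i)ᶜ from hnr)]
        have : r < δ (j + 1 + i) := by
          by_contra hle
          refine hnr ?_
          show Near r _ (g.map^[i] x'')
          rw [e1, e2]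
          exact near_mono (not_lt.1 hle) h3
        simpa using this.le
    have h4 : ((j + 1 + n : ℕ) : ℝ) ≤ 2 * n := by
      have : j + 1 + n ≤ 2 * n := by omega
      exact_mod_cast this
    have h5 : η * r / 2 * ((j + 1 + n : ℕ) : ℝ) ≤ η * r / 2 * (2 * n) :=
      mul_le_mul_of_nonneg_left h4 hηr.le
    have h6 : (outsT g T n (g.map^[j + 1] y) : ℝ) * r ≤ (η * n) * r := by linarith
    exact le_of_mul_le_mul_right h6 hr
  obtain ⟨y, v, Λ, hΛ, I, hI, hIU, hIpair, hIpos⟩ := hV4 f U a b hU hE ρ hρ D' hD'U hD'm hD'pos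
  have hint := hV ρ hρ (min_le_left _ _) g hLC T hTm hTsep (fun t => y + t • v) (by fun_prop)
    Λ hΛ I hI hIU hIpair
  have hcont : Continuous fun t : ℝ => y + t • v := by fun_prop
  have hTmeas : MeasurableSet {t : ℝ | t ∈ I ∧ y + t • v ∈ D'} :=
    hI.inter (hcont.measurable hD'm)
  have hTfin : volume {t : ℝ | t ∈ I ∧ y + t • v ∈ D'} < ⊤ := by
    refine lt_of_le_of_lt (measure_mono (fun t ht => ht.1 :
      {t : ℝ | t ∈ I ∧ y + t • v ∈ D'} ⊆ I)) ?_
    have h0 := hint 0
    have e : ∀ t : ℝ, ENNReal.ofReal (q ^ outsT g T 0 (y + t • v)) = 1 := by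
      intro t; simp [outsT]
    simp only [e] at h0
    rw [setLIntegral_const, one_mul] at h0
    exact lt_of_le_of_lt h0 ENNReal.ofReal_lt_top
  exact endgame (fun n t => outsT g T n (y + t • v))
    (fun t ht => ht.1 : {t : ℝ | t ∈ I ∧ y + t • v ∈ D'} ⊆ I) hTmeas hTfin hIpos hq0 hq1 hκ0 hκ1
    hint (fun η hη => by
      obtain ⟨N, hN⟩ := hfreq η hη
      exact ⟨N, fun n hn t ht => hN n hn _ ht.2⟩)

end Var

end Pool.Agent.Lib.Plu
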