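import Pool.Agent.Lib.MP_c44407_an.VF45
import Pool.Agent.Lib.MP_c44407_an.ConeP40

open MeasureTheory Filter

namespace Pool.Agent.Lib.Plu

namespace Var

namespace VS45

lemma near_trans {α β : ℝ} {x y z : E} (h : Near α x y) (h' : Near β y z) :
    Near (α + β) x z := by
  obtain ⟨m, hm⟩ := h
  obtain ⟨m', hm'⟩ := h'
  refine ⟨m + m', ?_⟩
  have e : x - z - zv (m + m') = (x - y - zv m) + (y - z - zv m') := by
    rw [CF45.zv_add]; abel
  rw [e]
  exact (norm_add_le _ _).trans (add_le_add hm hm')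

lemma sep_one (p : E) : ∀ p1 ∈ ({p} : Finset E), ∀ p' ∈ ({p} : Finset E), ∀ m,
    ‖p1 - p' - zv m‖ < 1 → p1 = p' + zv m := by
  intro p1 h1 p' h' m hm
  rw [Finset.mem_singleton] at h1 h'
  rw [h1, h', sub_self, zero_sub, norm_neg] at hm
  rw [CC2.zv_norm m hm, CF45.zv_zero, add_zero, h1, h']

end VS45

open CF45 VF45 VS45 in
/-- Row VS: no strong pluripotency at any point of a trapping region with an expanding cone
field. -/
theorem vs45 (v1 : StV1) (v2 : StV2) (v4 : StV4) (f : TorusDiffeo) (U : Set E)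
    (a b : E → E →L[ℝ] ℝ) (L : Set E) (hU : IsOpen U) (htr : Trapping f U)
    (hfield : ExpandingField f U a b) (hL : ∃ x ∈ L, x ∈ U) : ¬ StronglyPluripotent f L := by
  intro hplu
  obtain ⟨x, hxL, hxU⟩ := hL
  obtain ⟨σ, hσ, htr'⟩ := id htr
  obtain ⟨-, -, ⟨C, hC⟩, -⟩ := id hfield
  obtain ⟨ε1, hε1, ρ0, hρ0, l, hl, M, hM, hloc⟩ := v1 f U a b hU htr hfield
  obtain ⟨q, hq0, hq1, κ, hκ0, hκ1, hint⟩ := v2 U a b (max C 1) l M ρ0
    (fun x hx => ((hC x hx).1).trans (le_max_left _ _)) (lt_max_of_lt_right one_pos) hl hM hρ0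
  have horb : ∀ n, f.map^[n] x ∈ U := by
    intro n
    induction n with
    | zero => exact hxU
    | succ n ih => rw [Function.iterate_succ_apply']; exact htr' _ ih _ (near_self hσ.le _)
  set ρ : ℝ := min ρ0 (1 / 4) with hρdef
  have hρ : 0 < ρ := lt_min hρ0 (by norm_num)
  have hM0 : 0 < M := by linarith
  set r : ℝ := min (ρ / (2 * M)) (1 / 8) with hrdef
  have hr : 0 < r := lt_min (by positivity) (by norm_num)
  have hr1 : r ≤ ρ / (2 * M) := min_le_left _ _
  have hr2 : r ≤ 1 / 8 := min_le_right _ _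
  have hρs : ρ ≤ 1 / 4 := min_le_right _ _
  have hMr : M * (2 * r) ≤ ρ := by
    have h1 : r * (2 * M) ≤ ρ := by rwa [le_div_iff₀ (by positivity)] at hr1
    linarith
  obtain ⟨g, hclose, x', hfol, D, hD, hDpos, δ, hδ, hδlim⟩ := hplu x hxL (min ε1 (σ / 2))
    (lt_min hε1 (by linarith))
  have hcl : C1Close ε1 f g := fun x =>
    ⟨near_mono (min_le_left _ _) (hclose x).1, (hclose x).2.trans (min_le_left _ _)⟩
  have hgl := hloc g hcl
  -- the bounds are nonnegative
  have hDne : D.Nonempty := by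
    by_contra h
    rw [Set.not_nonempty_iff_eq_empty] at h
    rw [h, measure_empty] at hDpos
    exact lt_irrefl _ hDpos
  obtain ⟨y1, hy1⟩ := hDne
  have hδ0 : ∀ i, 0 ≤ δ i := by
    intro i
    obtain ⟨m, hm⟩ := hδ i y1 hy1
    exact (norm_nonneg _).trans hm
  -- `D` enters `U`
  have hentry : ∃ j, 1 ≤ j ∧ δ j ≤ σ / 2 := by
    by_contra hcon
    push Not at hcon
    have h1 : ∀ᶠ n : ℕ in atTop, (∑ i ∈ Finset.range n, δ i) / n < σ / 4 :=
      hδlim.eventually (gt_mem_nhds (by linarith))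
    obtain ⟨n, hn, hn2⟩ := (h1.and (eventually_ge_atTop 2)).exists
    obtain ⟨n', rfl⟩ : ∃ n', n = n' + 1 := ⟨n - 1, by omega⟩
    have h3 : (n' : ℝ) * (σ / 2) ≤ ∑ i ∈ Finset.range (n' + 1), δ i := by
      rw [Finset.sum_range_succ']
      have h4 : ∑ i ∈ Finset.range n', (σ / 2) ≤ ∑ i ∈ Finset.range n', δ (i + 1) :=
        Finset.sum_le_sum fun i _ => (hcon (i + 1) (by omega)).le
      rw [Finset.sum_const, Finset.card_range, nsmul_eq_mul] at h4
      linarith [hδ0 0]
    rw [div_lt_iff₀ (by positivity)] at hn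
    push_cast at hn
    have h5 : (1 : ℝ) ≤ n' := by exact_mod_cast (by omega : 1 ≤ n')
    nlinarith
  obtain ⟨j, hj1, hj⟩ := hentry
  have hDU : ∀ y ∈ D, g.map^[j] y ∈ U := by
    intro y hy
    have h1 := near_trans (hδ j y hy) (hfol j).1
    have h2 : Near σ (g.map^[j] y) (f.map^[j] x) := by
      refine near_mono ?_ h1
      have := min_le_right ε1 (σ / 2)
      linarith
    obtain ⟨j', rfl⟩ : ∃ j', j = j' + 1 := ⟨j - 1, by omega⟩
    rw [Function.iterate_succ_apply' f.map] at h2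
    exact htr' _ (horb j') _ h2
  set D' : Set E := g.map^[j] '' D with hD'
  have himg : D' = g.inv^[j] ⁻¹' D := by
    ext z
    constructor
    · rintro ⟨w, hw, rfl⟩
      show g.inv^[j] (g.map^[j] w) ∈ D
      rwa [inv_map_iter]
    · intro hz
      exact ⟨g.inv^[j] z, hz, map_inv_iter g j z⟩
  have hD'meas : MeasurableSet D' := by
    rw [himg]
    exact (diff_inv_iter g j).continuous.measurable hD
  have hD'pos : 0 < volume D' := by
    rw [pos_iff_ne_zero]
    intro h0
    have h1 := addHaar_image_eq_zero_of_differentiableOn_of_addHaar_eq_zero volume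
      (f := g.inv^[j]) (s := D') (diff_inv_iter g j).differentiableOn h0
    have h2 : g.inv^[j] '' D' = D := by
      rw [hD', Set.image_image]
      simp only [inv_map_iter, Set.image_id']
    rw [h2] at h1
    exact hDpos.ne' h1
  have hD'U : D' ⊆ U := by
    rintro z ⟨w, hw, rfl⟩
    exact hDU w hw
  -- the targets
  set T : ℕ → Set E := fun i => {w | Near r w (g.map^[i] (g.map^[j] x'))} with hTdef
  have hTmeas : ∀ i, MeasurableSet (T i) := fun i => CC2.near_meas r _
  have hT : ∀ i, ∀ z ∈ T i, ∀ w ∈ T i, ‖z - w‖ ≤ ρ → M * ‖z - w‖ ≤ ρ := by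
    intro i z hz w hw hzw
    have h1 : ‖z - w‖ ≤ 2 * r := P2.same_translate (σ := 1) (r := r) (d := ρ) (by linarith)
      (sep_one (g.map^[i] (g.map^[j] x')))
      ⟨_, Finset.mem_singleton_self _, hz⟩ ⟨_, Finset.mem_singleton_self _, hw⟩ hzw
    exact (mul_le_mul_of_nonneg_left h1 hM0.le).trans hMr
  have hout : ∀ y ∈ D', ∀ n, (outsT g T n y : ℝ) ≤ (∑ i ∈ Finset.range n, δ (i + j)) / r := by
    rintro z ⟨y, hy, rfl⟩ n
    rw [outsT, Nat.cast_sum, Finset.sum_div]
    refine Finset.sum_le_sum fun i _ => ?_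
    by_cases hi : g.map^[i] (g.map^[j] y) ∈ (T i)ᶜ
    · rw [Set.indicator_of_mem hi, Nat.cast_one, le_div_iff₀ hr, one_mul]
      by_contra hcon
      push Not at hcon
      have h1 := hδ (i + j) y hy
      rw [Function.iterate_add_apply, Function.iterate_add_apply] at h1
      exact hi (near_mono hcon.le h1)
    · rw [Set.indicator_of_notMem hi, Nat.cast_zero]
      exact div_nonneg (hδ0 _) hr.le
  have hlq : Real.log q < 0 := Real.log_neg hq0 hq1
  have hlκ : Real.log κ < 0 := Real.log_neg hκ0 hκ1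
  set η : ℝ := Real.log κ / (2 * Real.log q) with hη
  have hηpos : 0 < η := div_pos_of_neg_of_neg hlκ (by linarith)
  have h1 : ∀ᶠ n : ℕ in atTop, (∑ i ∈ Finset.range n, δ i) / n < η * r / 2 :=
    hδlim.eventually (gt_mem_nhds (by positivity))
  obtain ⟨N, hN⟩ := eventually_atTop.1 h1
  have hfreq : ∀ n ≥ max (max N j) 1, ∀ y ∈ D', (outsT g T n y : ℝ) ≤ η * n := by
    intro n hn y hy
    have hnN : N ≤ n := ((le_max_left _ _).trans (le_max_left _ _)).trans hn
    have hnj : j ≤ n := ((le_max_right _ _).trans (le_max_left _ _)).trans hn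
    have hn1 : 1 ≤ n := (le_max_right _ _).trans hn
    have hn1' : (1 : ℝ) ≤ n := by exact_mod_cast hn1
    have hnj' : (j : ℝ) ≤ n := by exact_mod_cast hnj
    have h2 := hN (j + n) (by omega)
    have hj0 : (0 : ℝ) ≤ j := Nat.cast_nonneg j
    rw [div_lt_iff₀ (by push_cast; linarith)] at h2
    rw [Finset.sum_range_add] at h2
    have h3 : 0 ≤ ∑ i ∈ Finset.range j, δ i := Finset.sum_nonneg fun i _ => hδ0 i
    have h4 : ∑ i ∈ Finset.range n, δ (i + j) = ∑ i ∈ Finset.range n, δ (j + i) :=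
      Finset.sum_congr rfl fun i _ => by rw [add_comm]
    refine (hout y hy n).trans ?_
    rw [div_le_iff₀ hr, h4]
    push_cast at h2
    have h5 : 0 < η * r := by positivity
    have h6 : η * r / 2 * ((j : ℝ) + n) ≤ η * r * n := by nlinarith
    nlinarith
  obtain ⟨y, v, Λ, hΛ, I, hI, hIU, hpair, hvol⟩ := v4 f U a b hU hfield ρ hρ D' hD'U hD'meas
    hD'pos
  have hγ : Continuous fun t : ℝ => y + t • v := by fun_prop
  refine endgame (fun n t => outsT g T n (y + t • v)) (I := I)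
    (T := {t : ℝ | t ∈ I ∧ y + t • v ∈ D'}) (fun t ht => ht.1)
    (hI.inter (hγ.measurable hD'meas)) hvol hq0 hq1 hκ0 hκ1
    (K := 2 * (max C 1 * ρ / Λ)) (fun n => ?_) (N := max (max N j) 1) ?_
  · exact hint ρ hρ (min_le_left _ _) g hgl T hTmeas hT
      (fun t => y + t • v) hγ Λ hΛ I hI hIU hpair n
  · intro n hn t ht
    exact hfreq n hn _ ht.2

end Var

end Pool.Agent.Lib.Plu
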