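import Mathlib
import Pool.Agent.Lib.MP_c44407_an.Defs10
import Pool.Agent.Lib.MP_c44407_an.CC2_10
import Pool.Agent.Lib.MP_c44407_an.Var10
import Pool.Agent.Lib.MP_c44407_an.V2_10
import Pool.Agent.Lib.MP_c44407_an.Fil10

/-! Row W2: the curve lemma for orbits that stay in `U`. -/

open MeasureTheory Filter

namespace Pool.Agent.Lib.Plu

namespace Fil

open Var

theorem key2 {U : Set E} {a b : E → E →L[ℝ] ℝ} {C l M ρ₀ : ℝ} (hC : ∀ x ∈ U, ‖a x‖ ≤ C)
    (hC0 : 0 < C) (hl : 1 < l) (hM : 1 < M) {q κ : ℝ} (hq : 0 < q)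
    (hκ : (1 + q * (4 * M + 1) ^ 2) / l ≤ κ) {ρ : ℝ} (hρ : 0 < ρ) (hρ₀ : ρ ≤ ρ₀)
    {g : TorusDiffeo} (hg : LocalCone2 U a b l M ρ₀ g) (n : ℕ) :
    ∀ T : ℕ → Set E, (∀ i, MeasurableSet (T i)) →
    (∀ i, ∀ z ∈ T i, ∀ w ∈ T i, ‖z - w‖ ≤ ρ → M * ‖z - w‖ ≤ ρ) →
    ∀ γ : ℝ → E, Continuous γ → ∀ Λ > 0, ∀ A : Set ℝ, MeasurableSet A →
    (∀ t ∈ A, ∀ j : ℕ, g.map^[j] (γ t) ∈ U) → (∀ s ∈ A, ∀ t ∈ A, ‖γ t - γ s‖ ≤ ρ ∧
      |b (γ s) (γ t - γ s)| ≤ |a (γ s) (γ t - γ s)| ∧ Λ * |t - s| ≤ |a (γ s) (γ t - γ s)|) →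
    ∫⁻ t in A, ENNReal.ofReal (q ^ outsT g T n (γ t))
      ≤ ENNReal.ofReal (2 * (C * ρ / Λ) * κ ^ n) := by
  have hκ0 : 0 < κ := lt_of_lt_of_le (by positivity) hκ
  induction n with
  | zero =>
    intro T _ _ γ _ Λ hΛ A hA hU hpair
    have h1 : ∀ t, ENNReal.ofReal (q ^ outsT g T 0 (γ t)) = 1 := by
      intro t; simp [outsT]
    simp only [h1]
    rw [setLIntegral_const, one_mul]
    rcases A.eq_empty_or_nonempty with he | ⟨t0, ht0⟩
    · subst he; simp
    have hsub : A ⊆ Set.Icc (t0 - C * ρ / Λ) (t0 + C * ρ / Λ) := by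
      intro t ht
      obtain ⟨p1, p2, p3⟩ := hpair t0 ht0 t ht
      have h2 : |a (γ t0) (γ t - γ t0)| ≤ C * ρ := by
        calc |a (γ t0) (γ t - γ t0)| ≤ ‖a (γ t0)‖ * ‖γ t - γ t0‖ := (a (γ t0)).le_opNorm _
          _ ≤ C * ρ := mul_le_mul (hC _ (hU t0 ht0 0)) p1 (norm_nonneg _) hC0.le
      have h3 : |t - t0| ≤ C * ρ / Λ := by
        rw [le_div_iff₀ hΛ]; linarith
      rw [abs_le] at h3
      exact ⟨by linarith [h3.1], by linarith [h3.2]⟩
    calc volume A ≤ volume (Set.Icc (t0 - C * ρ / Λ) (t0 + C * ρ / Λ)) := measure_mono hsub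
      _ = ENNReal.ofReal (t0 + C * ρ / Λ - (t0 - C * ρ / Λ)) := Real.volume_Icc
      _ = ENNReal.ofReal (2 * (C * ρ / Λ) * κ ^ 0) := by congr 1; ring
  | succ n ih =>
    intro T hTm hT γ hγ Λ hΛ A hA hU hpair
    have hgc : Continuous (fun t => g.map (γ t)) := g.contDiff_map.continuous.comp hγ
    have hlΛ : 0 < l * Λ := by positivity
    have hU' : ∀ t ∈ A, ∀ j : ℕ, g.map^[j] (g.map (γ t)) ∈ U := fun t ht j => by
      rw [← Function.iterate_succ_apply]
      exact hU t ht (j + 1)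
    have hM1 : ∀ s ∈ A, ∀ t ∈ A, ‖g.map (γ t) - g.map (γ s)‖ ≤ M * ‖γ t - γ s‖ :=
      fun s hs t ht => (hg _ (hU t ht 0) _ (hU s hs 0) ((hpair s hs t ht).1.trans hρ₀)).1
    have hstep : ∀ s ∈ A, ∀ t ∈ A,
        |b (g.map (γ s)) (g.map (γ t) - g.map (γ s))|
          ≤ |a (g.map (γ s)) (g.map (γ t) - g.map (γ s))| ∧
        (l * Λ) * |t - s| ≤ |a (g.map (γ s)) (g.map (γ t) - g.map (γ s))| := by
      intro s hs t ht
      obtain ⟨p1, p2, p3⟩ := hpair s hs t ht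
      obtain ⟨m1, m2⟩ := (hg _ (hU t ht 0) _ (hU s hs 0) (p1.trans hρ₀)).2 p2
      refine ⟨m1, le_trans ?_ m2⟩
      rw [mul_assoc]
      exact mul_le_mul_of_nonneg_left p3 (by linarith)
    have IH := ih (fun i => T (i + 1)) (fun i => hTm _) (fun i => hT _) (fun t => g.map (γ t)) hgc
      (l * Λ) hlΛ
    set In : Set ℝ := {t | γ t ∈ T 0} with hIn
    have hInm : MeasurableSet In := hγ.measurable (hTm 0)
    rw [← lintegral_inter_add_diff (fun t => ENNReal.ofReal (q ^ outsT g T (n + 1) (γ t))) A hInm]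
    have hin : ∫⁻ t in A ∩ In, ENNReal.ofReal (q ^ outsT g T (n + 1) (γ t))
        ≤ ENNReal.ofReal (2 * (C * ρ / (l * Λ)) * κ ^ n) := by
      have e1 : ∫⁻ t in A ∩ In, ENNReal.ofReal (q ^ outsT g T (n + 1) (γ t))
          = ∫⁻ t in A ∩ In, ENNReal.ofReal (q ^ outsT g (fun i => T (i + 1)) n (g.map (γ t))) := by
        refine setLIntegral_congr_fun (hA.inter hInm) (fun t ht => ?_)
        have : outsT g T (n + 1) (γ t) = outsT g (fun i => T (i + 1)) n (g.map (γ t)) := by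
          rw [outsT_succ, Set.indicator_of_notMem, zero_add]
          exact fun hno => hno ht.2
        simp only [this]
      rw [e1]
      refine IH _ (hA.inter hInm) (fun t ht => hU' t ht.1) ?_
      intro s hs t ht
      refine ⟨?_, hstep s hs.1 t ht.1⟩
      exact (hM1 s hs.1 t ht.1).trans (hT 0 _ ht.2 _ hs.2 (hpair s hs.1 t ht.1).1)
    have hout : ∫⁻ t in A \ In, ENNReal.ofReal (q ^ outsT g T (n + 1) (γ t))
        ≤ ENNReal.ofReal q * (ENNReal.ofReal (4 * M + 1) * (ENNReal.ofReal (4 * M + 1)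
          * ENNReal.ofReal (2 * (C * ρ / (l * Λ)) * κ ^ n))) := by
      have e1 : ∫⁻ t in A \ In, ENNReal.ofReal (q ^ outsT g T (n + 1) (γ t))
          = ∫⁻ t in A \ In, ENNReal.ofReal q
            * ENNReal.ofReal (q ^ outsT g (fun i => T (i + 1)) n (g.map (γ t))) := by
        refine setLIntegral_congr_fun (hA.diff hInm) (fun t ht => ?_)
        have : outsT g T (n + 1) (γ t) = 1 + outsT g (fun i => T (i + 1)) n (g.map (γ t)) := by
          rw [outsT_succ, Set.indicator_of_mem]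
          exact ht.2
        simp only [this]
        rw [pow_add, pow_one, ENNReal.ofReal_mul hq.le]
      rw [e1, lintegral_const_mul' _ _ ENNReal.ofReal_ne_top]
      gcongr
      have hcm : ∀ i : Fin 2, Measurable (fun t => (g.map (γ t)) i) := by
        intro i
        exact ((EuclideanSpace.proj (𝕜 := ℝ) i).continuous.comp hgc).measurable
      have hcoord : ∀ i : Fin 2, ∀ s ∈ A \ In, ∀ t ∈ A \ In,
          |(g.map (γ t)) i - (g.map (γ s)) i| ≤ M * ρ := by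
        intro i s hs t ht
        have h1 := coord_le (g.map (γ t) - g.map (γ s)) i
        have h2 : (g.map (γ t) - g.map (γ s)) i = (g.map (γ t)) i - (g.map (γ s)) i := rfl
        rw [h2] at h1
        exact h1.trans ((hM1 s hs.1 t ht.1).trans
          (mul_le_mul_of_nonneg_left (hpair s hs.1 t ht.1).1 (by linarith)))
      have hR : 2 * (M * ρ / (ρ / 2)) + 1 = 4 * M + 1 := by
        field_simp; ring
      have hρ2 : 0 < ρ / 2 := by positivity
      have h3 := CC2.pieces (fun t => (g.map (γ t)) 0) (hcm 0) (A \ In)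
        (hA.diff hInm) (M * ρ) (ρ / 2) hρ2 (hcoord 0)
        (fun t => ENNReal.ofReal (q ^ outsT g (fun i => T (i + 1)) n (g.map (γ t))))
        (ENNReal.ofReal (4 * M + 1) * ENNReal.ofReal (2 * (C * ρ / (l * Λ)) * κ ^ n)) ?_
      · rwa [hR] at h3
      · intro A' hA' hA'm hA's
        have h4 := CC2.pieces (fun t => (g.map (γ t)) 1) (hcm 1) A' hA'm (M * ρ) (ρ / 2) hρ2
          (fun s hs t ht => hcoord 1 s (hA' hs) t (hA' ht))
          (fun t => ENNReal.ofReal (q ^ outsT g (fun i => T (i + 1)) n (g.map (γ t))))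
          (ENNReal.ofReal (2 * (C * ρ / (l * Λ)) * κ ^ n)) ?_
        · rwa [hR] at h4
        · intro A'' hA'' hA''m hA''s
          refine IH A'' hA''m (fun t ht => hU' t (hA' (hA'' ht)).1) ?_
          intro s hs t ht
          refine ⟨?_, hstep s (hA' (hA'' hs)).1 t (hA' (hA'' ht)).1⟩
          refine (norm_le_coord _).trans ?_
          have k0 := hA's s (hA'' hs) t (hA'' ht)
          have k1 := hA''s s hs t ht
          have e0 : (g.map (γ t) - g.map (γ s)) 0 = (g.map (γ t)) 0 - (g.map (γ s)) 0 := rfl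
          have e1 : (g.map (γ t) - g.map (γ s)) 1 = (g.map (γ t)) 1 - (g.map (γ s)) 1 := rfl
          rw [e0, e1]
          linarith
    refine (add_le_add hin hout).trans ?_
    have hX : 0 ≤ 2 * (C * ρ / (l * Λ)) * κ ^ n := by positivity
    rw [← ENNReal.ofReal_mul (by positivity), ← ENNReal.ofReal_mul (by positivity),
      ← ENNReal.ofReal_mul hq.le, ← ENNReal.ofReal_add hX (by positivity)]
    apply ENNReal.ofReal_le_ofReal
    have h4 : 2 * (C * ρ / (l * Λ)) * κ ^ n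
        + q * ((4 * M + 1) * ((4 * M + 1) * (2 * (C * ρ / (l * Λ)) * κ ^ n)))
        = 2 * (C * ρ / Λ) * κ ^ n * ((1 + q * (4 * M + 1) ^ 2) / l) := by
      field_simp
    have h5 : 2 * (C * ρ / Λ) * κ ^ (n + 1) = 2 * (C * ρ / Λ) * κ ^ n * κ := by ring
    rw [h4, h5]
    exact mul_le_mul_of_nonneg_left hκ (by positivity)

theorem w2_10 : StW2 := by
  intro U a b C l M ρ₀ hC hC0 hl hM hρ₀
  set q : ℝ := min (1 / 2) ((l - 1) / (2 * (4 * M + 1) ^ 2)) with hqd
  have hq : 0 < q := lt_min (by norm_num) (by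
    have : 0 < l - 1 := by linarith
    positivity)
  have hq1 : q < 1 := lt_of_le_of_lt (min_le_left _ _) (by norm_num)
  set κ : ℝ := (l + 1) / (2 * l) with hκd
  have hκ0 : 0 < κ := by positivity
  have hκ1 : κ < 1 := by
    rw [hκd, div_lt_one (by positivity)]; linarith
  have hκ : (1 + q * (4 * M + 1) ^ 2) / l ≤ κ := by
    have h1 : q ≤ (l - 1) / (2 * (4 * M + 1) ^ 2) := min_le_right _ _
    have h0 : (4 * M + 1) ^ 2 ≠ 0 := by positivity
    have h2 : q * (4 * M + 1) ^ 2 ≤ (l - 1) / 2 := by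
      calc q * (4 * M + 1) ^ 2 ≤ (l - 1) / (2 * (4 * M + 1) ^ 2) * (4 * M + 1) ^ 2 := by gcongr
        _ = (l - 1) / 2 := by rw [← div_div, div_mul_cancel₀ _ h0]
    rw [hκd, div_le_div_iff₀ (by positivity) (by positivity)]
    nlinarith
  refine ⟨q, hq, hq1, κ, hκ0, hκ1, ?_⟩
  intro ρ hρ hρρ g hg T hTm hT γ hγ Λ hΛ A hA hU hpair n
  exact key2 hC hC0 hl hM hq hκ hρ hρρ hg n T hTm hT γ hγ Λ hΛ A hA hU hpair

end Fil

end Pool.Agent.Lib.Plu
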