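import Pool.Agent.Lib.MP_c44407_an.VF45
import Pool.Agent.Lib.MP_c44407_an.Fil10

open MeasureTheory Filter

namespace Pool.Agent.Lib.Plu

namespace Fil

open Var

namespace WF45

/-- a trapping set is invariant under close maps -/
lemma inv_close {f g : TorusDiffeo} {A : Set E} {σ ε : ℝ}
    (hA : ∀ x ∈ A, ∀ z, Near σ z (f.map x) → z ∈ A) (hε : ε ≤ σ) (hg : C1Close ε f g)
    {x : E} (hx : x ∈ A) (n : ℕ) : g.map^[n] x ∈ A := by
  induction n with
  | zero => exact hx
  | succ n ih =>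
    rw [Function.iterate_succ_apply']
    exact hA _ ih _ (CF45.near_mono hε (hg _).1)

lemma near_image (f : TorusDiffeo) (P : Finset E) {σ : ℝ} (hσ : 0 < σ) :
    ∃ δ > 0, ∀ p ∈ P, ∀ z, Near δ z p → Near σ (f.map p) (f.map z) := by
  have h1 : ∀ p ∈ P, ∀ᶠ δ in nhdsWithin (0 : ℝ) (Set.Ioi 0), ∀ z, Near δ z p →
      Near σ (f.map p) (f.map z) := by
    intro p _
    obtain ⟨δ, hδ, h⟩ := Metric.continuousAt_iff.1
      (f.contDiff_map.continuous.continuousAt (x := p)) σ hσ
    have h2 : Set.Ioo (0 : ℝ) δ ∈ nhdsWithin (0 : ℝ) (Set.Ioi 0) := Ioo_mem_nhdsGT hδ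
    filter_upwards [h2] with τ hτ z hz
    obtain ⟨m, hm⟩ := hz
    have h3 : dist (z - zv m) p < δ := by
      rw [dist_eq_norm]
      have e : z - zv m - p = z - p - zv m := by abel
      rw [e]
      exact hm.trans_lt hτ.2
    have h4 := h h3
    obtain ⟨m', hm'⟩ := f.map_add m
    have h5 : f.map z = f.map (z - zv m) + zv m' := by
      rw [← hm', sub_add_cancel]
    refine ⟨-m', ?_⟩
    rw [h5]
    have e : f.map p - (f.map (z - zv m) + zv m') - zv (-m') = -(f.map (z - zv m) - f.map p) := by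
      have : zv (-m') = - zv m' := by
        have h6 := CF45.zv_add m' (-m')
        rw [add_neg_cancel, CF45.zv_zero] at h6
        exact (neg_eq_of_add_eq_zero_right h6.symm).symm
      rw [this]; abel
    rw [e, norm_neg, ← dist_eq_norm]
    exact h4.le
  rw [← Filter.eventually_all_finset] at h1
  obtain ⟨δ, h3, h4⟩ := (h1.and self_mem_nhdsWithin).exists
  exact ⟨δ, h4, h3⟩

end WF45

open CF45 VF45 WF45 in
/-- Row WF. -/
theorem wf45 (v1 : StW1) (v2 : StW2) (v4 : StV4) (c3 : StP3) : StWF := by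
  classical
  intro f A B W a b L hAo hBc htA htB hfo hp hplu
  set U : Set E := A \ B with hUdef
  have hU : IsOpen U := hAo.sdiff hBc
  obtain ⟨p, hpL, hpU, k, hk, m, hpm⟩ := hp
  obtain ⟨σA, hσA, htA'⟩ := id htA
  obtain ⟨σB, hσB, htB'⟩ := id htB
  have hfield : ExpandingField f U a b := hfo.2.2.2.2
  obtain ⟨-, -, ⟨C, hC⟩, -⟩ := id hfield
  obtain ⟨ε1, hε1, ρ0, hρ0, l, hl, M, hM, hloc⟩ := v1 f U W a b hfo
  obtain ⟨q, hq0, hq1, κ, hκ0, hκ1, hint⟩ := v2 U a b (max C 1) l M ρ0
    (fun x hx => ((hC x hx).1).trans (le_max_left _ _)) (lt_max_of_lt_right one_pos) hl hM hρ0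
  set P : Finset E := (Finset.range k).image fun j => f.map^[j] p with hP
  have horbA : ∀ n, f.map^[n] p ∈ A := by
    intro n
    induction n with
    | zero => exact hpU.1
    | succ n ih => rw [Function.iterate_succ_apply']; exact htA' _ ih _ (near_self hσA.le _)
  have hstepB : ∀ n j, f.map^[n] p ∈ B → f.map^[n + j] p ∈ B := by
    intro n j hn
    induction j with
    | zero => exact hn
    | succ j ih =>
      rw [← add_assoc, Function.iterate_succ_apply']
      exact htB' _ ih _ (near_self hσB.le _)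
  have horbB : ∀ n, f.map^[n] p ∉ B := by
    intro n hn
    -- a multiple of the period after `n`
    obtain ⟨j, hj, m', hm'⟩ := PF45.per_iter f hk hpm (k * (n + 1))
    have hper : ∀ i : ℕ, ∃ m'', f.map^[k * i] p = p + zv m'' := by
      intro i
      induction i with
      | zero => exact ⟨0, by rw [CF45.zv_zero, add_zero]; rfl⟩
      | succ i ih =>
        obtain ⟨m1, h1⟩ := ih
        obtain ⟨m2, h2⟩ := PF45.map_iter_add f k m1
        refine ⟨m + m2, ?_⟩
        rw [Nat.mul_succ, Nat.add_comm, Function.iterate_add_apply, h1, h2, hpm, CF45.zv_add]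
        abel
    obtain ⟨m'', h1⟩ := hper (n + 1)
    obtain ⟨i, hi⟩ : ∃ i, k * (n + 1) = (n + i) + 1 := by
      have h2 : n + 1 ≤ k * (n + 1) := Nat.le_mul_of_pos_left _ (by omega)
      exact ⟨k * (n + 1) - n - 1, by omega⟩
    have h3 := hstepB n i hn
    apply hpU.2
    refine htB' _ h3 p ?_
    rw [← Function.iterate_succ_apply' f.map]
    have h4 : f.map^[(n + i).succ] p = p + zv m'' := by rw [← h1, hi]
    rw [h4]
    exact near_unshift (near_self hσB.le _)
  obtain ⟨δP, hδP, hnearP⟩ := near_image f P hσB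
  have hPU : ∀ p' ∈ P, ∀ z, Near (min σA δP) z p' → z ∈ U := by
    intro p' hp' z hz
    obtain ⟨j, hj, hjp⟩ := Finset.mem_image.1 hp'
    refine ⟨?_, ?_⟩
    · have hz' : Near σA z (f.map^[j] p) := by
        have h0 := near_mono (min_le_left _ _) hz
        rwa [← hjp] at h0
      rcases Nat.eq_zero_or_pos j with rfl | hj0
      · have h1 : Near σA z (f.map^[k] p) := by
          rw [hpm]; exact near_unshift hz'
        obtain ⟨k', rfl⟩ : ∃ k', k = k' + 1 := ⟨k - 1, by omega⟩
        rw [Function.iterate_succ_apply'] at h1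
        exact htA' _ (horbA k') _ h1
      · obtain ⟨j', rfl⟩ : ∃ j', j = j' + 1 := ⟨j - 1, by omega⟩
        rw [Function.iterate_succ_apply'] at hz'
        exact htA' _ (horbA j') _ hz'
    · intro hzB
      have h1 := hnearP p' hp' z (near_mono (min_le_right _ _) hz)
      have h2 : f.map p' ∈ B := htB' z hzB _ h1
      rw [← hjp, ← Function.iterate_succ_apply' f.map] at h2
      exact horbB _ h2
  obtain ⟨s0, hs0, hsep⟩ := P2.sep P
  set ρ : ℝ := min ρ0 (s0 / 4) with hρdef
  have hρ : 0 < ρ := lt_min hρ0 (by linarith)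
  have hM0 : 0 < M := by linarith
  set r : ℝ := min (min (ρ / (2 * M)) (s0 / 8)) (min σA δP) with hrdef
  have hr : 0 < r := lt_min (lt_min (by positivity) (by linarith)) (lt_min hσA hδP)
  have hr1 : r ≤ ρ / (2 * M) := (min_le_left _ _).trans (min_le_left _ _)
  have hr2 : r ≤ s0 / 8 := (min_le_left _ _).trans (min_le_right _ _)
  have hr3 : r ≤ min σA δP := min_le_right _ _
  have hρs : ρ ≤ s0 / 4 := min_le_right _ _
  have hMr : M * (2 * r) ≤ ρ := by
    have h1 : r * (2 * M) ≤ ρ := by rwa [le_div_iff₀ (by positivity)] at hr1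
    linarith
  set T : Set E := {w | ∃ p ∈ P, Near r w p} with hTdef
  have hTmeas : MeasurableSet T := P2.near_measP r P
  have hT : ∀ z ∈ T, ∀ w ∈ T, ‖z - w‖ ≤ ρ → M * ‖z - w‖ ≤ ρ := by
    intro z hz w hw hzw
    have h1 : ‖z - w‖ ≤ 2 * r := P2.same_translate (by linarith) hsep hz hw hzw
    exact (mul_le_mul_of_nonneg_left h1 hM0.le).trans hMr
  have hTU : T ⊆ U := by
    rintro z ⟨p', hp', hz⟩
    exact hPU p' hp' z (near_mono hr3 hz)
  obtain ⟨g, hclose, x', hfol, D, hD, hDpos, hst⟩ := hplu p hpL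
    (min (min ε1 (r / 2)) (min σA σB)) (lt_min (lt_min hε1 (by linarith)) (lt_min hσA hσB))
  have hcl : C1Close ε1 f g := fun x =>
    ⟨near_mono ((min_le_left _ _).trans (min_le_left _ _)) (hclose x).1,
      (hclose x).2.trans ((min_le_left _ _).trans (min_le_left _ _))⟩
  have hgl := hloc g hcl
  have hgA : ∀ x ∈ A, ∀ n, g.map^[n] x ∈ A := fun x hx n =>
    inv_close htA' ((min_le_right _ _).trans (min_le_left _ _)) hclose hx n
  have hgB : ∀ x ∈ B, ∀ n, g.map^[n] x ∈ B := fun x hx n =>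
    inv_close htB' ((min_le_right _ _).trans (min_le_right _ _)) hclose hx n
  have hnear : ∀ n, ∃ p' ∈ P, Near (r / 2) (g.map^[n] x') p' := by
    intro n
    obtain ⟨j, hj, m', hm'⟩ := PF45.per_iter f hk hpm n
    have h1 := (hfol n).1
    rw [hm'] at h1
    exact ⟨f.map^[j] p, Finset.mem_image_of_mem _ (Finset.mem_range.2 hj),
      near_mono ((min_le_left _ _).trans (min_le_right _ _)) (near_shift h1)⟩
  have hfreqD : ∀ y ∈ D, ∀ η > 0, ∃ N : ℕ, ∀ n ≥ N, (outsP g P r n y : ℝ) ≤ η * n :=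
    fun y hy => c3 g P x' y r hr hnear (hst y hy)
  -- the orbits of the points of `D` visit `T` infinitely often
  have hvisit : ∀ y ∈ D, ∀ j, ∃ i ≥ j, g.map^[i] y ∈ T := by
    intro y hy j
    obtain ⟨N, hN⟩ := hfreqD y hy (1 / 2) (by norm_num)
    by_contra hcon
    push Not at hcon
    have h1 : ∀ n, n ≤ outsP g P r (j + n) y := by
      intro n
      unfold outsP
      rw [Finset.sum_range_add]
      have h2 : ∑ x ∈ Finset.range n, Set.indicator {w | ¬ ∃ p ∈ P, Near r w p}
          (fun _ => (1 : ℕ)) (g.map^[j + x] y) = ∑ x ∈ Finset.range n, 1 := by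
        refine Finset.sum_congr rfl fun i _ => ?_
        rw [Set.indicator_of_mem]
        intro h2
        exact hcon (j + i) (by omega) h2
      rw [h2]
      simp
    have h2 := hN (j + (N + j + 1)) (by omega)
    have h3 : ((N + j + 1 : ℕ) : ℝ) ≤ outsP g P r (j + (N + j + 1)) y := by
      exact_mod_cast h1 (N + j + 1)
    push_cast at h2 h3
    have h4 : (0 : ℝ) ≤ N := Nat.cast_nonneg N
    have h5 : (0 : ℝ) ≤ j := Nat.cast_nonneg j
    linarith
  have hstay : ∀ y ∈ D, ∃ j, ∀ i, g.map^[i + j] y ∈ U := by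
    intro y hy
    obtain ⟨j, -, hj⟩ := hvisit y hy 0
    refine ⟨j, fun i => ⟨?_, ?_⟩⟩
    · rw [Function.iterate_add_apply]
      exact hgA _ (hTU hj).1 i
    · intro hB
      obtain ⟨i', hi', h1⟩ := hvisit y hy (i + j)
      obtain ⟨e, rfl⟩ : ∃ e, i' = e + (i + j) := ⟨i' - (i + j), by omega⟩
      rw [Function.iterate_add_apply] at h1
      exact (hTU h1).2 (hgB _ hB e)
  have hDjm : ∀ j, MeasurableSet (D ∩ ⋂ i : ℕ, g.map^[i + j] ⁻¹' U) := fun j =>
    hD.inter (MeasurableSet.iInter fun i =>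
      (g.contDiff_map.continuous.iterate (i + j)).measurable hU.measurableSet)
  have hexj : ∃ j, 0 < volume (D ∩ ⋂ i : ℕ, g.map^[i + j] ⁻¹' U) := by
    by_contra hcon
    push Not at hcon
    have : volume D = 0 := by
      refine measure_mono_null (t := ⋃ j, (D ∩ ⋂ i : ℕ, g.map^[i + j] ⁻¹' U)) ?_
        (measure_iUnion_null fun j => le_antisymm (hcon j) bot_le)
      intro y hy
      obtain ⟨j, hj⟩ := hstay y hy
      exact Set.mem_iUnion.2 ⟨j, hy, Set.mem_iInter.2 hj⟩
    exact hDpos.ne' this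
  obtain ⟨j, hj⟩ := hexj
  set Dj : Set E := D ∩ ⋂ i : ℕ, g.map^[i + j] ⁻¹' U with hDj
  have hDjmeas : MeasurableSet Dj := hDjm j
  set D' : Set E := g.map^[j] '' Dj with hD'
  have himg : D' = g.inv^[j] ⁻¹' Dj := by
    ext z
    constructor
    · rintro ⟨w, hw, rfl⟩
      show g.inv^[j] (g.map^[j] w) ∈ Dj
      rwa [inv_map_iter]
    · intro hz
      exact ⟨g.inv^[j] z, hz, map_inv_iter g j z⟩
  have hD'meas : MeasurableSet D' := by
    rw [himg]
    exact (diff_inv_iter g j).continuous.measurable hDjmeas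
  have hD'pos : 0 < volume D' := by
    rw [pos_iff_ne_zero]
    intro h0
    have h1 := addHaar_image_eq_zero_of_differentiableOn_of_addHaar_eq_zero volume
      (f := g.inv^[j]) (s := D') (diff_inv_iter g j).differentiableOn h0
    have h2 : g.inv^[j] '' D' = Dj := by
      rw [hD', Set.image_image]
      simp only [inv_map_iter, Set.image_id']
    rw [h2] at h1
    exact hj.ne' h1
  have hD'U : ∀ z ∈ D', ∀ i, g.map^[i] z ∈ U := by
    rintro z ⟨w, hw, rfl⟩ i
    rw [← Function.iterate_add_apply]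
    exact Set.mem_iInter.1 hw.2 i
  have hfreqD' : ∀ y ∈ D', ∀ η > 0, ∃ N : ℕ, ∀ n ≥ N, (outsP g P r n y : ℝ) ≤ η * n := by
    rintro z ⟨y, hy, rfl⟩ η hη
    obtain ⟨N, hN⟩ := hfreqD y hy.1 (η / 2) (by linarith)
    refine ⟨max N j, fun n hn => ?_⟩
    have h1 := hN (n + j) (((le_max_left _ _).trans hn).trans (Nat.le_add_right _ _))
    have h2 : (outsP g P r n (g.map^[j] y) : ℝ) ≤ outsP g P r (n + j) y := by
      exact_mod_cast outs_shift g P r n j y
    have h3 : (j : ℝ) ≤ n := by exact_mod_cast (le_max_right _ _).trans hn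
    push_cast at h1
    nlinarith
  -- a good set
  have hlq : Real.log q < 0 := Real.log_neg hq0 hq1
  have hlκ : Real.log κ < 0 := Real.log_neg hκ0 hκ1
  set η : ℝ := Real.log κ / (2 * Real.log q) with hη
  have hηpos : 0 < η := div_pos_of_neg_of_neg hlκ (by linarith)
  set DN : ℕ → Set E := fun N => D' ∩ ⋂ n : ℕ, ⋂ _ : N ≤ n, {y | (outsP g P r n y : ℝ) ≤ η * n}
    with hDN
  have hmeas : ∀ N, MeasurableSet (DN N) := by
    intro N
    refine hD'meas.inter (MeasurableSet.iInter fun n => MeasurableSet.iInter fun _ => ?_)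
    have h1 : Measurable fun y : E => ((outsP g P r n y : ℕ) : ℝ) :=
      (measurable_from_top (f := fun k : ℕ => (k : ℝ))).comp (p5_4 g P r n)
    exact measurableSet_le h1 measurable_const
  have hcov : D' ⊆ ⋃ N, DN N := by
    intro y hy
    obtain ⟨N, hN⟩ := hfreqD' y hy η hηpos
    rw [Set.mem_iUnion]
    refine ⟨N, hy, ?_⟩
    simp only [Set.mem_iInter]
    intro n hn
    exact hN n hn
  have hex : ∃ N, 0 < volume (DN N) := by
    by_contra hcon
    push Not at hcon
    have : volume D' = 0 := measure_mono_null hcov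
      (measure_iUnion_null fun N => le_antisymm (hcon N) bot_le)
    exact hD'pos.ne' this
  obtain ⟨N, hN⟩ := hex
  obtain ⟨y, v, Λ, hΛ, I, hI, hIU, hpair, hvol⟩ := v4 f U a b hU hfield ρ hρ (DN N)
    (fun z hz => hD'U z hz.1 0) (hmeas N) hN
  have hγ : Continuous fun t : ℝ => y + t • v := by fun_prop
  have hT'm : MeasurableSet {t : ℝ | t ∈ I ∧ y + t • v ∈ DN N} :=
    hI.inter (hγ.measurable (hmeas N))
  refine endgame (fun n t => outsP g P r n (y + t • v)) (I := {t : ℝ | t ∈ I ∧ y + t • v ∈ DN N})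
    (T := {t : ℝ | t ∈ I ∧ y + t • v ∈ DN N}) (fun t ht => ht)
    hT'm hvol hq0 hq1 hκ0 hκ1
    (K := 2 * (max C 1 * ρ / Λ)) (fun n => ?_) (N := N) ?_
  · exact hint ρ hρ (min_le_left _ _) g hgl (fun _ => T) (fun _ => hTmeas) (fun _ => hT)
      (fun t => y + t • v) hγ Λ hΛ _ hT'm (fun t ht j => hD'U _ ht.2.1 j)
      (fun s hs t ht => hpair s hs.1 t ht.1) n
  · intro n hn t ht
    have h2 := ht.2.2
    simp only [Set.mem_iInter] at h2
    exact h2 n hn

end Fil

end Pool.Agent.Lib.Plu
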