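import Pool.Agent.Lib.MP_c44407_an.Fil10
import Pool.Agent.Lib.MP_c44407_an.VS40

/-! Expanding cone fields over a filtration block: no strong pluripotency. -/

open MeasureTheory Filter

namespace Pool.Agent.Lib.Plu

namespace Fil

open Var CF45 VS40

/-- Row WS. -/
theorem ws40 (hW1 : StW1) (hW2 : StW2) (hV4 : StV4) : StWS := by
  intro f A B W a b L hA hB hTA hTB hF hx hplu
  set U : Set E := A \ B with hUd
  have hU : IsOpen U := hA.sdiff hB
  have hE : ExpandingField f U a b := hF.2.2.2.2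
  obtain ⟨x, hxL, σ, hσ, hxσ⟩ := hx
  obtain ⟨ε0, hε0, ρ₀, hρ₀, l, hl, M, hM, hg⟩ := hW1 f U W a b hF
  obtain ⟨σA, hσA, hTA⟩ := hTA
  obtain ⟨σB, hσB, hTB⟩ := hTB
  obtain ⟨C, hC⟩ := hE.2.2.1
  obtain ⟨q, hq0, hq1, κ, hκ0, hκ1, hV⟩ := hW2 U a b (max C 1) l M ρ₀
    (fun x hx => ((hC x hx).1).trans (le_max_left _ _))
    (lt_of_lt_of_le one_pos (le_max_right _ _)) hl hM hρ₀
  set ρ : ℝ := min ρ₀ (1 / 4) with hρd
  have hρ : 0 < ρ := lt_min hρ₀ (by norm_num)
  have hρ4 : ρ ≤ 1 / 4 := min_le_right _ _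
  set r : ℝ := min (1 / 8) (ρ / (2 * M)) with hrd
  have hM0 : 0 < M := by linarith
  have hr : 0 < r := lt_min (by norm_num) (by positivity)
  have hr8 : r ≤ 1 / 8 := min_le_left _ _
  have hrM : M * (2 * r) ≤ ρ := by
    have h1 : r ≤ ρ / (2 * M) := min_le_right _ _
    rw [le_div_iff₀ (by positivity)] at h1
    linarith
  set ε : ℝ := min (min ε0 (σ / 2)) (min σA σB) with hεd
  have hε : 0 < ε := lt_min (lt_min hε0 (by linarith)) (lt_min hσA hσB)
  have hεε0 : ε ≤ ε0 := (min_le_left _ _).trans (min_le_left _ _)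
  have hεσ : ε ≤ σ / 2 := (min_le_left _ _).trans (min_le_right _ _)
  have hεA : ε ≤ σA := (min_le_right _ _).trans (min_le_left _ _)
  have hεB : ε ≤ σB := (min_le_right _ _).trans (min_le_right _ _)
  obtain ⟨g, hclose, x', hfol, D, hD, hDpos, δ, hδ, hlim⟩ := hplu x hxL ε hε
  have hcl : C1Close ε0 f g := fun x =>
    ⟨near_mono hεε0 (hclose x).1, (hclose x).2.trans hεε0⟩
  have hLC := hg g hcl
  have hgA : ∀ z ∈ A, g.map z ∈ A := fun z hz => hTA z hz _ (near_mono hεA (hclose z).1)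
  have hgB : ∀ z ∈ B, g.map z ∈ B := fun z hz => hTB z hz _ (near_mono hεB (hclose z).1)
  have hgAn : ∀ (n : ℕ), ∀ z ∈ A, g.map^[n] z ∈ A := by
    intro n
    induction n with
    | zero => exact fun z hz => hz
    | succ n ih => exact fun z hz => by rw [Function.iterate_succ_apply']; exact hgA _ (ih z hz)
  have hgBn : ∀ (n : ℕ), ∀ z ∈ B, g.map^[n] z ∈ B := by
    intro n
    induction n with
    | zero => exact fun z hz => hz
    | succ n ih => exact fun z hz => by rw [Function.iterate_succ_apply']; exact hgB _ (ih z hz)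
  obtain ⟨y0, hy0⟩ : D.Nonempty := nonempty_of_measure_ne_zero hDpos.ne'
  have hδ0 : ∀ i, 0 ≤ δ i := by
    intro i
    obtain ⟨m, hm⟩ := hδ i y0 hy0
    exact (norm_nonneg _).trans hm
  -- infinitely many times at which `D` is close to the orbit
  have hinf : ∀ N : ℕ, ∃ j, N ≤ j ∧ δ j ≤ σ / 2 := by
    intro N
    by_contra hno
    push Not at hno
    obtain ⟨N1, hN1⟩ := eventually_atTop.1
      (hlim.eventually (gt_mem_nhds (show (0 : ℝ) < σ / 4 by linarith)))
    have h1 := hN1 (N + (N + N1 + 1)) (by omega)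
    have hpos : (0 : ℝ) < ((N + (N + N1 + 1) : ℕ) : ℝ) := by
      have : 0 < N + (N + N1 + 1) := by omega
      exact_mod_cast this
    rw [div_lt_iff₀ hpos, Finset.sum_range_add] at h1
    have h0 : 0 ≤ ∑ i ∈ Finset.range N, δ i := Finset.sum_nonneg fun i _ => hδ0 i
    have h2 : ∑ i ∈ Finset.range (N + N1 + 1), σ / 2 ≤
        ∑ i ∈ Finset.range (N + N1 + 1), δ (N + i) :=
      Finset.sum_le_sum fun i _ => (hno (N + i) (by omega)).le
    rw [Finset.sum_const, Finset.card_range, nsmul_eq_mul] at h2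
    push_cast at h1 h2
    have h4 : (0 : ℝ) ≤ N := Nat.cast_nonneg N
    have h5 : (0 : ℝ) ≤ N1 := Nat.cast_nonneg N1
    nlinarith
  have hclosej : ∀ j, δ j ≤ σ / 2 → ∀ y ∈ D, g.map^[j] y ∈ U := by
    intro j hj y hy
    have h3 := near_trans' (near_mono hj (hδ j y hy)) (near_mono hεσ (hfol j).1)
    exact hxσ j _ (by simpa using h3)
  obtain ⟨j, -, hj⟩ := hinf 0
  -- from this time on the orbits of the points of `D` stay in the block
  have hstay : ∀ y ∈ D, ∀ n, g.map^[n] (g.map^[j] y) ∈ U := by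
    intro y hy n
    refine ⟨hgAn n _ (hclosej j hj y hy).1, fun hBn => ?_⟩
    obtain ⟨i, hi, hi'⟩ := hinf (n + j)
    have h1 := hclosej i hi' y hy
    obtain ⟨m, rfl⟩ := Nat.exists_eq_add_of_le hi
    refine h1.2 ?_
    have h2 := hgBn m _ hBn
    have e : g.map^[m] (g.map^[n] (g.map^[j] y)) = g.map^[n + j + m] y := by
      rw [← Function.iterate_add_apply, ← Function.iterate_add_apply]
      congr 1
      omega
    rwa [e] at h2
  set D' : Set E := g.map^[j] '' D with hD'
  obtain ⟨hD'm, hD'pos⟩ := image_pos g j hD hDpos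
  have hD'U : D' ⊆ U := by
    rintro _ ⟨y, hy, rfl⟩
    exact hclosej j hj y hy
  set x'' : E := g.map^[j] x' with hx''
  set T : ℕ → Set E := fun i => {w | Near r w (g.map^[i] x'')} with hTd
  have hTm : ∀ i, MeasurableSet (T i) := fun i => near_meas4 _ r
  have hTsep : ∀ i, ∀ z ∈ T i, ∀ w ∈ T i, ‖z - w‖ ≤ ρ → M * ‖z - w‖ ≤ ρ := by
    intro i z hz w hw hzw
    have h1 := CC2.same_translate (r := r) (d := ρ) (by linarith) hz hw hzw
    exact (mul_le_mul_of_nonneg_left h1 hM0.le).trans hrM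
  have hfreq : ∀ η > 0, ∃ N : ℕ, ∀ n ≥ N, ∀ z ∈ D', (outsT g T n z : ℝ) ≤ η * n := by
    intro η hη
    have hηr : 0 < η * r / 2 := by positivity
    obtain ⟨N, hN⟩ := eventually_atTop.1 (hlim.eventually (gt_mem_nhds hηr))
    refine ⟨max N (j + 1), fun n hn z hz => ?_⟩
    obtain ⟨y, hy, rfl⟩ := hz
    have hnN : N ≤ n := le_of_max_le_left hn
    have hnj : j + 1 ≤ n := le_of_max_le_right hn
    have h1 := hN (j + n) (by omega)
    have hpos : (0 : ℝ) < ((j + n : ℕ) : ℝ) := by
      have : 0 < j + n := by omega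
      exact_mod_cast this
    rw [div_lt_iff₀ hpos, Finset.sum_range_add] at h1
    have h0 : 0 ≤ ∑ i ∈ Finset.range j, δ i := Finset.sum_nonneg fun i _ => hδ0 i
    have h2 : (outsT g T n (g.map^[j] y) : ℝ) * r ≤
        ∑ i ∈ Finset.range n, δ (j + i) := by
      unfold outsT
      push_cast
      rw [Finset.sum_mul]
      refine Finset.sum_le_sum fun i _ => ?_
      have h3 := hδ (j + i) y hy
      have e1 : g.map^[i] (g.map^[j] y) = g.map^[j + i] y := by
        rw [← Function.iterate_add_apply, add_comm]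
      have e2 : g.map^[i] x'' = g.map^[j + i] x' := by
        rw [hx'', ← Function.iterate_add_apply, add_comm]
      by_cases hnr : g.map^[i] (g.map^[j] y) ∈ T i
      · rw [Set.indicator_of_notMem (by exact fun h => h hnr)]
        simpa using hδ0 (j + i)
      · rw [Set.indicator_of_mem (show g.map^[i] (g.map^[j] y) ∈ (T i)ᶜ from hnr)]
        have : r < δ (j + i) := by
          by_contra hle
          refine hnr ?_
          show Near r _ (g.map^[i] x'')
          rw [e1, e2]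
          exact near_mono (not_lt.1 hle) h3
        simpa using this.le
    have h4 : ((j + n : ℕ) : ℝ) ≤ 2 * n := by
      have : j + n ≤ 2 * n := by omega
      exact_mod_cast this
    have h5 : η * r / 2 * ((j + n : ℕ) : ℝ) ≤ η * r / 2 * (2 * n) :=
      mul_le_mul_of_nonneg_left h4 hηr.le
    have h6 : (outsT g T n (g.map^[j] y) : ℝ) * r ≤ (η * n) * r := by linarith
    exact le_of_mul_le_mul_right h6 hr
  obtain ⟨y, v, Λ, hΛ, I, hI, hIU, hIpair, hIpos⟩ := hV4 f U a b hU hE ρ hρ D' hD'U hD'm hD'pos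
  have hcont : Continuous fun t : ℝ => y + t • v := by fun_prop
  set I' : Set ℝ := {t : ℝ | t ∈ I ∧ y + t • v ∈ D'} with hI'd
  have hI'm : MeasurableSet I' := hI.inter (hcont.measurable hD'm)
  have hint := hV ρ hρ (min_le_left _ _) g hLC T hTm hTsep (fun t => y + t • v) hcont
    Λ hΛ I' hI'm (fun t ht i => by
      obtain ⟨z, hz, hz'⟩ := ht.2
      show g.map^[i] (y + t • v) ∈ U
      rw [← hz']
      exact hstay z hz i) (fun s hs t ht => hIpair s hs.1 t ht.1)
  have hTfin : volume I' < ⊤ := by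
    have h0 := hint 0
    have e : ∀ t : ℝ, ENNReal.ofReal (q ^ outsT g T 0 (y + t • v)) = 1 := by
      intro t; simp [outsT]
    simp only [e] at h0
    rw [setLIntegral_const, one_mul] at h0
    exact lt_of_le_of_lt h0 ENNReal.ofReal_lt_top
  exact endgame (fun n t => outsT g T n (y + t • v)) (Set.Subset.refl I') hI'm hTfin hIpos
    hq0 hq1 hκ0 hκ1 hint (fun η hη => by
      obtain ⟨N, hN⟩ := hfreq η hη
      exact ⟨N, fun n hn t ht => hN n hn _ ht.2⟩)

end Fil

end Pool.Agent.Lib.Plu
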